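import Pool.Agent.Lib.MP_1c0d65_gt.PW.Defs

/-! Plots: chain rules, charts, smoothness of pull-backs, holomorphic curves in a chart. -/

set_option autoImplicit false
set_option linter.unusedSectionVars false

open scoped Manifold ContDiff Topology
open Set Filter

noncomputable section

namespace Pool.Agent.Lib.MP_1c0d65_gt.PW

variable {X : Type} [TopologicalSpace X] [ChartedSpace E X]
  {V V' W : Type} [NormedAddCommGroup V] [NormedSpace ℝ V] [NormedAddCommGroup V']
  [NormedSpace ℝ V'] [NormedAddCommGroup W] [NormedSpace ℝ W]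

/-- A plot that is `C^n` at a point. -/
abbrev SmAt (n : WithTop ℕ∞) (f : V → X) (y : V) : Prop := ContMDiffAt 𝓘(ℝ, V) 𝓘(ℝ, E) n f y

/-- A plot that is differentiable at a point. -/
abbrev DfAt (f : V → X) (y : V) : Prop := MDifferentiableAt 𝓘(ℝ, V) 𝓘(ℝ, E) f y

/-- A function on `X` that is `C^n` at a point. -/
abbrev FnAt (n : WithTop ℕ∞) (g : X → W) (p : X) : Prop := ContMDiffAt 𝓘(ℝ, E) 𝓘(ℝ, W) n g p

/-- `a` is a smooth one-form on `U`. -/
def Sm1 (U : Set X) (a : X → E →L[ℝ] W) : Prop := ∀ x, ContDiffOn ℝ ∞ (pull1 (par x) a) (dom x U)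

/-- A smooth chart, not necessarily a preferred one. -/
structure IsChart (e : OpenPartialHomeomorph X E) : Prop where
  sm : ContMDiffOn 𝓘(ℝ, E) 𝓘(ℝ, E) ∞ e e.source
  sm' : ContMDiffOn 𝓘(ℝ, E) 𝓘(ℝ, E) ∞ e.symm e.target

/-! ### Chain rules -/

@[simp] theorem pull1_apply (f : V → X) (a : X → E →L[ℝ] W) (y v : V) :
    pull1 f a y v = a (f y) (dif f y v) := rfl

@[simp] theorem pull2_apply (f : V → X) (α : X → Bil E W) (y v w : V) :
    pull2 f α y v w = α (f y) (dif f y v) (dif f y w) := rfl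

theorem pullJ_apply (f : E → X) (J : X → E →L[ℝ] E) (y v : E) :
    pullJ f J y v = (dif f y).inverse (J (f y) (dif f y v)) := rfl

theorem dif_congr {f g : V → X} {y : V} (h : f =ᶠ[𝓝 y] g) : dif f y = dif g y :=
  h.mfderiv_eq

theorem dfn_congr {g g' : X → W} {p : X} (h : g =ᶠ[𝓝 p] g') : dfn g p = dfn g' p :=
  h.mfderiv_eq

theorem pull1_congr {f g : V → X} {y : V} (h : f =ᶠ[𝓝 y] g) (a : X → E →L[ℝ] W) :
    pull1 f a =ᶠ[𝓝 y] pull1 g a := by
  filter_upwards [h.eventuallyEq_nhds] with z hz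
  rw [pull1, pull1, dif_congr hz, hz.eq_of_nhds]

theorem pull2_congr {f g : V → X} {y : V} (h : f =ᶠ[𝓝 y] g) (α : X → Bil E W) :
    pull2 f α =ᶠ[𝓝 y] pull2 g α := by
  filter_upwards [h.eventuallyEq_nhds] with z hz
  rw [pull2, pull2, dif_congr hz, hz.eq_of_nhds]

theorem pullJ_congr {f g : E → X} {y : E} (h : f =ᶠ[𝓝 y] g) (J : X → E →L[ℝ] E) :
    pullJ f J =ᶠ[𝓝 y] pullJ g J := by
  filter_upwards [h.eventuallyEq_nhds] with z hz
  rw [pullJ, pullJ, dif_congr hz, hz.eq_of_nhds]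

theorem dif_comp {f : V → X} {g : V' → V} {y : V'} (hf : DfAt f (g y))
    (hg : DifferentiableAt ℝ g y) : dif (f ∘ g) y = (dif f (g y)).comp (fderiv ℝ g y) := by
  have h := mfderiv_comp y hf (mdifferentiableAt_iff_differentiableAt.2 hg)
  rw [mfderiv_eq_fderiv] at h
  exact h

theorem fderiv_fn_comp {g : X → W} {f : V → X} {y : V}
    (hg : MDifferentiableAt 𝓘(ℝ, E) 𝓘(ℝ, W) g (f y)) (hf : DfAt f y) :
    fderiv ℝ (g ∘ f) y = (dfn g (f y)).comp (dif f y) := by
  have h := mfderiv_comp y hg hf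
  rw [mfderiv_eq_fderiv] at h
  exact h

theorem dfn_comp {h : W → V} {g : X → W} {p : X} (hh : DifferentiableAt ℝ h (g p))
    (hg : MDifferentiableAt 𝓘(ℝ, E) 𝓘(ℝ, W) g p) :
    dfn (h ∘ g) p = (fderiv ℝ h (g p)).comp (dfn g p) := by
  have e := mfderiv_comp p (mdifferentiableAt_iff_differentiableAt.2 hh) hg
  rw [mfderiv_eq_fderiv] at e
  exact e

theorem pull1_dfn {g : X → W} {f : V → X} {y : V}
    (hg : MDifferentiableAt 𝓘(ℝ, E) 𝓘(ℝ, W) g (f y)) (hf : DfAt f y) :
    pull1 f (dfn g) y = fderiv ℝ (g ∘ f) y := (fderiv_fn_comp hg hf).symm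

theorem pull1_comp {f : V → X} {g : V' → V} {y : V'} (hf : DfAt f (g y))
    (hg : DifferentiableAt ℝ g y) (a : X → E →L[ℝ] W) :
    pull1 (f ∘ g) a y = (pull1 f a (g y)).comp (fderiv ℝ g y) := by
  rw [pull1, dif_comp hf hg]; rfl

theorem pull2_comp {f : V → X} {g : V' → V} {y : V'} (hf : DfAt f (g y))
    (hg : DifferentiableAt ℝ g y) (α : X → Bil E W) :
    pull2 (f ∘ g) α y = (pull2 f α (g y)).bilinearComp (fderiv ℝ g y) (fderiv ℝ g y) := by
  rw [pull2, dif_comp hf hg]; rfl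

theorem dif_pullJ {f : E → X} {y : E} (hi : (dif f y).IsInvertible) (J : X → E →L[ℝ] E) (v : E) :
    dif f y (pullJ f J y v) = J (f y) (dif f y v) := by
  rw [pullJ_apply, hi.self_apply_inverse]

theorem pullJ_comp {f : E → X} {g : E → E} {y : E} (hf : DfAt f (g y))
    (hg : DifferentiableAt ℝ g y) (hi : (dif f (g y)).IsInvertible) (J : X → E →L[ℝ] E) :
    pullJ (f ∘ g) J y =
      (fderiv ℝ g y).inverse.comp ((pullJ f J (g y)).comp (fderiv ℝ g y)) := by
  rw [pullJ, dif_comp hf hg, hi.inverse_comp_of_left]; rfl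

/-- `pullJ` is an algebra isomorphism applied to the value of the field. -/
theorem pullJ_conj {f : E → X} {y : E} (D : E ≃L[ℝ] E) (h : dif f y = D) (J : X → E →L[ℝ] E) :
    pullJ f J y = D.symm.conjContinuousAlgEquiv (J (f y)) := by
  rw [pullJ, h, ContinuousLinearMap.inverse_equiv]; rfl

theorem SmAt.dfAt {n : WithTop ℕ∞} {f : V → X} {y : V} (h : SmAt n f y) (hn : n ≠ 0) : DfAt f y :=
  h.mdifferentiableAt hn

theorem SmAt.comp {n : WithTop ℕ∞} {f : V → X} {g : V' → V} {y : V'} (hf : SmAt n f (g y))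
    (hg : ContDiffAt ℝ n g y) : SmAt n (f ∘ g) y :=
  ContMDiffAt.comp y hf hg.contMDiffAt

theorem FnAt.comp_plot {n : WithTop ℕ∞} {g : X → W} {f : V → X} {y : V} (hg : FnAt n g (f y))
    (hf : SmAt n f y) : ContDiffAt ℝ n (g ∘ f) y :=
  (ContMDiffAt.comp y hg hf).contDiffAt

/-! ### Smoothness of bilinear pull-backs on vector spaces -/

theorem contDiffAt_bilComp {P : Type} [NormedAddCommGroup P] [NormedSpace ℝ P] {n : WithTop ℕ∞}
    {B : P → Bil V W} {S T : P → V' →L[ℝ] V} {y : P} (hB : ContDiffAt ℝ n B y)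
    (hS : ContDiffAt ℝ n S y) (hT : ContDiffAt ℝ n T y) :
    ContDiffAt ℝ n (fun z => ((B z).bilinearComp (S z) (T z) : Bil V' W)) y := by
  have h1 : ContDiffAt ℝ n (fun z => (ContinuousLinearMap.compL ℝ V' V W).flip (T z)) y :=
    contDiffAt_const.clm_apply hT
  exact h1.clm_comp (hB.clm_comp hS)

/-! ### Charts -/

theorem isOpen_dom (x : X) {U : Set X} (hU : IsOpen U) : IsOpen (dom x U) :=
  (chartAt E x).isOpen_inter_preimage_symm hU

theorem dom_univ (x : X) : dom x univ = (chartAt E x).target := by simp [dom]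

theorem dom_mono (x : X) {U U' : Set X} (h : U ⊆ U') : dom x U ⊆ dom x U' :=
  fun _ hy => ⟨hy.1, h hy.2⟩

theorem par_cht {x p : X} (h : p ∈ (chartAt E x).source) : par x (chartAt E x p) = p :=
  (chartAt E x).left_inv h

theorem cht_par {x : X} {y : E} (h : y ∈ (chartAt E x).target) : chartAt E x (par x y) = y :=
  (chartAt E x).right_inv h

theorem par_self (x : X) : par x (chartAt E x x) = x := par_cht (mem_chart_source E x)

theorem mem_dom {x p : X} {U : Set X} (h : p ∈ (chartAt E x).source) (hp : p ∈ U) :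
    chartAt E x p ∈ dom x U :=
  ⟨(chartAt E x).map_source h, by rw [mem_preimage, par_cht h]; exact hp⟩

theorem par_mem_source {x : X} {y : E} {U : Set X} (h : y ∈ dom x U) :
    par x y ∈ (chartAt E x).source := (chartAt E x).map_target h.1

namespace IsChart

variable {e : OpenPartialHomeomorph X E} (he : IsChart e)
include he

theorem fnAt {p : X} (hp : p ∈ e.source) : FnAt ∞ e p :=
  he.sm.contMDiffAt (e.open_source.mem_nhds hp)

theorem smAt {y : E} (hy : y ∈ e.target) : SmAt ∞ e.symm y :=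
  he.sm'.contMDiffAt (e.open_target.mem_nhds hy)

theorem md : e.MDifferentiable 𝓘(ℝ, E) 𝓘(ℝ, E) :=
  ⟨he.sm.mdifferentiableOn (by simp), he.sm'.mdifferentiableOn (by simp)⟩

theorem exists_equiv {y : E} (hy : y ∈ e.target) : ∃ D : E ≃L[ℝ] E, dif e.symm y = D :=
  ⟨he.md.symm.mfderiv hy, rfl⟩

theorem inv {y : E} (hy : y ∈ e.target) : (dif e.symm y).IsInvertible := by
  obtain ⟨D, h⟩ := he.exists_equiv hy
  exact ⟨D, h.symm⟩

theorem dif_dfn {p : X} (hp : p ∈ e.source) (v : E) : dif e.symm (e p) (dfn e p v) = v :=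
  DFunLike.congr_fun (he.md.symm_comp_deriv hp) v

/-- A plot read in the chart. -/
theorem loc {n : WithTop ℕ∞} (hn : n ≤ ∞) {f : V → X} {y : V} (hf : SmAt n f y)
    (hy : f y ∈ e.source) : ContDiffAt ℝ n (e ∘ f) y :=
  FnAt.comp_plot ((he.fnAt hy).of_le hn) hf

theorem loc_diff {f : V → X} {y : V} (hf : DfAt f y) (hy : f y ∈ e.source) :
    DifferentiableAt ℝ (e ∘ f) y :=
  mdifferentiableAt_iff_differentiableAt.1
    (MDifferentiableAt.comp y ((he.fnAt hy).mdifferentiableAt (by simp)) hf)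

omit he in
theorem symm_loc {f : V → X} {y : V} (hf : ContinuousAt f y) (hy : f y ∈ e.source) :
    e.symm ∘ (e ∘ f) =ᶠ[𝓝 y] f := by
  filter_upwards [hf.preimage_mem_nhds (e.open_source.mem_nhds hy)] with z hz
  exact e.left_inv hz

theorem dif_loc {f : V → X} {y : V} (hf : DfAt f y) (hy : f y ∈ e.source) :
    dif f y = (dif e.symm (e (f y))).comp (fderiv ℝ (e ∘ f) y) := by
  rw [← dif_congr (symm_loc hf.continuousAt hy)]
  exact dif_comp ((he.smAt (e.map_source hy)).dfAt (by simp)) (he.loc_diff hf hy)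

theorem pull1_loc {f : V → X} {y : V} (hf : DfAt f y) (hy : f y ∈ e.source) (a : X → E →L[ℝ] W) :
    pull1 f a y = (pull1 e.symm a (e (f y))).comp (fderiv ℝ (e ∘ f) y) := by
  rw [pull1, pull1, he.dif_loc hf hy, e.left_inv hy]; rfl

theorem pull2_loc {f : V → X} {y : V} (hf : DfAt f y) (hy : f y ∈ e.source) (α : X → Bil E W) :
    pull2 f α y = (pull2 e.symm α (e (f y))).bilinearComp (fderiv ℝ (e ∘ f) y)
      (fderiv ℝ (e ∘ f) y) := by
  rw [pull2, pull2, he.dif_loc hf hy, e.left_inv hy]; rfl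

theorem pullJ_loc {f : E → X} {y : E} (hf : DfAt f y) (hy : f y ∈ e.source) (J : X → E →L[ℝ] E) :
    pullJ f J y = (fderiv ℝ (e ∘ f) y).inverse.comp
      ((pullJ e.symm J (e (f y))).comp (fderiv ℝ (e ∘ f) y)) := by
  rw [← (pullJ_congr (symm_loc hf.continuousAt hy) J).eq_of_nhds]
  exact pullJ_comp ((he.smAt (e.map_source hy)).dfAt (by simp)) (he.loc_diff hf hy)
    (he.inv (e.map_source hy)) J

theorem loc_inv {f : E → X} {y : E} (hf : DfAt f y) (hy : f y ∈ e.source) :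
    (fderiv ℝ (e ∘ f) y).IsInvertible ↔ (dif f y).IsInvertible := by
  obtain ⟨D, hD⟩ := he.exists_equiv (e.map_source hy)
  rw [he.dif_loc hf hy, hD]
  simp

/-- The Cauchy-Riemann equation in a chart. -/
theorem cr_iff {f : V → X} {y : V} (hf : DfAt f y) (hy : f y ∈ e.source) (J : X → E →L[ℝ] E)
    (v w : V) : dif f y w = J (f y) (dif f y v) ↔
      fderiv ℝ (e ∘ f) y w = pullJ e.symm J (e (f y)) (fderiv ℝ (e ∘ f) y v) := by
  have hi := he.inv (e.map_source hy)
  have h1 := dif_pullJ hi J (fderiv ℝ (e ∘ f) y v)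
  rw [e.left_inv hy] at h1
  rw [he.dif_loc hf hy, ContinuousLinearMap.comp_apply, ContinuousLinearMap.comp_apply, ← h1]
  exact hi.injective.eq_iff

end IsChart

variable [IsManifold 𝓘(ℝ, E) ∞ X]

theorem isChart_chartAt (x : X) : IsChart (chartAt E x) :=
  ⟨contMDiffOn_chart, contMDiffOn_chart_symm⟩

theorem par_smAt {x : X} {y : E} {U : Set X} (h : y ∈ dom x U) : SmAt ∞ (par x) y :=
  (isChart_chartAt x).smAt h.1

theorem par_inv {x : X} {y : E} {U : Set X} (h : y ∈ dom x U) : (dif (par x) y).IsInvertible :=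
  (isChart_chartAt x).inv h.1

theorem par_equiv {x : X} {y : E} {U : Set X} (h : y ∈ dom x U) :
    ∃ D : E ≃L[ℝ] E, dif (par x) y = D := (isChart_chartAt x).exists_equiv h.1

theorem dfn_chart_self (x : X) (v : E) : dfn (chartAt E x) x v = v := by
  have h := mfderiv_chartAt_eq_tangentCoordChange (I := 𝓘(ℝ, E)) (mem_chart_source E x)
  have h2 : tangentCoordChange 𝓘(ℝ, E) x x x v = v :=
    tangentCoordChange_self (mem_extChartAt_source x)
  exact (DFunLike.congr_fun h v).trans h2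

theorem dif_par_self (x : X) : dif (par x) (chartAt E x x) = ContinuousLinearMap.id ℝ E := by
  refine ContinuousLinearMap.ext fun v => ?_
  have := (isChart_chartAt x).dif_dfn (mem_chart_source E x) v
  rwa [dfn_chart_self] at this

theorem pull1_par_self (x : X) (a : X → E →L[ℝ] W) : pull1 (par x) a (chartAt E x x) = a x := by
  rw [pull1, dif_par_self, par_self]; rfl

theorem pull2_par_self (x : X) (α : X → Bil E W) : pull2 (par x) α (chartAt E x x) = α x := by
  rw [pull2, dif_par_self, par_self]; rfl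

theorem pullJ_par_self (x : X) (J : X → E →L[ℝ] E) : pullJ (par x) J (chartAt E x x) = J x := by
  rw [pullJ, dif_par_self, par_self, ContinuousLinearMap.inverse_id]; rfl

theorem SmAt.ev_dfAt {n : WithTop ℕ∞} {f : V → X} {y : V} (hf : SmAt n f y) (hn : 1 ≤ n) :
    ∀ᶠ z in 𝓝 y, DfAt f z := by
  filter_upwards [(contMDiffAt_iff_contMDiffAt_nhds (by simp)).1 (hf.of_le hn)] with z hz
  exact hz.mdifferentiableAt (by simp)

/-! ### Smoothness along plots -/

section
variable {e : OpenPartialHomeomorph X E} {n m : WithTop ℕ∞}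

theorem IsChart.contDiffAt_pull1 (he : IsChart e) (hm : n + 1 ≤ m) (hm' : m ≤ ∞) {f : V → X}
    {y : V} (hf : SmAt m f y) (hy : f y ∈ e.source) {a : X → E →L[ℝ] W}
    (ha : ContDiffAt ℝ n (pull1 e.symm a) (e (f y))) : ContDiffAt ℝ n (pull1 f a) y := by
  have h1 := he.loc hm' hf hy
  refine ((ha.comp y (h1.of_le (le_self_add.trans hm))).clm_comp (h1.fderiv_right hm)
    ).congr_of_eventuallyEq ?_
  filter_upwards [hf.ev_dfAt (le_add_self.trans hm),
    hf.continuousAt.preimage_mem_nhds (e.open_source.mem_nhds hy)] with z h2 h3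
  exact he.pull1_loc h2 h3 a

theorem IsChart.contDiffAt_pull2 (he : IsChart e) (hm : n + 1 ≤ m) (hm' : m ≤ ∞) {f : V → X}
    {y : V} (hf : SmAt m f y) (hy : f y ∈ e.source) {α : X → Bil E W}
    (ha : ContDiffAt ℝ n (pull2 e.symm α) (e (f y))) : ContDiffAt ℝ n (pull2 f α) y := by
  have h1 := he.loc hm' hf hy
  refine (contDiffAt_bilComp (ha.comp y (h1.of_le (le_self_add.trans hm))) (h1.fderiv_right hm)
    (h1.fderiv_right hm)).congr_of_eventuallyEq ?_
  filter_upwards [hf.ev_dfAt (le_add_self.trans hm),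
    hf.continuousAt.preimage_mem_nhds (e.open_source.mem_nhds hy)] with z h2 h3
  exact he.pull2_loc h2 h3 α

theorem IsChart.contDiffAt_pullJ (he : IsChart e) (hm : n + 1 ≤ m) (hm' : m ≤ ∞) {f : E → X}
    {y : E} (hf : SmAt m f y) (hy : f y ∈ e.source) (hi : (dif f y).IsInvertible)
    {J : X → E →L[ℝ] E} (ha : ContDiffAt ℝ n (pullJ e.symm J) (e (f y))) :
    ContDiffAt ℝ n (pullJ f J) y := by
  have h1 := he.loc hm' hf hy
  have h0 : (1 : WithTop ℕ∞) ≤ m := le_add_self.trans hm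
  have hi' := (he.loc_inv (hf.dfAt (by rintro rfl; simp at h0)) hy).2 hi
  refine (((hi'.contDiffAt_map_inverse (n := n)).comp y (h1.fderiv_right hm)).clm_comp
    ((ha.comp y (h1.of_le (le_self_add.trans hm))).clm_comp (h1.fderiv_right hm))
    ).congr_of_eventuallyEq ?_
  filter_upwards [hf.ev_dfAt h0,
    hf.continuousAt.preimage_mem_nhds (e.open_source.mem_nhds hy)] with z h2 h3
  exact he.pullJ_loc h2 h3 J

variable {U : Set X}

theorem at_of_on {G : E → W} {p : X} (hU : IsOpen U) (hp : p ∈ U)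
    (h : ContDiffOn ℝ ∞ G (dom p U)) : ContDiffAt ℝ ∞ G (chartAt E p p) :=
  h.contDiffAt ((isOpen_dom p hU).mem_nhds (mem_dom (mem_chart_source E p) hp))

theorem Sm1.contDiffAt {a : X → E →L[ℝ] W} (ha : Sm1 U a) (hU : IsOpen U) (hm : n + 1 ≤ m)
    (hm' : m ≤ ∞) {f : V → X} {y : V} (hf : SmAt m f y) (hy : f y ∈ U) :
    ContDiffAt ℝ n (pull1 f a) y :=
  (isChart_chartAt (f y)).contDiffAt_pull1 hm hm' hf (mem_chart_source E _)
    ((at_of_on hU hy (ha _)).of_le ((le_self_add.trans hm).trans hm'))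

theorem Form.contDiffAt {α : X → Bil E W} (ha : Form U α) (hU : IsOpen U) (hm : n + 1 ≤ m)
    (hm' : m ≤ ∞) {f : V → X} {y : V} (hf : SmAt m f y) (hy : f y ∈ U) :
    ContDiffAt ℝ n (pull2 f α) y :=
  (isChart_chartAt (f y)).contDiffAt_pull2 hm hm' hf (mem_chart_source E _)
    ((at_of_on hU hy (ha.2 _)).of_le ((le_self_add.trans hm).trans hm'))

theorem contDiffAt_pullJ {J : X → E →L[ℝ] E} (ha : ∀ x, ContDiffOn ℝ ∞ (pullJ (par x) J) (dom x U))
    (hU : IsOpen U) (hm : n + 1 ≤ m) (hm' : m ≤ ∞) {f : E → X} {y : E} (hf : SmAt m f y)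
    (hy : f y ∈ U) (hi : (dif f y).IsInvertible) : ContDiffAt ℝ n (pullJ f J) y :=
  (isChart_chartAt (f y)).contDiffAt_pullJ hm hm' hf (mem_chart_source E _) hi
    ((at_of_on hU hy (ha _)).of_le ((le_self_add.trans hm).trans hm'))

theorem top_le : (∞ : WithTop ℕ∞) + 1 ≤ ∞ := by simp

theorem Sm1.smooth {a : X → E →L[ℝ] W} (ha : Sm1 U a) (hU : IsOpen U) {f : V → X} {y : V}
    (hf : SmAt ∞ f y) (hy : f y ∈ U) : ContDiffAt ℝ ∞ (pull1 f a) y :=
  ha.contDiffAt hU top_le le_rfl hf hy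

theorem Form.smooth {α : X → Bil E W} (ha : Form U α) (hU : IsOpen U) {f : V → X} {y : V}
    (hf : SmAt ∞ f y) (hy : f y ∈ U) : ContDiffAt ℝ ∞ (pull2 f α) y :=
  ha.contDiffAt hU top_le le_rfl hf hy

theorem Tame.smooth {om : X → Bil E ℝ} {J : X → E →L[ℝ] E} (hJ : Tame U om J) (hU : IsOpen U)
    {f : E → X} {y : E} (hf : SmAt ∞ f y) (hy : f y ∈ U) (hi : (dif f y).IsInvertible) :
    ContDiffAt ℝ ∞ (pullJ f J) y := contDiffAt_pullJ hJ.2 hU top_le le_rfl hf hy hi

/-- Smoothness can be tested in one chart around each point. -/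
theorem sm1_of_local {a : X → E →L[ℝ] W} (h : ∀ p ∈ U, ∃ e : OpenPartialHomeomorph X E,
    IsChart e ∧ p ∈ e.source ∧ ContDiffAt ℝ ∞ (pull1 e.symm a) (e p)) : Sm1 U a := by
  intro x y hy
  obtain ⟨e, he, hp, ha⟩ := h _ hy.2
  exact (he.contDiffAt_pull1 top_le le_rfl (par_smAt hy) hp ha).contDiffWithinAt

theorem form_of_local {α : X → Bil E W} (alt : ∀ x ∈ U, ∀ v, α x v v = 0)
    (h : ∀ p ∈ U, ∃ e : OpenPartialHomeomorph X E,
      IsChart e ∧ p ∈ e.source ∧ ContDiffAt ℝ ∞ (pull2 e.symm α) (e p)) : Form U α := by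
  refine ⟨alt, fun x y hy => ?_⟩
  obtain ⟨e, he, hp, ha⟩ := h _ hy.2
  exact (he.contDiffAt_pull2 top_le le_rfl (par_smAt hy) hp ha).contDiffWithinAt

theorem smJ_of_local {J : X → E →L[ℝ] E} (h : ∀ p ∈ U, ∃ e : OpenPartialHomeomorph X E,
    IsChart e ∧ p ∈ e.source ∧ ContDiffAt ℝ ∞ (pullJ e.symm J) (e p)) (x : X) :
    ContDiffOn ℝ ∞ (pullJ (par x) J) (dom x U) := by
  intro y hy
  obtain ⟨e, he, hp, ha⟩ := h _ hy.2
  exact (he.contDiffAt_pullJ top_le le_rfl (par_smAt hy) hp (par_inv hy) ha).contDiffWithinAt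

end

end Pool.Agent.Lib.MP_1c0d65_gt.PW
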