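import Pool.Agent.Lib.MP_1c0d65_gt.PW.Mon
import Pool.Agent.Lib.MP_1c0d65_gt.A.Rad

/-! Orbifold spheres have finite positive area. -/

set_option autoImplicit false
set_option linter.unusedSectionVars false

open scoped Manifold ContDiff Topology
open Set MeasureTheory Filter Metric Asymptotics

noncomputable section

namespace Pool.Agent.Lib.MP_1c0d65_gt.PW

variable {X : Type} [TopologicalSpace X] [ChartedSpace E X] [IsManifold 𝓘(ℝ, E) ∞ X]
  [T2Space X] [CompactSpace X] [MeasurableSpace X] [BorelSpace X] {c : Ctx X} {O : Orb c}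

theorem OC.dens_meas (C : OC O) {α : X → Bil E ℝ} (h : Form univ α) :
    AEStronglyMeasurable (fun s => pull2 C.u α s 1 .I) volume := by
  have h1 : ContinuousOn (fun s => pull2 C.u α s 1 .I) (C.F : Set ℂ)ᶜ :=
    fun s hs => (C.dens_cont h hs).continuousWithinAt
  have h2 := h1.aestronglyMeasurable (μ := volume) C.isOpen_F.measurableSet
  rwa [Measure.restrict_eq_self_of_ae_mem (s := (C.F : Set ℂ)ᶜ) C.ae_F] at h2

theorem oci_inv : Tendsto (fun s : ℂ => s⁻¹) (cocompact ℂ) (𝓝[≠] 0) := by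
  rw [← cobounded_eq_cocompact]
  exact tendsto_inv₀_cobounded'

/-- The density at infinity. -/
theorem OC.dens_inf (C : OC O) {α : X → Bil E ℝ} (h : Form univ α) :
    ∀ᶠ s in cocompact ℂ, pull2 C.u α s 1 .I = ‖s‖ ^ (-4 : ℝ) * pull2 C.v α s⁻¹ 1 .I := by
  obtain ⟨r, hr, hv⟩ := C.hv
  filter_upwards [oci_inv.eventually self_mem_nhdsWithin,
    (oci_inv.mono_right nhdsWithin_le_nhds).eventually (ball_mem_nhds 0 hr)] with s h0 h1
  have hs : s ≠ 0 := by simpa using h0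
  have e : C.u =ᶠ[𝓝 s] C.v ∘ fun t => t⁻¹ := by
    filter_upwards [isOpen_compl_singleton.mem_nhds hs] with t ht
    rw [Function.comp_apply, C.uv _ (inv_ne_zero ht), inv_inv]
  rw [brk_pull2_congr e, brk_dens (φ := fun t => t⁻¹) (hv.1.contMDiffAt (isOpen_ball.mem_nhds h1))
    (hasDerivAt_inv hs) h]
  congr 1
  rw [norm_neg, norm_inv, norm_pow, Real.rpow_neg (norm_nonneg _), inv_pow, ← pow_mul]
  norm_cast

theorem OC.dens_bigO_inf (C : OC O) {α : X → Bil E ℝ} (h : Form univ α) :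
    (fun s => pull2 C.u α s 1 .I) =O[cocompact ℂ] fun s : ℂ => ‖s‖ ^ (-4 : ℝ) := by
  obtain ⟨r, hr, hv⟩ := C.hv
  have h1 := (brk_cont isOpen_ball hv.1 h 1 .I (mem_ball_self hr)).tendsto.comp
    (oci_inv.mono_right nhdsWithin_le_nhds)
  have h2 := (isBigO_refl (fun s : ℂ => ‖s‖ ^ (-4 : ℝ)) (cocompact ℂ)).mul (h1.isBigO_one ℝ)
  simp only [mul_one] at h2
  exact (EventuallyEq.trans_isBigO (C.dens_inf h) h2)

theorem oci_root {N : ℕ} (hN : N ≠ 0) (a : ℂ) : ∃ ζ : ℂ → ℂ, (∀ s, a + ζ s ^ N = s) ∧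
    Tendsto ζ (𝓝[≠] a) (𝓝[≠] 0) := by
  choose ζ hζ using fun s : ℂ => IsAlgClosed.exists_pow_nat_eq (s - a) (Nat.pos_of_ne_zero hN)
  refine ⟨ζ, fun s => by rw [hζ, add_sub_cancel], tendsto_nhdsWithin_iff.2 ⟨?_, ?_⟩⟩
  · rw [NormedAddGroup.tendsto_nhds_zero]
    intro r hr
    filter_upwards [nhdsWithin_le_nhds (ball_mem_nhds a (pow_pos hr N))] with s hs
    rw [mem_ball, dist_eq_norm, ← hζ, norm_pow] at hs
    exact lt_of_pow_lt_pow_left₀ N hr.le hs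
  · filter_upwards [self_mem_nhdsWithin] with s hs h0
    have := hζ s
    rw [mem_singleton_iff.1 h0, zero_pow hN] at this
    exact hs (sub_eq_zero.1 this.symm)

/-- The area density in the uniformising chart. -/
theorem OC.Br.dens {C : OC O} {a : ℂ} {i : Fin O.n} {j : ℕ} {z : ℂ → E} (h : C.Br a i j z) :
    ∀ᶠ ζ in 𝓝[≠] (0 : ℂ), ‖(O.N i : ℂ) * ζ ^ (O.N i - 1)‖ ^ 2 *
      pull2 C.u c.om (a + ζ ^ O.N i) 1 .I =
        ext1 (O.lam i) (z ζ) (fderiv ℝ z ζ 1) (fderiv ℝ z ζ .I) := by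
  obtain ⟨r, hr, hd, -, H⟩ := h
  filter_upwards [self_mem_nhdsWithin, nhdsWithin_le_nhds (ball_mem_nhds 0 hr),
    (mon_tendsto (O.N_ne i) a).eventually (C.ev_F a)] with ζ h0 h1 h2
  have e : (C.u ∘ fun t => a + t ^ O.N i) =ᶠ[𝓝 ζ] O.Pi i ∘ z := by
    filter_upwards [isOpen_compl_singleton.mem_nhds h0, isOpen_ball.mem_nhds h1] with t t0 t1
    exact (H t t1 t0).2.1.symm
  rw [← brk_dens (φ := fun t => a + t ^ O.N i) (C.cm h2)
    ((hasDerivAt_pow (O.N i) ζ).const_add a) c.hom.1, brk_pull2_congr e,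
    brk_pull2_comp (brk_md (O.Pi_cm i (H ζ h1 h0).1))
      ((hd.differentiableAt (isOpen_ball.mem_nhds h1)).restrictScalars ℝ),
    (O.hlam i).2 _ (H ζ h1 h0).1]

theorem OC.Br.analyticAt {C : OC O} {a : ℂ} {i : Fin O.n} {j : ℕ} {z : ℂ → E}
    (h : C.Br a i j z) : AnalyticAt ℂ z 0 := by
  obtain ⟨r, hr, hd, -⟩ := h
  exact hd.analyticAt (ball_mem_nhds 0 hr)

theorem OC.Br.dens_cont {C : OC O} {a : ℂ} {i : Fin O.n} {j : ℕ} {z : ℂ → E} (h : C.Br a i j z) :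
    ContinuousAt (fun ζ => ext1 (O.lam i) (z ζ) (fderiv ℝ z ζ 1) (fderiv ℝ z ζ .I)) 0 := by
  have h1 : ContDiffAt ℝ ∞ z 0 := (h.analyticAt.contDiffAt (n := ∞)).restrict_scalars ℝ
  have h2 : ContinuousAt (fderiv ℝ z) 0 := (h1.fderiv_right (m := 0) (by simp)).continuousAt
  obtain ⟨-, -, -, z0, -⟩ := h
  have h3 : ContDiffAt ℝ ∞ (O.lam i) (z 0) :=
    z0 ▸ (O.hlam i).1.contDiffAt (ball_mem_nhds 0 O.hR)
  have h4 : ContinuousAt (fun ζ => fderiv ℝ (O.lam i) (z ζ)) 0 :=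
    (h3.fderiv_right (m := 0) (by simp)).continuousAt.comp h1.continuousAt
  have a1 := h2.clm_apply (continuousAt_const (y := (1 : ℂ)))
  have a2 := h2.clm_apply (continuousAt_const (y := Complex.I))
  exact ((h4.clm_apply a1).clm_apply a2).sub ((h4.clm_apply a2).clm_apply a1)

theorem OC.dens_bigO_om (C : OC O) {a : ℂ} (ha : a ∈ C.F) : ∃ γ : ℝ, γ < 2 ∧
    (fun s => pull2 C.u c.om s 1 .I) =O[𝓝[≠] a] fun s : ℂ => ‖a - s‖ ^ (-γ) := by
  obtain ⟨i, hi⟩ := C.pu a ha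
  obtain ⟨j, -, z, hz⟩ := C.exists_br hi
  have hN := O.N_ne i
  have hN' : (0 : ℝ) < O.N i := Nat.cast_pos.2 (Nat.pos_of_ne_zero hN)
  obtain ⟨ζ, h1, h2⟩ := oci_root hN a
  refine ⟨(2 * (O.N i - 1 : ℕ) : ℕ) / O.N i, ?_, ?_⟩
  · rw [div_lt_iff₀ hN']
    have : 2 * (O.N i - 1) < 2 * O.N i := by omega
    exact_mod_cast this
  have h3 := (hz.dens_cont.tendsto.comp (h2.mono_right nhdsWithin_le_nhds)).isBigO_one ℝ
  have h4 := ((isBigO_refl (fun s : ℂ => ‖a - s‖ ^ (-(((2 * (O.N i - 1 : ℕ) : ℕ) : ℝ) / O.N i)))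
    (𝓝[≠] a)).const_mul_left (((O.N i : ℝ) ^ 2)⁻¹)).mul h3
  simp only [mul_one] at h4
  refine EventuallyEq.trans_isBigO ?_ h4
  filter_upwards [h2.eventually hz.dens, h2.eventually self_mem_nhdsWithin] with s h5 h6
  have h7 : 0 < ‖ζ s‖ := norm_pos_iff.2 h6
  have h8 : ‖a - s‖ = ‖ζ s‖ ^ O.N i := by
    conv_lhs => rw [← h1 s]
    simp
  rw [Function.comp_apply, ← h5, h1, h8, ← Real.rpow_natCast ‖ζ s‖, ← Real.rpow_mul h7.le, mul_neg,
    mul_div_cancel₀ _ hN'.ne', Real.rpow_neg h7.le, Real.rpow_natCast, norm_mul, norm_pow,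
    Complex.norm_natCast, mul_pow, ← pow_mul, mul_comm (O.N i - 1) 2]
  field_simp

theorem OC.dens_test (C : OC O) {α : X → Bil E ℝ} (h : O.Test α) {a : ℂ} (ha : a ∈ C.F) :
    ∀ᶠ s in 𝓝[≠] a, α (C.u s) = 0 := by
  obtain ⟨i, hi⟩ := C.pu a ha
  obtain ⟨U, hU, h1, h2⟩ := h
  filter_upwards [hi.eventually (hU.mem_nhdsSet.2 ((subset_iUnion O.L i).trans h1))] with s hs
  exact h2 _ hs

theorem OC.integrable (C : OC O) {α : X → Bil E ℝ} (h : Form univ α) (h' : O.Test α ∨ α = c.om) :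
    Integrable fun s => pull2 C.u α s 1 .I := by
  have hm := C.dens_meas h
  refine integrable_iff_integrableAtFilter_cocompact.2 ⟨?_, fun a => ?_⟩
  · refine (C.dens_bigO_inf h).integrableAtFilter hm.stronglyMeasurableAtFilter
      ⟨(ball 0 1)ᶜ, ?_, A.intOn_far (by norm_num) one_pos⟩
    exact mem_of_superset (isCompact_closedBall (0 : ℂ) 1).compl_mem_cocompact
      (compl_subset_compl.2 ball_subset_closedBall)
  have key : ∃ γ : ℝ, γ < 2 ∧
      (fun s => pull2 C.u α s 1 .I) =O[𝓝[≠] a] fun s : ℂ => ‖a - s‖ ^ (-γ) := by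
    by_cases ha : a ∈ C.F
    · rcases h' with h' | rfl
      · refine ⟨0, two_pos, EventuallyEq.trans_isBigO ?_ (isBigO_zero _ _)⟩
        filter_upwards [C.dens_test h' ha] with s hs
        rw [brk_pull2_apply, hs]
        rfl
      · exact C.dens_bigO_om ha
    · refine ⟨0, two_pos, ?_⟩
      simpa using ((C.dens_cont h ha).tendsto.mono_left nhdsWithin_le_nhds).isBigO_one ℝ
  obtain ⟨γ, hγ, hO⟩ := key
  have : (𝓝[≠] a).IsMeasurablyGenerated :=
    (measurableSet_singleton a).compl.nhdsWithin_isMeasurablyGenerated a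
  obtain ⟨S, hS, hi⟩ := hO.integrableAtFilter hm.stronglyMeasurableAtFilter
    ⟨ball a 1, nhdsWithin_le_nhds (ball_mem_nhds a one_pos), A.intOn_shift0 hγ a 1⟩
  refine ⟨insert a S, insert_mem_nhds_iff.2 hS, ?_⟩
  exact hi.congr_set_ae (insert_ae_eq_self a S)

theorem OC.per_pos (C : OC O) : 0 < per C.u c.om := by
  obtain ⟨s, hs, h⟩ := C.nc
  refine (integral_pos_iff_support_of_nonneg_ae (C.ae_F.mono fun t ht => C.dens_nonneg ht)
    (C.integrable c.hom.1 (Or.inr rfl))).2 ?_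
  exact Measure.measure_pos_of_mem_nhds volume
    ((C.dens_cont c.hom.1 hs).eventually_ne (C.dens_pos hs h).ne')

theorem OC.c1_pos (C : OC O) : 0 < C.c1 := mul_pos c.hκ C.per_pos

end Pool.Agent.Lib.MP_1c0d65_gt.PW
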