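import Pool.Agent.Lib.MP_1c0d65_gt.PW.BrK
import Pool.Agent.Lib.MP_1c0d65_gt.Emb.Sph

/-! Moving the point at infinity of an orbifold sphere. -/

set_option autoImplicit false
set_option linter.unusedSectionVars false

open scoped Manifold ContDiff Topology
open Set MeasureTheory Filter Metric

noncomputable section

namespace Pool.Agent.Lib.MP_1c0d65_gt.PW

variable {X : Type} [TopologicalSpace X] [ChartedSpace E X] [IsManifold 𝓘(ℝ, E) ∞ X]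

/-- `u` is smooth and `J`-holomorphic at the point `s`. -/
def HolPt (J : X → E →L[ℝ] E) (u : ℂ → X) (s : ℂ) : Prop :=
  ContMDiffAt 𝓘(ℝ, ℂ) 𝓘(ℝ, E) ∞ u s ∧ dif u s .I = J (u s) (dif u s 1)

section
variable {J : X → E →L[ℝ] E} {u v : ℂ → X} {S : Set ℂ} {s : ℂ}

theorem Hol.pt (h : Hol J u S) (hS : S ∈ 𝓝 s) : HolPt J u s :=
  ⟨h.1.contMDiffAt hS, h.2 s (mem_of_mem_nhds hS)⟩

theorem hol_of_pt (h : ∀ s ∈ S, HolPt J u s) : Hol J u S :=
  ⟨fun s hs => (h s hs).1.contMDiffWithinAt, fun s hs => (h s hs).2⟩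

theorem HolPt.congr (h : HolPt J u s) (e : v =ᶠ[𝓝 s] u) : HolPt J v s :=
  ⟨h.1.congr_of_eventuallyEq e, by rw [brk_dif_congr e, e.eq_of_nhds]; exact h.2⟩

theorem HolPt.comp {φ : ℂ → ℂ} (h : HolPt J u (φ s))
    (hJ : ∀ w, J (u (φ s)) (J (u (φ s)) w) = -w) (hφ : AnalyticAt ℂ φ s) :
    HolPt J (u ∘ φ) s := by
  refine ⟨h.1.comp s (brk_cm hφ), ?_⟩
  have hd := hφ.differentiableAt.hasDerivAt
  rw [brk_dif_hol h.1 hd, brk_dif_hol h.1 hd, brk_cr hJ h.2, mul_one]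
  rfl

theorem HolPt.dif_ne {φ : ℂ → ℂ} {d : ℂ} (h : HolPt J u (φ s))
    (hJ : ∀ w, J (u (φ s)) (J (u (φ s)) w) = -w) (hφ : HasDerivAt φ d s) (hd : d ≠ 0)
    (h1 : dif u (φ s) 1 ≠ 0) : dif (u ∘ φ) s 1 ≠ 0 := by
  rw [brk_dif_hol h.1 hφ, mul_one]
  exact brk_ne hJ h.2 h1 hd

end

theorem mob_an (s0 : ℂ) {s : ℂ} (hs : s ≠ 0) : AnalyticAt ℂ (fun t : ℂ => s0 + t⁻¹) s :=
  analyticAt_const.add (analyticAt_id.inv hs)

theorem mob_der (s0 : ℂ) {s : ℂ} (hs : s ≠ 0) :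
    HasDerivAt (fun t : ℂ => s0 + t⁻¹) (-(s ^ 2)⁻¹) s := (hasDerivAt_inv hs).const_add s0

theorem mob_inj (s0 : ℂ) : Function.Injective fun t : ℂ => s0 + t⁻¹ := fun _ _ h =>
  inv_injective (add_left_cancel h)

theorem mob_int (s0 : ℂ) (f : ℂ → ℝ) : ∫ s, ‖-(s ^ 2)⁻¹‖ ^ 2 * f (s0 + s⁻¹) = ∫ s, f s := by
  rw [← integral_add_left_eq_self f s0, ← Emb.int_inv fun w => f (s0 + w)]
  refine integral_congr_ae (Eventually.of_forall fun s => ?_)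
  simp only [norm_neg, norm_inv, norm_pow]
  ring

theorem mob_mem (s0 : ℂ) (F : Finset ℂ) (s : ℂ) :
    s ∈ F.image (fun b => (b - s0)⁻¹) ↔ s0 + s⁻¹ ∈ F := by
  rw [Finset.mem_image]
  exact ⟨by rintro ⟨b, hb, rfl⟩; simpa using hb, fun h => ⟨_, h, by simp⟩⟩

theorem mob_tendsto (s0 : ℂ) {s : ℂ} (hs : s ≠ 0) :
    Tendsto (fun t : ℂ => s0 + t⁻¹) (𝓝[≠] s) (𝓝[≠] (s0 + s⁻¹)) :=
  tendsto_nhdsWithin_iff.2 ⟨(mob_an s0 hs).continuousAt.tendsto.mono_left nhdsWithin_le_nhds,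
    eventually_nhdsWithin_of_forall fun _ ht e => ht (mob_inj s0 e)⟩

theorem mob_zero (s0 : ℂ) : HasDerivAt (fun t : ℂ => t / (1 + s0 * t)) 1 0 ∧
    AnalyticAt ℂ (fun t : ℂ => t / (1 + s0 * t)) 0 ∧
    ∀ᶠ t in 𝓝 (0 : ℂ), t ≠ 0 → t / (1 + s0 * t) ≠ 0 ∧ (t / (1 + s0 * t))⁻¹ = s0 + t⁻¹ := by
  have h0 : 1 + s0 * 0 ≠ 0 := by simp
  refine ⟨?_, analyticAt_id.div (analyticAt_const.add (analyticAt_const.mul analyticAt_id)) h0, ?_⟩
  · have := (hasDerivAt_id (0 : ℂ)).div (((hasDerivAt_id (0 : ℂ)).const_mul s0).const_add 1) h0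
    exact this.congr_deriv (by simp)
  · have hc : ContinuousAt (fun t : ℂ => 1 + s0 * t) 0 := by fun_prop
    filter_upwards [hc.eventually_ne h0] with t ht h1
    exact ⟨div_ne_zero h1 ht, by field_simp; ring⟩

variable [MeasurableSpace X] {c : Ctx X} {O : Orb c}

theorem OC.upt (C : OC O) {s : ℂ} (hs : s ∉ C.F) : HolPt O.J C.u s :=
  C.hu.pt (C.isOpen_F.mem_nhds hs)

theorem OC.vpt (C : OC O) : HolPt O.J C.v 0 := by
  obtain ⟨r, hr, h⟩ := C.hv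
  exact h.pt (ball_mem_nhds 0 hr)

theorem OC.nc_ne (C : OC O) (s0 : ℂ) : ∃ s, s ≠ s0 ∧ s ∉ C.F ∧ dif C.u s 1 ≠ 0 := by
  obtain ⟨s, hs, h⟩ := C.nc
  by_cases e : s = s0
  · subst e
    have h1 := (C.dens_cont c.hom.1 hs).eventually (lt_mem_nhds (C.dens_pos hs h))
    obtain ⟨t, ⟨h2, h3⟩, h4⟩ :=
      (((h1.filter_mono nhdsWithin_le_nhds).and (C.ev_F s)).and self_mem_nhdsWithin).exists
    refine ⟨t, h4, h3, fun h0 => ?_⟩
    rw [brk_pull2_apply, h0] at h2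
    simp at h2
  · exact ⟨s, e, hs, h⟩

open Classical in
/-- The new parametrisation of the finite part. -/
def OC.mu0 (C : OC O) (s0 s : ℂ) : X := if s = 0 then C.v 0 else C.u (s0 + s⁻¹)

theorem OC.mu0_zero (C : OC O) (s0 : ℂ) : C.mu0 s0 0 = C.v 0 := if_pos rfl

theorem OC.mu0_ne (C : OC O) (s0 : ℂ) {s : ℂ} (hs : s ≠ 0) : C.mu0 s0 s = C.u (s0 + s⁻¹) :=
  if_neg hs

theorem OC.mu0_ev (C : OC O) (s0 : ℂ) {s : ℂ} (hs : s ≠ 0) :
    C.mu0 s0 =ᶠ[𝓝 s] C.u ∘ fun t => s0 + t⁻¹ := by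
  filter_upwards [isOpen_ne.mem_nhds hs] with t ht using C.mu0_ne s0 ht

theorem OC.mu0_ev0 (C : OC O) (s0 : ℂ) :
    C.mu0 s0 =ᶠ[𝓝 0] C.v ∘ fun t => t / (1 + s0 * t) := by
  filter_upwards [(mob_zero s0).2.2] with t ht
  by_cases h : t = 0
  · subst h
    simp [C.mu0_zero]
  · rw [C.mu0_ne s0 h, Function.comp_apply, C.uv _ (ht h).1, (ht h).2]

/-- The sphere with the point `s0` moved to infinity. -/
def OC.mob (C : OC O) {s0 : ℂ} (h0 : s0 ∉ C.F) : OC O where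
  u := C.mu0 s0
  v := C.u ∘ fun t => s0 + t
  F := C.F.image fun b => (b - s0)⁻¹
  hu := hol_of_pt fun s hs => by
    by_cases h : s = 0
    · subst h
      refine (HolPt.comp ?_ ?_ (mob_zero s0).2.1).congr (C.mu0_ev0 s0)
      · simpa using C.vpt
      · simpa using O.JJ C.v0
    · have h1 : s0 + s⁻¹ ∉ C.F := fun e => hs ((mob_mem s0 C.F s).2 e)
      exact (HolPt.comp (φ := fun t => s0 + t⁻¹) (C.upt h1) (O.JJ (C.mu h1))
        (mob_an s0 h)).congr (C.mu0_ev s0 h)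
  mu := fun s hs => by
    by_cases h : s = 0
    · rw [h, C.mu0_zero]
      exact C.v0
    · rw [C.mu0_ne s0 h]
      exact C.mu fun e => hs ((mob_mem s0 C.F s).2 e)
  hv := by
    obtain ⟨r, hr, h⟩ := Metric.isOpen_iff.1 C.isOpen_F s0 h0
    refine ⟨r, hr, hol_of_pt fun s hs => ?_⟩
    have h1 : s0 + s ∉ C.F := h (by simpa using hs)
    exact (C.upt h1).comp (O.JJ (C.mu h1)) (analyticAt_const.add analyticAt_id)
  v0 := by simpa using C.mu h0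
  uv := fun s hs => by rw [C.mu0_ne s0 (inv_ne_zero hs), inv_inv, Function.comp_apply]
  pu := fun a ha => by
    have h1 := (mob_mem s0 C.F a).1 ha
    have h2 : a ≠ 0 := by
      rintro rfl
      exact h0 (by simpa using h1)
    obtain ⟨i, hi⟩ := C.pu _ h1
    exact ⟨i, (hi.comp (mob_tendsto s0 h2)).congr'
      ((C.mu0_ev s0 h2).symm.filter_mono nhdsWithin_le_nhds)⟩
  nc := by
    obtain ⟨s, h1, h2, h3⟩ := C.nc_ne s0
    have h4 : (s - s0)⁻¹ ≠ 0 := inv_ne_zero (sub_ne_zero.2 h1)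
    have e : s0 + (s - s0)⁻¹⁻¹ = s := by simp
    refine ⟨(s - s0)⁻¹, fun h => h2 (e ▸ (mob_mem s0 C.F _).1 h), ?_⟩
    rw [brk_dif_congr (C.mu0_ev s0 h4)]
    refine HolPt.dif_ne (J := O.J) ?_ ?_ (mob_der s0 h4) (by simpa using sub_ne_zero.2 h1) ?_
    · rw [e]; exact C.upt h2
    · rw [e]; exact O.JJ (C.mu h2)
    · rw [e]; exact h3

variable (C : OC O) {s0 : ℂ} (h0 : s0 ∉ C.F)

theorem OC.mob_F {s : ℂ} : s ∈ ((C.mob h0).F : Set ℂ)ᶜ ↔ s0 + s⁻¹ ∉ C.F :=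
  (mob_mem s0 C.F s).not

theorem OC.mob_v0 : (C.mob h0).v 0 = C.u s0 := congrArg C.u (add_zero s0)

theorem OC.mob_img : (C.mob h0).img = C.img := by
  ext x
  simp only [OC.img, mem_union, mem_image, mem_singleton_iff, C.mob_F h0, C.mob_v0 h0]
  constructor
  · rintro (⟨s, hs, rfl⟩ | rfl)
    · by_cases h : s = 0
      · exact Or.inr (h ▸ C.mu0_zero s0)
      · exact Or.inl ⟨_, hs, (C.mu0_ne s0 h).symm⟩
    · exact Or.inl ⟨s0, h0, rfl⟩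
  · rintro (⟨s, hs, rfl⟩ | rfl)
    · by_cases h : s = s0
      · exact Or.inr (h ▸ rfl)
      · have e : s0 + (s - s0)⁻¹⁻¹ = s := by simp
        refine Or.inl ⟨(s - s0)⁻¹, e.symm ▸ hs, ?_⟩
        exact (C.mu0_ne s0 (inv_ne_zero (sub_ne_zero.2 h))).trans (congrArg C.u e)
    · exact Or.inl ⟨0, by simpa using h0, C.mu0_zero s0⟩

theorem OC.mob_emb (h : C.Emb) : (C.mob h0).Emb := by
  obtain ⟨h1, h2, h3, h4⟩ := h
  have k : ∀ s, s ≠ 0 → s0 + s⁻¹ ∉ C.F → C.mu0 s0 s ≠ C.mu0 s0 0 := fun s hs hs' e =>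
    h2 ⟨_, hs', by rw [← C.mu0_ne s0 hs, e, C.mu0_zero]⟩
  refine ⟨fun s hs t ht e => ?_, ?_, fun s hs => ?_, ?_⟩
  · rw [C.mob_F h0] at hs ht
    by_cases a : s = 0 <;> by_cases b : t = 0
    · rw [a, b]
    · exact absurd (a ▸ e.symm) (k t b ht)
    · exact absurd (b ▸ e) (k s a hs)
    · exact mob_inj s0 (h1 hs ht ((C.mu0_ne s0 a).symm.trans (e.trans (C.mu0_ne s0 b))))
  · rintro ⟨s, hs, e⟩
    rw [C.mob_F h0] at hs
    rw [C.mob_v0 h0] at e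
    by_cases a : s = 0
    · exact h2 ⟨s0, h0, e.symm.trans (a ▸ C.mu0_zero s0)⟩
    · exact a (by simpa using h1 hs h0 ((C.mu0_ne s0 a).symm.trans e))
  · by_cases a : s = 0
    · subst a
      refine (brk_dif_congr (C.mu0_ev0 s0)).symm ▸
        HolPt.dif_ne (J := O.J) ?_ ?_ (mob_zero s0).1 one_ne_zero ?_
      · simpa using C.vpt
      · simpa using O.JJ C.v0
      · simpa using h4
    · have h5 : s0 + s⁻¹ ∉ C.F := (C.mob_F h0).1 hs
      exact (brk_dif_congr (C.mu0_ev s0 a)).symm ▸ HolPt.dif_ne (φ := fun t => s0 + t⁻¹)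
        (C.upt h5) (O.JJ (C.mu h5)) (mob_der s0 a) (by simpa using a) (h3 _ h5)
  · refine HolPt.dif_ne (J := O.J) (u := C.u) (φ := fun t => s0 + t) ?_ ?_
      ((hasDerivAt_id (0 : ℂ)).const_add s0) one_ne_zero ?_
    · simpa using C.upt h0
    · simpa using O.JJ (C.mu h0)
    · simpa using h3 s0 h0

theorem OC.mob_simple (h : C.Simple) : (C.mob h0).Simple := by
  classical
  obtain ⟨B, h1, h2⟩ := h
  refine ⟨insert 0 (B.image fun b => (b - s0)⁻¹),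
    (Finset.image_subset_image h1).trans (Finset.subset_insert _ _), fun s hs t ht e => ?_⟩
  simp only [Finset.coe_insert, mem_compl_iff, mem_insert_iff, Finset.mem_coe, mob_mem,
    not_or] at hs ht
  exact mob_inj s0 (h2 hs.2 ht.2 ((C.mu0_ne s0 hs.1).symm.trans (e.trans (C.mu0_ne s0 ht.1))))

theorem OC.mob_per {α : X → Bil E ℝ} (hα : Form univ α) : per (C.mob h0).u α = per C.u α := by
  rw [per, per, ← mob_int s0 fun s => pull2 C.u α s 1 .I]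
  refine integral_congr_ae ?_
  filter_upwards [(C.mob h0).ae_F, compl_mem_ae_iff.2 (measure_singleton (0 : ℂ))] with s hs a
  exact (congrArg (fun β : Bil ℂ ℝ => β 1 .I) (brk_pull2_congr (C.mu0_ev s0 a) α)).trans
    (brk_dens (φ := fun t => s0 + t⁻¹) (C.cm ((C.mob_F h0).1 hs)) (mob_der s0 a) hα)

end Pool.Agent.Lib.MP_1c0d65_gt.PW

namespace Pool.Agent.Lib.MP_1c0d65_gt.PW

variable {X : Type} [TopologicalSpace X] [ChartedSpace E X] [IsManifold 𝓘(ℝ, E) ∞ X]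
  [MeasurableSpace X] {c : Ctx X} {O : Orb c}

theorem OC.reparam (C : OC O) {x : X} (hx : x ∈ C.img) : ∃ C' : OC O, C'.img = C.img ∧ C'.v 0 = x ∧
    (C.Emb → C'.Emb) ∧ (C.Simple → C'.Simple) ∧
    ∀ α, Form univ α → (O.Test α ∨ α = c.om) → per C'.u α = per C.u α := by
  rcases hx with ⟨s0, h0, rfl⟩ | rfl
  · exact ⟨C.mob h0, C.mob_img h0, C.mob_v0 h0, C.mob_emb h0, C.mob_simple h0,
      fun _ hα _ => C.mob_per h0 hα⟩
  · exact ⟨C, rfl, rfl, id, id, fun _ _ _ => rfl⟩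

end Pool.Agent.Lib.MP_1c0d65_gt.PW
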