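import Pool.Agent.Lib.MP_1c0d65_gt.PW.Defs

/-! Linear algebra of the wedge product of two-forms on `E`. -/

set_option autoImplicit false

open scoped Manifold ContDiff Topology
open Set

noncomputable section

namespace Pool.Agent.Lib.MP_1c0d65_gt.PW

theorem wedge_comm (α β : Bil E ℝ) : wedge α β = wedge β α := by
  unfold wedge; ring

theorem wedge_add_left (α α' β : Bil E ℝ) : wedge (α + α') β = wedge α β + wedge α' β := by
  simp only [wedge, add_apply]; ring

theorem wedge_add_right (α β β' : Bil E ℝ) : wedge α (β + β') = wedge α β + wedge α β' := by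
  simp only [wedge, add_apply]; ring

theorem wedge_sub_left (α α' β : Bil E ℝ) : wedge (α - α') β = wedge α β - wedge α' β := by
  simp only [wedge, sub_apply]; ring

theorem wedge_sub_right (α β β' : Bil E ℝ) : wedge α (β - β') = wedge α β - wedge α β' := by
  simp only [wedge, sub_apply]; ring

theorem wedge_smul_left (r : ℝ) (α β : Bil E ℝ) : wedge (r • α) β = r * wedge α β := by
  simp only [wedge, smul_apply, smul_eq_mul]; ring

theorem wedge_smul_right (r : ℝ) (α β : Bil E ℝ) : wedge α (r • β) = r * wedge α β := by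
  simp only [wedge, smul_apply, smul_eq_mul]; ring

@[simp] theorem wedge_zero_left (β : Bil E ℝ) : wedge 0 β = 0 := by simp [wedge]

@[simp] theorem wedge_zero_right (α : Bil E ℝ) : wedge α 0 = 0 := by simp [wedge]

theorem wedge_sum_left {ι : Type} (s : Finset ι) (α : ι → Bil E ℝ) (β : Bil E ℝ) :
    wedge (∑ i ∈ s, α i) β = ∑ i ∈ s, wedge (α i) β := by
  classical
  induction s using Finset.induction_on with
  | empty => simp
  | insert a s ha ih => rw [Finset.sum_insert ha, Finset.sum_insert ha, wedge_add_left, ih]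

/-- An alternating form is antisymmetric. -/
theorem alt_swap {V W : Type} [NormedAddCommGroup V] [NormedSpace ℝ V] [NormedAddCommGroup W]
    [NormedSpace ℝ W] {α : Bil V W} (hα : ∀ v, α v v = 0) (v w : V) : α w v = -α v w := by
  have h := hα (v + w)
  simp only [map_add, add_apply, hα, zero_add, add_zero] at h
  exact eq_neg_of_add_eq_zero_left (by rw [← h, add_comm])

theorem decomp_E (v : E) : v = v.1.re • ((1, 0) : E) + v.1.im • ((.I, 0) : E) +
    v.2.re • ((0, 1) : E) + v.2.im • ((0, .I) : E) := by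
  ext <;> simp

/-- The value of an alternating form in coordinates. -/
theorem alt_apply {α : Bil E ℝ} (hα : ∀ v, α v v = 0) (v w : E) : α v w =
    (v.1.re * w.1.im - v.1.im * w.1.re) * α (1, 0) (.I, 0) +
    (v.1.re * w.2.re - v.2.re * w.1.re) * α (1, 0) (0, 1) +
    (v.1.re * w.2.im - v.2.im * w.1.re) * α (1, 0) (0, .I) +
    (v.1.im * w.2.re - v.2.re * w.1.im) * α (.I, 0) (0, 1) +
    (v.1.im * w.2.im - v.2.im * w.1.im) * α (.I, 0) (0, .I) +
    (v.2.re * w.2.im - v.2.im * w.2.re) * α (0, 1) (0, .I) := by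
  conv_lhs => rw [decomp_E v, decomp_E w]
  simp only [map_add, map_smul, add_apply, smul_apply,
    smul_eq_mul, hα, alt_swap hα (1, 0) (.I, 0), alt_swap hα (1, 0) (0, 1),
    alt_swap hα (1, 0) (0, .I), alt_swap hα (.I, 0) (0, 1), alt_swap hα (.I, 0) (0, .I),
    alt_swap hα (0, 1) (0, .I)]
  ring

/-- The coordinates of a vector. -/
def crd (v : E) : Fin 4 → ℝ := ![v.1.re, v.1.im, v.2.re, v.2.im]

/-- The coordinates as a linear equivalence. -/
def crdE : E ≃ₗ[ℝ] (Fin 4 → ℝ) where
  toFun := crd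
  invFun f := (⟨f 0, f 1⟩, ⟨f 2, f 3⟩)
  map_add' v w := by ext i; fin_cases i <;> simp [crd]
  map_smul' r v := by ext i; fin_cases i <;> simp [crd]
  left_inv v := by simp [crd]
  right_inv f := by ext i; fin_cases i <;> simp [crd]

theorem det_E (A : E →L[ℝ] E) : A.det = Matrix.det (Matrix.of
    ![crd (A (1, 0)), crd (A (.I, 0)), crd (A (0, 1)), crd (A (0, .I))]) := by
  rw [ContinuousLinearMap.det, ← LinearMap.det_toMatrix (Module.Basis.ofEquivFun crdE),
    ← Matrix.det_transpose]
  congr 1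
  ext i j
  rw [Matrix.transpose_apply, LinearMap.toMatrix_apply, Module.Basis.ofEquivFun_repr_apply,
    Module.Basis.coe_ofEquivFun]
  fin_cases i <;> rfl

theorem wedge_comp {α β : Bil E ℝ} (hα : ∀ v, α v v = 0) (hβ : ∀ v, β v v = 0) (A : E →L[ℝ] E) :
    wedge (α.bilinearComp A A) (β.bilinearComp A A) = A.det * wedge α β := by
  rw [det_E]
  simp only [wedge, ContinuousLinearMap.bilinearComp_apply]
  generalize A (1, 0) = a
  generalize A (.I, 0) = b
  generalize A (0, 1) = c
  generalize A (0, .I) = d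
  rw [alt_apply hα a b, alt_apply hα a c, alt_apply hα a d, alt_apply hα b c, alt_apply hα b d,
    alt_apply hα c d, alt_apply hβ a b, alt_apply hβ a c, alt_apply hβ a d, alt_apply hβ b c,
    alt_apply hβ b d, alt_apply hβ c d]
  simp [Matrix.det_succ_row_zero, Fin.sum_univ_succ, crd, Fin.succAbove]
  ring

theorem wedge_pos {α : Bil E ℝ} (hα : ∀ v, α v v = 0)
    (h : ∀ v, v ≠ 0 → 0 < α v (Complex.I • v)) : 0 < wedge α α := by
  have h23 : 0 < α (0, 1) (0, .I) := by simpa using h (0, 1) (by simp)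
  set a := α (1, 0) (0, .I) - α (.I, 0) (0, 1) with ha
  set b := α (1, 0) (0, 1) + α (.I, 0) (0, .I) with hb
  have h1 := h (((2 * α (0, 1) (0, .I) : ℝ) : ℂ), ⟨-a, b⟩) (by
    intro h0
    have := congrArg (fun v : E => v.1.re) h0
    simp at this
    exact h23.ne' this)
  rw [alt_apply hα] at h1
  simp only [Prod.smul_fst, Prod.smul_snd, smul_eq_mul, Complex.mul_re, Complex.mul_im,
    Complex.I_re, Complex.I_im, Complex.ofReal_re, Complex.ofReal_im] at h1
  have h2 : 0 < α (0, 1) (0, .I) * (4 * α (1, 0) (.I, 0) * α (0, 1) (0, .I) - a ^ 2 - b ^ 2) := by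
    convert h1 using 1
    rw [ha, hb]; ring
  have h3 := (pos_iff_pos_of_mul_pos h2).1 h23
  unfold wedge
  nlinarith [sq_nonneg (α (1, 0) (0, .I) + α (.I, 0) (0, 1)),
    sq_nonneg (α (1, 0) (0, 1) - α (.I, 0) (0, .I))]

theorem ContDiffOn.wedge {V : Type} [NormedAddCommGroup V] [NormedSpace ℝ V] {n : WithTop ℕ∞}
    {α β : V → Bil E ℝ} {D : Set V} (hα : ContDiffOn ℝ n α D) (hβ : ContDiffOn ℝ n β D) :
    ContDiffOn ℝ n (fun y => wedge (α y) (β y)) D := by
  have ha : ∀ v w : E, ContDiffOn ℝ n (fun y => α y v w) D := fun v w =>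
    (hα.clm_apply contDiffOn_const).clm_apply contDiffOn_const
  have hb : ∀ v w : E, ContDiffOn ℝ n (fun y => β y v w) D := fun v w =>
    (hβ.clm_apply contDiffOn_const).clm_apply contDiffOn_const
  unfold PW.wedge
  exact ((((((ha _ _).mul (hb _ _)).sub ((ha _ _).mul (hb _ _))).add ((ha _ _).mul (hb _ _))).add
    ((ha _ _).mul (hb _ _))).sub ((ha _ _).mul (hb _ _))).add ((ha _ _).mul (hb _ _))

theorem ContinuousOn.wedge {V : Type} [TopologicalSpace V] {α β : V → Bil E ℝ} {D : Set V}
    (hα : ContinuousOn α D) (hβ : ContinuousOn β D) :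
    ContinuousOn (fun y => wedge (α y) (β y)) D := by
  have ha : ∀ v w : E, ContinuousOn (fun y => α y v w) D := fun v w =>
    (hα.clm_apply continuousOn_const).clm_apply continuousOn_const
  have hb : ∀ v w : E, ContinuousOn (fun y => β y v w) D := fun v w =>
    (hβ.clm_apply continuousOn_const).clm_apply continuousOn_const
  unfold PW.wedge
  exact ((((((ha _ _).mul (hb _ _)).sub ((ha _ _).mul (hb _ _))).add ((ha _ _).mul (hb _ _))).add
    ((ha _ _).mul (hb _ _))).sub ((ha _ _).mul (hb _ _))).add ((ha _ _).mul (hb _ _))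

end Pool.Agent.Lib.MP_1c0d65_gt.PW
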