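import Pool.Agent.Lib.MP_1c0d65_gt.PW.Defs

/-! The wedge product of two-forms on `E` and Stokes' theorem for compact support. -/

set_option autoImplicit false

open scoped ContDiff Topology
open Set MeasureTheory Filter

noncomputable section

namespace Pool.Agent.Lib.MP_1c0d65_gt.PW.St

/-- The standard real basis of `E`. -/
def bs : Fin 4 → E := ![(1, 0), (.I, 0), (0, 1), (0, .I)]

/-- The real coordinates on `E`. -/
def cd (v : E) : Fin 4 → ℝ := ![v.1.re, v.1.im, v.2.re, v.2.im]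

theorem eq_bs (v : E) : v = cd v 0 • bs 0 + cd v 1 • bs 1 + cd v 2 • bs 2 + cd v 3 • bs 3 := by
  refine Prod.ext (Complex.ext ?_ ?_) (Complex.ext ?_ ?_) <;> simp [bs, cd]

theorem wedge_eq (α β : Bil E ℝ) : wedge α β =
    α (bs 0) (bs 1) * β (bs 2) (bs 3) - α (bs 0) (bs 2) * β (bs 1) (bs 3)
      + α (bs 0) (bs 3) * β (bs 1) (bs 2) + α (bs 1) (bs 2) * β (bs 0) (bs 3)
      - α (bs 1) (bs 3) * β (bs 0) (bs 2) + α (bs 2) (bs 3) * β (bs 0) (bs 1) := rfl

theorem wedge_comm (α β : Bil E ℝ) : wedge α β = wedge β α := by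
  rw [wedge_eq, wedge_eq]; ring

theorem wedge_add (α α' β : Bil E ℝ) : wedge (α + α') β = wedge α β + wedge α' β := by
  simp only [wedge_eq, add_apply]; ring

theorem wedge_sub (α α' β : Bil E ℝ) : wedge (α - α') β = wedge α β - wedge α' β := by
  simp only [wedge_eq, sub_apply]; ring

theorem wedge_smul (r : ℝ) (α β : Bil E ℝ) : wedge (r • α) β = r * wedge α β := by
  simp only [wedge_eq, smul_apply, smul_eq_mul]; ring

theorem wedge_zero (β : Bil E ℝ) : wedge 0 β = 0 := by simp [wedge_eq]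

theorem wedge_sum {ι : Type*} (s : Finset ι) (α : ι → Bil E ℝ) (β : Bil E ℝ) :
    wedge (∑ i ∈ s, α i) β = ∑ i ∈ s, wedge (α i) β := by
  classical
  induction s using Finset.induction_on with
  | empty => simp [wedge_zero]
  | insert i s hi ih => rw [Finset.sum_insert hi, Finset.sum_insert hi, wedge_add, ih]

theorem continuous_wedge : Continuous fun p : Bil E ℝ × Bil E ℝ => wedge p.1 p.2 := by
  simp only [wedge_eq]; fun_prop

theorem anti {α : Bil E ℝ} (h : ∀ v, α v v = 0) (v w : E) : α v w = -α w v := by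
  have := h (v + w)
  simp only [map_add, add_apply, h] at this
  linarith

theorem alt_eq {α : Bil E ℝ} (h : ∀ v, α v v = 0) (v w : E) : α v w =
    (cd v 0 * cd w 1 - cd v 1 * cd w 0) * α (bs 0) (bs 1)
      + (cd v 0 * cd w 2 - cd v 2 * cd w 0) * α (bs 0) (bs 2)
      + (cd v 0 * cd w 3 - cd v 3 * cd w 0) * α (bs 0) (bs 3)
      + (cd v 1 * cd w 2 - cd v 2 * cd w 1) * α (bs 1) (bs 2)
      + (cd v 1 * cd w 3 - cd v 3 * cd w 1) * α (bs 1) (bs 3)
      + (cd v 2 * cd w 3 - cd v 3 * cd w 2) * α (bs 2) (bs 3) := by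
  conv_lhs => rw [eq_bs v, eq_bs w]
  simp only [map_add, map_smul, add_apply, smul_apply,
    smul_eq_mul, h, anti h (bs 1) (bs 0), anti h (bs 2) (bs 0), anti h (bs 3) (bs 0),
    anti h (bs 2) (bs 1), anti h (bs 3) (bs 1), anti h (bs 3) (bs 2)]
  ring

/-- The determinant in the standard basis. -/
def dt (A : E →L[ℝ] E) : ℝ := (Matrix.of fun i j => cd (A (bs i)) j).det

theorem wedge_comp (A : E →L[ℝ] E) {α β : Bil E ℝ} (hα : ∀ v, α v v = 0) (hβ : ∀ v, β v v = 0) :
    wedge (α.bilinearComp A A) (β.bilinearComp A A) = dt A * wedge α β := by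
  simp only [wedge_eq, ContinuousLinearMap.bilinearComp_apply, alt_eq hα (A _) (A _),
    alt_eq hβ (A _) (A _), dt, Matrix.det_succ_row_zero, Fin.sum_univ_succ, Matrix.of_apply,
    Matrix.submatrix_apply]
  simp [Fin.succAbove]
  ring

/-- A nondegenerate form has nonzero square. -/
theorem wedge_ne {α : Bil E ℝ} (h : ∀ v, α v v = 0) (hn : ∀ v, (∀ w, α v w = 0) → v = 0) :
    wedge α α ≠ 0 := fun h0 => by
  rw [wedge_eq] at h0
  have key (a b c d : ℝ) (hv : ∀ w, α (a • bs 0 + b • bs 1 + c • bs 2 + d • bs 3) w = 0) :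
      a = 0 ∧ b = 0 ∧ c = 0 ∧ d = 0 := by
    have := hn _ hv
    simpa [bs, Prod.ext_iff, Complex.ext_iff, and_assoc] using this
  have cd' (a b c d : ℝ) : cd (a • bs 0 + b • bs 1 + c • bs 2 + d • bs 3) = ![a, b, c, d] := by
    simp [cd, bs]
  have h1 := key 0 (α (bs 2) (bs 3)) (-α (bs 1) (bs 3)) (α (bs 1) (bs 2)) fun w => by
    rw [alt_eq h, cd']
    simp only [Matrix.cons_val]
    linear_combination (-cd w 0 / 2) * h0
  have h2 := key (-α (bs 2) (bs 3)) 0 (α (bs 0) (bs 3)) (-α (bs 0) (bs 2)) fun w => by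
    rw [alt_eq h, cd']
    simp only [Matrix.cons_val]
    linear_combination (-cd w 1 / 2) * h0
  have h3 := key (α (bs 1) (bs 3)) (-α (bs 0) (bs 3)) 0 (α (bs 0) (bs 1)) fun w => by
    rw [alt_eq h, cd']
    simp only [Matrix.cons_val]
    linear_combination (-cd w 2 / 2) * h0
  have h4 := hn (bs 0) fun w => by
    rw [alt_eq h, h1.2.1, neg_eq_zero.1 h1.2.2.1, h1.2.2.2, h2.2.2.1, neg_eq_zero.1 h2.2.2.2,
      h3.2.2.2]
    simp
  simp [bs] at h4

theorem haar : (volume : Measure E).IsAddHaarMeasure := Measure.prod.instIsAddHaarMeasure _ _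

theorem int_add {T : Set E} {f g : E → ℝ} (hf : IntegrableOn f T ∧ ∫ y in T, f y = 0)
    (hg : IntegrableOn g T ∧ ∫ y in T, g y = 0) :
    IntegrableOn (fun y => f y + g y) T ∧ ∫ y in T, f y + g y = 0 :=
  ⟨hf.1.add hg.1, by rw [integral_add hf.1 hg.1, hf.2, hg.2, add_zero]⟩

/-- The integral of a derivative vanishes. -/
theorem int_fderiv {T K : Set E} (hT : IsOpen T) (hK : IsCompact K) (hKT : K ⊆ T) {g : E → ℝ}
    (hg : ContDiffOn ℝ 1 g T) (h0 : ∀ y ∈ T, y ∉ K → g y = 0) (u : E) :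
    IntegrableOn (fun y => fderiv ℝ g y u) T ∧ ∫ y in T, fderiv ℝ g y u = 0 := by
  let G : E → ℝ := T.indicator g
  have e1 : ∀ y ∈ T, G =ᶠ[𝓝 y] g := fun y hy => by
    filter_upwards [hT.mem_nhds hy] with z hz using indicator_of_mem hz g
  have e2 : ∀ y, y ∉ K → G y = 0 := fun y hy => by
    by_cases h : y ∈ T
    · rw [(e1 y h).eq_of_nhds, h0 y h hy]
    · exact indicator_of_notMem h g
  have e3 : ∀ y, y ∉ K → G =ᶠ[𝓝 y] fun _ => 0 := fun y hy => by
    filter_upwards [hK.isClosed.isOpen_compl.mem_nhds hy] with z hz using e2 z hz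
  have hG : ContDiff ℝ 1 G := contDiff_iff_contDiffAt.2 fun y => by
    by_cases h : y ∈ T
    · exact (hg.contDiffAt (hT.mem_nhds h)).congr_of_eventuallyEq (e1 y h)
    · exact contDiffAt_const.congr_of_eventuallyEq (e3 y fun k => h (hKT k))
  have hc : HasCompactSupport G := HasCompactSupport.intro hK e2
  have hi : Integrable fun y => fderiv ℝ G y u :=
    ((hG.continuous_fderiv one_ne_zero).clm_apply continuous_const).integrable_of_hasCompactSupport
      (hc.fderiv_apply ℝ u)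
  have e4 : EqOn (fun y => fderiv ℝ G y u) (fun y => fderiv ℝ g y u) T := fun y hy => by
    simp only [(e1 y hy).fderiv_eq]
  refine ⟨hi.integrableOn.congr_fun e4 hT.measurableSet, ?_⟩
  rw [← setIntegral_congr_fun hT.measurableSet e4, setIntegral_eq_integral_of_forall_compl_eq_zero
    fun y hy => by rw [(e3 y fun k => hy (hKT k)).fderiv_eq]; simp]
  have := haar
  have := integral_mul_fderiv_eq_neg_fderiv_mul_of_integrable (μ := volume)
    (f := fun _ : E => (1 : ℝ)) (g := G) (v := u) (by simp) (by simpa using hi)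
    (by simpa using hG.continuous.integrable_of_hasCompactSupport hc)
    (fun _ _ => differentiableAt_const _) fun y _ => hG.differentiable one_ne_zero y
  simpa using this

/-- Stokes' theorem for `d b ∧ β` with `β` closed and `b` of compact support. -/
theorem stokes {T K : Set E} (hT : IsOpen T) (hK : IsCompact K) (hKT : K ⊆ T)
    {b : E → E →L[ℝ] ℝ} {β : E → Bil E ℝ} (hb : ContDiffOn ℝ 1 b T) (hβ : ContDiffOn ℝ 1 β T)
    (h0 : ∀ y ∈ T, y ∉ K → b y = 0) (ha : ∀ y ∈ T, ∀ v, β y v v = 0)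
    (hc : ∀ y ∈ T, ∀ u v w, fderiv ℝ β y u v w + fderiv ℝ β y v w u + fderiv ℝ β y w u v = 0) :
    ∫ y in T, wedge (ext1 b y) (β y) = 0 := by
  let g (v w z : E) (y : E) : ℝ := b y v * β y w z
  have hg (v w z u : E) := int_fderiv hT hK hKT (g := g v w z)
    ((hb.clm_apply contDiffOn_const).mul ((hβ.clm_apply contDiffOn_const).clm_apply
      contDiffOn_const)) (fun y hy hk => by simp [g, h0 y hy hk]) u
  have hd (v w z u : E) (y) (hy : y ∈ T) : fderiv ℝ (g v w z) y u =
      fderiv ℝ b y u v * β y w z + b y v * fderiv ℝ β y u w z := by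
    have h1 := ((hb.contDiffAt (hT.mem_nhds hy)).differentiableAt one_ne_zero).hasFDerivAt
    have h2 := ((hβ.contDiffAt (hT.mem_nhds hy)).differentiableAt one_ne_zero).hasFDerivAt
    have h3 : HasFDerivAt (g v w z) _ y := (h1.clm_apply (hasFDerivAt_const v y)).mul
      ((h2.clm_apply (hasFDerivAt_const w y)).clm_apply (hasFDerivAt_const z y))
    rw [h3.fderiv]
    simp
    ring
  let s (v u w z : E) (y : E) : ℝ :=
    fderiv ℝ (g v w z) y u + fderiv ℝ (g v z u) y w + fderiv ℝ (g v u w) y z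
  have hs (v u w z : E) : IntegrableOn (s v u w z) T ∧ ∫ y in T, s v u w z y = 0 :=
    int_add (int_add (hg ..) (hg ..)) (hg ..)
  have e : EqOn (fun y => wedge (ext1 b y) (β y)) (fun y => s (bs 1) (bs 0) (bs 2) (bs 3) y
      + s (bs 3) (bs 0) (bs 1) (bs 2) y - (s (bs 0) (bs 1) (bs 2) (bs 3) y
      + s (bs 2) (bs 0) (bs 1) (bs 3) y)) T := fun y hy => by
    simp only [s, hd _ _ _ _ y hy, wedge_eq, ext1, sub_apply,
      ContinuousLinearMap.flip_apply, anti (ha y hy) (bs 2) (bs 0), anti (ha y hy) (bs 3) (bs 0),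
      anti (ha y hy) (bs 3) (bs 1)]
    linear_combination -(b y (bs 1) * hc y hy (bs 0) (bs 2) (bs 3)
      + b y (bs 3) * hc y hy (bs 0) (bs 1) (bs 2) - b y (bs 0) * hc y hy (bs 1) (bs 2) (bs 3)
      - b y (bs 2) * hc y hy (bs 0) (bs 1) (bs 3))
  rw [setIntegral_congr_fun hT.measurableSet e, integral_sub (int_add (hs ..) (hs ..)).1
    (int_add (hs ..) (hs ..)).1, (int_add (hs ..) (hs ..)).2, (int_add (hs ..) (hs ..)).2, sub_zero]

end Pool.Agent.Lib.MP_1c0d65_gt.PW.St
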