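import Pool.Agent.Lib.MP_1c0d65_gt.PW.Int
import Pool.Agent.Lib.MP_1c0d65_gt.PW.Plot
import Pool.Agent.Lib.MP_1c0d65_gt.PW.PairA
import Pool.Agent.Lib.MP_1c0d65_gt.PW.StE

/-! The intersection pairing: integrability, bilinearity, change of variables along plots. -/

set_option autoImplicit false
set_option linter.unusedSectionVars false

open scoped Manifold ContDiff Topology
open Set MeasureTheory Filter Metric

noncomputable section

namespace Pool.Agent.Lib.MP_1c0d65_gt.PW

variable {X : Type} [TopologicalSpace X] [ChartedSpace E X] [IsManifold 𝓘(ℝ, E) ∞ X]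
  [T2Space X] [CompactSpace X] [MeasurableSpace X] [BorelSpace X] {c : Ctx X}

theorem wedge_pull2 (f : E → X) (y : E) {α β : X → Bil E ℝ} (hα : ∀ v, α (f y) v v = 0)
    (hβ : ∀ v, β (f y) v v = 0) :
    wedge (pull2 f α y) (pull2 f β y) = (dif f y).det * wedge (α (f y)) (β (f y)) :=
  wedge_comp hα hβ _

theorem Ctx.om_alt (c : Ctx X) (x : X) (v : E) : c.om x v v = 0 := c.hom.1.1 x (mem_univ _) v

/-- A map that is holomorphic at `y` for a tame `J` and etale at `y` is positively oriented. -/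
theorem Ctx.wedge_pull_pos (c : Ctx X) {U : Set X} {J : X → E →L[ℝ] E} (hJ : Tame U c.om J)
    {f : E → X} {y : E} (hy : f y ∈ U) (hi : Function.Injective (dif f y))
    (hh : ∀ v, dif f y (Complex.I • v) = J (f y) (dif f y v)) :
    0 < wedge (pull2 f c.om y) (pull2 f c.om y) := by
  refine wedge_pos (fun v => c.om_alt _ _) fun v hv => ?_
  rw [pull2_apply, hh]
  exact (hJ.1 _ hy _).2 fun h => hv (hi (by rw [h, map_zero]))

theorem Ctx.wedge_om_ne (c : Ctx X) (x : X) : wedge (c.om x) (c.om x) ≠ 0 :=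
  St.wedge_ne (c.om_alt x) fun v hv => by
    by_contra h
    exact ((c.tame0.1 x (mem_univ _) v).2 h).ne' (hv _)

theorem Ctx.wedge_par_ne (c : Ctx X) (x : X) {y : E} (hy : y ∈ dom x univ) :
    wedge (pull2 (par x) c.om y) (pull2 (par x) c.om y) ≠ 0 :=
  St.wedge_ne (fun v => c.om_alt _ _) fun v hv => by
    by_contra h
    have h1 : dif (par x) y v ≠ 0 := fun e => h ((par_inv hy).injective (by rw [e, map_zero]))
    have h2 := hv (pullJ (par x) c.J0 y v)
    rw [pull2_apply, dif_pullJ (par_inv hy)] at h2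
    exact ((c.tame0.1 _ (mem_univ _) _).2 h1).ne' h2

/-- The integrand of the pairing read in a plot. -/
theorem Ctx.wedge_mul_dens (c : Ctx X) (f : E → X) (y : E) {α β : X → Bil E ℝ}
    (hα : ∀ v, α (f y) v v = 0) (hβ : ∀ v, β (f y) v v = 0) :
    wedge (pull2 f c.om y) (pull2 f c.om y) *
      (wedge (α (f y)) (β (f y)) / wedge (c.om (f y)) (c.om (f y))) =
      wedge (pull2 f α y) (pull2 f β y) := by
  rw [wedge_pull2 f y hα hβ, wedge_pull2 f y (c.om_alt _) (c.om_alt _)]
  have := c.wedge_om_ne (f y)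
  field_simp

theorem Ctx.continuousOn_dens (c : Ctx X) {U : Set X} (hU : IsOpen U) {α β : X → Bil E ℝ}
    (hα : Form U α) (hβ : Form U β) :
    ContinuousOn (fun x => wedge (α x) (β x) / wedge (c.om x) (c.om x)) U := by
  intro x hx
  apply ContinuousAt.continuousWithinAt
  have hd := isOpen_dom x hU
  have hx' : chartAt E x x ∈ dom x U := mem_dom (mem_chart_source E x) hx
  have hsub : dom x U ⊆ dom x univ := dom_mono x (subset_univ _)
  have h1 : ContinuousOn (fun y => wedge (pull2 (par x) α y) (pull2 (par x) β y) /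
      wedge (pull2 (par x) c.om y) (pull2 (par x) c.om y)) (dom x U) :=
    (ContinuousOn.wedge (hα.2 x).continuousOn (hβ.2 x).continuousOn).div
      (ContinuousOn.wedge ((c.hom.1.2 x).continuousOn.mono hsub)
        ((c.hom.1.2 x).continuousOn.mono hsub)) fun y hy => c.wedge_par_ne x (hsub hy)
  have h2 := (h1.continuousAt (hd.mem_nhds hx')).comp
    ((chartAt E x).continuousAt (mem_chart_source E x))
  refine h2.congr ?_
  filter_upwards [(chartAt E x).open_source.mem_nhds (mem_chart_source E x), hU.mem_nhds hx]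
    with z hz hzU
  have hz' : chartAt E x z ∈ dom x U := mem_dom hz hzU
  have h3 := c.wedge_mul_dens (par x) (chartAt E x z) (α := α) (β := β)
    (by rw [par_cht hz]; exact hα.1 z hzU) (by rw [par_cht hz]; exact hβ.1 z hzU)
  rw [par_cht hz] at h3
  simp only [Function.comp_apply]
  rw [← h3, mul_div_cancel_left₀ _ (c.wedge_par_ne x (hsub hz'))]

instance Ctx.isLocallyFiniteMeasure (c : Ctx X) : IsLocallyFiniteMeasure c.μ := by
  refine ⟨fun x => ?_⟩
  have hx' : chartAt E x x ∈ dom x univ := mem_dom (mem_chart_source E x) (mem_univ x)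
  obtain ⟨K, hK, hKd, hKc⟩ := local_compact_nhds ((isOpen_dom x isOpen_univ).mem_nhds hx')
  refine ⟨par x '' K, ?_, ?_⟩
  · have := (chartAt E x).symm.image_mem_nhds (x := chartAt E x x) hx'.1 hK
    rwa [(chartAt E x).left_inv (mem_chart_source E x)] at this
  · rw [c.vol x K hKc.measurableSet hKd]
    have h1 : ContinuousOn (fun y => wedge (pull2 (par x) c.om y) (pull2 (par x) c.om y)) K :=
      ContinuousOn.wedge ((c.hom.1.2 x).continuousOn.mono hKd)
        ((c.hom.1.2 x).continuousOn.mono hKd)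
    exact (h1.abs.integrableOn_compact hKc).lintegral_lt_top

instance Ctx.isFiniteMeasure (c : Ctx X) : IsFiniteMeasure c.μ := inferInstance

theorem Ctx.integrable_of_continuous (c : Ctx X) {g : X → ℝ} (hg : Continuous g) :
    Integrable g c.μ :=
  hg.integrable_of_hasCompactSupport (HasCompactSupport.of_compactSpace g)

theorem Q_integrable {α β : X → Bil E ℝ} (hα : Form univ α) (hβ : Form univ β) :
    Integrable (fun x => wedge (α x) (β x) / wedge (c.om x) (c.om x)) c.μ :=
  c.integrable_of_continuous (continuousOn_univ.1 (c.continuousOn_dens isOpen_univ hα hβ))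

theorem Q_symm (α β : X → Bil E ℝ) : c.Q α β = c.Q β α := by
  simp only [Ctx.Q, pair, wedge_comm (α _)]

theorem Q_smul_left (r : ℝ) (α β : X → Bil E ℝ) : c.Q (r • α) β = r * c.Q α β := by
  simp only [Ctx.Q, pair, Pi.smul_apply, wedge_smul_left, mul_div_assoc, integral_const_mul]

theorem Q_smul_right (r : ℝ) (α β : X → Bil E ℝ) : c.Q α (r • β) = r * c.Q α β := by
  rw [Q_symm, Q_smul_left, Q_symm]

theorem Q_zero_left (β : X → Bil E ℝ) : c.Q 0 β = 0 := by simp [Ctx.Q, pair]

theorem Q_zero_right (α : X → Bil E ℝ) : c.Q α 0 = 0 := by simp [Ctx.Q, pair]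

theorem Q_add_left {α α' β : X → Bil E ℝ} (hα : Form univ α) (hα' : Form univ α')
    (hβ : Form univ β) : c.Q (α + α') β = c.Q α β + c.Q α' β := by
  simp only [Ctx.Q, pair, Pi.add_apply, wedge_add_left, add_div]
  exact integral_add (Q_integrable hα hβ) (Q_integrable hα' hβ)

theorem Q_sub_left {α α' β : X → Bil E ℝ} (hα : Form univ α) (hα' : Form univ α')
    (hβ : Form univ β) : c.Q (α - α') β = c.Q α β - c.Q α' β := by
  simp only [Ctx.Q, pair, Pi.sub_apply, wedge_sub_left, sub_div]
  exact integral_sub (Q_integrable hα hβ) (Q_integrable hα' hβ)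

theorem Q_sum_left {ι : Type} (s : Finset ι) {α : ι → X → Bil E ℝ} {β : X → Bil E ℝ}
    (hα : ∀ i ∈ s, Form univ (α i)) (hβ : Form univ β) :
    c.Q (∑ i ∈ s, α i) β = ∑ i ∈ s, c.Q (α i) β := by
  simp only [Ctx.Q, pair, Finset.sum_apply, wedge_sum_left, Finset.sum_div]
  exact integral_finsetSum s fun i hi => Q_integrable (hα i hi) hβ

theorem Q_add_right {α β β' : X → Bil E ℝ} (hα : Form univ α) (hβ : Form univ β)
    (hβ' : Form univ β') : c.Q α (β + β') = c.Q α β + c.Q α β' := by
  rw [Q_symm, Q_add_left hβ hβ' hα, Q_symm β, Q_symm β']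

theorem Q_sub_right {α β β' : X → Bil E ℝ} (hα : Form univ α) (hβ : Form univ β)
    (hβ' : Form univ β') : c.Q α (β - β') = c.Q α β - c.Q α β' := by
  rw [Q_symm, Q_sub_left hβ hβ' hα, Q_symm β, Q_symm β']

theorem Q_sum_right {ι : Type} (s : Finset ι) {α : X → Bil E ℝ} {β : ι → X → Bil E ℝ}
    (hα : Form univ α) (hβ : ∀ i ∈ s, Form univ (β i)) :
    c.Q α (∑ i ∈ s, β i) = ∑ i ∈ s, c.Q α (β i) := by
  rw [Q_symm, Q_sum_left s hβ hα]
  exact Finset.sum_congr rfl fun i _ => Q_symm _ _

/-! ### Change of variables along an injective plot -/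

section
variable {f : E → X} {A : Set E}

theorem measurableSet_plot' (hf : ∀ y ∈ A, SmAt 1 f y) (hA : MeasurableSet A) (hi : InjOn f A) :
    MeasurableSet (f '' A) :=
  hA.image_of_continuousOn_injOn (fun y hy => (hf y hy).continuousAt.continuousWithinAt) hi

theorem Ctx.continuousOn_jac (c : Ctx X) (hf : ∀ y ∈ A, SmAt 1 f y) :
    ContinuousOn (fun y => wedge (pull2 f c.om y) (pull2 f c.om y)) A := by
  have : ContinuousOn (pull2 f c.om) A := fun y hy =>
    (c.hom.1.contDiffAt (n := 0) isOpen_univ (by simp) (by simp) (hf y hy)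
      (mem_univ _)).continuousAt.continuousWithinAt
  exact ContinuousOn.wedge this this

theorem Ctx.measure_plot_chart (c : Ctx X) (hf : ∀ y ∈ A, SmAt 1 f y) (hA : MeasurableSet A)
    (hi : InjOn f A) (x : X) (hx : MapsTo f A (chartAt E x).source) : c.μ (f '' A) =
      ∫⁻ y in A, ENNReal.ofReal |wedge (pull2 f c.om y) (pull2 f c.om y)| := by
  have : (volume : Measure E).IsAddHaarMeasure := Measure.prod.instIsAddHaarMeasure _ _
  have he := isChart_chartAt (X := X) x
  have hd : ∀ y ∈ A, HasFDerivWithinAt (chartAt E x ∘ f) (fderiv ℝ (chartAt E x ∘ f) y) A y :=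
    fun y hy => (he.loc_diff ((hf y hy).dfAt (by simp)) (hx hy)).hasFDerivAt.hasFDerivWithinAt
  have hj : InjOn (chartAt E x ∘ f) A := (chartAt E x).injOn.comp hi hx
  have h1 : f '' A = par x '' ((chartAt E x ∘ f) '' A) := by
    rw [← image_comp]
    exact image_congr fun y hy => (par_cht (hx hy)).symm
  rw [h1, c.vol x _ (measurable_image_of_fderivWithin hA hd hj)
    (by rintro _ ⟨y, hy, rfl⟩; exact mem_dom (hx hy) (mem_univ _)),
    lintegral_image_eq_lintegral_abs_det_fderiv_mul volume hA hd hj]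
  refine setLIntegral_congr_fun hA fun y hy => ?_
  have ha : ∀ v, pull2 (chartAt E x).symm c.om (chartAt E x (f y)) v v = 0 :=
    fun v => c.om_alt _ _
  rw [he.pull2_loc ((hf y hy).dfAt (by simp)) (hx hy), wedge_comp ha ha, abs_mul,
    ENNReal.ofReal_mul (abs_nonneg _)]
  rfl

theorem Ctx.measure_plot (c : Ctx X) (hf : ∀ y ∈ A, SmAt 1 f y) (hA : MeasurableSet A)
    (hi : InjOn f A) : c.μ (f '' A) =
      ∫⁻ y in A, ENNReal.ofReal |wedge (pull2 f c.om y) (pull2 f c.om y)| := by
  obtain ⟨t, ht⟩ := isCompact_univ.elim_finite_subcover (fun x : X => (chartAt E x).source)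
    (fun x => (chartAt E x).open_source) fun x _ => mem_iUnion.2 ⟨x, mem_chart_source E x⟩
  suffices H : ∀ (t : Finset X) (A : Set E), (∀ y ∈ A, SmAt 1 f y) → MeasurableSet A →
      InjOn f A → MapsTo f A (⋃ x ∈ t, (chartAt E x).source) → c.μ (f '' A) =
      ∫⁻ y in A, ENNReal.ofReal |wedge (pull2 f c.om y) (pull2 f c.om y)| from
    H t A hf hA hi fun y _ => ht (mem_univ _)
  classical
  intro t
  induction t using Finset.induction_on with
  | empty =>
    intro A _ _ _ hm
    have : A = ∅ := eq_empty_of_forall_notMem fun y hy => by simpa using hm hy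
    simp [this]
  | insert x t hx ih =>
    intro A hf hA hi hm
    have hc : ContinuousOn f A := fun y hy => (hf y hy).continuousAt.continuousWithinAt
    obtain ⟨O, hO, hOe⟩ := continuousOn_iff'.1 hc _ (chartAt E x).open_source
    have hm1 : MapsTo f (A ∩ O) (chartAt E x).source := fun y hy => by
      have : y ∈ O ∩ A := ⟨hy.2, hy.1⟩
      rw [← hOe] at this
      exact this.1
    have hm2 : MapsTo f (A \ O) (⋃ x ∈ t, (chartAt E x).source) := fun y hy => by
      have := hm hy.1
      rw [Finset.set_biUnion_insert] at this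
      refine this.resolve_left fun h => hy.2 ?_
      have h' : y ∈ f ⁻¹' (chartAt E x).source ∩ A := ⟨h, hy.1⟩
      rw [hOe] at h'
      exact h'.1
    have hA1 := hA.inter hO.measurableSet
    have hA2 := hA.diff hO.measurableSet
    have e1 := c.measure_plot_chart (fun y hy => hf y hy.1) hA1 (hi.mono inter_subset_left) x hm1
    have e2 := ih (A \ O) (fun y hy => hf y hy.1) hA2 (hi.mono sdiff_subset) hm2
    have hdis : Disjoint (f '' (A ∩ O)) (f '' (A \ O)) := by
      rw [disjoint_left]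
      rintro _ ⟨y, hy, rfl⟩ ⟨z, hz, h⟩
      exact hz.2 (hi hz.1 hy.1 h ▸ hy.2)
    rw [← lintegral_inter_add_sdiff _ A hO.measurableSet, ← e1, ← e2,
      ← measure_union hdis (measurableSet_plot' (fun y hy => hf y hy.1) hA2 (hi.mono sdiff_subset)),
      ← image_union, inter_union_sdiff]

theorem Ctx.map_plot (c : Ctx X) (hf : ∀ y ∈ A, SmAt 1 f y) (hA : MeasurableSet A)
    (hi : InjOn f A) : Measure.map (A.domRestrict f) (Measure.comap (↑) (volume.withDensity
      fun y => ENNReal.ofReal |wedge (pull2 f c.om y) (pull2 f c.om y)|)) =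
      c.μ.restrict (f '' A) := by
  have hc : ContinuousOn f A := fun y hy => (hf y hy).continuousAt.continuousWithinAt
  have hme := hc.measurableEmbedding hA hi
  ext B hB
  have hS : MeasurableSet (((↑) : A → E) '' (A.domRestrict f ⁻¹' B)) :=
    (MeasurableEmbedding.subtype_coe hA).measurableSet_image.2 (hme.measurable hB)
  have hSA : ((↑) : A → E) '' (A.domRestrict f ⁻¹' B) ⊆ A := by
    rintro _ ⟨y, _, rfl⟩; exact y.2
  rw [Measure.map_apply hme.measurable hB, (MeasurableEmbedding.subtype_coe hA).comap_apply,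
    withDensity_apply _ hS, Measure.restrict_apply hB,
    ← c.measure_plot (fun y hy => hf y (hSA hy)) hS (hi.mono hSA)]
  congr 1
  ext z
  constructor
  · rintro ⟨_, ⟨y, hy, rfl⟩, rfl⟩
    exact ⟨hy, y, y.2, rfl⟩
  · rintro ⟨hz, y, hy, rfl⟩
    exact ⟨y, ⟨⟨y, hy⟩, hz, rfl⟩, rfl⟩

theorem Ctx.aemeasurable_jac (c : Ctx X) (hf : ∀ y ∈ A, SmAt 1 f y) (hA : MeasurableSet A) :
    AEMeasurable (fun y => Real.toNNReal |wedge (pull2 f c.om y) (pull2 f c.om y)|)
      (volume.restrict A) :=
  ((c.continuousOn_jac hf).abs.aemeasurable hA).real_toNNReal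

theorem integral_plot' {F : Type} [NormedAddCommGroup F] [NormedSpace ℝ F]
    (hf : ∀ y ∈ A, SmAt 1 f y) (hA : MeasurableSet A) (hi : InjOn f A) (g : X → F) :
    ∫ x in f '' A, g x ∂c.μ = ∫ y in A, |wedge (pull2 f c.om y) (pull2 f c.om y)| • g (f y) := by
  have hc : ContinuousOn f A := fun y hy => (hf y hy).continuousAt.continuousWithinAt
  rw [← c.map_plot hf hA hi, (hc.measurableEmbedding hA hi).integral_map]
  simp only [Set.domRestrict_apply, ← Function.comp_apply (f := g), ENNReal.ofReal]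
  rw [← (MeasurableEmbedding.subtype_coe hA).integral_map, map_comap_subtype_coe hA,
    setIntegral_withDensity_eq_setIntegral_smul₀ (c.aemeasurable_jac hf hA) _ hA]
  congr with x
  rw [NNReal.smul_def, Real.coe_toNNReal _ (abs_nonneg _)]

theorem integrableOn_plot' {F : Type} [NormedAddCommGroup F] [NormedSpace ℝ F]
    (hf : ∀ y ∈ A, SmAt 1 f y) (hA : MeasurableSet A) (hi : InjOn f A) (g : X → F) :
    IntegrableOn g (f '' A) c.μ ↔
      IntegrableOn (fun y => |wedge (pull2 f c.om y) (pull2 f c.om y)| • g (f y)) A := by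
  have hc : ContinuousOn f A := fun y hy => (hf y hy).continuousAt.continuousWithinAt
  rw [IntegrableOn, ← c.map_plot hf hA hi, (hc.measurableEmbedding hA hi).integrable_map_iff]
  simp only [Set.domRestrict_eq, ← Function.comp_assoc, ENNReal.ofReal]
  rw [← (MeasurableEmbedding.subtype_coe hA).integrable_map_iff, map_comap_subtype_coe hA,
    restrict_withDensity hA, integrable_withDensity_iff_integrable_coe_smul₀]
  · simp_rw [IntegrableOn, Real.coe_toNNReal _ (abs_nonneg _), Function.comp_apply]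
  · exact c.aemeasurable_jac hf hA

/-- The pairing read in an injective, positively oriented plot. -/
theorem Q_plot' (hf : ∀ y ∈ A, SmAt 1 f y) (hA : MeasurableSet A) (hi : InjOn f A)
    (hpos : ∀ y ∈ A, 0 ≤ wedge (pull2 f c.om y) (pull2 f c.om y))
    {α β : X → Bil E ℝ} (hα : ∀ y ∈ A, ∀ v, α (f y) v v = 0) (hβ : ∀ y ∈ A, ∀ v, β (f y) v v = 0)
    (h0 : ∀ x ∉ f '' A, wedge (α x) (β x) = 0) :
    c.Q α β = ∫ y in A, wedge (pull2 f α y) (pull2 f β y) := by
  rw [Ctx.Q, pair, ← setIntegral_eq_integral_of_forall_compl_eq_zero (s := f '' A)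
    (fun x hx => by rw [h0 x hx, zero_div]), integral_plot' hf hA hi]
  refine setIntegral_congr_fun hA fun y hy => ?_
  rw [abs_of_nonneg (hpos y hy), smul_eq_mul, c.wedge_mul_dens f y (hα y hy) (hβ y hy)]

/-- Integrability of the pull-back of `α ∧ β` along an injective plot. -/
theorem integrableOn_wedge_plot (c : Ctx X) (hf : ∀ y ∈ A, SmAt 1 f y) (hA : MeasurableSet A)
    (hi : InjOn f A) (hpos : ∀ y ∈ A, 0 ≤ wedge (pull2 f c.om y) (pull2 f c.om y))
    {α β : X → Bil E ℝ} (hα : Form univ α) (hβ : Form univ β) :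
    IntegrableOn (fun y => wedge (pull2 f α y) (pull2 f β y)) A := by
  refine ((integrableOn_plot' hf hA hi _).1 (Q_integrable (c := c) hα hβ).integrableOn).congr_fun
    (fun y hy => ?_) hA
  simp only
  rw [abs_of_nonneg (hpos y hy), smul_eq_mul,
    c.wedge_mul_dens f y (hα.1 _ (mem_univ _)) (hβ.1 _ (mem_univ _))]

variable {D : Set E}

theorem smAt_of_on (hD : IsOpen D) (hf : ContMDiffOn 𝓘(ℝ, E) 𝓘(ℝ, E) ∞ f D) (hAD : A ⊆ D) :
    ∀ y ∈ A, SmAt 1 f y := fun _ hy => (hf.contMDiffAt (hD.mem_nhds (hAD hy))).of_le (by simp)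

theorem measurableSet_plot (hD : IsOpen D) (hf : ContMDiffOn 𝓘(ℝ, E) 𝓘(ℝ, E) ∞ f D)
    (hA : MeasurableSet A) (hAD : A ⊆ D) (hi : InjOn f A) : MeasurableSet (f '' A) :=
  measurableSet_plot' (smAt_of_on hD hf hAD) hA hi

theorem integral_plot (hD : IsOpen D) (hf : ContMDiffOn 𝓘(ℝ, E) 𝓘(ℝ, E) ∞ f D)
    (hA : MeasurableSet A) (hAD : A ⊆ D) (hi : InjOn f A) (g : X → ℝ) :
    ∫ x in f '' A, g x ∂c.μ = ∫ y in A, |wedge (pull2 f c.om y) (pull2 f c.om y)| * g (f y) :=
  integral_plot' (smAt_of_on hD hf hAD) hA hi g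

theorem integrableOn_plot (hD : IsOpen D) (hf : ContMDiffOn 𝓘(ℝ, E) 𝓘(ℝ, E) ∞ f D)
    (hA : MeasurableSet A) (hAD : A ⊆ D) (hi : InjOn f A) (g : X → ℝ) :
    IntegrableOn g (f '' A) c.μ ↔
      IntegrableOn (fun y => |wedge (pull2 f c.om y) (pull2 f c.om y)| * g (f y)) A :=
  integrableOn_plot' (smAt_of_on hD hf hAD) hA hi g

theorem Q_plot (hD : IsOpen D) (hf : ContMDiffOn 𝓘(ℝ, E) 𝓘(ℝ, E) ∞ f D) (hA : MeasurableSet A)
    (hAD : A ⊆ D) (hi : InjOn f A) (hpos : ∀ y ∈ A, 0 < wedge (pull2 f c.om y) (pull2 f c.om y))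
    {α β : X → Bil E ℝ} (hα : ∀ y ∈ A, ∀ v, α (f y) v v = 0) (hβ : ∀ y ∈ A, ∀ v, β (f y) v v = 0)
    (h0 : ∀ x ∉ f '' A, wedge (α x) (β x) = 0) :
    c.Q α β = ∫ y in A, wedge (pull2 f α y) (pull2 f β y) :=
  Q_plot' (smAt_of_on hD hf hAD) hA hi (fun y hy => (hpos y hy).le) hα hβ h0

end

theorem par_image (x : X) : par x '' dom x univ = (chartAt E x).source := by
  rw [dom_univ]; exact (chartAt E x).symm_image_target_eq_source

theorem par_injOn (x : X) : InjOn (par x) (dom x univ) := by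
  rw [dom_univ]; exact (chartAt E x).symm.injOn

/-- The pairing vanishes if the integrals over the two sign parts of a chart vanish. -/
theorem Q_par_zero (x : X) {α β : X → Bil E ℝ} (hα : Form univ α) (hβ : Form univ β)
    (h0 : ∀ z ∉ (chartAt E x).source, wedge (α z) (β z) = 0)
    (h : ∀ s : ℝ, s = 1 ∨ s = -1 → ∫ y in dom x univ ∩
      {y | 0 < s * wedge (pull2 (par x) c.om y) (pull2 (par x) c.om y)},
        wedge (pull2 (par x) α y) (pull2 (par x) β y) = 0) : c.Q α β = 0 := by
  have hf : ∀ y ∈ dom x univ, SmAt 1 (par x) y := fun _ hy => (par_smAt hy).of_le (by simp)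
  have hD := isOpen_dom x (isOpen_univ (X := X))
  set w := fun y => wedge (pull2 (par x) c.om y) (pull2 (par x) c.om y) with hw
  have hT : ∀ s : ℝ, MeasurableSet (dom x univ ∩ {y | 0 < s * w y}) := fun s =>
    ((continuousOn_const.mul (c.continuousOn_jac hf)).isOpen_inter_preimage hD
      isOpen_Ioi).measurableSet
  have hI := (integrableOn_plot' hf hD.measurableSet (par_injOn x) _).1
    (Q_integrable (c := c) hα hβ).integrableOn
  have key : ∀ s : ℝ, s = 1 ∨ s = -1 → ∫ y in dom x univ ∩ {y | 0 < s * w y}, |w y| •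
      (wedge (α (par x y)) (β (par x y)) / wedge (c.om (par x y)) (c.om (par x y))) = 0 := by
    intro s hs
    rw [setIntegral_congr_fun (hT s)
      (g := fun y => s * wedge (pull2 (par x) α y) (pull2 (par x) β y)) fun y hy => ?_,
      integral_const_mul, h s hs, mul_zero]
    have e : |w y| = s * w y := by
      have := hy.2
      rcases hs with rfl | rfl
      · rw [one_mul, abs_of_pos (by simpa using this)]
      · rw [neg_one_mul, abs_of_neg (by simpa using this)]
    simp only [e, smul_eq_mul, mul_assoc]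
    rw [← c.wedge_mul_dens (par x) y (hα.1 _ (mem_univ _)) (hβ.1 _ (mem_univ _))]
  have e : dom x univ = dom x univ ∩ {y | 0 < 1 * w y} ∪ dom x univ ∩ {y | 0 < -1 * w y} := by
    rw [← inter_union_distrib_left]
    refine (inter_eq_left.2 fun y hy => ?_).symm
    rcases (c.wedge_par_ne x hy).lt_or_gt with h | h
    exacts [Or.inr (by simpa using h), Or.inl (by simpa using h)]
  rw [Ctx.Q, pair, ← setIntegral_eq_integral_of_forall_compl_eq_zero (s := par x '' dom x univ)
    (fun z hz => by rw [h0 z (by rwa [par_image] at hz), zero_div]),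
    integral_plot' hf hD.measurableSet (par_injOn x), e,
    setIntegral_union ?_ (hT _) (hI.mono_set inter_subset_left) (hI.mono_set inter_subset_left),
    key _ (Or.inl rfl), key _ (Or.inr rfl), add_zero]
  refine disjoint_left.2 fun y h1 h2 => ?_
  have h3 : 0 < 1 * w y := h1.2
  have h4 : 0 < -1 * w y := h2.2
  linarith

end Pool.Agent.Lib.MP_1c0d65_gt.PW
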