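import Pool.Agent.Lib.MP_1c0d65_gt.PW.Plot

/-! Plots: the exterior derivative is natural. -/

set_option autoImplicit false
set_option linter.unusedSectionVars false

open scoped Manifold ContDiff Topology
open Set Filter

noncomputable section

namespace Pool.Agent.Lib.MP_1c0d65_gt.PW

variable {X : Type} [TopologicalSpace X] [ChartedSpace E X]
  {V V' W : Type} [NormedAddCommGroup V] [NormedSpace ℝ V] [NormedAddCommGroup V']
  [NormedSpace ℝ V'] [NormedAddCommGroup W] [NormedSpace ℝ W]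

/-- The exterior derivative of a one-form on `X`. -/
def dform (a : X → E →L[ℝ] W) (x : X) : Bil E W := ext1 (pull1 (par x) a) (chartAt E x x)

/-- The product of a real one-form and a one-form. -/
def w11 (a : V →L[ℝ] ℝ) (b : V →L[ℝ] W) : Bil V W := a.smulRight b - (a.smulRight b).flip

@[simp] theorem w11_apply (a : V →L[ℝ] ℝ) (b : V →L[ℝ] W) (v w : V) :
    w11 a b v w = a v • b w - a w • b v := rfl

theorem ext1_apply (a : V → V →L[ℝ] W) (y v w : V) :
    ext1 a y v w = fderiv ℝ a y v w - fderiv ℝ a y w v := rfl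

theorem ext1_alt (a : V → V →L[ℝ] W) (y v : V) : ext1 a y v v = 0 := sub_self _

theorem closed_iff {α : X → Bil E ℝ} : Closed α ↔ Form univ α ∧
    ∀ x, ∀ y ∈ dom x univ, ∀ a b c, ext2 (pull2 (par x) α) y a b c = 0 := Iff.rfl

theorem ext1_congr {a b : V → V →L[ℝ] W} {y : V} (h : a =ᶠ[𝓝 y] b) : ext1 a y = ext1 b y := by
  rw [ext1, ext1, h.fderiv_eq]

theorem ext2_congr {α β : V → Bil V W} {y : V} (h : α =ᶠ[𝓝 y] β) : ext2 α y = ext2 β y := by
  funext a b c; rw [ext2, ext2, h.fderiv_eq]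

theorem bil_ext {α β : Bil V W} (h : ∀ v w, α v w = β v w) : α = β :=
  ContinuousLinearMap.ext fun v => ContinuousLinearMap.ext fun w => h v w

theorem bil_skew {α : Bil V W} (h : ∀ v, α v v = 0) (v w : V) : α v w = -α w v := by
  have := h (v + w)
  simp only [map_add, add_apply, h, zero_add, add_zero] at this
  exact eq_neg_of_add_eq_zero_right this

section Generic
/-! Real versions of calculus lemmas; give `(G := Bil V W)` when unification needs help. -/
variable {G G' : Type} [NormedAddCommGroup G] [NormedSpace ℝ G] [NormedAddCommGroup G']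
  [NormedSpace ℝ G'] {f g : V → G} {y : V} {n : WithTop ℕ∞}

theorem fd_add (hf : DifferentiableAt ℝ f y) (hg : DifferentiableAt ℝ g y) (v : V) :
    fderiv ℝ (f + g) y v = fderiv ℝ f y v + fderiv ℝ g y v := by rw [fderiv_add hf hg]; rfl

theorem fd_smul (r : ℝ) (hf : DifferentiableAt ℝ f y) (v : V) :
    fderiv ℝ (r • f) y v = r • fderiv ℝ f y v := by rw [fderiv_const_smul hf]; rfl

theorem fd_fsmul {h : V → ℝ} (hh : DifferentiableAt ℝ h y) (hf : DifferentiableAt ℝ f y) (v : V) :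
    fderiv ℝ (fun z => h z • f z) y v = fderiv ℝ h y v • f y + h y • fderiv ℝ f y v := by
  rw [fderiv_fun_smul hh hf, add_comm]; rfl

theorem cd_clm (L : G →L[ℝ] G') (hf : ContDiffAt ℝ n f y) : ContDiffAt ℝ n (fun z => L (f z)) y :=
  L.contDiff.contDiffAt.comp y hf

theorem df_clm (L : G →L[ℝ] G') (hf : DifferentiableAt ℝ f y) :
    DifferentiableAt ℝ (fun z => L (f z)) y := L.differentiableAt.comp y hf

theorem cd_fsmul {h : V → ℝ} (hh : ContDiffAt ℝ n h y) (hf : ContDiffAt ℝ n f y) :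
    ContDiffAt ℝ n (fun z => h z • f z) y := hh.smul hf

theorem cd_diff (hf : ContDiffAt ℝ ∞ f y) : DifferentiableAt ℝ f y := hf.differentiableAt (by simp)

end Generic

/-- The transposition of bilinear maps. -/
def flipL : Bil V W →L[ℝ] Bil V W :=
  (ContinuousLinearMap.flipₗᵢ ℝ V V W).toContinuousLinearEquiv.toContinuousLinearMap

theorem contDiffAt_ext1 {n m : WithTop ℕ∞} (hm : n + 1 ≤ m) {a : V → V →L[ℝ] W} {y : V}
    (ha : ContDiffAt ℝ m a y) : ContDiffAt ℝ n (ext1 a) y := by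
  have h := ha.fderiv_right hm
  have h2 := cd_clm (G := Bil V W) (G' := Bil V W) flipL h
  exact h.sub h2

theorem fderiv_ap1 {P : Type} [NormedAddCommGroup P] [NormedSpace ℝ P] {F : P → V →L[ℝ] W} {y : P}
    (hF : DifferentiableAt ℝ F y) (a : P) (b : V) :
    fderiv ℝ F y a b = fderiv ℝ (fun z => F z b) y a := by
  rw [fderiv_clm_apply hF (differentiableAt_const b)]; simp

theorem fderiv_ap2 {P : Type} [NormedAddCommGroup P] [NormedSpace ℝ P] {F : P → Bil V W} {y : P}
    (hF : DifferentiableAt ℝ F y) (a : P) (b c : V) :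
    fderiv ℝ F y a b c = fderiv ℝ (fun z => F z b c) y a := by
  rw [fderiv_ap1 hF, fderiv_ap1 (hF.clm_apply (differentiableAt_const b))]

theorem snd_symm {g : V → W} {y : V} (hg : ContDiffAt ℝ 2 g y) (v w : V) :
    fderiv ℝ (fderiv ℝ g) y v w = fderiv ℝ (fderiv ℝ g) y w v :=
  hg.isSymmSndFDerivAt (by simp) v w

theorem diff_fderiv {g : V → W} {y : V} (hg : ContDiffAt ℝ 2 g y) :
    DifferentiableAt ℝ (fderiv ℝ g) y :=
  (hg.fderiv_right (m := 1) (by norm_num)).differentiableAt (by simp)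

theorem ext1_fderiv {g : V → W} {y : V} (hg : ContDiffAt ℝ 2 g y) : ext1 (fderiv ℝ g) y = 0 :=
  bil_ext fun v w => by rw [ext1_apply, snd_symm hg, sub_self]; rfl

theorem ext2_ext1 {a : V → V →L[ℝ] W} {y : V} (ha : ContDiffAt ℝ 2 a y) (u v w : V) :
    ext2 (ext1 a) y u v w = 0 := by
  have h1 := diff_fderiv ha
  have h2 : DifferentiableAt ℝ (ext1 a) y :=
    (contDiffAt_ext1 (n := 1) (by norm_num) ha).differentiableAt (by simp)
  have h3 : ∀ u v w, fderiv ℝ (ext1 a) y u v w =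
      fderiv ℝ (fderiv ℝ a) y u v w - fderiv ℝ (fderiv ℝ a) y u w v := fun u v w => by
    have d : ∀ v w, DifferentiableAt ℝ (fun z => fderiv ℝ a z v w) y := fun v w =>
      (h1.clm_apply (differentiableAt_const _)).clm_apply (differentiableAt_const _)
    rw [fderiv_ap2 h2, fderiv_ap2 h1, fderiv_ap2 h1]
    simp only [ext1_apply]
    rw [fderiv_fun_sub (d v w) (d w v)]; rfl
  rw [ext2, h3, h3, h3, snd_symm ha u v, snd_symm ha u w, snd_symm ha v w]
  abel

theorem ext1_comp {a : V → V →L[ℝ] W} {g : V' → V} {y : V'} (ha : DifferentiableAt ℝ a (g y))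
    (hg : ContDiffAt ℝ 2 g y) : ext1 (fun z => (a (g z)).comp (fderiv ℝ g z)) y =
      (ext1 a (g y)).bilinearComp (fderiv ℝ g y) (fderiv ℝ g y) := by
  have h0 := hg.differentiableAt (by simp)
  have h1 : DifferentiableAt ℝ (fun z => a (g z)) y := ha.comp y h0
  have h2 : fderiv ℝ (fun z => a (g z)) y = (fderiv ℝ a (g y)).comp (fderiv ℝ g y) :=
    fderiv_comp y ha h0
  refine bil_ext fun v w => ?_
  rw [ext1_apply, fderiv_clm_comp h1 (diff_fderiv hg), h2]
  simp [ext1_apply, snd_symm hg v w]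

theorem ext2_comp {β : V → Bil V W} {g : V' → V} {y : V'} (hβ : DifferentiableAt ℝ β (g y))
    (alt : ∀ v, β (g y) v v = 0) (hg : ContDiffAt ℝ 2 g y) (a b c : V') :
    ext2 (fun z => (β (g z)).bilinearComp (fderiv ℝ g z) (fderiv ℝ g z)) y a b c =
      ext2 β (g y) (fderiv ℝ g y a) (fderiv ℝ g y b) (fderiv ℝ g y c) := by
  have h0 := hg.differentiableAt (by simp)
  have h1 : DifferentiableAt ℝ (fun z => β (g z)) y :=
    DifferentiableAt.comp (G := Bil V W) y hβ h0
  have h2 : fderiv ℝ (fun z => β (g z)) y = (fderiv ℝ β (g y)).comp (fderiv ℝ g y) :=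
    fderiv_comp (G := Bil V W) y hβ h0
  have h3 := diff_fderiv hg
  have h4 : DifferentiableAt ℝ
      (fun z => ((β (g z)).bilinearComp (fderiv ℝ g z) (fderiv ℝ g z) : Bil V' W)) y := by
    have := df_clm (G := V' →L[ℝ] V) (G' := (V →L[ℝ] W) →L[ℝ] V' →L[ℝ] W)
      (ContinuousLinearMap.compL ℝ V' V W).flip h3
    exact this.clm_comp (h1.clm_comp h3)
  have h5 : ∀ v, DifferentiableAt ℝ (fun z => fderiv ℝ g z v) y := fun v =>
    h3.clm_apply (differentiableAt_const _)
  have h6 : ∀ a b c, fderiv ℝ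
      (fun z => ((β (g z)).bilinearComp (fderiv ℝ g z) (fderiv ℝ g z) : Bil V' W)) y a b c =
      fderiv ℝ β (g y) (fderiv ℝ g y a) (fderiv ℝ g y b) (fderiv ℝ g y c) +
      β (g y) (fderiv ℝ (fderiv ℝ g) y a b) (fderiv ℝ g y c) +
      β (g y) (fderiv ℝ g y b) (fderiv ℝ (fderiv ℝ g) y a c) := fun a b c => by
    rw [fderiv_ap2 h4]
    simp only [ContinuousLinearMap.bilinearComp_apply]
    rw [fderiv_clm_apply (h1.clm_apply (h5 b)) (h5 c), fderiv_clm_apply h1 (h5 b), h2,
      fderiv_ap1 h3, fderiv_ap1 h3]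
    simp only [add_apply, ContinuousLinearMap.comp_apply, ContinuousLinearMap.flip_apply]
    abel
  rw [ext2, h6, h6, h6, ext2, snd_symm hg b a, snd_symm hg c a, snd_symm hg c b,
    bil_skew alt (fderiv ℝ (fderiv ℝ g) y a b), bil_skew alt (fderiv ℝ (fderiv ℝ g) y b c),
    bil_skew alt (fderiv ℝ (fderiv ℝ g) y a c)]
  abel

theorem ext1_add {a b : V → V →L[ℝ] W} {y : V} (ha : DifferentiableAt ℝ a y)
    (hb : DifferentiableAt ℝ b y) : ext1 (a + b) y = ext1 a y + ext1 b y :=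
  bil_ext fun v w => by
    simp only [ext1_apply, fderiv_add ha hb, add_apply]; abel

theorem ext1_smul (r : ℝ) {a : V → V →L[ℝ] W} {y : V} (ha : DifferentiableAt ℝ a y) :
    ext1 (r • a) y = r • ext1 a y :=
  bil_ext fun v w => by
    simp only [ext1_apply, fderiv_const_smul ha, smul_apply, smul_sub]

theorem ext1_fsmul {h : V → ℝ} {a : V → V →L[ℝ] W} {y : V} (hh : DifferentiableAt ℝ h y)
    (ha : DifferentiableAt ℝ a y) :
    ext1 (fun z => h z • a z) y = w11 (fderiv ℝ h y) (a y) + h y • ext1 a y :=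
  bil_ext fun v w => by
    simp only [ext1_apply, fderiv_fun_smul hh ha, add_apply, smul_apply, w11_apply,
      ContinuousLinearMap.smulRight_apply, smul_sub]
    abel

theorem ext2_add {α β : V → Bil V W} {y : V} (ha : DifferentiableAt ℝ α y)
    (hb : DifferentiableAt ℝ β y) (a b c : V) :
    ext2 (α + β) y a b c = ext2 α y a b c + ext2 β y a b c := by
  simp only [ext2, fd_add (G := Bil V W) ha hb, add_apply]; abel

theorem ext2_smul (r : ℝ) {α : V → Bil V W} {y : V} (ha : DifferentiableAt ℝ α y) (a b c : V) :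
    ext2 (r • α) y a b c = r • ext2 α y a b c := by
  simp only [ext2, fd_smul (G := Bil V W) r ha, smul_apply, smul_add]

theorem ext2_fsmul {h : V → ℝ} {α : V → Bil V W} {y : V} (hh : DifferentiableAt ℝ h y)
    (ha : DifferentiableAt ℝ α y) (a b c : V) : ext2 (fun z => h z • α z) y a b c =
      fderiv ℝ h y a • α y b c + fderiv ℝ h y b • α y c a + fderiv ℝ h y c • α y a b +
        h y • ext2 α y a b c := by
  simp only [ext2, fd_fsmul (G := Bil V W) hh ha, add_apply, smul_apply, smul_add]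
  abel

/-! ### Naturality along plots -/

variable [IsManifold 𝓘(ℝ, E) ∞ X] {U : Set X} {e : OpenPartialHomeomorph X E}

theorem two_le : (2 : WithTop ℕ∞) ≤ ∞ := by
  exact WithTop.coe_le_coe.2 (le_top : (2 : ℕ∞) ≤ ⊤)

theorem IsChart.ext1_loc (he : IsChart e) {f : V → X} {y : V} (hf : SmAt 2 f y)
    (hy : f y ∈ e.source) {a : X → E →L[ℝ] W} (ha : DifferentiableAt ℝ (pull1 e.symm a) (e (f y))) :
    ext1 (pull1 f a) y = (ext1 (pull1 e.symm a) (e (f y))).bilinearComp (fderiv ℝ (e ∘ f) y)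
      (fderiv ℝ (e ∘ f) y) := by
  refine Eq.trans (ext1_congr ?_) (ext1_comp (g := e ∘ f) ha (he.loc two_le hf hy))
  filter_upwards [hf.ev_dfAt (by norm_num),
    hf.continuousAt.preimage_mem_nhds (e.open_source.mem_nhds hy)] with z h2 h3
  exact he.pull1_loc h2 h3 a

theorem IsChart.ext2_loc (he : IsChart e) {f : V → X} {y : V} (hf : SmAt 2 f y)
    (hy : f y ∈ e.source) {α : X → Bil E W} (alt : ∀ v, α (f y) v v = 0)
    (ha : DifferentiableAt ℝ (pull2 e.symm α) (e (f y))) (a b c : V) :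
    ext2 (pull2 f α) y a b c = ext2 (pull2 e.symm α) (e (f y)) (fderiv ℝ (e ∘ f) y a)
      (fderiv ℝ (e ∘ f) y b) (fderiv ℝ (e ∘ f) y c) := by
  refine Eq.trans ?_ (ext2_comp (g := e ∘ f) ha (fun v => ?_) (he.loc two_le hf hy) a b c)
  · rw [ext2_congr]
    filter_upwards [hf.ev_dfAt (by norm_num),
      hf.continuousAt.preimage_mem_nhds (e.open_source.mem_nhds hy)] with z h2 h3
    exact he.pull2_loc h2 h3 α
  · rw [pull2_apply, Function.comp_apply, e.left_inv hy, alt]

theorem IsD.sm1 {a : X → E →L[ℝ] ℝ} {α : X → Bil E ℝ} (h : IsD U a α) : Sm1 U a :=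
  fun x => (h x).1

theorem Sm1.pull_dform {a : X → E →L[ℝ] W} (h : Sm1 U a) (hU : IsOpen U) {f : V → X} {y : V}
    (hf : SmAt 2 f y) (hy : f y ∈ U) : pull2 f (dform a) y = ext1 (pull1 f a) y := by
  have he := isChart_chartAt (f y)
  have hs := mem_chart_source E (f y)
  rw [he.ext1_loc hf hs ((at_of_on hU hy (h _)).differentiableAt (by simp)),
    he.pull2_loc (hf.dfAt (by simp)) hs]
  exact congrArg (fun B : Bil E W => B.bilinearComp _ _) (pull2_par_self (f y) (dform a))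

theorem Sm1.isD {a : X → E →L[ℝ] ℝ} (h : Sm1 U a) (hU : IsOpen U) : IsD U a (dform a) :=
  fun x => ⟨h x, fun _ hy => h.pull_dform hU ((par_smAt hy).of_le two_le) hy.2⟩

theorem IsD.eq_dform {a : X → E →L[ℝ] ℝ} {α : X → Bil E ℝ} (h : IsD U a α) {x : X} (hx : x ∈ U) :
    α x = dform a x := by
  rw [← pull2_par_self x α]
  exact (h x).2 _ (mem_dom (mem_chart_source E x) hx)

theorem IsD.pull {a : X → E →L[ℝ] ℝ} {α : X → Bil E ℝ} (h : IsD U a α) (hU : IsOpen U)
    {f : V → X} {y : V} (hf : SmAt 2 f y) (hy : f y ∈ U) : pull2 f α y = ext1 (pull1 f a) y := by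
  rw [← h.sm1.pull_dform hU hf hy, pull2, pull2, h.eq_dform hy]

theorem isD_of_eq {a : X → E →L[ℝ] ℝ} {α : X → Bil E ℝ} (h : Sm1 U a) (hU : IsOpen U)
    (h' : ∀ x ∈ U, α x = dform a x) : IsD U a α := fun x => ⟨h x, fun y hy => by
  rw [← (h.isD hU x).2 y hy, pull2, pull2, h' _ hy.2]⟩

/-- `d a = α` can be tested in one chart around each point. -/
theorem isD_of_local {a : X → E →L[ℝ] ℝ} {α : X → Bil E ℝ} (h : Sm1 U a) (hU : IsOpen U)
    (h' : ∀ p ∈ U, ∃ e : OpenPartialHomeomorph X E, IsChart e ∧ p ∈ e.source ∧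
      pull2 e.symm α (e p) = ext1 (pull1 e.symm a) (e p)) : IsD U a α := by
  refine isD_of_eq h hU fun p hp => ?_
  obtain ⟨e, he, hs, h1⟩ := h' p hp
  have ht := e.map_source hs
  have hp' : e.symm (e p) ∈ U := by rwa [e.left_inv hs]
  rw [← h.pull_dform hU ((he.smAt ht).of_le two_le) hp'] at h1
  refine bil_ext fun v w => ?_
  obtain ⟨v, rfl⟩ := (he.inv ht).surjective v
  obtain ⟨w, rfl⟩ := (he.inv ht).surjective w
  have := DFunLike.congr_fun (DFunLike.congr_fun h1 v) w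
  rwa [pull2_apply, pull2_apply, e.left_inv hs] at this

theorem Sm1.form {a : X → E →L[ℝ] W} (h : Sm1 U a) (hU : IsOpen U) : Form U (dform a) := by
  refine ⟨fun x _ v => ext1_alt _ _ v, fun x y hy => ?_⟩
  have hn := (isOpen_dom x hU).mem_nhds hy
  refine ((contDiffAt_ext1 top_le ((h x).contDiffAt hn)).congr_of_eventuallyEq ?_).contDiffWithinAt
  filter_upwards [hn] with z hz
  exact h.pull_dform hU ((par_smAt hz).of_le two_le) hz.2

theorem Sm1.congr {a b : X → E →L[ℝ] W} (h : Sm1 U a) (h' : ∀ x ∈ U, b x = a x) : Sm1 U b :=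
  fun x => (h x).congr fun y hy => by rw [pull1, pull1, h' _ hy.2]

theorem Form.congr {α β : X → Bil E W} (h : Form U α) (h' : ∀ x ∈ U, β x = α x) : Form U β :=
  ⟨fun x hx v => by rw [h' x hx, h.1 x hx], fun x => (h.2 x).congr fun y hy => by
    rw [pull2, pull2, h' _ hy.2]⟩

theorem dform_congr {a b : X → E →L[ℝ] W} {x : X} (h : a =ᶠ[𝓝 x] b) : dform a x = dform b x := by
  refine ext1_congr ?_
  have hc : ContinuousAt (par x) (chartAt E x x) :=
    (par_smAt (mem_dom (U := univ) (mem_chart_source E x) trivial)).continuousAt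
  rw [ContinuousAt, par_self] at hc
  filter_upwards [hc.eventually h] with z hz
  rw [pull1, pull1, hz]

theorem IsD.congr {a b : X → E →L[ℝ] ℝ} {α β : X → Bil E ℝ} (h : IsD U a α) (hU : IsOpen U)
    (h1 : ∀ x ∈ U, b x = a x) (h2 : ∀ x ∈ U, β x = α x) : IsD U b β :=
  isD_of_eq (h.sm1.congr h1) hU fun x hx => by
    rw [h2 x hx, h.eq_dform hx]
    exact dform_congr (by filter_upwards [hU.mem_nhds hx] with z hz using (h1 z hz).symm)

theorem IsD.form {a : X → E →L[ℝ] ℝ} {α : X → Bil E ℝ} (h : IsD U a α) (hU : IsOpen U) :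
    Form U α := (h.sm1.form hU).congr fun _ hx => h.eq_dform hx

theorem Closed.pull {α : X → Bil E ℝ} (h : Closed α) {f : V → X} {y : V} (hf : SmAt 2 f y)
    (a b c : V) : ext2 (pull2 f α) y a b c = 0 := by
  have hs := mem_chart_source E (f y)
  rw [(isChart_chartAt (f y)).ext2_loc hf hs (h.1.1 _ trivial)
    ((at_of_on isOpen_univ trivial (h.1.2 _)).differentiableAt (by simp))]
  exact h.2 _ _ (mem_dom hs trivial) _ _ _

theorem closed_of_local {α : X → Bil E ℝ} (h : Form univ α)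
    (h' : ∀ p, ∃ e : OpenPartialHomeomorph X E, IsChart e ∧ p ∈ e.source ∧
      ∀ a b c, ext2 (pull2 e.symm α) (e p) a b c = 0) : Closed α := by
  refine ⟨h, fun x y hy a b c => ?_⟩
  obtain ⟨e, he, hs, h1⟩ := h' (par x y)
  have := he.ext2_loc ((par_smAt hy).of_le two_le) hs (h.1 _ trivial)
    ((h.smooth isOpen_univ (he.smAt (e.map_source hs)) trivial).differentiableAt (by simp)) a b c
  rw [h1] at this
  exact this

theorem IsD.ext2_zero {a : X → E →L[ℝ] ℝ} {α : X → Bil E ℝ} (h : IsD U a α) (hU : IsOpen U)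
    {x : X} {y : E} (hy : y ∈ dom x U) (u v w : E) : ext2 (pull2 (par x) α) y u v w = 0 := by
  have hn := (isOpen_dom x hU).mem_nhds hy
  rw [ext2_congr (β := ext1 (pull1 (par x) a))
    (by filter_upwards [hn] with z hz using (h x).2 z hz)]
  exact ext2_ext1 (((h x).1.contDiffAt hn).of_le two_le) u v w

/-! ### Gluing -/

theorem Sm1.glue {a : X → E →L[ℝ] W} (h : ∀ p ∈ U, ∃ U', IsOpen U' ∧ p ∈ U' ∧ Sm1 U' a) :
    Sm1 U a := sm1_of_local fun p hp => by
  obtain ⟨U', h1, h2, h3⟩ := h p hp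
  exact ⟨_, isChart_chartAt p, mem_chart_source E p, at_of_on h1 h2 (h3 p)⟩

theorem Form.glue {α : X → Bil E W} (h : ∀ p ∈ U, ∃ U', IsOpen U' ∧ p ∈ U' ∧ Form U' α) :
    Form U α := form_of_local
  (fun p hp => by obtain ⟨U', -, h2, h3⟩ := h p hp; exact h3.1 p h2) fun p hp => by
    obtain ⟨U', h1, h2, h3⟩ := h p hp
    exact ⟨_, isChart_chartAt p, mem_chart_source E p, at_of_on h1 h2 (h3.2 p)⟩

theorem IsD.glue {a : X → E →L[ℝ] ℝ} {α : X → Bil E ℝ} (hU : IsOpen U)
    (h : ∀ p ∈ U, ∃ U', IsOpen U' ∧ p ∈ U' ∧ IsD U' a α) : IsD U a α :=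
  isD_of_eq (Sm1.glue fun p hp => by
    obtain ⟨U', h1, h2, h3⟩ := h p hp; exact ⟨U', h1, h2, h3.sm1⟩) hU fun p hp => by
    obtain ⟨U', -, h2, h3⟩ := h p hp; exact h3.eq_dform h2

/-- A locally exact form is closed. -/
theorem closed_of_isD {α : X → Bil E ℝ} (h : ∀ p, ∃ U a, IsOpen U ∧ p ∈ U ∧ IsD U a α) :
    Closed α := by
  refine ⟨Form.glue fun p _ => ?_, fun x y hy => ?_⟩
  · obtain ⟨U, a, h1, h2, h3⟩ := h p
    exact ⟨U, h1, h2, h3.form h1⟩
  · obtain ⟨U, a, h1, h2, h3⟩ := h (par x y)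
    exact h3.ext2_zero h1 ⟨hy.1, h2⟩

theorem IsD.closed {a : X → E →L[ℝ] ℝ} {α : X → Bil E ℝ} (h : IsD univ a α) : Closed α :=
  closed_of_isD fun _ => ⟨univ, a, isOpen_univ, trivial, h⟩

end Pool.Agent.Lib.MP_1c0d65_gt.PW
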