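import Pool.Agent.Lib.MP_1c0d65_gt.PW.PlotD

/-! Plots: sums and multiples of forms, differentials of functions. -/

set_option autoImplicit false
set_option linter.unusedSectionVars false

open scoped Manifold ContDiff Topology
open Set Filter

noncomputable section

namespace Pool.Agent.Lib.MP_1c0d65_gt.PW

variable {X : Type} [TopologicalSpace X] [ChartedSpace E X]
  {V W : Type} [NormedAddCommGroup V] [NormedSpace ℝ V] [NormedAddCommGroup W] [NormedSpace ℝ W]
  {U U' : Set X}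

/-- A smooth function on `U`. -/
abbrev FnOn (g : X → W) (U : Set X) : Prop := ContMDiffOn 𝓘(ℝ, E) 𝓘(ℝ, W) ∞ g U

theorem pull1_zero (f : V → X) : pull1 f (0 : X → E →L[ℝ] W) = 0 := by
  funext y; ext v; simp
theorem pull1_add (f : V → X) (a b : X → E →L[ℝ] W) : pull1 f (a + b) = pull1 f a + pull1 f b := by
  funext y; ext v; simp
theorem pull1_sub (f : V → X) (a b : X → E →L[ℝ] W) : pull1 f (a - b) = pull1 f a - pull1 f b := by
  funext y; ext v; simp
theorem pull1_neg (f : V → X) (a : X → E →L[ℝ] W) : pull1 f (-a) = -pull1 f a := by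
  funext y; ext v; simp
theorem pull1_smul (f : V → X) (r : ℝ) (a : X → E →L[ℝ] W) : pull1 f (r • a) = r • pull1 f a := by
  funext y; ext v; simp
theorem pull1_fsmul (f : V → X) (h : X → ℝ) (a : X → E →L[ℝ] W) :
    pull1 f (fun x => h x • a x) = fun y => h (f y) • pull1 f a y := by
  funext y; ext v; simp
theorem pull1_sum (f : V → X) {ι : Type*} (s : Finset ι) (a : ι → X → E →L[ℝ] W) :
    pull1 f (∑ i ∈ s, a i) = ∑ i ∈ s, pull1 f (a i) := by
  funext y; ext v; simp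

theorem pull2_zero (f : V → X) : pull2 f (0 : X → Bil E W) = 0 := by
  funext y; ext v w; simp
theorem pull2_add (f : V → X) (a b : X → Bil E W) : pull2 f (a + b) = pull2 f a + pull2 f b := by
  funext y; ext v w; simp
theorem pull2_sub (f : V → X) (a b : X → Bil E W) : pull2 f (a - b) = pull2 f a - pull2 f b := by
  funext y; ext v w; simp
theorem pull2_neg (f : V → X) (a : X → Bil E W) : pull2 f (-a) = -pull2 f a := by
  funext y; ext v w; simp
theorem pull2_smul (f : V → X) (r : ℝ) (a : X → Bil E W) : pull2 f (r • a) = r • pull2 f a := by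
  funext y; ext v w; simp
theorem pull2_fsmul (f : V → X) (h : X → ℝ) (a : X → Bil E W) :
    pull2 f (fun x => h x • a x) = fun y => h (f y) • pull2 f a y := by
  funext y; ext v w; simp
theorem pull2_sum (f : V → X) {ι : Type*} (s : Finset ι) (a : ι → X → Bil E W) :
    pull2 f (∑ i ∈ s, a i) = ∑ i ∈ s, pull2 f (a i) := by
  funext y; ext v w; simp
theorem pull2_w11 (f : V → X) (a : X → E →L[ℝ] ℝ) (b : X → E →L[ℝ] W) :
    pull2 f (fun x => w11 (a x) (b x)) = fun y => w11 (pull1 f a y) (pull1 f b y) := by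
  funext y; ext v w; simp

theorem w11_alt (a : V →L[ℝ] ℝ) (b : V →L[ℝ] W) (v : V) : w11 a b v v = 0 := by simp

theorem contDiffAt_w11 {P : Type} [NormedAddCommGroup P] [NormedSpace ℝ P] {n : WithTop ℕ∞}
    {a : P → V →L[ℝ] ℝ} {b : P → V →L[ℝ] W} {y : P} (ha : ContDiffAt ℝ n a y)
    (hb : ContDiffAt ℝ n b y) : ContDiffAt ℝ n (fun z => w11 (a z) (b z)) y := by
  have h1 : ContDiffAt ℝ n (fun z => ((a z).smulRight (b z) : Bil V W)) y := ha.smulRight hb
  exact h1.sub (cd_clm (G := Bil V W) (G' := Bil V W) flipL h1)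

theorem Sm1.mono {a : X → E →L[ℝ] W} (h : Sm1 U a) (hU : U' ⊆ U) : Sm1 U' a :=
  fun x => (h x).mono (dom_mono x hU)
theorem sm1_zero : Sm1 U (0 : X → E →L[ℝ] W) := fun x => by
  rw [pull1_zero]; exact contDiffOn_const
theorem Sm1.add {a b : X → E →L[ℝ] W} (h : Sm1 U a) (h' : Sm1 U b) : Sm1 U (a + b) := fun x => by
  rw [pull1_add]; exact (h x).add (h' x)
theorem Sm1.sub {a b : X → E →L[ℝ] W} (h : Sm1 U a) (h' : Sm1 U b) : Sm1 U (a - b) := fun x => by
  rw [pull1_sub]; exact (h x).sub (h' x)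
theorem Sm1.neg {a : X → E →L[ℝ] W} (h : Sm1 U a) : Sm1 U (-a) := fun x => by
  rw [pull1_neg]; exact (h x).neg
theorem Sm1.smul {a : X → E →L[ℝ] W} (h : Sm1 U a) (r : ℝ) : Sm1 U (r • a) := fun x => by
  rw [pull1_smul]; exact (h x).const_smul r
theorem Sm1.sum {ι : Type*} {s : Finset ι} {a : ι → X → E →L[ℝ] W} (h : ∀ i ∈ s, Sm1 U (a i)) :
    Sm1 U (∑ i ∈ s, a i) := Finset.sum_induction a (Sm1 U) (fun _ _ => Sm1.add) sm1_zero h

theorem Form.mono {α : X → Bil E W} (h : Form U α) (hU : U' ⊆ U) : Form U' α :=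
  ⟨fun x hx => h.1 x (hU hx), fun x => (h.2 x).mono (dom_mono x hU)⟩
theorem form_zero : Form U (0 : X → Bil E W) :=
  ⟨fun _ _ _ => rfl, fun x => by rw [pull2_zero]; exact contDiffOn_const⟩
theorem Form.add {α β : X → Bil E W} (h : Form U α) (h' : Form U β) : Form U (α + β) :=
  ⟨fun x hx v => by simp [h.1 x hx, h'.1 x hx], fun x => by
    rw [pull2_add]; exact (h.2 x).add (h'.2 x)⟩
theorem Form.smul {α : X → Bil E W} (h : Form U α) (r : ℝ) : Form U (r • α) :=
  ⟨fun x hx v => by simp [h.1 x hx], fun x => by rw [pull2_smul]; exact (h.2 x).const_smul r⟩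
theorem Form.neg {α : X → Bil E W} (h : Form U α) : Form U (-α) :=
  ⟨fun x hx v => by simp [h.1 x hx], fun x => by rw [pull2_neg]; exact (h.2 x).neg⟩
theorem Form.sub {α β : X → Bil E W} (h : Form U α) (h' : Form U β) : Form U (α - β) := by
  rw [sub_eq_add_neg]; exact h.add h'.neg
theorem Form.sum {ι : Type*} {s : Finset ι} {α : ι → X → Bil E W} (h : ∀ i ∈ s, Form U (α i)) :
    Form U (∑ i ∈ s, α i) := Finset.sum_induction α (Form U) (fun _ _ => Form.add) form_zero h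
theorem Sm1.w11 {a : X → E →L[ℝ] ℝ} {b : X → E →L[ℝ] W} (ha : Sm1 U a) (hb : Sm1 U b)
    (hU : IsOpen U) : Form U fun x => w11 (a x) (b x) :=
  ⟨fun _ _ _ => w11_alt _ _ _, fun x y hy => by
    have hn := (isOpen_dom x hU).mem_nhds hy
    rw [pull2_w11]
    exact (contDiffAt_w11 ((ha x).contDiffAt hn) ((hb x).contDiffAt hn)).contDiffWithinAt⟩

theorem IsD.mono {a : X → E →L[ℝ] ℝ} {α : X → Bil E ℝ} (h : IsD U a α) (hU : U' ⊆ U) :
    IsD U' a α := fun x => ⟨(h x).1.mono (dom_mono x hU), fun y hy => (h x).2 y (dom_mono x hU hy)⟩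
theorem isD_zero : IsD U 0 0 := fun x => ⟨sm1_zero x, fun y _ => by
  rw [pull1_zero, pull2_zero]
  exact bil_ext fun v w => by simp [ext1_apply]⟩
theorem IsD.diff {a : X → E →L[ℝ] ℝ} {α : X → Bil E ℝ} (h : IsD U a α) (hU : IsOpen U) {x : X}
    {y : E} (hy : y ∈ dom x U) : DifferentiableAt ℝ (pull1 (par x) a) y :=
  cd_diff ((h x).1.contDiffAt ((isOpen_dom x hU).mem_nhds hy))
theorem IsD.add {a b : X → E →L[ℝ] ℝ} {α β : X → Bil E ℝ} (h : IsD U a α) (h' : IsD U b β)
    (hU : IsOpen U) : IsD U (a + b) (α + β) := fun x => ⟨Sm1.add (fun x => (h x).1)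
      (fun x => (h' x).1) x, fun y hy => by
  rw [pull1_add, pull2_add, ext1_add (h.diff hU hy) (h'.diff hU hy), ← (h x).2 y hy,
    ← (h' x).2 y hy]; rfl⟩
theorem IsD.smul {a : X → E →L[ℝ] ℝ} {α : X → Bil E ℝ} (h : IsD U a α) (hU : IsOpen U) (r : ℝ) :
    IsD U (r • a) (r • α) := fun x => ⟨Sm1.smul (fun x => (h x).1) r x, fun y hy => by
  rw [pull1_smul, pull2_smul, ext1_smul r (h.diff hU hy), ← (h x).2 y hy]; rfl⟩
theorem IsD.congr' {a b : X → E →L[ℝ] ℝ} {α β : X → Bil E ℝ} (h : IsD U a α) (h1 : b = a)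
    (h2 : β = α) : IsD U b β := h1 ▸ h2 ▸ h
theorem IsD.neg {a : X → E →L[ℝ] ℝ} {α : X → Bil E ℝ} (h : IsD U a α) (hU : IsOpen U) :
    IsD U (-a) (-α) := (h.smul hU (-1)).congr' (by funext x; ext v <;> simp)
      (by funext x; exact bil_ext fun v w => by simp)
theorem IsD.sub {a b : X → E →L[ℝ] ℝ} {α β : X → Bil E ℝ} (h : IsD U a α) (h' : IsD U b β)
    (hU : IsOpen U) : IsD U (a - b) (α - β) := by
  rw [sub_eq_add_neg, sub_eq_add_neg]; exact h.add (h'.neg hU) hU
theorem IsD.sum {ι : Type*} {s : Finset ι} {a : ι → X → E →L[ℝ] ℝ} {α : ι → X → Bil E ℝ}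
    (h : ∀ i ∈ s, IsD U (a i) (α i)) (hU : IsOpen U) : IsD U (∑ i ∈ s, a i) (∑ i ∈ s, α i) := by
  classical
  induction s using Finset.induction_on with
  | empty => simpa using isD_zero
  | insert i s hi ih =>
    rw [Finset.sum_insert hi, Finset.sum_insert hi]
    exact (h i (by simp)).add (ih fun j hj => h j (by simp [hj])) hU

theorem Closed.diff {α : X → Bil E ℝ} (h : Closed α) {x : X} {y : E} (hy : y ∈ dom x univ) :
    DifferentiableAt ℝ (pull2 (par x) α) y :=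
  cd_diff (G := Bil E ℝ) ((h.1.2 x).contDiffAt ((isOpen_dom x isOpen_univ).mem_nhds hy))
theorem closed_zero : Closed (0 : X → Bil E ℝ) := closed_iff.2 ⟨form_zero, fun x y _ a b c => by
  rw [pull2_zero]; simp [ext2]⟩
theorem Closed.add {α β : X → Bil E ℝ} (h : Closed α) (h' : Closed β) : Closed (α + β) :=
  closed_iff.2 ⟨h.1.add h'.1, fun x y hy a b c => by
    rw [pull2_add, ext2_add (h.diff hy) (h'.diff hy), (closed_iff.1 h).2 x y hy,
      (closed_iff.1 h').2 x y hy, add_zero]⟩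
theorem Closed.smul {α : X → Bil E ℝ} (h : Closed α) (r : ℝ) : Closed (r • α) :=
  closed_iff.2 ⟨h.1.smul r, fun x y hy a b c => by
    rw [pull2_smul, ext2_smul r (h.diff hy), (closed_iff.1 h).2 x y hy, smul_zero]⟩
theorem Closed.neg {α : X → Bil E ℝ} (h : Closed α) : Closed (-α) := by
  have e : -α = (-1 : ℝ) • α := by funext x; exact bil_ext fun v w => by simp
  rw [e]; exact h.smul (-1)
theorem Closed.sub {α β : X → Bil E ℝ} (h : Closed α) (h' : Closed β) : Closed (α - β) := by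
  rw [sub_eq_add_neg]; exact h.add h'.neg
theorem Closed.sum {ι : Type*} {s : Finset ι} {α : ι → X → Bil E ℝ} (h : ∀ i ∈ s, Closed (α i)) :
    Closed (∑ i ∈ s, α i) := Finset.sum_induction α Closed (fun _ _ => Closed.add) closed_zero h

variable [IsManifold 𝓘(ℝ, E) ∞ X]

theorem FnOn.par {g : X → W} (hg : FnOn g U) (hU : IsOpen U) {x : X} {y : E} (hy : y ∈ dom x U) :
    ContDiffAt ℝ ∞ (g ∘ par x) y :=
  FnAt.comp_plot (hg.contMDiffAt (hU.mem_nhds hy.2)) (par_smAt hy)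

theorem FnOn.pull1_dfn {g : X → W} (hg : FnOn g U) (hU : IsOpen U) {x : X} {y : E}
    (hy : y ∈ dom x U) : pull1 (PW.par x) (dfn g) =ᶠ[𝓝 y] fderiv ℝ (g ∘ PW.par x) := by
  filter_upwards [(isOpen_dom x hU).mem_nhds hy] with z hz
  exact PW.pull1_dfn ((hg.contMDiffAt (hU.mem_nhds hz.2)).mdifferentiableAt (by simp))
    ((par_smAt hz).dfAt (by simp))

/-- A function is smooth if it is smooth in one chart around each point. -/
theorem IsChart.fnAt_of {e : OpenPartialHomeomorph X E} (he : IsChart e) {g : X → W} {p : X}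
    (hp : p ∈ e.source) {n : WithTop ℕ∞} (hn : n ≤ ∞) (h : ContDiffAt ℝ n (g ∘ e.symm) (e p)) :
    FnAt n g p := by
  refine (h.contMDiffAt.comp p ((he.fnAt hp).of_le hn)).congr_of_eventuallyEq ?_
  filter_upwards [e.open_source.mem_nhds hp] with q hq
  exact congrArg g (e.left_inv hq).symm

theorem FnOn.sm1 {g : X → W} (hg : FnOn g U) (hU : IsOpen U) : Sm1 U (dfn g) := fun _ _ hy =>
  (((hg.par hU hy).fderiv_right top_le).congr_of_eventuallyEq (hg.pull1_dfn hU hy)).contDiffWithinAt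

theorem FnOn.dform {g : X → W} (hg : FnOn g U) (hU : IsOpen U) {x : X} (hx : x ∈ U) :
    dform (dfn g) x = 0 := by
  have hy := mem_dom (mem_chart_source E x) hx
  rw [PW.dform, ext1_congr (hg.pull1_dfn hU hy), ext1_fderiv ((hg.par hU hy).of_le two_le)]

theorem FnOn.isD {g : X → ℝ} (hg : FnOn g U) (hU : IsOpen U) : IsD U (dfn g) 0 :=
  isD_of_eq (hg.sm1 hU) hU fun _ hx => (hg.dform hU hx).symm

theorem Sm1.fsmul {a : X → E →L[ℝ] W} (h : Sm1 U a) (hU : IsOpen U) {g : X → ℝ} (hg : FnOn g U) :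
    Sm1 U fun x => g x • a x := fun x y hy => by
  rw [pull1_fsmul]
  exact (cd_fsmul (hg.par hU hy) ((h x).contDiffAt ((isOpen_dom x hU).mem_nhds hy))
    ).contDiffWithinAt

theorem Form.fsmul {α : X → Bil E W} (h : Form U α) (hU : IsOpen U) {g : X → ℝ} (hg : FnOn g U) :
    Form U fun x => g x • α x := ⟨fun x hx v => by simp [h.1 x hx], fun x y hy => by
  rw [pull2_fsmul]
  exact (cd_fsmul (G := Bil E W) (hg.par hU hy)
    ((h.2 x).contDiffAt ((isOpen_dom x hU).mem_nhds hy))).contDiffWithinAt⟩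

/-- The Leibniz rule. -/
theorem IsD.fsmul {a : X → E →L[ℝ] ℝ} {α : X → Bil E ℝ} (h : IsD U a α) (hU : IsOpen U)
    {g : X → ℝ} (hg : FnOn g U) :
    IsD U (fun x => g x • a x) fun x => w11 (dfn g x) (a x) + g x • α x :=
  fun x => ⟨h.sm1.fsmul hU hg x, fun y hy => by
    have := ext1_fsmul (cd_diff (hg.par hU hy)) (h.diff hU hy)
    rw [← (h x).2 y hy, ← (hg.pull1_dfn hU hy).eq_of_nhds] at this
    rw [pull1_fsmul]
    refine Eq.trans (bil_ext fun v w => ?_) this.symm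
    simp⟩

/-- Extension by zero of a form with closed support in `U`. -/
theorem Sm1.extend {a : X → E →L[ℝ] W} (h : Sm1 U a) (hU : IsOpen U) {K : Set X} (hK : IsClosed K)
    (hKU : K ⊆ U) (h0 : ∀ x ∉ K, a x = 0) : Sm1 univ a := Sm1.glue fun p _ => by
  by_cases hp : p ∈ K
  · exact ⟨U, hU, hKU hp, h⟩
  · exact ⟨Kᶜ, hK.isOpen_compl, hp, sm1_zero.congr h0⟩

theorem Form.extend {α : X → Bil E W} (h : Form U α) (hU : IsOpen U) {K : Set X} (hK : IsClosed K)
    (hKU : K ⊆ U) (h0 : ∀ x ∉ K, α x = 0) : Form univ α := Form.glue fun p _ => by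
  by_cases hp : p ∈ K
  · exact ⟨U, hU, hKU hp, h⟩
  · exact ⟨Kᶜ, hK.isOpen_compl, hp, form_zero.congr h0⟩

theorem IsD.extend {a : X → E →L[ℝ] ℝ} {α : X → Bil E ℝ} (h : IsD U a α) (hU : IsOpen U)
    {K : Set X} (hK : IsClosed K) (hKU : K ⊆ U) (h0 : ∀ x ∉ K, a x = 0) (h1 : ∀ x ∉ K, α x = 0) :
    IsD univ a α := IsD.glue isOpen_univ fun p _ => by
  by_cases hp : p ∈ K
  · exact ⟨U, hU, hKU hp, h⟩
  · exact ⟨Kᶜ, hK.isOpen_compl, hp, isD_zero.congr hK.isOpen_compl h0 h1⟩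

/-- Push a one-form on the model forward by a chart. -/
def IsChart.push1 (e : OpenPartialHomeomorph X E) (b : E → E →L[ℝ] W) (x : X) : E →L[ℝ] W :=
  (b (e x)).comp (dfn e x)

theorem IsChart.dfn_dif {e : OpenPartialHomeomorph X E} (he : IsChart e) {y : E}
    (hy : y ∈ e.target) (v : E) : dfn e (e.symm y) (dif e.symm y v) = v :=
  DFunLike.congr_fun (he.md.comp_symm_deriv hy) v

theorem IsChart.pull1_push1 {e : OpenPartialHomeomorph X E} (he : IsChart e) (b : E → E →L[ℝ] W)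
    {y : E} (hy : y ∈ e.target) : pull1 e.symm (IsChart.push1 e b) y = b y := by
  refine ContinuousLinearMap.ext fun v => ?_
  rw [pull1_apply, IsChart.push1, ContinuousLinearMap.comp_apply, he.dfn_dif hy, e.right_inv hy]

theorem IsChart.sm1_push1 {e : OpenPartialHomeomorph X E} (he : IsChart e) {b : E → E →L[ℝ] W}
    (hU : U ⊆ e.source) (hb : ∀ p ∈ U, ContDiffAt ℝ ∞ b (e p)) : Sm1 U (IsChart.push1 e b) :=
  sm1_of_local fun p hp => ⟨e, he, hU hp, (hb p hp).congr_of_eventuallyEq (by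
    filter_upwards [e.open_target.mem_nhds (e.map_source (hU hp))] with y hy
    exact he.pull1_push1 b hy)⟩

end Pool.Agent.Lib.MP_1c0d65_gt.PW
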