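import Mathlib

/-! The Cayley path between two tame complex structures. -/

set_option autoImplicit false
set_option linter.unusedSectionVars false

open scoped ContDiff
open Set

noncomputable section

namespace Pool.Agent.Lib.MP_1c0d65_gt.PW.Cay

section Ring

variable {R R' : Type} [Ring R] [Algebra ℝ R] [Ring R'] [Algebra ℝ R']

/-- The Cayley transform of `J` with respect to `K`. -/
def tr (K J : R) : R := Ring.inverse (J + K) * (J - K)

/-- The path from `K` to `J`. -/
def path (t : ℝ) (K J : R) : R := (1 - t • tr K J) * K * Ring.inverse (1 - t • tr K J)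

theorem map_inv (φ : R →ₐ[ℝ] R') {x : R} (h : IsUnit x) :
    φ (Ring.inverse x) = Ring.inverse (φ x) := by
  have h' : IsUnit (φ x) := h.map φ
  have h1 : φ x * φ (Ring.inverse x) = 1 := by
    rw [← map_mul, Ring.mul_inverse_cancel x h, map_one]
  calc φ (Ring.inverse x) = Ring.inverse (φ x) * (φ x * φ (Ring.inverse x)) := by
        rw [← mul_assoc, Ring.inverse_mul_cancel _ h', one_mul]
    _ = _ := by rw [h1, mul_one]

theorem map_tr (φ : R →ₐ[ℝ] R') {K J : R} (h : IsUnit (J + K)) :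
    φ (tr K J) = tr (φ K) (φ J) := by
  simp only [tr, map_mul, map_inv φ h, map_add, map_sub]

theorem map_path (φ : R →ₐ[ℝ] R') {K J : R} (h : IsUnit (J + K)) {t : ℝ}
    (h' : IsUnit (1 - t • tr K J)) : φ (path t K J) = path t (φ K) (φ J) := by
  simp only [path, map_mul, map_inv φ h', map_sub, map_one, map_smul, map_tr φ h]

theorem path_zero (K J : R) : path 0 K J = K := by simp [path]

theorem inv_mul_J {K J : R} (hK : K * K = -1) (hJ : J * J = -1) (h : IsUnit (J + K)) :
    Ring.inverse (J + K) * J = K * Ring.inverse (J + K) := by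
  have e : (J + K) * K = J * (J + K) := by rw [add_mul, mul_add, hK, hJ, add_comm]
  calc Ring.inverse (J + K) * J
      = Ring.inverse (J + K) * (J * (J + K)) * Ring.inverse (J + K) := by
        rw [mul_assoc, mul_assoc, Ring.mul_inverse_cancel _ h, mul_one]
    _ = K * Ring.inverse (J + K) := by
        rw [← e, ← mul_assoc, Ring.inverse_mul_cancel _ h, one_mul]

theorem tr_anti {K J : R} (hK : K * K = -1) (hJ : J * J = -1) (h : IsUnit (J + K)) :
    tr K J * K = -(K * tr K J) := by
  have e : (J - K) * K = -(J * (J - K)) := by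
    rw [sub_mul, mul_sub, hK, hJ]; abel
  rw [tr, mul_assoc, e, mul_neg, ← mul_assoc, inv_mul_J hK hJ h, mul_assoc]

theorem mul_one_sub {K J : R} (h : IsUnit (J + K)) (t : ℝ) :
    (J + K) * (1 - t • tr K J) = (1 - t) • J + (1 + t) • K := by
  rw [mul_sub, mul_one, mul_smul_comm, tr, ← mul_assoc, Ring.mul_inverse_cancel _ h, one_mul,
    smul_sub, sub_smul, add_smul, one_smul, one_smul]
  abel

theorem one_sub_mul_K {K J : R} (hK : K * K = -1) (hJ : J * J = -1) (h : IsUnit (J + K))
    (t : ℝ) : (1 - t • tr K J) * K = K * (1 + t • tr K J) := by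
  rw [sub_mul, mul_add, one_mul, mul_one, smul_mul_assoc, tr_anti hK hJ h, mul_smul_comm,
    smul_neg, sub_neg_eq_add]

theorem J_mul {K J : R} (hK : K * K = -1) (hJ : J * J = -1) (h : IsUnit (J + K)) :
    J * (1 - (1 : ℝ) • tr K J) = (1 - (1 : ℝ) • tr K J) * K := by
  have e : (J + K) * J = K * (J + K) := by rw [add_mul, mul_add, hK, hJ, add_comm]
  refine h.mul_left_cancel ?_
  rw [← mul_assoc, e, mul_assoc, ← mul_assoc (J + K), mul_one_sub h]
  simp

theorem path_one {K J : R} (hK : K * K = -1) (hJ : J * J = -1) (h : IsUnit (J + K))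
    (h' : IsUnit (1 - (1 : ℝ) • tr K J)) : path 1 K J = J := by
  rw [path, ← J_mul hK hJ h, mul_assoc, Ring.mul_inverse_cancel _ h', mul_one]

theorem path_sq {K J : R} (hK : K * K = -1) {t : ℝ} (h' : IsUnit (1 - t • tr K J)) :
    path t K J * path t K J = -1 := by
  have e := Ring.inverse_mul_cancel _ h'
  have e' := Ring.mul_inverse_cancel _ h'
  unfold path
  generalize 1 - t • tr K J = N at *
  calc N * K * Ring.inverse N * (N * K * Ring.inverse N)
      = N * (K * (Ring.inverse N * N) * K) * Ring.inverse N := by simp only [mul_assoc]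
    _ = -1 := by rw [e, mul_one, hK, mul_neg, mul_one, neg_mul, e']

end Ring

section Smooth

variable {R P : Type} [NormedRing R] [NormedAlgebra ℝ R] [CompleteSpace R]
  [NormedAddCommGroup P] [NormedSpace ℝ P]

theorem contDiffOn_inv {f : P → R} {s : Set P} (hf : ContDiffOn ℝ ∞ f s)
    (h : ∀ y ∈ s, IsUnit (f y)) : ContDiffOn ℝ ∞ (fun y => Ring.inverse (f y)) s := by
  intro y hy
  obtain ⟨u, hu⟩ := h y hy
  have := contDiffAt_ringInverse ℝ (n := ∞) u
  rw [hu] at this
  exact this.comp_contDiffWithinAt y (hf y hy)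

theorem contDiffOn_path {t : P → ℝ} {K J : P → R} {s : Set P} (ht : ContDiffOn ℝ ∞ t s)
    (hK : ContDiffOn ℝ ∞ K s) (hJ : ContDiffOn ℝ ∞ J s) (h : ∀ y ∈ s, IsUnit (J y + K y))
    (h' : ∀ y ∈ s, IsUnit (1 - t y • tr (K y) (J y))) :
    ContDiffOn ℝ ∞ (fun y => path (t y) (K y) (J y)) s := by
  have h1 : ContDiffOn ℝ ∞ (fun y => tr (K y) (J y)) s :=
    (contDiffOn_inv (hJ.add hK) h).mul (hJ.sub hK)
  have h2 : ContDiffOn ℝ ∞ (fun y => 1 - t y • tr (K y) (J y)) s :=
    contDiffOn_const.sub (ht.smul h1)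
  exact (h2.mul hK).mul (contDiffOn_inv h2 h')

end Smooth

section Lin

variable {V : Type} [NormedAddCommGroup V] [NormedSpace ℝ V] [FiniteDimensional ℝ V]
  {om : V →L[ℝ] V →L[ℝ] ℝ} {K J : V →L[ℝ] V}

theorem isUnit_of_pos {T : V →L[ℝ] V} (h : ∀ v, v ≠ 0 → 0 < om v (T v)) : IsUnit T := by
  have : CompleteSpace V := FiniteDimensional.complete ℝ V
  have hi : Function.Injective T := by
    rw [injective_iff_map_eq_zero]
    intro v hv
    by_contra h0
    have := h v h0
    simp [hv] at this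
  exact ContinuousLinearMap.isUnit_iff_bijective.2
    ⟨hi, (LinearMap.injective_iff_surjective (f := (T : V →ₗ[ℝ] V))).1 hi⟩

theorem isUnit_add (hK : ∀ v, v ≠ 0 → 0 < om v (K v)) (hJ : ∀ v, v ≠ 0 → 0 < om v (J v)) :
    IsUnit (J + K) := isUnit_of_pos (om := om) fun v hv => by
  have := hK v hv
  have := hJ v hv
  simp only [add_apply, map_add]
  linarith

theorem isUnit_one_sub (hK : ∀ v, v ≠ 0 → 0 < om v (K v)) (hJ : ∀ v, v ≠ 0 → 0 < om v (J v))
    {t : ℝ} (h0 : 0 ≤ t) (h1 : t ≤ 1) : IsUnit (1 - t • tr K J) := by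
  have h := isUnit_add hK hJ
  have h' : IsUnit ((1 - t) • J + (1 + t) • K) := isUnit_of_pos (om := om) fun v hv => by
    have a := hK v hv
    have b := hJ v hv
    simp only [add_apply, smul_apply, map_add, map_smul,
      smul_eq_mul]
    nlinarith [mul_nonneg (sub_nonneg.2 h1) b.le, mul_nonneg h0 a.le]
  have e : 1 - t • tr K J = Ring.inverse (J + K) * ((1 - t) • J + (1 + t) • K) := by
    rw [← mul_one_sub h, ← mul_assoc, Ring.inverse_mul_cancel _ h, one_mul]
  rw [e]
  exact h.ringInverse.mul h'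

omit [FiniteDimensional ℝ V] in
theorem mul_self_of (h : ∀ v, J (J v) = -v) : J * J = -1 := by
  ext v; simp [h]

omit [FiniteDimensional ℝ V] in
theorem skew (alt : ∀ v, om v v = 0) (v w : V) : om v w = -om w v := by
  have := alt (v + w)
  simp only [map_add, add_apply, alt] at this
  linarith

theorem path_pos (alt : ∀ v, om v v = 0) (cK : ∀ v w, om (K v) (K w) = om v w)
    (sK : ∀ v, K (K v) = -v) (sJ : ∀ v, J (J v) = -v)
    (hK : ∀ v, v ≠ 0 → 0 < om v (K v)) (hJ : ∀ v, v ≠ 0 → 0 < om v (J v))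
    {t : ℝ} (h0 : 0 ≤ t) (h1 : t ≤ 1) (v : V) (hv : v ≠ 0) : 0 < om v (path t K J v) := by
  have hu := isUnit_add hK hJ
  have mK := mul_self_of sK
  have mJ := mul_self_of sJ
  have sym : ∀ a b, om a (K b) = om b (K a) := fun a b => by
    rw [← cK a (K b), sK, map_neg, skew alt]; simp
  have key : ∀ (s : ℝ) (u : V), om ((1 - s • tr K J) u) (((1 - s • tr K J) * K) u) =
      om u (K u) - s ^ 2 * om (tr K J u) (K (tr K J u)) := fun s u => by
    rw [one_sub_mul_K mK mJ hu]
    simp only [mul_apply_eq_comp, sub_apply,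
      add_apply, smul_apply, one_apply_eq_self,
      map_add, map_sub, map_smul, smul_eq_mul]
    rw [sym u (tr K J u)]
    ring
  have ht := isUnit_one_sub hK hJ h0 h1
  have h1u := isUnit_one_sub hK hJ zero_le_one le_rfl
  set u := Ring.inverse (1 - t • tr K J) v with hu'
  have hvu : (1 - t • tr K J) u = v := by
    rw [hu', ← mul_apply_eq_comp, Ring.mul_inverse_cancel _ ht]; rfl
  have u0 : u ≠ 0 := fun e => hv (by rw [← hvu, e, map_zero])
  have n0 : (1 - (1 : ℝ) • tr K J) u ≠ 0 := fun e => u0 (by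
    have : (Ring.inverse (1 - (1 : ℝ) • tr K J) * (1 - (1 : ℝ) • tr K J)) u = 0 := by
      rw [mul_apply_eq_comp, e, map_zero]
    rwa [Ring.inverse_mul_cancel _ h1u] at this)
  have p1 := hJ _ n0
  rw [← mul_apply_eq_comp J, J_mul mK mJ hu, key] at p1
  have p2 : 0 ≤ om (tr K J u) (K (tr K J u)) := by
    by_cases e : tr K J u = 0
    · simp [e]
    · exact (hK _ e).le
  have e : path t K J v = ((1 - t • tr K J) * K) u := rfl
  rw [e]
  nth_rewrite 1 [← hvu]
  rw [key]
  have : t ^ 2 ≤ 1 := by nlinarith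
  nlinarith [mul_nonneg (sub_nonneg.2 this) p2]

/-- `1 - K J` intertwines `J` and `K` and is onto. -/
theorem inter (sK : ∀ v, K (K v) = -v) (sJ : ∀ v, J (J v) = -v) (v : V) :
    (1 - K * J) (J v) = K ((1 - K * J) v) := by
  simp [sK, sJ, add_comm]

theorem inter_surj (sK : ∀ v, K (K v) = -v)
    (hK : ∀ v, v ≠ 0 → 0 < om v (K v)) (hJ : ∀ v, v ≠ 0 → 0 < om v (J v)) :
    Function.Surjective (1 - K * J : V →L[ℝ] V) := by
  refine (LinearMap.injective_iff_surjective (f := ((1 - K * J : V →L[ℝ] V) : V →ₗ[ℝ] V))).1 ?_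
  rw [injective_iff_map_eq_zero]
  intro v hv
  by_contra h0
  have e : K ((1 - K * J : V →L[ℝ] V) v) = K v + J v := by simp [sK]
  have hv' : (1 - K * J : V →L[ℝ] V) v = 0 := hv
  rw [hv', map_zero] at e
  have a := hK v h0
  have b := hJ v h0
  have : om v (K v + J v) = 0 := by rw [← e, map_zero]
  rw [map_add] at this
  linarith

end Lin

end Pool.Agent.Lib.MP_1c0d65_gt.PW.Cay
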