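import Pool.Agent.Lib.MP_1c0d65_gt.PW.Int
import Pool.Agent.Lib.MP_1c0d65_gt.PW.CayA

/-! Tame structures: the Cayley path and the first Chern class. -/

set_option autoImplicit false
set_option linter.unusedSectionVars false

open scoped Manifold ContDiff Topology
open Set MeasureTheory Filter Metric

noncomputable section

namespace Pool.Agent.Lib.MP_1c0d65_gt.PW

variable {X : Type} [TopologicalSpace X] [ChartedSpace E X] [IsManifold 𝓘(ℝ, E) ∞ X]

namespace Cay

theorem dom_mono (x : X) {U U' : Set X} (h : U ⊆ U') : dom x U ⊆ dom x U' :=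
  fun _ hy => ⟨hy.1, h hy.2⟩

theorem exists_equiv (x : X) {U : Set X} {y : E} (hy : y ∈ dom x U) :
    ∃ D : E ≃L[ℝ] E, dif (par x) y = D :=
  ⟨((mdifferentiable_chart (I := 𝓘(ℝ, E)) x).symm.mfderiv hy.1 :), rfl⟩

/-- Conjugation as a homomorphism of algebras. -/
def cnj (D : E ≃L[ℝ] E) : (E →L[ℝ] E) →ₐ[ℝ] (E →L[ℝ] E) :=
  D.symm.conjContinuousAlgEquiv.toAlgEquiv.toAlgHom

theorem cnj_apply (D : E ≃L[ℝ] E) (T : E →L[ℝ] E) (v : E) : cnj D T v = D.symm (T (D v)) := rfl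

theorem pullJ_eq {f : E → X} {y : E} {D : E ≃L[ℝ] E} (h : dif f y = D) (J : X → E →L[ℝ] E) :
    pullJ f J y = cnj D (J (f y)) := by
  refine ContinuousLinearMap.ext fun v => ?_
  simp [pullJ, h, cnj_apply]

variable {om : X → Bil E ℝ} {K J : X → E →L[ℝ] E} {U : Set X}

theorem tame_mono (h : Tame U om J) {U' : Set X} (hU : U' ⊆ U) : Tame U' om J :=
  ⟨fun x hx => h.1 x (hU hx), fun x => (h.2 x).mono (dom_mono x hU)⟩

theorem unit_add (hK : Tame U om K) (hJ : Tame U om J) {x : X} (hx : x ∈ U) :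
    IsUnit (J x + K x) := isUnit_add (fun v => (hK.1 x hx v).2) fun v => (hJ.1 x hx v).2

theorem unit_sub (hK : Tame U om K) (hJ : Tame U om J) {x : X} (hx : x ∈ U) {t : ℝ}
    (ht : t ∈ Icc (0 : ℝ) 1) : IsUnit (1 - t • tr (K x) (J x)) :=
  isUnit_one_sub (fun v => (hK.1 x hx v).2) (fun v => (hJ.1 x hx v).2) ht.1 ht.2

theorem path_self {R : Type} [Ring R] [Algebra ℝ R] (t : ℝ) (A : R) : path t A A = A := by
  simp [path, tr]

/-- The Cayley path is smooth in a chart, jointly in a parameter. -/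
theorem path_smooth {P : Type} [NormedAddCommGroup P] [NormedSpace ℝ P] {s : Set P} (x : X)
    {K J : P → X → E →L[ℝ] E} {π : P → E} {t : P → X → ℝ} (hπ : MapsTo π s (dom x U))
    (hK : ∀ p ∈ s, Tame U om (K p)) (hJ : ∀ p ∈ s, Tame U om (J p))
    (ht : ∀ p ∈ s, t p (par x (π p)) ∈ Icc (0 : ℝ) 1)
    (sK : ContDiffOn ℝ ∞ (fun p => pullJ (par x) (K p) (π p)) s)
    (sJ : ContDiffOn ℝ ∞ (fun p => pullJ (par x) (J p) (π p)) s)
    (st : ContDiffOn ℝ ∞ (fun p => t p (par x (π p))) s) :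
    ContDiffOn ℝ ∞ (fun p => pullJ (par x) (fun z => path (t p z) (K p z) (J p z)) (π p)) s := by
  refine (contDiffOn_path st sK sJ (fun p hp => ?_) fun p hp => ?_).congr fun p hp => ?_
  all_goals
    obtain ⟨D, hD⟩ := exists_equiv x (hπ hp)
    have h1 := unit_add (hK p hp) (hJ p hp) (hπ hp).2
    have h2 := unit_sub (hK p hp) (hJ p hp) (hπ hp).2 (ht p hp)
    simp only [pullJ_eq hD]
  · rw [← map_add]; exact h1.map _
  · have := h2.map (cnj D)
    rwa [map_sub, map_one, map_smul, map_tr _ h1] at this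
  · exact map_path _ h1 h2

/-- The Cayley path with a variable time is tame. -/
theorem tame_path (alt : ∀ x ∈ U, ∀ v, om x v v = 0)
    (cK : ∀ x ∈ U, ∀ v w, om x (K x v) (K x w) = om x v w) (hK : Tame U om K) (hJ : Tame U om J)
    {t : X → ℝ} (ht : ∀ x ∈ U, t x ∈ Icc (0 : ℝ) 1)
    (st : ∀ x, ContDiffOn ℝ ∞ (fun y => t (par x y)) (dom x U)) :
    Tame U om fun x => path (t x) (K x) (J x) := by
  refine ⟨fun x hx v => ⟨?_, path_pos (alt x hx) (cK x hx) (fun v => (hK.1 x hx v).1)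
    (fun v => (hJ.1 x hx v).1) (fun v => (hK.1 x hx v).2) (fun v => (hJ.1 x hx v).2)
    (ht x hx).1 (ht x hx).2 v⟩, fun x => ?_⟩
  · have := path_sq (J := J x) (mul_self_of fun v => (hK.1 x hx v).1) (unit_sub hK hJ hx (ht x hx))
    exact congrArg (fun T : E →L[ℝ] E => T v) this
  · exact path_smooth (π := id) (K := fun _ => K) (J := fun _ => J) (t := fun _ => t) x
      (mapsTo_id _) (fun _ _ => hK) (fun _ _ => hJ) (fun p hp => ht _ hp.2) (hK.2 x) (hJ.2 x) (st x)

theorem path_end (hK : Tame U om K) (hJ : Tame U om J) {x : X} (hx : x ∈ U) :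
    path 1 (K x) (J x) = J x :=
  path_one (mul_self_of fun v => (hK.1 x hx v).1) (mul_self_of fun v => (hJ.1 x hx v).1)
    (unit_add hK hJ hx) (unit_sub hK hJ hx ⟨zero_le_one, le_rfl⟩)

theorem contDiffOn_bil {P : Type} [NormedAddCommGroup P] [NormedSpace ℝ P] {s : Set P}
    {A : P → Bil E ℂ} {Q : P → E →L[ℝ] E} (hA : ContDiffOn ℝ ∞ A s) (hQ : ContDiffOn ℝ ∞ Q s) :
    ContDiffOn ℝ ∞ (fun p => (A p).bilinearComp (Q p) (Q p)) s := by
  rw [contDiffOn_clm_apply]
  intro v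
  rw [contDiffOn_clm_apply]
  intro w
  simp only [ContinuousLinearMap.bilinearComp_apply]
  exact (hA.clm_apply (hQ.clm_apply contDiffOn_const)).clm_apply (hQ.clm_apply contDiffOn_const)

/-- Two structures tamed by the same form have the same first Chern class. -/
theorem chern_trans (hU : IsOpen U) {U' : Set X} (hUU : U ⊆ U') (hK : Tame U om K)
    (hJ : Tame U om J) {c : X → Bil E ℝ} (h : IsChern U' K c) : IsChern U J c := by
  obtain ⟨V, Ω, a, g, h⟩ := h
  refine ⟨fun i => V i ∩ U, fun i y => (Ω i y).bilinearComp (1 - K y * J y) (1 - K y * J y), a, g,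
    fun i hi => ?_⟩
  obtain ⟨h1, h2, -, h4, h5, h6, h7⟩ := h i (hUU hi)
  refine ⟨h1.inter hU, ⟨h2, hi⟩, inter_subset_right, ⟨fun x hx v => h4.1 x hx.1 _, fun x => ?_⟩,
    fun x => ⟨(h5 x).1.mono (dom_mono x inter_subset_left),
      fun y hy => (h5 x).2 y (dom_mono x inter_subset_left hy)⟩, fun y hy => ⟨fun e => ?_,
      fun v w => ?_⟩, fun k hk => ⟨(h7 k (hUU hk)).1.mono fun y hy => ⟨hy.1.1, hy.2.1⟩,
      fun y hy => ⟨?_, ((h7 k (hUU hk)).2 y ⟨hy.1.1, hy.2.1⟩).2⟩⟩⟩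
  · have hr := dom_mono (U := V i ∩ U) x inter_subset_right
    refine (contDiffOn_bil ((h4.2 x).mono (dom_mono x inter_subset_left))
      (Q := fun y => 1 - pullJ (par x) K y * pullJ (par x) J y)
      (contDiffOn_const.sub (((hK.2 x).mono hr).mul ((hJ.2 x).mono hr)))).congr fun y hy => ?_
    obtain ⟨D, hD⟩ := exists_equiv x hy
    refine ContinuousLinearMap.ext fun v => ContinuousLinearMap.ext fun w => ?_
    simp [pull2, pullJ_eq hD, hD, cnj_apply]
  · have hs := inter_surj (fun v => (hK.1 y hy.2 v).1) (fun v => (hK.1 y hy.2 v).2)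
      fun v => (hJ.1 y hy.2 v).2
    refine (h6 y hy.1).1 ?_
    refine ContinuousLinearMap.ext fun v => ContinuousLinearMap.ext fun w => ?_
    obtain ⟨v, rfl⟩ := hs v
    obtain ⟨w, rfl⟩ := hs w
    exact congrArg (fun T : Bil E ℂ => T v w) e
  · simp only [ContinuousLinearMap.bilinearComp_apply]
    rw [inter (fun v => (hK.1 y hy.2 v).1) (fun v => (hJ.1 y hy.2 v).1), (h6 y hy.1).2]
  · refine ContinuousLinearMap.ext fun v => ContinuousLinearMap.ext fun w => ?_
    simp [((h7 k (hUU hk)).2 y ⟨hy.1.1, hy.2.1⟩).1]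

end Cay

variable [T2Space X] [CompactSpace X] [MeasurableSpace X] [BorelSpace X] {c : Ctx X} {O : Orb c}

theorem chern_of_tame {U : Set X} (hU : IsOpen U) {J : X → E →L[ℝ] E} (hJ : Tame U c.om J) :
    IsChern U J ((2 * Real.pi * c.κ) • c.om) :=
  Cay.chern_trans hU (subset_univ U) (Cay.tame_mono c.tame0 (subset_univ U)) hJ c.chern0

theorem exists_path {J : X → E →L[ℝ] E} (hJ : Tame univ c.om J) :
    ∃ F, c.Fam F ∧ F 0 = c.J0 ∧ F 1 = J ∧ ∀ x, J x = c.J0 x → ∀ τ, F τ x = c.J0 x := by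
  have hσ : ∀ τ, Real.smoothTransition τ ∈ Icc (0 : ℝ) 1 := fun τ =>
    ⟨Real.smoothTransition.nonneg τ, Real.smoothTransition.le_one τ⟩
  refine ⟨fun τ x => Cay.path (Real.smoothTransition τ) (c.J0 x) (J x), ⟨fun τ => ?_, fun x => ?_⟩,
    ?_, ?_, fun x hx τ => ?_⟩
  · exact Cay.tame_path c.hom.1.1 (fun x _ => c.comp0 x) c.tame0 hJ (fun _ _ => hσ τ)
      fun _ => contDiffOn_const
  · exact Cay.path_smooth (π := Prod.snd) (K := fun _ => c.J0) (J := fun _ => J)
      (t := fun p _ => Real.smoothTransition p.1) x (fun _ hp => hp.2) (fun _ _ => c.tame0)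
      (fun _ _ => hJ) (fun p _ => hσ _) ((c.tame0.2 x).comp contDiffOn_snd fun _ hp => hp.2)
      ((hJ.2 x).comp contDiffOn_snd fun _ hp => hp.2)
      (Real.smoothTransition.contDiff.comp contDiff_fst).contDiffOn
  · funext x
    simp [Cay.path_zero]
  · funext x
    simp only [Real.smoothTransition.one]
    exact Cay.path_end c.tame0 hJ (mem_univ x)
  · simp only [hx, Cay.path_self]

end Pool.Agent.Lib.MP_1c0d65_gt.PW
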