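import Pool.Agent.Lib.MP_1c0d65_gt.PW.Int

/-! Lifting a punctured disc through the quotient by a cyclic group: the abstract part. -/

set_option autoImplicit false

open scoped Topology
open Set Filter Metric

noncomputable section

namespace Pool.Agent.Lib.MP_1c0d65_gt.PW

theorem mon_prim {N : ℕ} (hN : N ≠ 0) : IsPrimitiveRoot (eps N) N :=
  Complex.isPrimitiveRoot_exp N hN

theorem mon_norm_eps {N : ℕ} (hN : N ≠ 0) : ‖eps N‖ = 1 := (mon_prim hN).norm'_eq_one hN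

theorem mon_norm_gen {N : ℕ} (hN : N ≠ 0) (a j : ℕ) (z : E) : ‖gen N a j z‖ = ‖z‖ := by
  simp [gen, Prod.norm_def, mon_norm_eps hN]

theorem mon_gen_dvd {N : ℕ} (hN : N ≠ 0) (a : ℕ) {j : ℕ} (h : N ∣ j) (z : E) :
    gen N a j z = z := by
  rw [gen, ((mon_prim hN).pow_eq_one_iff_dvd j).2 h,
    ((mon_prim hN).pow_eq_one_iff_dvd (a * j)).2 (h.mul_left a), one_mul, one_mul]

theorem mon_gen_pb {N : ℕ} (hN : N ≠ 0) (a j : ℕ) {z : E} {r : ℝ} (h : z ∈ pb r) :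
    gen N a j z ∈ pb r := by
  refine ⟨?_, fun h0 => h.2 ?_⟩
  · have := h.1
    rw [mem_ball_zero_iff] at this ⊢
    rwa [mon_norm_gen hN]
  · rw [mem_singleton_iff, ← norm_eq_zero] at h0 ⊢
    rwa [mon_norm_gen hN] at h0

theorem mon_gen_diff (N a j : ℕ) : Differentiable ℂ (gen N a j) := by
  unfold gen
  fun_prop

theorem mon_tendsto {N : ℕ} (hN : N ≠ 0) (a : ℂ) :
    Tendsto (fun ζ : ℂ => a + ζ ^ N) (𝓝[≠] 0) (𝓝[≠] a) := by
  refine tendsto_nhdsWithin_iff.2 ⟨?_, ?_⟩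
  · have : ContinuousAt (fun ζ : ℂ => a + ζ ^ N) 0 := by fun_prop
    simpa [hN] using this.tendsto.mono_left nhdsWithin_le_nhds
  · filter_upwards [self_mem_nhdsWithin] with ζ hζ
    simpa [hN] using hζ

theorem mon_eq_of_pow {N : ℕ} (hN : N ≠ 0) {p y : ℂ → ℂ} {s : ℂ} (hp : ContinuousAt p s)
    (hy : ContinuousAt y s) (h0 : p s = y s) (h1 : y s ≠ 0)
    (h : ∀ᶠ t in 𝓝 s, p t ^ N = y t ^ N) : ∀ᶠ t in 𝓝 s, p t = y t := by
  have hc : ContinuousAt (fun t => ∑ i ∈ Finset.range N, p t ^ i * y t ^ (N - 1 - i)) s :=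
    tendsto_finsetSum _ fun i _ => (hp.pow i).mul (hy.pow _)
  have hne : ∑ i ∈ Finset.range N, p s ^ i * y s ^ (N - 1 - i) ≠ 0 := by
    rw [h0, geom_sum₂_self]
    exact mul_ne_zero (Nat.cast_ne_zero.2 hN) (pow_ne_zero _ h1)
  filter_upwards [h, hc.eventually_ne hne] with t ht ht'
  have := geom_sum₂_mul (p t) (y t) N
  rw [ht, sub_self] at this
  exact sub_eq_zero.1 ((mul_eq_zero.1 this).resolve_left ht')

theorem mon_root {N : ℕ} (hN : N ≠ 0) {h : ℂ → ℂ} {a : ℂ} (hh : AnalyticAt ℂ h a) (h0 : h a ≠ 0) :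
    ∃ ρ : ℂ → ℂ, AnalyticAt ℂ ρ a ∧ ρ a ≠ 0 ∧ ∀ᶠ s in 𝓝 a, ρ s ^ N = h s := by
  obtain ⟨c, hc⟩ := IsAlgClosed.exists_pow_nat_eq (h a) (Nat.pos_of_ne_zero hN)
  have hc0 : c ≠ 0 := by
    rintro rfl
    exact h0 (by rw [← hc, zero_pow hN])
  have hs : h a / h a ∈ Complex.slitPlane := by
    rw [div_self h0]
    exact Complex.one_mem_slitPlane
  refine ⟨fun s => c * Complex.exp (Complex.log (h s / h a) / N), ?_,
    mul_ne_zero hc0 (Complex.exp_ne_zero _), ?_⟩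
  · exact analyticAt_const.mul (((hh.div_const (c := h a)).clog hs).div_const (c := (N : ℂ))).cexp
  · filter_upwards [hh.continuousAt.eventually_ne h0] with s hs
    rw [mul_pow, hc, ← Complex.exp_nat_mul, mul_div_cancel₀ _ (Nat.cast_ne_zero.2 hN),
      Complex.exp_log (div_ne_zero hs h0), mul_div_cancel₀ _ h0]

/-- The data of a punctured disc in the quotient: `Rel s z` says that `z` lies over `s`. -/
structure MonD (N b : ℕ) (a : ℂ) (Rel : ℂ → E → Prop) : Prop where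
  hN : N ≠ 0
  loc : ∀ᶠ s in 𝓝[≠] a, ∃ w : ℂ → E, ∀ᶠ t in 𝓝 s, DifferentiableAt ℂ w t ∧ Rel t (w t)
  orb : ∀ s z z', Rel s z → Rel s z' → ∃ m, z' = gen N b m z
  inv : ∀ s z m, Rel s z → Rel s (gen N b m z)
  ne : ∀ s z, Rel s z → z ≠ 0
  small : ∀ r > 0, ∀ᶠ s in 𝓝[≠] a, ∀ z, Rel s z → ‖z‖ < r

variable {N b : ℕ} {a : ℂ} {Rel : ℂ → E → Prop}

theorem MonD.ana (D : MonD N b a Rel) {π : E →L[ℂ] ℂ} {e : ℂ} (he : e ^ N = 1)
    (hπ : ∀ m z, π (gen N b m z) = e ^ m * π z) {w0 : ℂ → E} (h0 : w0 a = 0)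
    (hw : ∀ᶠ s in 𝓝[≠] a, Rel s (w0 s)) : AnalyticAt ℂ (fun s => π (w0 s) ^ N) a := by
  refine Complex.analyticAt_of_differentiable_on_punctured_nhds_of_continuousAt ?_ ?_
  · filter_upwards [D.loc, eventually_eventually_nhdsWithin.2 hw, self_mem_nhdsWithin]
      with s ⟨w, hs⟩ hs' hsa
    rw [nhdsWithin_eq_nhds.2 (isOpen_compl_singleton.mem_nhds hsa)] at hs'
    have e1 : (fun s => π (w0 s) ^ N) =ᶠ[𝓝 s] fun s => π (w s) ^ N := by
      filter_upwards [hs, hs'] with t ht ht'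
      obtain ⟨m, hm⟩ := D.orb t _ _ ht.2 ht'
      rw [hm, hπ, mul_pow, ← pow_mul, mul_comm m, pow_mul, he, one_pow, one_mul]
    exact ((π.differentiableAt.comp s hs.self_of_nhds.1).pow N).congr_of_eventuallyEq e1
  · have : ContinuousAt w0 a := by
      rw [← continuousWithinAt_compl_self, ContinuousWithinAt, h0, NormedAddGroup.tendsto_nhds_zero]
      intro r hr
      filter_upwards [D.small r hr, hw] with s hs hs' using hs _ hs'
    exact (π.continuous.continuousAt.comp this).pow N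

theorem MonD.step (D : MonD N b a Rel) {π : E →L[ℂ] ℂ} {e : ℂ} (he : IsPrimitiveRoot e N)
    (hπ : ∀ m z, π (gen N b m z) = e ^ m * π z) {w0 : ℂ → E} (h0 : w0 a = 0)
    (hw : ∀ᶠ s in 𝓝[≠] a, Rel s (w0 s)) (hne : ¬ ∀ᶠ s in 𝓝 a, π (w0 s) ^ N = 0) :
    ∃ j < N, ∃ z : ℂ → E, ∃ r > 0, DifferentiableOn ℂ z (ball 0 r) ∧ z 0 = 0 ∧
      ∀ ζ ∈ ball (0 : ℂ) r, ζ ≠ 0 → Rel (a + ζ ^ N) (z ζ) ∧ z (eps N * ζ) = gen N b j (z ζ) := by
  classical
  have hN := D.hN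
  have : NeZero N := ⟨hN⟩
  obtain ⟨k, h, hh, hh0, hk⟩ :=
    (D.ana he.pow_eq_one hπ h0 hw).exists_eventuallyEq_pow_smul_nonzero_iff.2 hne
  obtain ⟨ρ, hρ, hρ0, hρN⟩ := mon_root hN hh hh0
  have hT := mon_tendsto hN a
  have hT' := hT.mono_right nhdsWithin_le_nhds
  set y : ℂ → ℂ := fun ζ => ζ ^ k * ρ (a + ζ ^ N) with hy
  have uniq : ∀ s z z', Rel s z → Rel s z' → π z' = π z → π z ≠ 0 → z' = z := by
    intro s z z' h1 h2 h3 h4
    obtain ⟨m, rfl⟩ := D.orb s z z' h1 h2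
    rw [hπ, mul_eq_right₀ h4] at h3
    exact mon_gen_dvd hN b ((he.pow_eq_one_iff_dvd m).1 h3) z
  have powN : ∀ s z z', Rel s z → Rel s z' → π z' ^ N = π z ^ N := by
    intro s z z' h1 h2
    obtain ⟨m, rfl⟩ := D.orb s z z' h1 h2
    rw [hπ, mul_pow, ← pow_mul, mul_comm m, pow_mul, he.pow_eq_one, one_pow, one_mul]
  have ex : ∀ᶠ ζ in 𝓝[≠] (0 : ℂ), y ζ ≠ 0 ∧ ContinuousAt y ζ ∧
      ∃ x, Rel (a + ζ ^ N) x ∧ π x = y ζ := by
    filter_upwards [self_mem_nhdsWithin, hT.eventually hw, hT'.eventually hk, hT'.eventually hρN,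
      hT'.eventually (hρ.continuousAt.eventually_ne hρ0),
      hT'.eventually hρ.eventually_analyticAt] with ζ hζ h1 h2 h3 h4 h5
    have hy0 : y ζ ≠ 0 := mul_ne_zero (pow_ne_zero _ hζ) h4
    have hyN : y ζ ^ N = π (w0 (a + ζ ^ N)) ^ N := by
      rw [h2, hy, mul_pow, h3, add_sub_cancel_left, smul_eq_mul, ← pow_mul, ← pow_mul, mul_comm k]
    have hp0 : π (w0 (a + ζ ^ N)) ≠ 0 := by
      intro h6
      rw [h6, zero_pow hN] at hyN
      exact pow_ne_zero _ hy0 hyN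
    obtain ⟨m, -, hm⟩ := he.eq_pow_of_pow_eq_one (ξ := y ζ / π (w0 (a + ζ ^ N)))
      (by rw [div_pow, hyN, div_self (pow_ne_zero _ hp0)])
    refine ⟨hy0, ?_, _, D.inv _ _ m h1, by rw [hπ, hm, div_mul_cancel₀ _ hp0]⟩
    exact (continuous_pow k).continuousAt.mul
      (h5.continuousAt.comp (f := fun ζ : ℂ => a + ζ ^ N) (by fun_prop))
  set z : ℂ → E := fun ζ => if h : ζ ≠ 0 ∧ ∃ x, Rel (a + ζ ^ N) x ∧ π x = y ζ then h.2.choose
    else 0 with hz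
  have z0 : z 0 = 0 := by simp [hz]
  have hz1 : ∀ᶠ ζ in 𝓝[≠] (0 : ℂ), Rel (a + ζ ^ N) (z ζ) ∧ π (z ζ) = y ζ := by
    filter_upwards [self_mem_nhdsWithin, ex] with ζ hζ h1
    have h2 : ζ ≠ 0 ∧ ∃ x, Rel (a + ζ ^ N) x ∧ π x = y ζ := ⟨hζ, h1.2.2⟩
    simp only [hz, dif_pos h2]
    exact h2.2.choose_spec
  have hd : ∀ᶠ ζ in 𝓝[≠] (0 : ℂ), DifferentiableAt ℂ z ζ := by
    filter_upwards [self_mem_nhdsWithin, ex, eventually_eventually_nhdsWithin.2 (hz1.and ex),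
      hT.eventually D.loc] with ζ hζ h1 h2 ⟨w, h3⟩
    rw [nhdsWithin_eq_nhds.2 (isOpen_compl_singleton.mem_nhds hζ)] at h2
    have hc : ContinuousAt (fun ζ : ℂ => a + ζ ^ N) ζ := by fun_prop
    have h4 := hc.eventually h3
    obtain ⟨m, hm⟩ := D.orb _ _ _ h4.self_of_nhds.2 h2.self_of_nhds.1.1
    have h5 : DifferentiableAt ℂ (fun t => gen N b m (w (a + t ^ N))) ζ :=
      (mon_gen_diff N b m _).comp ζ
        (h4.self_of_nhds.1.comp ζ (f := fun ζ : ℂ => a + ζ ^ N) (by fun_prop))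
    have h6 := mon_eq_of_pow hN (p := fun t => π (gen N b m (w (a + t ^ N)))) (y := y)
      (π.continuous.continuousAt.comp h5.continuousAt) h1.2.1
      (by rw [← hm]; exact h2.self_of_nhds.1.2) h1.1 (by
        filter_upwards [h2, h4] with t h7 h8
        rw [← h7.1.2]
        exact powN _ _ _ h7.1.1 (D.inv _ _ m h8.2))
    refine h5.congr_of_eventuallyEq ?_
    filter_upwards [h2, h4, h6] with t h7 h8 h9
    exact (uniq _ _ _ h7.1.1 (D.inv _ _ m h8.2) (h9.trans h7.1.2.symm) (h7.1.2 ▸ h7.2.1)).symm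
  have hc0 : ContinuousAt z 0 := by
    rw [← continuousWithinAt_compl_self, ContinuousWithinAt, z0, NormedAddGroup.tendsto_nhds_zero]
    intro r hr
    filter_upwards [hT.eventually (D.small r hr), hz1] with s hs hs' using hs _ hs'.1
  obtain ⟨j, hj, hje⟩ := he.eq_pow_of_pow_eq_one (ξ := eps N ^ k)
    (by rw [← pow_mul, mul_comm, pow_mul, (mon_prim hN).pow_eq_one, one_pow])
  obtain ⟨r, hr, H⟩ := Metric.eventually_nhds_iff_ball.1
    (eventually_nhdsWithin_iff.1 (hd.and (hz1.and ex)))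
  refine ⟨j, hj, z, r, hr, ?_, z0, fun ζ hζ hζ0 => ⟨(H ζ hζ hζ0).2.1.1, ?_⟩⟩
  · refine (Complex.differentiableOn_compl_singleton_and_continuousAt_iff
      (ball_mem_nhds 0 hr)).1 ⟨fun ζ hζ => (H ζ hζ.1 hζ.2).1.differentiableWithinAt, hc0⟩
  · have h1 : eps N * ζ ∈ ball (0 : ℂ) r := by
      rw [mem_ball_zero_iff] at hζ ⊢
      rwa [norm_mul, mon_norm_eps hN, one_mul]
    have h2 := H _ h1 (mul_ne_zero ((mon_prim hN).ne_zero hN) hζ0)
    have h3 := H ζ hζ hζ0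
    have h4 : (eps N * ζ) ^ N = ζ ^ N := by rw [mul_pow, (mon_prim hN).pow_eq_one, one_mul]
    have h5 : π (gen N b j (z ζ)) = π (z (eps N * ζ)) := by
      rw [hπ, hje, h3.2.1.2, h2.2.1.2, hy]
      simp only [h4, mul_pow, mul_assoc]
    refine (uniq _ _ _ h2.2.1.1 ?_ h5 (h2.2.1.2 ▸ h2.2.2.1)).symm
    rw [h4]
    exact D.inv _ _ j h3.2.1.1

theorem MonD.main (D : MonD N b a Rel) (hb : b.Coprime N) :
    ∃ j < N, ∃ z : ℂ → E, ∃ r > 0, DifferentiableOn ℂ z (ball 0 r) ∧ z 0 = 0 ∧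
      ∀ ζ ∈ ball (0 : ℂ) r, ζ ≠ 0 → Rel (a + ζ ^ N) (z ζ) ∧ z (eps N * ζ) = gen N b j (z ζ) := by
  classical
  set w0 : ℂ → E := fun s => if h : s ≠ a ∧ ∃ x, Rel s x then h.2.choose else 0 with hw0
  have h0 : w0 a = 0 := by simp [hw0]
  have hw : ∀ᶠ s in 𝓝[≠] a, Rel s (w0 s) := by
    filter_upwards [self_mem_nhdsWithin, D.loc] with s hs ⟨w, h⟩
    have h2 : s ≠ a ∧ ∃ x, Rel s x := ⟨hs, _, h.self_of_nhds.2⟩
    simp only [hw0, dif_pos h2]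
    exact h2.2.choose_spec
  by_cases h1 : ∀ᶠ s in 𝓝 a, (ContinuousLinearMap.fst ℂ ℂ ℂ) (w0 s) ^ N = 0
  · refine D.step (π := ContinuousLinearMap.snd ℂ ℂ ℂ) ((mon_prim D.hN).pow_of_coprime b hb)
      (fun m z => by simp [gen, pow_mul]) h0 hw fun h2 => ?_
    obtain ⟨s, h3, h4, h5⟩ := (hw.and ((h1.and h2).filter_mono nhdsWithin_le_nhds)).exists
    exact D.ne _ _ h3 (Prod.ext (pow_eq_zero_iff D.hN |>.1 h4) (pow_eq_zero_iff D.hN |>.1 h5))
  · exact D.step (mon_prim D.hN) (fun m z => by simp [gen]) h0 hw h1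

end Pool.Agent.Lib.MP_1c0d65_gt.PW
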