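import Pool.Agent.Lib.MP_1c0d65_gt.PW.BrK
import Pool.Agent.Lib.MP_1c0d65_gt.PW.MonA

/-! Every puncture of an orbifold sphere has a holomorphic lift with a monodromy. -/

set_option autoImplicit false
set_option linter.unusedSectionVars false

open scoped Manifold ContDiff Topology
open Set MeasureTheory Filter Metric

noncomputable section

namespace Pool.Agent.Lib.MP_1c0d65_gt.PW

variable {X : Type} [TopologicalSpace X] [ChartedSpace E X] [IsManifold 𝓘(ℝ, E) ∞ X]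
  [T2Space X] [CompactSpace X] [MeasurableSpace X] [BorelSpace X] {c : Ctx X} {O : Orb c}

theorem mon_isOpen_pb (r : ℝ) : IsOpen (pb r) := isOpen_ball.sdiff isClosed_singleton

theorem mon_pb_mono {r r' : ℝ} (h : r ≤ r') : pb r ⊆ pb r' :=
  sdiff_subset_sdiff_left (ball_subset_ball h)

theorem Orb.N_ne (O : Orb c) (i : Fin O.n) : O.N i ≠ 0 := by
  obtain ⟨p, q, hq, hp, -, hN, -⟩ := O.wahl i
  rw [hN]
  exact pow_ne_zero _ (by omega)

theorem Orb.a_coprime (O : Orb c) (i : Fin O.n) : (O.a i).Coprime (O.N i) := by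
  obtain ⟨p, q, -, -, -, hN, ha⟩ := O.wahl i
  rw [hN]
  refine Nat.Coprime.pow_right _ (Nat.Coprime.of_dvd_right (Dvd.intro q ha.symm) ?_)
  simp

theorem Orb.Pi_cm (O : Orb c) (i : Fin O.n) {z : E} (hz : z ∈ pb O.R) :
    ContMDiffAt 𝓘(ℝ, E) 𝓘(ℝ, E) ∞ (O.Pi i) z :=
  (O.smooth i).contMDiffAt ((mon_isOpen_pb _).mem_nhds hz)

theorem Orb.Pi_gen (O : Orb c) (i : Fin O.n) {z : E} (hz : z ∈ pb O.R) (m : ℕ) :
    O.Pi i (gen (O.N i) (O.a i) m z) = O.Pi i z :=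
  ((O.fibre i i z hz _ (mon_gen_pb (O.N_ne i) _ m hz)).2 ⟨rfl, m, rfl⟩).symm

/-- A smooth local section of the uniformising map along a smooth map. -/
theorem Orb.lift_smooth (O : Orb c) (i : Fin O.n) {V : Type} [NormedAddCommGroup V]
    [NormedSpace ℝ V] {u : V → X} {s : V} (hu : ContMDiffAt 𝓘(ℝ, V) 𝓘(ℝ, E) ∞ u s) {z : E}
    (hz : z ∈ pb O.R) (h : O.Pi i z = u s) : ∃ w : V → E, w s = z ∧ ContDiffAt ℝ ∞ w s ∧
      ∀ᶠ t in 𝓝 s, w t ∈ pb O.R ∧ O.Pi i (w t) = u t := by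
  have hP := O.Pi_cm i hz
  set e := chartAt E (O.Pi i z) with he
  have hsrc : O.Pi i z ∈ e.source := mem_chart_source E _
  have hG : ContDiffAt ℝ ∞ (e ∘ O.Pi i) z := brk_chart hP hsrc
  have hinj : Function.Injective (fderiv ℝ (e ∘ O.Pi i) z) := by
    rw [← brk_dif_chart hP]
    exact O.inj i z hz
  have hsur : Function.Surjective (fderiv ℝ (e ∘ O.Pi i) z) :=
    (LinearMap.injective_iff_surjective (f := (fderiv ℝ (e ∘ O.Pi i) z : E →ₗ[ℝ] E))).1 hinj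
  set A := ContinuousLinearEquiv.ofBijective (fderiv ℝ (e ∘ O.Pi i) z)
    (LinearMap.ker_eq_bot.2 hinj) (LinearMap.range_eq_top.2 hsur) with hA
  have hG' : HasFDerivAt (e ∘ O.Pi i) (A : E →L[ℝ] E) z :=
    (hG.differentiableAt (by simp)).hasFDerivAt
  have hn : (∞ : WithTop ℕ∞) ≠ 0 := by simp
  have h1 := hG.to_localInverse hG' hn
  have h2 := hG.localInverse_apply_image hG' hn
  have h3 := (hG.hasStrictFDerivAt' hG' hn).eventually_right_inverse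
  have h4 : ContDiffAt ℝ ∞ (e ∘ u) s := brk_chart hu (h ▸ hsrc)
  have h5 : (e ∘ u) s = (e ∘ O.Pi i) z := by simp [h]
  have h6 : ContDiffAt ℝ ∞ (hG.localInverse hG' hn ∘ (e ∘ u)) s := (h5 ▸ h1).comp s h4
  have h7 : (hG.localInverse hG' hn ∘ (e ∘ u)) s = z := by rw [Function.comp_apply, h5, h2]
  refine ⟨_, h7, h6, ?_⟩
  have h8 : Tendsto (hG.localInverse hG' hn ∘ (e ∘ u)) (𝓝 s) (𝓝 z) := by
    have := h6.continuousAt.tendsto
    rwa [h7] at this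
  have h9 : Tendsto (e ∘ u) (𝓝 s) (𝓝 ((e ∘ O.Pi i) z)) := h5 ▸ h4.continuousAt.tendsto
  filter_upwards [h8.eventually ((mon_isOpen_pb _).mem_nhds hz),
    h8.eventually (hP.continuousAt.eventually (e.open_source.mem_nhds hsrc)), h9.eventually h3,
    hu.continuousAt.eventually (e.open_source.mem_nhds (h ▸ hsrc))] with t t1 t2 t3 t4
  exact ⟨t1, e.injOn t2 t4 t3⟩

/-- A holomorphic local lift of a holomorphic curve. -/
theorem Orb.lift_hol (O : Orb c) (i : Fin O.n) {u : ℂ → X} {S : Set ℂ} (hS : IsOpen S)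
    (hu : Hol O.J u S) {s : ℂ} (hs : s ∈ S) {z : E} (hz : z ∈ pb O.R) (h : O.Pi i z = u s) :
    ∃ w : ℂ → E, w s = z ∧
      ∀ᶠ t in 𝓝 s, DifferentiableAt ℂ w t ∧ w t ∈ pb O.R ∧ O.Pi i (w t) = u t := by
  obtain ⟨w, h1, h2, h3⟩ := O.lift_smooth i (hu.1.contMDiffAt (hS.mem_nhds hs)) hz h
  refine ⟨w, h1, ?_⟩
  have h4 := (h2.of_le (m := 1) (by simp)).eventually (by simp)
  filter_upwards [h3.eventually_nhds, h4, hS.mem_nhds hs] with t t1 t2 t3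
  refine ⟨?_, t1.self_of_nhds⟩
  have hd : DifferentiableAt ℝ w t := t2.differentiableAt (by simp)
  have e : u =ᶠ[𝓝 t] O.Pi i ∘ w := t1.mono fun x hx => hx.2.symm
  have h5 := hu.2 t t3
  rw [brk_dif_congr e, brk_dif_comp (brk_md (O.Pi_cm i t1.self_of_nhds.1)) hd,
    ContinuousLinearMap.comp_apply, ContinuousLinearMap.comp_apply, ← t1.self_of_nhds.2,
    ← O.hol i _ t1.self_of_nhds.1] at h5
  exact differentiableAt_complex_iff_differentiableAt_real.2 ⟨hd, O.inj i _ t1.self_of_nhds.1 h5⟩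

theorem OC.ev_pb (C : OC O) {a : ℂ} {i : Fin O.n} (h : Tendsto C.u (𝓝[≠] a) (𝓝ˢ (O.L i)))
    {r : ℝ} (hr : r ∈ Ioc 0 O.R) : ∀ᶠ s in 𝓝[≠] a, C.u s ∈ O.Pi i '' pb r := by
  filter_upwards [C.ev_F a, h.eventually ((O.isOpen i r hr).mem_nhdsSet.2 subset_union_right)]
    with s hs hs'
  exact hs'.resolve_right fun h1 => C.mu hs (mem_iUnion.2 ⟨i, h1⟩)

theorem OC.exists_br (C : OC O) {a : ℂ} {i : Fin O.n}
    (h : Tendsto C.u (𝓝[≠] a) (𝓝ˢ (O.L i))) : ∃ j < O.N i, ∃ z, C.Br a i j z := by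
  have D : MonD (O.N i) (O.a i) a fun s z => z ∈ pb O.R ∧ O.Pi i z = C.u s := by
    refine ⟨O.N_ne i, ?_, ?_, ?_, fun s z hz => hz.1.2, fun r hr => ?_⟩
    · filter_upwards [C.ev_F a, C.ev_pb h ⟨O.hR, le_rfl⟩] with s hs ⟨z, hz, hz'⟩
      obtain ⟨w, -, hw⟩ := O.lift_hol i C.isOpen_F C.hu hs hz hz'
      exact ⟨w, hw⟩
    · exact fun s z z' hz hz' => ((O.fibre i i z hz.1 z' hz'.1).1 (hz.2.trans hz'.2.symm)).2
    · exact fun s z m hz => ⟨mon_gen_pb (O.N_ne i) _ m hz.1, (O.Pi_gen i hz.1 m).trans hz.2⟩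
    · filter_upwards [C.ev_pb h (r := min r O.R) ⟨lt_min hr O.hR, min_le_right _ _⟩]
        with s ⟨z', hz', hz''⟩ z hz
      obtain ⟨m, rfl⟩ := ((O.fibre i i z' (mon_pb_mono (min_le_right _ _) hz') z hz.1).1
        (hz''.trans hz.2.symm)).2
      rw [mon_norm_gen (O.N_ne i)]
      exact (mem_ball_zero_iff.1 hz'.1).trans_le (min_le_left _ _)
  obtain ⟨j, hj, z, r, hr, h1, h2, h3⟩ := D.main (O.a_coprime i)
  exact ⟨j, hj, z, r, hr, h1, h2, fun ζ hζ h0 =>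
    ⟨(h3 ζ hζ h0).1.1, (h3 ζ hζ h0).1.2, (h3 ζ hζ h0).2⟩⟩

theorem OC.exists_mon (C : OC O) : ∃ ι j, C.Mon ι j := by
  choose ι hι using fun a : C.F => C.pu a a.2
  choose j hj using fun a : C.F => C.exists_br (hι a)
  exact ⟨ι, j, hj⟩

end Pool.Agent.Lib.MP_1c0d65_gt.PW
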