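import Pool.Agent.Lib.MP_1c0d65_gt.PW.Defs

/-! Stokes' theorem in the plane for one-forms that extend over infinity. -/

set_option autoImplicit false

open scoped Topology
open Set MeasureTheory Filter Metric

noncomputable section

namespace Pool.Agent.Lib.MP_1c0d65_gt.PW

/-- Cut-off functions that exhaust the plane. -/
theorem exists_cutoff : ∃ (χ : ℕ → ℂ → ℝ) (M : ℝ), 0 ≤ M ∧ (∀ n, ContDiff ℝ 1 (χ n)) ∧
    (∀ n, HasCompactSupport (χ n)) ∧ (∀ n s, ‖χ n s‖ ≤ 1) ∧ (∀ s, ∀ᶠ n in atTop, χ n s = 1) ∧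
    ∀ (n : ℕ) (s : ℂ), ‖fderiv ℝ (χ n) s‖ ≤ M / (n + 1) ∧
      (fderiv ℝ (χ n) s ≠ 0 → (n + 1 : ℝ) ≤ ‖s‖ ∧ ‖s‖ ≤ 2 * (n + 1)) := by
  let f : ContDiffBump (0 : ℂ) := ⟨1, 2, one_pos, one_lt_two⟩
  have hf : ContDiff ℝ 1 f := f.contDiff
  obtain ⟨M, hM⟩ := (f.hasCompactSupport.fderiv ℝ).exists_bound_of_continuous
    (hf.continuous_fderiv one_ne_zero)
  have t0 : ∀ n : ℕ, (0 : ℝ) < n + 1 := fun n => by positivity
  have nr : ∀ (n : ℕ) (s : ℂ), ‖((n : ℝ) + 1)⁻¹ • s‖ = ‖s‖ / (n + 1) := fun n s => by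
    rw [norm_smul, norm_inv, Real.norm_of_nonneg (t0 n).le, div_eq_inv_mul]
  refine ⟨fun n s => f (((n : ℝ) + 1)⁻¹ • s), M, (norm_nonneg _).trans (hM 0),
    fun n => hf.comp (contDiff_const_smul _), fun n =>
      f.hasCompactSupport.comp_smul (inv_ne_zero (t0 n).ne'),
    fun n s => by rw [Real.norm_of_nonneg f.nonneg]; exact f.le_one, fun s => ?_, fun n s => ?_⟩
  · filter_upwards [tendsto_natCast_atTop_atTop.eventually_ge_atTop ‖s‖] with n hn
    refine f.one_of_mem_closedBall (mem_closedBall_zero_iff.2 ?_)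
    rw [nr, div_le_iff₀ (t0 n)]
    change _ ≤ 1 * _
    linarith
  have e : fderiv ℝ (fun s => f (((n : ℝ) + 1)⁻¹ • s)) s =
      ((n : ℝ) + 1)⁻¹ • fderiv ℝ f (((n : ℝ) + 1)⁻¹ • s) := fderiv_comp_smul _
  rw [e]
  refine ⟨?_, fun h => ?_⟩
  · rw [norm_smul, norm_inv, Real.norm_of_nonneg (t0 n).le, div_eq_inv_mul]
    exact mul_le_mul_of_nonneg_left (hM _) (inv_pos.2 (t0 n)).le
  have h0 : fderiv ℝ f (((n : ℝ) + 1)⁻¹ • s) ≠ 0 := fun e => h (by rw [e, smul_zero])
  constructor
  · by_contra! c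
    refine h0 ((f.eventuallyEq_one_of_mem_ball (mem_ball_zero_iff.2 ?_)).fderiv_eq.trans
      (fderiv_const_apply (1 : ℝ)))
    rw [nr, div_lt_iff₀ (t0 n)]
    change _ < 1 * _
    linarith
  · have := support_fderiv_subset ℝ h0
    rwa [f.tsupport_eq, mem_closedBall_zero_iff, nr, div_le_iff₀ (t0 n)] at this

/-- Stokes' theorem in the plane. -/
theorem stokes_plane {b : ℂ → ℂ →L[ℝ] ℝ} (hb : ContDiff ℝ 1 b) {K R : ℝ}
    (hK : ∀ s, R ≤ ‖s‖ → ‖b s‖ ≤ K / ‖s‖ ^ 2) (hi : Integrable fun s => ext1 b s 1 .I) :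
    ∫ s, ext1 b s 1 .I = 0 := by
  obtain ⟨χ, M, M0, c1, cs, le1, ev, hd⟩ := exists_cutoff
  have hw : ∀ w : ℂ, ContDiff ℝ 1 fun s => b s w := fun w => hb.clm_apply contDiff_const
  have fw : ∀ (w v s : ℂ), fderiv ℝ (fun s => b s w) s v = fderiv ℝ b s v w := fun w v s => by
    rw [fderiv_clm_apply (hb.differentiable one_ne_zero s) (differentiableAt_const _)]
    simp
  have cd : ∀ {g : ℂ → ℝ}, ContDiff ℝ 1 g → ∀ v : ℂ, Continuous fun s => fderiv ℝ g s v :=
    fun hg v => (hg.continuous_fderiv one_ne_zero).clm_apply continuous_const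
  have i2 : ∀ n v w, Integrable fun s => χ n s * fderiv ℝ (fun s => b s w) s v := fun n v w =>
    ((c1 n).continuous.mul (cd (hw w) v)).integrable_of_hasCompactSupport (cs n).mul_right
  have parts : ∀ n v w, ∫ s, χ n s * fderiv ℝ (fun s => b s w) s v =
      -∫ s, fderiv ℝ (χ n) s v * b s w := fun n v w =>
    integral_mul_fderiv_eq_neg_fderiv_mul_of_integrable
      (((cd (c1 n) v).mul (hw w).continuous).integrable_of_hasCompactSupport
        ((cs n).fderiv_apply ℝ v).mul_right) (i2 n v w)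
      (((c1 n).continuous.mul (hw w).continuous).integrable_of_hasCompactSupport (cs n).mul_right)
      (fun s _ => (c1 n).differentiable one_ne_zero s) fun s _ => (hw w).differentiable one_ne_zero s
  have small : ∀ v w : ℂ, ‖v‖ = 1 → ‖w‖ = 1 →
      Tendsto (fun n => ∫ s, fderiv ℝ (χ n) s v * b s w) atTop (𝓝 0) := fun v w hv hw' => by
    refine squeeze_zero_norm' (a := fun n : ℕ => M * |K| * (4 * Real.pi) * (1 / ((n : ℝ) + 1))) ?_
      (by simpa using tendsto_one_div_add_atTop_nhds_zero_nat.const_mul (M * |K| * (4 * Real.pi)))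
    filter_upwards [tendsto_natCast_atTop_atTop.eventually_ge_atTop R] with n hn
    have t0 : (0 : ℝ) < n + 1 := by positivity
    rw [← setIntegral_eq_integral_of_forall_compl_eq_zero (s := closedBall 0 (2 * (n + 1)))
      fun s hs => by
        rw [show fderiv ℝ (χ n) s = 0 from by_contra fun h =>
          hs (mem_closedBall_zero_iff.2 ((hd n s).2 h).2)]
        simp]
    refine (norm_setIntegral_le_of_norm_le_const (C := M / (n + 1) * (|K| / (n + 1) ^ 2))
      measure_closedBall_lt_top fun s _ => ?_).trans_eq ?_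
    · rcases eq_or_ne (fderiv ℝ (χ n) s) 0 with h | h
      · simp only [h, zero_apply, zero_mul, norm_zero]
        positivity
      have h1 := ((hd n s).2 h).1
      rw [norm_mul]
      refine mul_le_mul (((fderiv ℝ (χ n) s).le_opNorm v).trans ?_) (((b s).le_opNorm w).trans ?_)
        (norm_nonneg _) (by positivity)
      · rw [hv, mul_one]; exact (hd n s).1
      · rw [hw', mul_one]
        exact (hK s (by linarith)).trans (by gcongr; exact le_abs_self K)
    · rw [Measure.real, Complex.volume_closedBall, ENNReal.toReal_mul, ENNReal.toReal_pow,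
        ENNReal.toReal_ofReal (by positivity), ENNReal.coe_toReal, NNReal.coe_real_pi]
      field_simp
      norm_num
  have lim : Tendsto (fun n => ∫ s, χ n s * ext1 b s 1 .I) atTop (𝓝 (∫ s, ext1 b s 1 .I)) :=
    tendsto_integral_of_dominated_convergence _
      (fun n => (c1 n).continuous.aestronglyMeasurable.mul hi.aestronglyMeasurable) hi.norm
      (fun n => Eventually.of_forall fun s => by
        rw [norm_mul]; exact mul_le_of_le_one_left (norm_nonneg _) (le1 n s))
      (Eventually.of_forall fun s => tendsto_const_nhds.congr' ((ev s).mono fun n hn => by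
        simp [hn]))
  refine tendsto_nhds_unique lim ?_
  have := (small 1 .I norm_one Complex.norm_I).neg.sub (small .I 1 Complex.norm_I norm_one).neg
  simp only [← parts, ← integral_sub (i2 _ _ _) (i2 _ _ _), neg_zero, sub_zero] at this
  simp only [fw, ← mul_sub] at this
  exact this

end Pool.Agent.Lib.MP_1c0d65_gt.PW
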