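import Pool.Agent.Lib.MP_1c0d65_gt.PW.OCi
import Pool.Agent.Lib.MP_1c0d65_gt.PW.PlotD
import Pool.Agent.Lib.MP_1c0d65_gt.PW.StokesC

/-! Exact forms have no periods over spheres. -/

set_option autoImplicit false
set_option linter.unusedSectionVars false

open scoped Manifold ContDiff Topology
open Set MeasureTheory Filter Metric

noncomputable section

namespace Pool.Agent.Lib.MP_1c0d65_gt.PW

variable {X : Type} [TopologicalSpace X] [ChartedSpace E X] [IsManifold 𝓘(ℝ, E) ∞ X]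
  [T2Space X] [CompactSpace X] [MeasurableSpace X] [BorelSpace X] {c : Ctx X} {O : Orb c}

/-- The pull-back of a one-form that is continuous at `v 0` decays at infinity. -/
theorem OC.pull1_decay (C : OC O) {a : X → E →L[ℝ] ℝ} (h : ContinuousAt (pull1 C.v a) 0) :
    ∃ K R : ℝ, ∀ s, R ≤ ‖s‖ → ‖pull1 C.u a s‖ ≤ K / ‖s‖ ^ 2 := by
  obtain ⟨r, hr, hv⟩ := C.hv
  obtain ⟨ε, hε, H⟩ := Metric.eventually_nhds_iff.1
    ((h.norm.eventually_le_const (lt_add_one _)).and (ball_mem_nhds (0 : ℂ) hr))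
  refine ⟨‖pull1 C.v a 0‖ + 1, ε⁻¹ + 1, fun s hs => ?_⟩
  have e0 := inv_pos.2 hε
  have s0 : 0 < ‖s‖ := by linarith
  have s1 : s ≠ 0 := norm_pos_iff.1 s0
  obtain ⟨h1, h2⟩ := H (y := s⁻¹) (by
    rw [dist_zero_right, norm_inv, inv_lt_comm₀ s0 hε]; linarith)
  have e : C.u =ᶠ[𝓝 s] C.v ∘ Inv.inv := by
    filter_upwards [eventually_ne_nhds s1] with z hz
    rw [Function.comp, C.uv _ (inv_ne_zero hz), inv_inv]
  have hd := (hasDerivAt_inv s1).hasFDerivAt.restrictScalars ℝ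
  have e1 : pull1 C.u a s = (pull1 C.v a s⁻¹).comp (fderiv ℝ Inv.inv s) := by
    rw [pull1, pull1, show dif C.u s = dif (C.v ∘ Inv.inv) s from e.mfderiv_eq,
      dif_comp ((hv.1.contMDiffAt (isOpen_ball.mem_nhds h2)).mdifferentiableAt (by simp))
        hd.differentiableAt, e.eq_of_nhds]
    rfl
  rw [e1, div_eq_mul_inv]
  refine (ContinuousLinearMap.opNorm_comp_le _ _).trans
    (mul_le_mul h1 (le_of_eq ?_) (norm_nonneg _) (by positivity))
  rw [show fderiv ℝ Inv.inv s = _ from hd.fderiv]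
  simp

/-- Stokes' theorem on an orbifold sphere, for a primitive that vanishes near the singular
points. -/
theorem OC.per_exact (C : OC O) {U U₀ : Set X} (hU : IsOpen U) (hC : C.img ⊆ U)
    {a : X → E →L[ℝ] ℝ} {α : X → Bil E ℝ} (h : IsD U a α) (hU₀ : IsOpen U₀)
    (hL : (⋃ i, O.L i) ⊆ U₀) (h0 : ∀ x ∈ U₀, a x = 0)
    (hi : Integrable fun s => pull2 C.u α s 1 .I) : per C.u α = 0 := by
  classical
  have op : IsOpen (C.F : Set ℂ)ᶜ := C.F.finite_toSet.isClosed.isOpen_compl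
  let b : ℂ → ℂ →L[ℝ] ℝ := fun s => if s ∈ C.F then 0 else pull1 C.u a s
  have sm : ∀ s ∉ C.F, SmAt ∞ C.u s := fun s hs => C.hu.1.contMDiffAt (op.mem_nhds hs)
  have me : ∀ s ∉ C.F, C.u s ∈ U := fun s hs => hC (.inl ⟨s, hs, rfl⟩)
  have eb : ∀ s ∉ C.F, b =ᶠ[𝓝 s] pull1 C.u a := fun s hs => by
    filter_upwards [op.mem_nhds hs] with z hz using if_neg hz
  have hb : ContDiff ℝ 1 b := contDiff_iff_contDiffAt.2 fun s => by
    by_cases hs : s ∈ C.F
    · obtain ⟨i, hi⟩ := C.pu s hs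
      refine (contDiffAt_const (c := 0)).congr_of_eventuallyEq ?_
      filter_upwards [eventually_nhdsWithin_iff.1 (hi (hU₀.mem_nhdsSet.2
        ((subset_iUnion _ i).trans hL)))] with z hz
      by_cases hz' : z ∈ C.F
      · exact if_pos hz'
      · simp only [b, if_neg hz', pull1, h0 _ (hz fun e => hz' (e ▸ hs)),
          ContinuousLinearMap.zero_comp]
    · exact ((h.sm1.smooth hU (sm s hs) (me s hs)).of_le (by simp)).congr_of_eventuallyEq (eb s hs)
  have ae : (fun s => pull2 C.u α s 1 .I) =ᵐ[volume] fun s => ext1 b s 1 .I := by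
    filter_upwards [C.F.finite_toSet.countable.ae_notMem volume] with s hs
    rw [h.pull hU ((sm s hs).of_le (by norm_cast)) (me s hs), ext1, ext1,
      (eb s hs).fderiv_eq]
  obtain ⟨r, hr, hv⟩ := C.hv
  obtain ⟨K, R, hK⟩ := C.pull1_decay (h.sm1.smooth hU
    (hv.1.contMDiffAt (ball_mem_nhds 0 hr)) (hC (.inr rfl))).continuousAt
  rw [per, integral_congr_ae ae]
  refine stokes_plane hb (K := K) (R := R) (fun s hs => ?_) (hi.congr ae)
  simp only [b]
  split_ifs
  · exact norm_zero.trans_le ((norm_nonneg _).trans (hK s hs))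
  · exact hK s hs

theorem OC.not_subset {J hJ} (C : OC (Orb.triv c J hJ)) {U : Set X} (hU : IsOpen U)
    {a : X → E →L[ℝ] ℝ} (h : IsD U a c.om) : ¬ C.img ⊆ U := fun hC => by
  have := C.c1_pos
  rw [OC.c1, C.per_exact hU hC h isOpen_empty (iUnion_subset fun i => i.elim0)
    (fun _ hx => hx.elim) (C.integrable c.hom.1 (.inr rfl)), mul_zero] at this
  exact lt_irrefl _ this

end Pool.Agent.Lib.MP_1c0d65_gt.PW
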