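import Pool.Agent.Lib.MP_1c0d65_gt.PW.StE

/-! Calculus of exact two-forms. -/

set_option autoImplicit false

open scoped Manifold ContDiff Topology
open Set Filter

noncomputable section

namespace Pool.Agent.Lib.MP_1c0d65_gt.PW.St

theorem bil_ext {V : Type} [NormedAddCommGroup V] [NormedSpace ℝ V] {α β : Bil V ℝ}
    (h : ∀ v w, α v w = β v w) : α = β :=
  ContinuousLinearMap.ext fun v => ContinuousLinearMap.ext (h v)

/-- The wedge product of two covectors. -/
def wdg {V : Type} [NormedAddCommGroup V] [NormedSpace ℝ V] (ξ η : V →L[ℝ] ℝ) : Bil V ℝ :=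
  ξ.smulRight η - (ξ.smulRight η).flip

theorem wdg_apply {V : Type} [NormedAddCommGroup V] [NormedSpace ℝ V] (ξ η : V →L[ℝ] ℝ)
    (v w : V) : wdg ξ η v w = ξ v * η w - ξ w * η v := by
  simp [wdg]

theorem ext1_apply {V : Type} [NormedAddCommGroup V] [NormedSpace ℝ V] (a : V → V →L[ℝ] ℝ)
    (y v w : V) : ext1 a y v w = fderiv ℝ a y v w - fderiv ℝ a y w v := by
  simp [ext1]

theorem ext1_smul {V : Type} [NormedAddCommGroup V] [NormedSpace ℝ V] {r : V → ℝ}
    {a : V → V →L[ℝ] ℝ} {y : V} (hr : DifferentiableAt ℝ r y) (ha : DifferentiableAt ℝ a y) :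
    ext1 (fun z => r z • a z) y = r y • ext1 a y + wdg (fderiv ℝ r y) (a y) := by
  ext v w
  have h : HasFDerivAt (fun z => r z • a z) _ y := hr.hasFDerivAt.smul ha.hasFDerivAt
  simp only [ext1_apply, h.fderiv, add_apply, smul_apply, wdg_apply,
    ContinuousLinearMap.smulRight_apply, smul_eq_mul]
  ring

theorem contDiffOn_ext1 {V : Type} [NormedAddCommGroup V] [NormedSpace ℝ V] [FiniteDimensional ℝ V]
    {a : V → V →L[ℝ] ℝ} {T : Set V} (hT : IsOpen T) (ha : ContDiffOn ℝ ∞ a T) :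
    ContDiffOn ℝ ∞ (ext1 a) T := by
  have h : ContDiffOn ℝ ∞ (fderiv ℝ a) T := ha.fderiv_of_isOpen hT (by simp)
  refine contDiffOn_clm_apply.2 fun v => contDiffOn_clm_apply.2 fun w => ?_
  simp only [ext1_apply]
  exact ((h.clm_apply contDiffOn_const).clm_apply contDiffOn_const).sub
    ((h.clm_apply contDiffOn_const).clm_apply contDiffOn_const)

variable {X : Type} [TopologicalSpace X] [ChartedSpace E X] {U : Set X}

theorem dom_univ (x : X) : dom x univ = (chartAt E x).target := by simp [dom]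

theorem isOpen_dom (x : X) (hU : IsOpen U) : IsOpen (dom x U) :=
  (chartAt E x).continuousOn_symm.isOpen_inter_preimage (chartAt E x).open_target hU

theorem par_center (x : X) : par x (chartAt E x x) = x :=
  (chartAt E x).left_inv (mem_chart_source E x)

theorem center_mem {x : X} (hx : x ∈ U) : chartAt E x x ∈ dom x U :=
  ⟨mem_chart_target E x, by rwa [mem_preimage, par_center]⟩

theorem pull2_apply {V : Type} [NormedAddCommGroup V] [NormedSpace ℝ V] (f : V → X)
    (α : X → Bil E ℝ) (y v w : V) : pull2 f α y v w = α (f y) (dif f y v) (dif f y w) := rfl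

theorem pull1_apply {V : Type} [NormedAddCommGroup V] [NormedSpace ℝ V] (f : V → X)
    (a : X → E →L[ℝ] ℝ) (y v : V) : pull1 f a y v = a (f y) (dif f y v) := rfl

theorem form_add {α β : X → Bil E ℝ} (hα : Form U α) (hβ : Form U β) : Form U (α + β) :=
  ⟨fun x hx v => by simp [hα.1 x hx v, hβ.1 x hx v],
    fun x => ((hα.2 x).add (hβ.2 x)).congr fun y _ => bil_ext fun v w => by
      simp [pull2_apply]⟩

theorem form_smul (r : ℝ) {α : X → Bil E ℝ} (hα : Form U α) : Form U (r • α) :=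
  ⟨fun x hx v => by simp [hα.1 x hx v],
    fun x => ((hα.2 x).const_smul r).congr fun y _ => bil_ext fun v w => by
      simp [pull2_apply]⟩

theorem form_zero : Form U (0 : X → Bil E ℝ) :=
  ⟨fun _ _ _ => rfl, fun x => (contDiffOn_const (c := 0)).congr fun y _ => bil_ext fun v w => by
    simp [pull2_apply]⟩

theorem form_sum {ι : Type*} (s : Finset ι) {α : ι → X → Bil E ℝ} (h : ∀ i ∈ s, Form U (α i)) :
    Form U (∑ i ∈ s, α i) :=
  Finset.sum_induction α (Form U) (fun _ _ => form_add) form_zero h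

variable [IsManifold 𝓘(ℝ, E) ∞ X]

theorem dif_par_bij {x : X} {y : E} (hy : y ∈ (chartAt E x).target) :
    Function.Bijective (dif (par x) y) :=
  (mdifferentiable_chart (I := 𝓘(ℝ, E)) x).symm.mfderiv_bijective hy

theorem contMDiffOn_par (x : X) : ContMDiffOn 𝓘(ℝ, E) 𝓘(ℝ, E) ∞ (par x) (chartAt E x).target :=
  contMDiffOn_chart_symm

theorem contDiffOn_par {ρ : X → ℝ} (hρ : ContMDiffOn 𝓘(ℝ, E) 𝓘(ℝ, ℝ) ∞ ρ U) (x : X) :
    ContDiffOn ℝ ∞ (fun y => ρ (par x y)) (dom x U) :=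
  (hρ.comp ((contMDiffOn_par x).mono inter_subset_left) fun _ hy => hy.2).contDiffOn

theorem fderiv_par (hU : IsOpen U) {ρ : X → ℝ} (hρ : ContMDiffOn 𝓘(ℝ, E) 𝓘(ℝ, ℝ) ∞ ρ U) {x : X}
    {y : E} (hy : y ∈ dom x U) :
    fderiv ℝ (fun y => ρ (par x y)) y = (dfn ρ (par x y)).comp (dif (par x) y) := by
  rw [← mfderiv_eq_fderiv]
  exact mfderiv_comp y ((hρ.contMDiffAt (hU.mem_nhds hy.2)).mdifferentiableAt (by simp))
    (((contMDiffOn_par x).contMDiffAt ((chartAt E x).open_target.mem_nhds hy.1)).mdifferentiableAt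
      (by simp))

theorem isD_form (hU : IsOpen U) {a : X → E →L[ℝ] ℝ} {α : X → Bil E ℝ} (h : IsD U a α) :
    Form U α := by
  refine ⟨fun x hx v => ?_, fun x =>
    (contDiffOn_ext1 (isOpen_dom x hU) (h x).1).congr fun y hy => (h x).2 y hy⟩
  obtain ⟨w, rfl⟩ := (dif_par_bij (mem_chart_target E x)).2 v
  have := congrArg (fun B : Bil E ℝ => B w w) ((h x).2 _ (center_mem hx))
  simpa only [pull2_apply, par_center, ext1_apply, sub_self] using this

theorem isD_smul (hU : IsOpen U) {a : X → E →L[ℝ] ℝ} {α : X → Bil E ℝ} (h : IsD U a α)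
    {ρ : X → ℝ} (hρ : ContMDiffOn 𝓘(ℝ, E) 𝓘(ℝ, ℝ) ∞ ρ U) :
    IsD U (fun x => ρ x • a x) fun x => ρ x • α x + wdg (dfn ρ x) (a x) := fun x => by
  have e : pull1 (par x) (fun x => ρ x • a x) = fun y => ρ (par x y) • pull1 (par x) a y := by
    funext y; exact ContinuousLinearMap.ext fun v => by simp [pull1_apply]
  rw [e]
  refine ⟨(contDiffOn_par hρ x).smul (h x).1, fun y hy => ?_⟩
  have hn := (isOpen_dom x hU).mem_nhds hy
  rw [ext1_smul (((contDiffOn_par hρ x).contDiffAt hn).differentiableAt (by simp))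
    (((h x).1.contDiffAt hn).differentiableAt (by simp)), ← (h x).2 y hy, fderiv_par hU hρ hy]
  exact bil_ext fun v w => by simp [pull2_apply, wdg_apply, pull1_apply]

omit [IsManifold 𝓘(ℝ, E) ∞ X] in
theorem dfn_eq_zero {ρ : X → ℝ} {x : X} (hx : x ∉ tsupport ρ) : dfn ρ x = 0 := by
  have h : ρ =ᶠ[𝓝 x] fun _ => 0 := notMem_tsupport_iff_eventuallyEq.1 hx
  exact h.mfderiv_eq.trans mfderiv_const

/-- A finite partition of unity subordinate to an open cover. -/
theorem exists_partition [T2Space X] [CompactSpace X] {ι : Type} (O : ι → Set X)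
    (hO : ∀ i, IsOpen (O i)) (hc : ∀ x, ∃ i, x ∈ O i) :
    ∃ (s : Finset ι) (ρ : s → X → ℝ), (∀ i, ContMDiff 𝓘(ℝ, E) 𝓘(ℝ, ℝ) ∞ (ρ i)) ∧
      (∀ i, tsupport (ρ i) ⊆ O i) ∧ (∀ i x, 0 ≤ ρ i x) ∧ (∀ x, ∑ i, ρ i x = 1) ∧
      ∀ x, ∑ i, dfn (ρ i) x = 0 := by
  obtain ⟨s, hs⟩ := isCompact_univ.elim_finite_subcover O hO fun x _ => mem_iUnion.2 (hc x)
  obtain ⟨f, hf⟩ := SmoothPartitionOfUnity.exists_isSubordinate 𝓘(ℝ, E) isClosed_univ
    (fun i : s => O i) (fun i => hO i) (fun x hx => by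
      obtain ⟨i, hi, h⟩ := mem_iUnion₂.1 (hs hx)
      exact mem_iUnion.2 ⟨⟨i, hi⟩, h⟩)
  have h1 (x : X) : ∑ i, f i x = 1 := by
    rw [← finsum_eq_sum_of_fintype]; exact f.sum_eq_one (mem_univ x)
  refine ⟨s, fun i => f i, fun i => (f i).contMDiff, hf, f.nonneg, h1, fun x => ?_⟩
  have h2 := HasMFDerivAt.sum (t := Finset.univ) (z := x) fun i _ =>
    ((f i).contMDiff.mdifferentiableAt (by simp) (x := x)).hasMFDerivAt
  have e : (∑ i, (f i : X → ℝ)) = fun _ => 1 := funext fun x => by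
    rw [Finset.sum_apply, h1]
  rw [e] at h2
  exact h2.mfderiv.symm.trans mfderiv_const

end Pool.Agent.Lib.MP_1c0d65_gt.PW.St
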