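import Pool.Agent.Lib.MP_1c0d65_gt.PW.Defs

/-! Internal structures: context, orbifold structure, orbifold curves, degenerations. -/

set_option autoImplicit false

open scoped Manifold ContDiff Topology
open Set MeasureTheory Filter Metric

noncomputable section

namespace Pool.Agent.Lib.MP_1c0d65_gt.PW

variable {X : Type} [TopologicalSpace X] [ChartedSpace E X] [MeasurableSpace X]

/-- The symplectic form, the volume, and a basis of the second cohomology. -/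
structure Ctx (X : Type) [TopologicalSpace X] [ChartedSpace E X] [MeasurableSpace X] where
  om : X → Bil E ℝ
  μ : Measure X
  κ : ℝ
  k : ℕ
  e : Fin (k + 1) → X → Bil E ℝ
  J0 : X → E →L[ℝ] E
  hom : Closed om
  tame0 : Tame univ om J0
  comp0 : ∀ x v w, om x (J0 x v) (J0 x w) = om x v w
  vol : IsVol om μ
  hκ : 0 < κ
  chern0 : IsChern univ J0 ((2 * Real.pi * κ) • om)
  he : ∀ i, Closed (e i)
  span : ∀ α, Closed α → ∃ (c : Fin (k + 1) → ℝ) (a : X → E →L[ℝ] ℝ),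
    IsD univ a (α - ∑ i, c i • e i)
  G : Matrix (Fin (k + 1)) (Fin (k + 1)) ℝ
  hG : G.det ≠ 0
  form : ∀ i j, pair om μ (e i) (e j) = G i j

/-- The basis is a Lorentz basis. -/
def Ctx.Lor (c : Ctx X) : Prop := ∀ i j, c.G i j = if i = j then if i = 0 then 1 else -1 else 0

/-- The intersection pairing. -/
def Ctx.Q (c : Ctx X) (α β : X → Bil E ℝ) : ℝ := pair c.om c.μ α β

/-- The primitive root of unity. -/
def eps (N : ℕ) : ℂ := Complex.exp (2 * Real.pi * .I / N)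

/-- The `j`-th power of the generator of the group `1/N (1, a)`. -/
def gen (N a j : ℕ) (z : E) : E := (eps N ^ j * z.1, eps N ^ (a * j) * z.2)

/-- The punctured polydisc. -/
def pb (r : ℝ) : Set E := ball 0 r \ {0}

/-- `X` with the sets `L i` collapsed is an almost complex orbifold with Wahl singularities;
`Pi i` are the uniformising maps. -/
structure Orb (c : Ctx X) where
  n : ℕ
  N : Fin n → ℕ
  a : Fin n → ℕ
  wahl : ∀ i, ∃ p q : ℕ, 0 < q ∧ q < p ∧ p.Coprime q ∧ N i = p ^ 2 ∧ a i + 1 = p * q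
  L : Fin n → Set X
  closed : ∀ i, IsClosed (L i)
  disj : ∀ i j, i ≠ j → Disjoint (L i) (L j)
  J : X → E →L[ℝ] E
  tame : Tame (⋃ i, L i)ᶜ c.om J
  R : ℝ
  hR : 0 < R
  Pi : Fin n → E → X
  smooth : ∀ i, ContMDiffOn 𝓘(ℝ, E) 𝓘(ℝ, E) ∞ (Pi i) (pb R)
  hol : ∀ i, ∀ z ∈ pb R, ∀ v, dif (Pi i) z (Complex.I • v) = J (Pi i z) (dif (Pi i) z v)
  inj : ∀ i, ∀ z ∈ pb R, Function.Injective (dif (Pi i) z)
  maps : ∀ i, MapsTo (Pi i) (pb R) (⋃ i, L i)ᶜ
  fibre : ∀ i j, ∀ z ∈ pb R, ∀ z' ∈ pb R,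
    Pi i z = Pi j z' ↔ i = j ∧ ∃ m, z' = gen (N i) (a i) m z
  isOpen : ∀ i, ∀ r ∈ Ioc 0 R, IsOpen (Pi i '' pb r ∪ L i)
  small : ∀ i U, IsOpen U → L i ⊆ U → ∃ r ∈ Ioc 0 R, Pi i '' pb r ⊆ U
  lam : Fin n → E → E →L[ℝ] ℝ
  hlam : ∀ i, ContDiffOn ℝ ∞ (lam i) (ball 0 R) ∧
    ∀ z ∈ pb R, pull2 (Pi i) c.om z = ext1 (lam i) z

variable {c : Ctx X}

/-- The smooth part. -/
def Orb.W (O : Orb c) : Set X := (⋃ i, O.L i)ᶜ

/-- Forms that vanish near the singular points. -/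
def Orb.Test (O : Orb c) (α : X → Bil E ℝ) : Prop :=
  ∃ U, IsOpen U ∧ (⋃ i, O.L i) ⊆ U ∧ ∀ x ∈ U, α x = 0

/-- No singular points. -/
def Orb.triv (c : Ctx X) (J : X → E →L[ℝ] E) (hJ : Tame univ c.om J) : Orb c where
  n := 0
  N := Fin.elim0
  a := Fin.elim0
  wahl := fun i => i.elim0
  L := Fin.elim0
  closed := fun i => i.elim0
  disj := fun i => i.elim0
  J := J
  tame := by simpa using hJ
  R := 1
  hR := one_pos
  Pi := Fin.elim0
  smooth := fun i => i.elim0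
  hol := fun i => i.elim0
  inj := fun i => i.elim0
  maps := fun i => i.elim0
  fibre := fun i => i.elim0
  isOpen := fun i => i.elim0
  small := fun i => i.elim0
  lam := Fin.elim0
  hlam := fun i => i.elim0

/-- A nonconstant holomorphic sphere in the orbifold. The points of `F` go to singular points;
`v` is the parametrisation at infinity, which goes to a smooth point. -/
structure OC (O : Orb c) where
  u : ℂ → X
  v : ℂ → X
  F : Finset ℂ
  hu : Hol O.J u (F : Set ℂ)ᶜ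
  mu : MapsTo u (F : Set ℂ)ᶜ O.W
  hv : ∃ r > 0, Hol O.J v (ball 0 r)
  v0 : v 0 ∈ O.W
  uv : ∀ s ≠ 0, v s = u s⁻¹
  pu : ∀ a ∈ F, ∃ i, Tendsto u (𝓝[≠] a) (𝓝ˢ (O.L i))
  nc : ∃ s ∉ F, dif u s 1 ≠ 0

variable {O : Orb c}

/-- The image in the smooth part. -/
def OC.img (C : OC O) : Set X := C.u '' (C.F : Set ℂ)ᶜ ∪ {C.v 0}

/-- Injective off a finite set. -/
def OC.Simple (C : OC O) : Prop := ∃ B : Finset ℂ, C.F ⊆ B ∧ InjOn C.u (B : Set ℂ)ᶜ

/-- Embedded (off the singular points). -/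
def OC.Emb (C : OC O) : Prop := InjOn C.u (C.F : Set ℂ)ᶜ ∧ C.v 0 ∉ C.u '' (C.F : Set ℂ)ᶜ ∧
  (∀ s ∉ C.F, dif C.u s 1 ≠ 0) ∧ dif C.v 0 1 ≠ 0

/-- The first Chern number (orbifold sense). -/
def OC.c1 (C : OC O) : ℝ := c.κ * per C.u c.om

/-- `η` is Poincare dual to `C`. -/
def OC.Dual (C : OC O) (η : X → Bil E ℝ) : Prop := Closed η ∧ O.Test η ∧
  (∀ α, Closed α → O.Test α → c.Q η α = per C.u α) ∧ c.Q η c.om = per C.u c.om

/-- `z` is a lift of the branch at `a` to the uniformising chart `i`, with monodromy `j`. -/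
def OC.Br (C : OC O) (a : ℂ) (i : Fin O.n) (j : ℕ) (z : ℂ → E) : Prop :=
  ∃ r > 0, DifferentiableOn ℂ z (ball 0 r) ∧ z 0 = 0 ∧ ∀ ζ ∈ ball (0 : ℂ) r, ζ ≠ 0 →
    z ζ ∈ pb O.R ∧ O.Pi i (z ζ) = C.u (a + ζ ^ O.N i) ∧
      z (eps (O.N i) * ζ) = gen (O.N i) (O.a i) j (z ζ)

/-- The singular point and the monodromy of each puncture. -/
def OC.Mon (C : OC O) (ι : C.F → Fin O.n) (j : C.F → ℕ) : Prop :=
  ∀ a : C.F, j a < O.N (ι a) ∧ ∃ z, C.Br a (ι a) (j a) z

/-- The least local intersection number of two branches with monodromies `j`, `j'`. -/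
def mn (N a j j' : ℕ) : ℝ := (min (j * (a * j' % N)) (j' * (a * j % N)) : ℕ) / N

/-- What is known on the local term `l` of one branch in the adjunction formula; `A`, `B` are the
orders of the two coordinates. -/
def SelfIdx (N a j : ℕ) (l : ℝ) : Prop :=
  (∃ z : ℤ, l = z + ((j : ℝ) * (a * j % N : ℕ) - j - (a * j % N : ℕ)) / N) ∧
    ∃ A B : ℕ, 0 < A ∧ 0 < B ∧ A ≡ j [MOD N] ∧ B ≡ a * j [MOD N] ∧
      ∀ g A' B' : ℕ, A = g * A' → B = g * B' → B' ≡ a * A' [MOD N] →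
        ((A : ℝ) * B - A - B) / N + g ≤ l

/-- A smooth family of tame structures. -/
def Ctx.Fam (c : Ctx X) (J : ℝ → X → E →L[ℝ] E) : Prop := (∀ τ, Tame univ c.om (J τ)) ∧
  ∀ x, ContDiffOn ℝ ∞ (fun p : ℝ × E => pullJ (par x) (J p.1) p.2) (univ ×ˢ dom x univ)

/-- The Hirzebruch-Jung rays `(A t, B t) / N`, `t = 0, ..., l + 1`, of the group `1/N (1, a)`. -/
structure HJ (N a : ℕ) where
  l : ℕ
  b : ℕ → ℕ
  A : ℕ → ℕ
  B : ℕ → ℕ
  A0 : A 0 = 0
  B0 : B 0 = N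
  A1 : A 1 = 1
  B1 : B 1 = a
  Al : A (l + 1) = N
  Bl : B (l + 1) = 0
  step : ∀ t < l, 2 ≤ b (t + 1) ∧ A t + A (t + 2) = b (t + 1) * A (t + 1) ∧
    B t + B (t + 2) = b (t + 1) * B (t + 1)

variable {N a : ℕ}

/-- The log discrepancy of the ray `t`. -/
def HJ.ld (H : HJ N a) (t : ℕ) : ℝ := ((H.A t : ℝ) + H.B t) / N

/-- The coefficient of `E t` in the pull-back of a branch with monodromy `j`. -/
def HJ.co (H : HJ N a) (j t : ℕ) : ℝ := (min (H.A t * (a * j % N)) (j * H.B t) : ℕ) / N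

/-- The intersection number of the strict transform of the branch with `E (t + 1)`. -/
def HJ.al (H : HJ N a) (j t : ℕ) : ℝ := H.b (t + 1) * H.co j (t + 1) - H.co j t - H.co j (t + 2)

/-- The correction of the intersection number of two branches. -/
def HJ.corr (H : HJ N a) (j j' : ℕ) : ℝ := ∑ t ∈ Finset.range H.l, H.co j (t + 1) * H.al j' t

/-- The correction of the canonical degree. -/
def HJ.kor (H : HJ N a) (j : ℕ) : ℝ := ∑ t ∈ Finset.range H.l, H.co j (t + 1) * (H.b (t + 1) - 2)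

end Pool.Agent.Lib.MP_1c0d65_gt.PW
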