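import Pool.Agent.Lib.MP_1c0d65_gt.PW.StD
import Pool.Agent.Lib.MP_1c0d65_gt.PW.Pair

/-! Stokes' theorem on `X` and the pairing in coordinates. -/

set_option autoImplicit false

open scoped Manifold ContDiff Topology
open Set MeasureTheory Filter

noncomputable section

namespace Pool.Agent.Lib.MP_1c0d65_gt.PW

open St

variable {X : Type} [TopologicalSpace X] [ChartedSpace E X] [IsManifold 𝓘(ℝ, E) ∞ X]
  [T2Space X] [CompactSpace X] [MeasurableSpace X] [BorelSpace X] {c : Ctx X}

/-- Stokes' theorem for a primitive supported in one chart. -/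
theorem Q_exact_chart {a : X → E →L[ℝ] ℝ} {α β : X → Bil E ℝ} (h : IsD univ a α) (hβ : Closed β)
    (x : X) {K : Set X} (hK : IsClosed K) (hx : K ⊆ (chartAt E x).source)
    (ha : ∀ z ∉ K, a z = 0) (h0 : ∀ z ∉ K, α z = 0) : c.Q α β = 0 := by
  refine Q_par_zero x (isD_form isOpen_univ h) hβ.1
    (fun z hz => by rw [h0 z fun k => hz (hx k), St.wedge_zero]) fun s hs => ?_
  have hw := (continuousOn_const (c := s)).mul (c.continuousOn_jac (f := par x) (A := dom x univ)
    fun _ hy => (par_smAt hy).of_le (by simp))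
  have hT := hw.isOpen_inter_preimage (St.isOpen_dom x isOpen_univ) (isOpen_Ioi (a := 0))
  have hK0 := hK.isCompact.image_of_continuousOn ((chartAt E x).continuousOn.mono hx)
  have hKD : chartAt E x '' K ⊆ dom x univ := by
    rintro _ ⟨z, hz, rfl⟩
    exact ⟨(chartAt E x).map_source (hx hz), trivial⟩
  refine (setIntegral_congr_fun hT.measurableSet
      (g := fun y => wedge (ext1 (pull1 (par x) a) y) (pull2 (par x) β y))
      fun y hy => by simp only [(h x).2 y hy.1]).trans ?_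
  refine stokes hT (hK0.of_isClosed_subset ((hw.mono hKD).preimage_isClosed_of_isClosed
    hK0.isClosed (isClosed_Ici (a := 0))) inter_subset_left) (fun y hy => ⟨hKD hy.1, ?_⟩)
    (((h x).1.of_le (by simp)).mono inter_subset_left)
    (((hβ.1.2 x).of_le (by simp)).mono inter_subset_left) (fun y hy hk => ?_)
    (fun y _ v => hβ.1.1 _ trivial _) fun y hy => hβ.2 x y hy.1
  · refine lt_of_le_of_ne hy.2 (mul_ne_zero ?_ (c.wedge_par_ne x (hKD hy.1))).symm
    rcases hs with rfl | rfl <;> simp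
  · have : par x y ∉ K := fun k =>
      hk ⟨⟨_, k, (chartAt E x).right_inv hy.1.1⟩,
        preimage_mono Ioi_subset_Ici_self hy.2⟩
    rw [pull1, ha _ this, ContinuousLinearMap.zero_comp]

/-- Stokes' theorem. -/
theorem Q_exact {a : X → E →L[ℝ] ℝ} {α β : X → Bil E ℝ} (h : IsD univ a α) (hβ : Closed β) :
    c.Q α β = 0 := by
  obtain ⟨s, ρ, h1, h2, -, h3, h4⟩ := exists_partition (fun x : X => (chartAt E x).source)
    (fun x => (chartAt E x).open_source) fun x => ⟨x, mem_chart_source E x⟩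
  have hD (i : s) := isD_smul isOpen_univ h (h1 i).contMDiffOn
  have e : α = ∑ i, fun x => ρ i x • α x + wdg (dfn (ρ i) x) (a x) := by
    funext x
    refine bil_ext fun v w => ?_
    have h5 (v : E) : ∑ i, dfn (ρ i) x v = 0 := by
      rw [← sum_apply, h4]; rfl
    simp only [Finset.sum_apply, sum_apply, add_apply, smul_apply, wdg_apply, smul_eq_mul,
      Finset.sum_add_distrib, Finset.sum_sub_distrib, ← Finset.sum_mul, h3, h5]
    ring
  rw [e, Q_sum_left _ (fun i _ => isD_form isOpen_univ (hD i)) hβ.1]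
  refine Finset.sum_eq_zero fun i _ => Q_exact_chart (hD i) hβ i (isClosed_tsupport _) (h2 i)
    (fun z hz => ?_) fun z hz => ?_
  · rw [image_eq_zero_of_notMem_tsupport hz, zero_smul]
  · rw [image_eq_zero_of_notMem_tsupport hz, dfn_eq_zero hz]
    exact bil_ext fun v w => by simp [wdg_apply]

theorem Q_of_span {α β : X → Bil E ℝ} (hα : Form univ α) (hβ : Closed β)
    {r : Fin (c.k + 1) → ℝ} {a : X → E →L[ℝ] ℝ} (h : IsD univ a (α - ∑ i, r i • c.e i)) :
    c.Q α β = ∑ i, r i * c.Q (c.e i) β := by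
  have h1 := Q_exact (c := c) h hβ
  rw [Q_sub_left hα (form_sum _ fun i _ => form_smul _ (c.he i).1) hβ.1, sub_eq_zero,
    Q_sum_left _ (fun i _ => form_smul _ (c.he i).1) hβ.1] at h1
  simpa only [Q_smul_left] using h1

theorem Q_basis {α : X → Bil E ℝ} (hα : Form univ α) {r : Fin (c.k + 1) → ℝ}
    {a : X → E →L[ℝ] ℝ} (h : IsD univ a (α - ∑ i, r i • c.e i)) (j : Fin (c.k + 1)) :
    c.Q α (c.e j) = ∑ i, r i * c.G i j := by
  rw [Q_of_span hα (c.he j) h]
  exact Finset.sum_congr rfl fun i _ => by rw [Ctx.Q, c.form]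

theorem Ctx.G_symm (c : Ctx X) (i j : Fin (c.k + 1)) : c.G i j = c.G j i := by
  rw [← c.form, ← c.form]
  exact Q_symm (c := c) _ _

/-- The pairing in coordinates, for any Gram matrix. -/
theorem Q_gram : ∃ co : (X → Bil E ℝ) → Fin (c.k + 1) → ℝ,
    (∀ α, Closed α → ∃ a, IsD univ a (α - ∑ i, co α i • c.e i)) ∧
    (∀ α, Closed α → ∀ j, c.Q α (c.e j) = ∑ i, co α i * c.G i j) ∧
    (∀ α β, Closed α → Closed β → c.Q α β = ∑ i, co α i * c.Q (c.e i) β) ∧
    ∀ α β, Closed α → Closed β → c.Q α β = ∑ i, ∑ j, co α i * c.G i j * co β j := by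
  choose! co a h using c.span
  refine ⟨co, fun α hα => ⟨_, h α hα⟩, fun α hα => Q_basis hα.1 (h α hα),
    fun α β hα hβ => Q_of_span hα.1 hβ (h α hα), fun α β hα hβ => ?_⟩
  rw [Q_of_span hα.1 hβ (h α hα)]
  refine Finset.sum_congr rfl fun i _ => ?_
  rw [Q_symm, Q_basis hβ.1 (h β hβ), Finset.mul_sum]
  exact Finset.sum_congr rfl fun j _ => by rw [c.G_symm j i]; ring

theorem Q_coord (hL : c.Lor) : ∃ co : (X → Bil E ℝ) → Fin (c.k + 1) → ℝ, ∀ α β, Closed α →
    Closed β → c.Q α β = ∑ i, (if i = 0 then 1 else -1) * co α i * co β i := by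
  obtain ⟨co, -, -, -, h⟩ := Q_gram (c := c)
  refine ⟨co, fun α β hα hβ => ?_⟩
  rw [h α β hα hβ]
  refine Finset.sum_congr rfl fun i _ => ?_
  rw [Finset.sum_eq_single i (fun j _ hj => by rw [hL, if_neg hj.symm, mul_zero, zero_mul])
    (by simp), hL, if_pos rfl]
  ring

theorem exact_of_Q {α : X → Bil E ℝ} (h : Closed α) (h0 : ∀ β, Closed β → c.Q α β = 0) :
    ∃ a, IsD univ a α := by
  obtain ⟨r, a, ha⟩ := c.span α h
  have hr0 : r = 0 := Matrix.eq_zero_of_vecMul_eq_zero c.hG (funext fun j => by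
    have := Q_basis h.1 ha j
    rw [h0 _ (c.he j)] at this
    exact this.symm)
  have hr (j) : r j = 0 := congrFun hr0 j
  have e : α - ∑ i, r i • c.e i = α := by
    funext x
    refine bil_ext fun v w => ?_
    simp only [Pi.sub_apply, Finset.sum_apply, Pi.smul_apply, sub_apply, sum_apply, smul_apply, hr,
      smul_eq_mul, zero_mul, Finset.sum_const_zero, sub_zero]
  exact ⟨a, e ▸ ha⟩

end Pool.Agent.Lib.MP_1c0d65_gt.PW
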