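import Pool.Agent.Lib.MP_1c0d65_gt.PW.Plot
import Pool.Agent.Lib.MP_1c0d65_gt.B.Coord

/-! Plots: holomorphic curves in a chart, adapted charts. -/

set_option autoImplicit false
set_option linter.unusedSectionVars false

open scoped Manifold ContDiff Topology
open Set Filter

noncomputable section

namespace Pool.Agent.Lib.MP_1c0d65_gt.PW

variable {X : Type} [TopologicalSpace X] [ChartedSpace E X] [IsManifold 𝓘(ℝ, E) ∞ X]
  {V W : Type} [NormedAddCommGroup V] [NormedSpace ℝ V] [NormedAddCommGroup W] [NormedSpace ℝ W]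

/-! ### Holomorphic curves in a chart -/

theorem Hol.smAt {J : X → E →L[ℝ] E} {u : ℂ → X} {S : Set ℂ} (h : Hol J u S) (hS : IsOpen S)
    {s : ℂ} (hs : s ∈ S) : SmAt ∞ u s := h.1.contMDiffAt (hS.mem_nhds hs)

theorem Hol.mono {J : X → E →L[ℝ] E} {u : ℂ → X} {S T : Set ℂ} (h : Hol J u S) (hT : T ⊆ S) :
    Hol J u T := ⟨h.1.mono hT, fun s hs => h.2 s (hT hs)⟩

theorem IsChart.hol_iff {e : OpenPartialHomeomorph X E} (he : IsChart e) {J : X → E →L[ℝ] E}
    {u : ℂ → X} {S : Set ℂ} (hS : IsOpen S) (hu : ContinuousOn u S) (hm : MapsTo u S e.source) :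
    Hol J u S ↔ ContDiffOn ℝ ∞ (e ∘ u) S ∧ ∀ s ∈ S,
      fderiv ℝ (e ∘ u) s .I = pullJ e.symm J (e (u s)) (fderiv ℝ (e ∘ u) s 1) := by
  constructor
  · intro h
    exact ⟨fun s hs => (he.loc le_rfl (h.smAt hS hs) (hm hs)).contDiffWithinAt, fun s hs =>
      (he.cr_iff ((h.smAt hS hs).dfAt (by simp)) (hm hs) J 1 .I).1 (h.2 s hs)⟩
  · rintro ⟨h1, h2⟩
    have h3 : ∀ s ∈ S, SmAt ∞ u s := fun s hs =>
      ((he.smAt (e.map_source (hm hs))).comp (g := e ∘ u) (h1.contDiffAt (hS.mem_nhds hs))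
        ).congr_of_eventuallyEq
        (IsChart.symm_loc (hu.continuousAt (hS.mem_nhds hs)) (hm hs)).symm
    exact ⟨fun s hs => (h3 s hs).contMDiffWithinAt, fun s hs =>
      (he.cr_iff ((h3 s hs).dfAt (by simp)) (hm hs) J 1 .I).2 (h2 s hs)⟩

/-- A curve through an etale plot. -/
theorem hol_comp_plot {f : E → X} {J : X → E →L[ℝ] E} {w : ℂ → E} {S : Set ℂ} (hS : IsOpen S)
    (hf : ∀ s ∈ S, SmAt ∞ f (w s) ∧ (dif f (w s)).IsInvertible) (hw : ContDiffOn ℝ ∞ w S) :
    Hol J (f ∘ w) S ↔ ∀ s ∈ S, fderiv ℝ w s .I = pullJ f J (w s) (fderiv ℝ w s 1) := by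
  have h1 : ∀ s ∈ S, ContDiffAt ℝ ∞ w s := fun s hs => hw.contDiffAt (hS.mem_nhds hs)
  have h2 : ∀ s ∈ S, (dif (f ∘ w) s .I = J ((f ∘ w) s) (dif (f ∘ w) s 1) ↔
      fderiv ℝ w s .I = pullJ f J (w s) (fderiv ℝ w s 1)) := fun s hs => by
    rw [dif_comp ((hf s hs).1.dfAt (by simp)) ((h1 s hs).differentiableAt (by simp)),
      ContinuousLinearMap.comp_apply, ContinuousLinearMap.comp_apply, Function.comp_apply,
      ← dif_pullJ (hf s hs).2]
    exact (hf s hs).2.injective.eq_iff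
  exact ⟨fun h s hs => (h2 s hs).1 (h.2 s hs), fun h =>
    ⟨fun s hs => ((hf s hs).1.comp (h1 s hs)).contMDiffWithinAt, fun s hs => (h2 s hs).2 (h s hs)⟩⟩

/-- The differential of a holomorphic curve is complex linear. -/
theorem Hol.dif_I {J : X → E →L[ℝ] E} {u : ℂ → X} {S : Set ℂ} (h : Hol J u S) {s : ℂ} (hs : s ∈ S)
    (hJ : ∀ v, J (u s) (J (u s) v) = -v) (z : ℂ) : dif u s (.I * z) = J (u s) (dif u s z) := by
  have lin : ∀ z : ℂ, dif u s z = z.re • dif u s 1 + z.im • dif u s .I := fun z => by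
    rw [← map_smul, ← map_smul, ← map_add]
    congr 1
    simp
  rw [lin (.I * z), lin z, h.2 s hs, map_add, map_smul, map_smul, hJ]
  simp [add_comm]

/-- Holomorphic reparametrisation. -/
theorem Hol.comp {J : X → E →L[ℝ] E} {u : ℂ → X} {S T : Set ℂ} (h : Hol J u S) (hS : IsOpen S)
    (hJ : ∀ s ∈ S, ∀ v, J (u s) (J (u s) v) = -v) {φ : ℂ → ℂ} (hT : IsOpen T)
    (hφ : DifferentiableOn ℂ φ T) (hm : MapsTo φ T S) : Hol J (u ∘ φ) T := by
  have h1 : ∀ t ∈ T, ContDiffAt ℝ ∞ φ t := fun t ht =>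
    ((hφ.analyticOnNhd hT t ht).contDiffAt (n := ∞)).restrict_scalars ℝ
  refine ⟨fun t ht => ((h.smAt hS (hm ht)).comp (h1 t ht)).contMDiffWithinAt, fun t ht => ?_⟩
  have hd := (hφ.differentiableAt (hT.mem_nhds ht)).hasDerivAt.hasFDerivAt.restrictScalars ℝ
  rw [dif_comp ((h.smAt hS (hm ht)).dfAt (by simp)) hd.differentiableAt, hd.fderiv,
    ContinuousLinearMap.comp_apply, ContinuousLinearMap.comp_apply, Function.comp_apply,
    ← h.dif_I (hm ht) (hJ _ (hm ht))]
  simp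

/-! ### New charts -/

section Charts
variable {e : OpenPartialHomeomorph X E}

theorem IsChart.trans (he : IsChart e) (φ : OpenPartialHomeomorph E E)
    (h1 : ContDiffOn ℝ ∞ φ φ.source) (h2 : ContDiffOn ℝ ∞ φ.symm φ.target) :
    IsChart (e.trans φ) :=
  ⟨h1.contMDiffOn.comp (he.sm.mono inter_subset_left) fun _ hp => hp.2,
    he.sm'.comp (h2.contMDiffOn.mono inter_subset_left) fun _ hp => hp.2⟩

theorem IsChart.restr (he : IsChart e) {U : Set X} (hU : IsOpen U) : IsChart (e.restrOpen U hU) :=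
  ⟨he.sm.mono inter_subset_left, he.sm'.mono inter_subset_left⟩

/-- An affine change of a chart. -/
theorem IsChart.affine (he : IsChart e) (A : E ≃L[ℝ] E) (b : E) :
    ∃ e' : OpenPartialHomeomorph X E, IsChart e' ∧ e'.source = e.source ∧
      (∀ p, e' p = A (e p - b)) ∧ ∀ y, e'.symm y = e.symm (A.symm y + b) := by
  let φ := ((Homeomorph.subRight b).trans A.toHomeomorph).toOpenPartialHomeomorph
  refine ⟨e.trans φ, he.trans φ ?_ ?_, by simp [φ], fun _ => rfl, fun _ => rfl⟩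
  · exact (A.contDiff.comp (contDiff_id.sub contDiff_const)).contDiffOn
  · exact (A.symm.contDiff.add contDiff_const).contDiffOn

/-- A chart centred at `x` in which `J` is standard at the centre. -/
theorem exists_chart_std {J : X → E →L[ℝ] E} {x : X} (hJ : ∀ v, J x (J x v) = -v) {U : Set X}
    (hU : IsOpen U) (hx : x ∈ U) : ∃ e : OpenPartialHomeomorph X E, IsChart e ∧ x ∈ e.source ∧
      e.source ⊆ U ∧ e x = 0 ∧ ∀ v, pullJ e.symm J 0 v = Complex.I • v := by
  obtain ⟨A, hA⟩ := B.exists_coord (V := E) (by simp [Module.finrank_prod]) (J x) hJ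
  obtain ⟨e, he, hs, h1, h2⟩ := ((isChart_chartAt x).restr hU).affine A (chartAt E x x)
  refine ⟨e, he, hs ▸ ⟨mem_chart_source E x, hx⟩, hs ▸ inter_subset_right, by simp [h1], ?_⟩
  have e1 : (e.symm : E → X) = par x ∘ fun y => A.symm y + chartAt E x x := funext h2
  have hd : HasFDerivAt (fun y => A.symm y + chartAt E x x) (A.symm : E →L[ℝ] E) 0 :=
    A.symm.hasFDerivAt.add_const _
  have hm : A.symm 0 + chartAt E x x ∈ dom x univ := by
    simpa using mem_dom (U := univ) (mem_chart_source E x) trivial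
  intro v
  rw [e1, pullJ_comp (g := fun y => A.symm y + chartAt E x x) ((par_smAt hm).dfAt (by simp))
    hd.differentiableAt (par_inv hm), hd.fderiv]
  simp [pullJ_par_self, hA]

theorem map_nhds_etale {f : E → X} {y : E} (hf : SmAt 1 f y) (hi : (dif f y).IsInvertible) :
    map f (𝓝 y) = 𝓝 (f y) ∧ ∃ D ∈ 𝓝 y, InjOn f D := by
  have he := isChart_chartAt (f y)
  have hs := mem_chart_source E (f y)
  have h1 := he.loc (by simp) hf hs
  obtain ⟨D, hD⟩ := (he.loc_inv (hf.dfAt (by simp)) hs).2 hi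
  have h2 : HasStrictFDerivAt (chartAt E (f y) ∘ f) (D : E →L[ℝ] E) y :=
    hD ▸ h1.hasStrictFDerivAt (by simp)
  constructor
  · rw [← map_congr (IsChart.symm_loc hf.continuousAt hs), ← Filter.map_map,
      h2.map_nhds_eq_of_equiv]
    exact (chartAt E (f y)).symm_map_nhds_eq hs
  · refine ⟨_, (h2.toOpenPartialHomeomorph _).open_source.mem_nhds
      h2.mem_toOpenPartialHomeomorph_source, fun a ha b hb h => ?_⟩
    exact (h2.toOpenPartialHomeomorph _).injOn ha hb (congrArg (chartAt E (f y)) h)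

theorem isOpen_image_etale {f : E → X} {D : Set E} (hD : IsOpen D)
    (hf : ∀ y ∈ D, SmAt 1 f y ∧ (dif f y).IsInvertible) : IsOpen (f '' D) := by
  rw [isOpen_iff_mem_nhds]
  rintro _ ⟨y, hy, rfl⟩
  rw [← (map_nhds_etale (hf y hy).1 (hf y hy).2).1]
  exact image_mem_map (hD.mem_nhds hy)

theorem SmAt.ev_inv {f : E → X} {y : E} (hf : SmAt 1 f y) (hi : (dif f y).IsInvertible) :
    ∀ᶠ z in 𝓝 y, (dif f z).IsInvertible := by
  have he := isChart_chartAt (f y)
  have hs := mem_chart_source E (f y)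
  have h1 := ((he.loc (by simp) hf hs).fderiv_right (m := 0) (by simp)).continuousAt
  obtain ⟨D, hD⟩ := (he.loc_inv (hf.dfAt (by simp)) hs).2 hi
  have h2 := ContinuousLinearEquiv.nhds D
  rw [hD] at h2
  filter_upwards [h1.preimage_mem_nhds h2, hf.ev_dfAt le_rfl,
    hf.continuousAt.preimage_mem_nhds ((chartAt E (f y)).open_source.mem_nhds hs)] with z h3 h4 h5
  exact (he.loc_inv h4 h5).1 h3

/-- An injective etale plot is the inverse of a chart. -/
theorem exists_chart_of_inj {f : E → X} {D : Set E} (hD : IsOpen D)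
    (hf : ∀ y ∈ D, SmAt ∞ f y ∧ (dif f y).IsInvertible) (hi : InjOn f D) :
    ∃ e : OpenPartialHomeomorph X E, IsChart e ∧ e.target = D ∧ e.source = f '' D ∧
      (e.symm : E → X) = f := by
  have hf1 : ∀ y ∈ D, SmAt 1 f y ∧ (dif f y).IsInvertible := fun y hy =>
    ⟨(hf y hy).1.of_le (by simp), (hf y hy).2⟩
  let F : OpenPartialHomeomorph E X := OpenPartialHomeomorph.ofContinuousOpenRestrict
    (hi.toPartialEquiv f D) (fun y hy => (hf y hy).1.continuousAt.continuousWithinAt)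
    (fun S hS => by
      have : (D.domRestrict f) '' S = f '' (Subtype.val '' S) := by rw [image_image]; rfl
      exact this ▸ isOpen_image_etale (hD.isOpenMap_subtype_val S hS)
        fun y hy => hf1 y (by obtain ⟨z, -, rfl⟩ := hy; exact z.2)) hD
  refine ⟨F.symm, ⟨?_, fun y hy => (hf y hy).1.contMDiffWithinAt⟩, rfl, rfl, rfl⟩
  rintro _ ⟨y, hy, rfl⟩
  have he := isChart_chartAt (f y)
  have hs := mem_chart_source E (f y)
  have h1 := he.loc le_rfl (hf y hy).1 hs
  obtain ⟨A, hA⟩ := (he.loc_inv ((hf y hy).1.dfAt (by simp)) hs).2 (hf y hy).2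
  have hy' : y ∈ (F.trans (chartAt E (f y))).source := ⟨hy, hs⟩
  have h3 : (F.trans (chartAt E (f y))).symm (chartAt E (f y) (f y)) = y :=
    (F.trans (chartAt E (f y))).left_inv hy'
  have h2 : ContDiffAt ℝ ∞ (F.trans (chartAt E (f y))).symm (chartAt E (f y) (f y)) :=
    (F.trans (chartAt E (f y))).contDiffAt_symm (f₀' := A)
      ((F.trans (chartAt E (f y))).map_source hy')
      (by rw [h3, hA]; exact (h1.differentiableAt (by simp)).hasFDerivAt) (by rw [h3]; exact h1)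
  refine ((h2.contMDiffAt.comp (f y) (he.fnAt hs)).congr_of_eventuallyEq ?_).contMDiffWithinAt
  filter_upwards [(chartAt E (f y)).open_source.mem_nhds hs] with p hp
  exact congrArg F.symm ((chartAt E (f y)).left_inv hp).symm

/-- An etale plot is locally the inverse of a chart. -/
theorem exists_chart_of_plot {f : E → X} {D : Set E} {y : E} (hD : D ∈ 𝓝 y)
    (hf : ∀ z ∈ D, SmAt ∞ f z) (hi : (dif f y).IsInvertible) :
    ∃ e : OpenPartialHomeomorph X E, IsChart e ∧ y ∈ e.target ∧ e.target ⊆ D ∧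
      (e.symm : E → X) = f := by
  have h1 : SmAt 1 f y := (hf y (mem_of_mem_nhds hD)).of_le (by simp)
  obtain ⟨D1, hD1, hinj⟩ := (map_nhds_etale h1 hi).2
  obtain ⟨D2, h2, h3, h4⟩ := mem_nhds_iff.1 (inter_mem (inter_mem hD hD1) (h1.ev_inv hi))
  obtain ⟨e, he, ht, -, hs⟩ := exists_chart_of_inj h3 (fun z hz => ⟨hf z (h2 hz).1.1, (h2 hz).2⟩)
    (hinj.mono fun z hz => (h2 hz).1.2)
  exact ⟨e, he, ht ▸ h4, ht ▸ fun z hz => (h2 hz).1.1, hs⟩

end Charts

end Pool.Agent.Lib.MP_1c0d65_gt.PW
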