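import Pool.Agent.Lib.MP_1c0d65_gt.PW.Int

/-! Chain rule, reparametrisation and continuity for maps from the plane to `X`. -/

set_option autoImplicit false
set_option linter.unusedSectionVars false

open scoped Manifold ContDiff Topology
open Set MeasureTheory Filter Metric

noncomputable section

namespace Pool.Agent.Lib.MP_1c0d65_gt.PW

variable {X : Type} [TopologicalSpace X] [ChartedSpace E X] [IsManifold 𝓘(ℝ, E) ∞ X]
  {V V' W : Type} [NormedAddCommGroup V] [NormedSpace ℝ V] [NormedAddCommGroup V']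
  [NormedSpace ℝ V'] [NormedAddCommGroup W] [NormedSpace ℝ W]

theorem brk_md {f : V → X} {y : V} (h : ContMDiffAt 𝓘(ℝ, V) 𝓘(ℝ, E) ∞ f y) :
    MDifferentiableAt 𝓘(ℝ, V) 𝓘(ℝ, E) f y := h.mdifferentiableAt (by simp)

theorem brk_dif_congr {f g : V → X} {y : V} (h : f =ᶠ[𝓝 y] g) : dif f y = dif g y :=
  h.mfderiv_eq

theorem brk_pull2_congr {f g : V → X} {y : V} (h : f =ᶠ[𝓝 y] g) (α : X → Bil E W) :
    pull2 f α y = pull2 g α y := by
  rw [pull2, pull2, brk_dif_congr h, h.eq_of_nhds]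

theorem brk_dif_comp {f : V → X} {g : V' → V} {y : V'}
    (hf : MDifferentiableAt 𝓘(ℝ, V) 𝓘(ℝ, E) f (g y)) (hg : DifferentiableAt ℝ g y) :
    dif (f ∘ g) y = (dif f (g y)).comp (fderiv ℝ g y) := by
  have h := mfderiv_comp y hf hg.mdifferentiableAt
  rw [mfderiv_eq_fderiv] at h
  exact h

theorem brk_pull2_comp {f : V → X} {g : V' → V} {y : V'}
    (hf : MDifferentiableAt 𝓘(ℝ, V) 𝓘(ℝ, E) f (g y)) (hg : DifferentiableAt ℝ g y)
    (α : X → Bil E W) (a b : V') :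
    pull2 (f ∘ g) α y a b = pull2 f α (g y) (fderiv ℝ g y a) (fderiv ℝ g y b) := by
  simp only [pull2, brk_dif_comp hf hg, ContinuousLinearMap.bilinearComp_apply,
    ContinuousLinearMap.comp_apply, Function.comp]

theorem brk_pull2_apply (f : V → X) (α : X → Bil E W) (y a b : V) :
    pull2 f α y a b = α (f y) (dif f y a) (dif f y b) := rfl

theorem brk_par {x : X} {y : E} (hy : y ∈ (chartAt E x).target) :
    ContMDiffAt 𝓘(ℝ, E) 𝓘(ℝ, E) ∞ (par x) y :=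
  (contMDiffOn_chart_symm (I := 𝓘(ℝ, E)) (n := ∞) (x := x)).contMDiffAt
    ((chartAt E x).open_target.mem_nhds hy)

theorem brk_chart {f : V → X} {y : V} {x : X} (h : ContMDiffAt 𝓘(ℝ, V) 𝓘(ℝ, E) ∞ f y)
    (hx : f y ∈ (chartAt E x).source) : ContDiffAt ℝ ∞ (chartAt E x ∘ f) y :=
  contMDiffAt_iff_contDiffAt.1
    (((contMDiffOn_chart (I := 𝓘(ℝ, E)) (n := ∞) (x := x)).contMDiffAt
      ((chartAt E x).open_source.mem_nhds hx)).comp y h)

theorem brk_par_chart {f : V → X} {y : V} {x : X} (h : ContinuousAt f y)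
    (hx : f y ∈ (chartAt E x).source) : f =ᶠ[𝓝 y] par x ∘ (chartAt E x ∘ f) := by
  filter_upwards [h.eventually ((chartAt E x).open_source.mem_nhds hx)] with t ht
  exact ((chartAt E x).left_inv ht).symm

theorem brk_dif_chart {f : V → X} {y : V} (h : ContMDiffAt 𝓘(ℝ, V) 𝓘(ℝ, E) ∞ f y) :
    dif f y = fderiv ℝ (chartAt E (f y) ∘ f) y := by
  rw [dif, (brk_md h).mfderiv]
  simp [writtenInExtChartAt]

/-- The pull-back of a smooth form along a smooth map is continuous. -/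
theorem brk_cont {f : V → X} {S : Set V} (hS : IsOpen S)
    (h : ContMDiffOn 𝓘(ℝ, V) 𝓘(ℝ, E) ∞ f S) {α : X → Bil E W} (hα : Form univ α) (a b : V)
    {y : V} (hy : y ∈ S) : ContinuousAt (fun t => pull2 f α t a b) y := by
  have hf : ∀ t ∈ S, ContMDiffAt 𝓘(ℝ, V) 𝓘(ℝ, E) ∞ f t := fun t ht => h.contMDiffAt (hS.mem_nhds ht)
  set x := f y with hx
  have hsrc : f y ∈ (chartAt E x).source := mem_chart_source E x
  have hw := brk_chart (hf y hy) hsrc
  set w := chartAt E x ∘ f with hwd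
  have e : (fun t => pull2 f α t a b) =ᶠ[𝓝 y]
      fun t => pull2 (par x) α (w t) (fderiv ℝ w t a) (fderiv ℝ w t b) := by
    filter_upwards [hS.mem_nhds hy,
      (hf y hy).continuousAt.eventually ((chartAt E x).open_source.mem_nhds hsrc)] with t ht ht'
    rw [brk_pull2_congr (brk_par_chart (hf t ht).continuousAt ht'),
      brk_pull2_comp (g := w) (brk_md (brk_par ((chartAt E x).map_source ht')))
        ((brk_chart (hf t ht) ht').differentiableAt (by simp))]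
  refine ContinuousAt.congr ?_ e.symm
  have hd : dom x univ ∈ 𝓝 (w y) := by
    rw [dom, preimage_univ, inter_univ]
    exact (chartAt E x).open_target.mem_nhds ((chartAt E x).map_source hsrc)
  have h1 : ContinuousAt (fun t => pull2 (par x) α (w t)) y :=
    ((hα.2 x).continuousOn.continuousAt hd).comp hw.continuousAt
  have h2 : ContinuousAt (fderiv ℝ w) y := (hw.fderiv_right (m := 0) (by simp)).continuousAt
  exact (h1.clm_apply (h2.clm_apply continuousAt_const)).clm_apply (h2.clm_apply continuousAt_const)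

theorem brk_lin (L : ℂ →L[ℝ] V) (c : ℂ) : L c = c.re • L 1 + c.im • L .I := by
  rw [← map_smul, ← map_smul, ← map_add]
  congr 1
  simp

theorem brk_alt (β : Bil ℂ ℝ) (h : ∀ v, β v v = 0) (c : ℂ) :
    β c (c * .I) = ‖c‖ ^ 2 * β 1 .I := by
  have h1 := h (1 + .I)
  simp only [map_add, add_apply, h] at h1
  have h2 : β .I 1 = -β 1 .I := by linarith
  rw [brk_lin β c, add_apply, smul_apply,
    smul_apply, brk_lin (β 1) (c * .I), brk_lin (β .I) (c * .I), h, h, h2,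
    Complex.sq_norm, Complex.normSq_apply]
  simp
  ring

theorem brk_fderiv {φ : ℂ → ℂ} {s d : ℂ} (h : HasDerivAt φ d s) (a : ℂ) :
    fderiv ℝ φ s a = d * a := by
  rw [(h.hasFDerivAt.restrictScalars ℝ).fderiv]
  simp [mul_comm]

theorem brk_dif_hol {u : ℂ → X} {φ : ℂ → ℂ} {s d : ℂ}
    (hu : ContMDiffAt 𝓘(ℝ, ℂ) 𝓘(ℝ, E) ∞ u (φ s)) (h : HasDerivAt φ d s) (a : ℂ) :
    dif (u ∘ φ) s a = dif u (φ s) (d * a) := by
  rw [brk_dif_comp (brk_md hu) (h.differentiableAt.restrictScalars ℝ),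
    ContinuousLinearMap.comp_apply, brk_fderiv h]

/-- The density of a form under a holomorphic change of the variable. -/
theorem brk_dens {u : ℂ → X} {φ : ℂ → ℂ} {s d : ℂ}
    (hu : ContMDiffAt 𝓘(ℝ, ℂ) 𝓘(ℝ, E) ∞ u (φ s)) (h : HasDerivAt φ d s) {α : X → Bil E ℝ}
    (hα : Form univ α) :
    pull2 (u ∘ φ) α s 1 .I = ‖d‖ ^ 2 * pull2 u α (φ s) 1 .I := by
  rw [brk_pull2_comp (brk_md hu) (h.differentiableAt.restrictScalars ℝ), brk_fderiv h,
    brk_fderiv h, mul_one]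
  exact brk_alt _ (fun v => hα.1 _ (mem_univ _) _) d

theorem brk_cr {L : ℂ →L[ℝ] E} {J : E →L[ℝ] E} (hJ : ∀ v, J (J v) = -v) (h : L .I = J (L 1))
    (c : ℂ) : L (c * .I) = J (L c) := by
  rw [brk_lin L c, brk_lin L (c * .I), h]
  simp [hJ, add_comm]

theorem brk_ne {L : ℂ →L[ℝ] E} {J : E →L[ℝ] E} (hJ : ∀ v, J (J v) = -v) (h : L .I = J (L 1))
    (h1 : L 1 ≠ 0) {c : ℂ} (hc : c ≠ 0) : L c ≠ 0 := by
  intro h0
  have h2 : L (c * .I) = 0 := by rw [brk_cr hJ h, h0, map_zero]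
  apply h1
  have e : (1 : ℂ) = (c⁻¹).re • c + (c⁻¹).im • (c * .I) := by
    have : ((c⁻¹).re : ℂ) * c + (c⁻¹).im * (c * .I) = c⁻¹ * c := by
      conv_rhs => rw [← Complex.re_add_im c⁻¹]
      ring
    rw [Complex.real_smul, Complex.real_smul, this, inv_mul_cancel₀ hc]
  rw [e, map_add, map_smul, map_smul, h0, h2]
  simp

theorem brk_cm {φ : ℂ → ℂ} {s : ℂ} (h : AnalyticAt ℂ φ s) :
    ContMDiffAt 𝓘(ℝ, ℂ) 𝓘(ℝ, ℂ) ∞ φ s :=
  contMDiffAt_iff_contDiffAt.2 ((h.contDiffAt (n := ∞)).restrict_scalars ℝ)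

variable [MeasurableSpace X] {c : Ctx X} {O : Orb c}

theorem Orb.JJ (O : Orb c) {x : X} (hx : x ∈ O.W) (v : E) : O.J x (O.J x v) = -v :=
  (O.tame.1 x hx v).1

theorem OC.isOpen_F (C : OC O) : IsOpen (C.F : Set ℂ)ᶜ :=
  C.F.finite_toSet.isClosed.isOpen_compl

theorem OC.cm (C : OC O) {s : ℂ} (hs : s ∉ C.F) : ContMDiffAt 𝓘(ℝ, ℂ) 𝓘(ℝ, E) ∞ C.u s :=
  C.hu.1.contMDiffAt (C.isOpen_F.mem_nhds hs)

theorem OC.ev_F (C : OC O) (a : ℂ) : ∀ᶠ s in 𝓝[≠] a, s ∉ C.F := by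
  have h : IsClosed ((C.F : Set ℂ) \ {a}) := (C.F.finite_toSet.subset sdiff_subset).isClosed
  filter_upwards [self_mem_nhdsWithin, nhdsWithin_le_nhds (h.isOpen_compl.mem_nhds
    (show a ∈ ((C.F : Set ℂ) \ {a})ᶜ from fun h => h.2 rfl))] with s hs hs' hF
  exact hs' ⟨hF, hs⟩

theorem OC.ae_F (C : OC O) : ∀ᵐ s : ℂ, s ∉ C.F :=
  compl_mem_ae_iff.2 (C.F.finite_toSet.measure_zero volume)

theorem OC.dens_cont (C : OC O) {α : X → Bil E ℝ} (h : Form univ α) {s : ℂ} (hs : s ∉ C.F) :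
    ContinuousAt (fun t => pull2 C.u α t 1 .I) s :=
  brk_cont C.isOpen_F C.hu.1 h 1 .I hs

theorem OC.dens_pos (C : OC O) {s : ℂ} (hs : s ∉ C.F) (h : dif C.u s 1 ≠ 0) :
    0 < pull2 C.u c.om s 1 .I := by
  rw [brk_pull2_apply, C.hu.2 s hs]
  exact (O.tame.1 _ (C.mu hs) _).2 h

theorem OC.dens_nonneg (C : OC O) {s : ℂ} (hs : s ∉ C.F) : 0 ≤ pull2 C.u c.om s 1 .I := by
  by_cases h : dif C.u s 1 = 0
  · rw [brk_pull2_apply, h]
    simp
  · exact (C.dens_pos hs h).le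

end Pool.Agent.Lib.MP_1c0d65_gt.PW
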