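import Pool.Agent.Lib.MP_1c0d65_gt.PW.Int
import Pool.Agent.Lib.MP_1c0d65_gt.G.Thin

/-! The complement of countably many curves and points. -/

set_option autoImplicit false

open scoped Manifold ContDiff Topology
open Set

namespace Pool.Agent.Lib.MP_1c0d65_gt.PW

variable {X : Type} [TopologicalSpace X] [ChartedSpace E X] [IsManifold 𝓘(ℝ, E) ∞ X]
  [MeasurableSpace X] {c : Ctx X} {O : Orb c}

theorem thinOn_curves {T : Set (OC O)} (hT : T.Countable) {P : Set X} (hP : P.Countable)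
    (B : Set X) : G.ThinOn E ℂ B (P ∪ ⋃ C ∈ T, C.img) := by
  have := hT.to_subtype
  have := hP.to_subtype
  have : IsManifold 𝓘(ℝ, E) 1 X := IsManifold.of_le (n := ∞) (by exact_mod_cast le_top)
  refine G.thinOn_of_contMDiffAt (ι := P ⊕ T ⊕ T)
    (Sum.elim (fun x _ => x.1) (Sum.elim (fun C => C.1.u) fun C _ => C.1.v 0))
    (Sum.elim (fun _ => univ) (Sum.elim (fun C => (C.1.F : Set ℂ)ᶜ) fun _ => univ)) ?_ ?_
  · rintro (x | C | C) v hv
    · exact contMDiffAt_const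
    · exact (C.1.hu.1.contMDiffAt (C.1.F.finite_toSet.isClosed.isOpen_compl.mem_nhds hv)).of_le
        (by exact_mod_cast le_top)
    · exact contMDiffAt_const
  · rintro x (hx | hx)
    · exact mem_iUnion.2 ⟨.inl ⟨x, hx⟩, 0, trivial, rfl⟩
    · obtain ⟨C, hC, hx | rfl⟩ := mem_iUnion₂.1 hx
      · exact mem_iUnion.2 ⟨.inr (.inl ⟨C, hC⟩), hx⟩
      · exact mem_iUnion.2 ⟨.inr (.inr ⟨C, hC⟩), 0, trivial, rfl⟩

theorem finrank_succ_lt : Module.finrank ℝ ℂ + 1 < Module.finrank ℝ E := by simp [E]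

theorem joinedIn_compl {T : Set (OC O)} (hT : T.Countable) {P : Set X} (hP : P.Countable)
    {B : Set X} (hB : IsOpen B) (hB' : IsPreconnected B) {a b : X}
    (ha : a ∈ B \ (P ∪ ⋃ C ∈ T, C.img)) (hb : b ∈ B \ (P ∪ ⋃ C ∈ T, C.img)) :
    JoinedIn (B \ (P ∪ ⋃ C ∈ T, C.img)) a b :=
  (thinOn_curves hT hP B).joinedIn finrank_succ_lt hB hB' ha hb

theorem conn_compl {T : Set (OC O)} (hT : T.Countable) {P : Set X} (hP : P.Countable) {B : Set X}
    (hB : IsOpen B) (hB' : IsPreconnected B) : IsPreconnected (B \ (P ∪ ⋃ C ∈ T, C.img)) ∧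
      Dense (P ∪ ⋃ C ∈ T, C.img)ᶜ := by
  refine ⟨?_, (thinOn_curves hT hP univ).dense (Nat.lt_of_succ_lt finrank_succ_lt)⟩
  rcases (B \ (P ∪ ⋃ C ∈ T, C.img)).eq_empty_or_nonempty with h | ⟨a, ha⟩
  · rw [h]; exact isPreconnected_empty
  · exact (show IsPathConnected _ from
      ⟨a, ha, fun _ hb => joinedIn_compl hT hP hB hB' ha hb⟩).isConnected.isPreconnected

end Pool.Agent.Lib.MP_1c0d65_gt.PW
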