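import Pool.Agent.Lib.MP_1c0d65_gt.PW.Int
import Pool.Agent.Lib.MP_1c0d65_gt.Df.Tg

/-! Degenerations: the interface between the packages F and C. -/

set_option autoImplicit false

open scoped Manifold ContDiff Topology
open Set MeasureTheory Filter Metric

noncomputable section

namespace Pool.Agent.Lib.MP_1c0d65_gt.PW

variable {X : Type} [TopologicalSpace X] [ChartedSpace E X] [MeasurableSpace X] {c : Ctx X}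

/-- The space of invariants. -/
abbrev C5 : Type := Fin 5 → ℂ

/-- The space of local holomorphic coordinates: parameter, chart of `X`, invariants. -/
abbrev FF : Type := ℂ × E × C5

/-- The manifolds `(X, J n)` and the orbifold `O` sit in one target in `V`. -/
structure DegV (V : Type) [NormedAddCommGroup V] [NormedSpace ℝ V] (O : Orb c)
    (J : ℕ → X → E →L[ℝ] E) where
  T : Tg V FF
  ι : ℕ → X → V
  ι0 : X → V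
  ρ : V → X
  P : Fin O.n → V
  cont : ∀ᶠ n in atTop, Continuous (ι n)
  hol : ∀ᶠ n in atTop, ∀ u S, IsOpen S → Hol (J n) u S → ∀ z ∈ S, T.Hol (ι n ∘ u) z
  en : ∃ C : ℝ, ∀ᶠ n in atTop, ∀ u S, IsOpen S → Hol (J n) u S → ∀ z ∈ S,
    ‖fderiv ℝ (ι n ∘ u) z‖ ^ 2 ≤ C * pull2 u c.om z 1 .I
  inj : ∀ y ∈ O.W, ∃ N ∈ 𝓝 (ι0 y), ∀ᶠ n in atTop, ∀ x x', ι n x ∈ N → ι n x = ι n x' → x = x'
  cl : ∀ e, (∀ N ∈ 𝓝 e, ∃ᶠ n in atTop, ∃ x, ι n x ∈ N) → e ∈ ι0 '' O.W ∪ range P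
  pts : ∀ y ∈ O.W, Tendsto (fun p : ℕ × X => ι p.1 p.2) (atTop ×ˢ 𝓝 y) (𝓝 (ι0 y))
  left : ∀ x ∈ O.W, ρ (ι0 x) = x
  ne : ∀ x ∈ O.W, ∀ i, ι0 x ≠ P i
  sm0 : ContMDiffOn 𝓘(ℝ, E) 𝓘(ℝ, V) ∞ ι0 O.W
  back : ∀ w S, IsOpen S → (∀ z ∈ S, T.Hol w z ∧ w z ∈ ι0 '' O.W) → Hol O.J (ρ ∘ w) S
  sing : ∀ i U, IsOpen U → O.L i ⊆ U → ∃ N ∈ 𝓝 (P i), ∀ x ∈ O.W, ι0 x ∈ N → x ∈ U
  form : ∀ α, Form univ α → O.Test α → ∃ a : V → Bil V ℝ, Continuous a ∧ (∀ e ξ, a e ξ ξ = 0) ∧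
    (∀ᶠ n in atTop, ∀ u S, IsOpen S → Hol (J n) u S → ∀ z ∈ S,
      dens a (ι n ∘ u) z = pull2 u α z 1 .I) ∧
    ∀ u S, IsOpen S → Hol O.J u S → MapsTo u S O.W → ∀ z ∈ S,
      dens a (ι0 ∘ u) z = pull2 u α z 1 .I

/-- The ambient space: Whitney coordinates, one cut-off, and for each singular point a marker and
the invariants. -/
abbrev VV (M n : ℕ) : Type := (EuclideanSpace ℝ (Fin M) × ℝ) × (Fin n → ℝ × C5)

/-- The structures `J n` on `X` degenerate to the orbifold `O`. -/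
structure Deg (O : Orb c) (J : ℕ → X → E →L[ℝ] E) where
  tame : ∀ n, Tame univ c.om (J n)
  M : ℕ
  D : DegV (ℝ × VV M O.n) O J

/-- A family of structures `J t` and maps `ι (t, ·)`, `t ∈ I`, that collapse `L i` to `P i` for
`t = 0`. -/
structure Pre (V : Type) [NormedAddCommGroup V] [NormedSpace ℝ V] (O : Orb c) where
  I : Set ℝ
  cI : IsCompact I
  I0 : 0 ∈ I
  J : ℝ → X → E →L[ℝ] E
  ι : ℝ × X → V
  P : Fin O.n → V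
  cont : ContinuousOn ι (I ×ˢ univ)
  onL : ∀ i, ∀ x ∈ O.L i, ι (0, x) = P i
  Pinj : Function.Injective P
  ne : ∀ x ∈ O.W, ∀ i, ι (0, x) ≠ P i
  inj0 : InjOn (fun x => ι (0, x)) O.W
  J0 : ∀ x ∈ O.W, J 0 x = O.J x
  loc : ∀ x ∈ O.W, ∃ (ιl : ℝ × E → V) (Jl : ℝ × E → E →L[ℝ] E),
    (∀ v, fderiv ℝ ιl (0, chartAt E x x) (0, v) = 0 → v = 0) ∧
    ∀ᶠ q in 𝓝 ((0 : ℝ), chartAt E x x), ContDiffAt ℝ ∞ ιl q ∧ ContDiffAt ℝ ∞ Jl q ∧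
      (∀ v, Jl q (Jl q v) = -v) ∧
      (q.1 ∈ I → ιl q = ι (q.1, par x q.2) ∧ Jl q = pullJ (par x) (J q.1) q.2)
  sing : ∀ i, ∃ (π : V →L[ℝ] C5) (σ : C5 →L[ℝ] V) (C : ℝ), ∃ N ∈ 𝓝 ((0 : ℝ), P i), 0 < C ∧
    ∀ t ∈ I, (∀ x, (t, ι (t, x)) ∈ N → ι (t, x) = P i + σ (π (ι (t, x) - P i))) ∧
      (t ≠ 0 → ∀ u S, IsOpen S → Hol (J t) u S → ∀ z ∈ S, (t, ι (t, u z)) ∈ N →
        ContDiffAt ℝ 1 (fun w => ι (t, u w)) z ∧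
        DifferentiableAt ℂ (fun w => π (ι (t, u w))) z ∧
        ‖fderiv ℝ (fun w => ι (t, u w)) z‖ ^ 2 ≤ C * pull2 u c.om z 1 .I)

end Pool.Agent.Lib.MP_1c0d65_gt.PW
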