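import Pool.Agent.Lib.MP_1c0d65_gt.E.AdjC
import Pool.Agent.Lib.MP_1c0d65_gt.E.Glue
import Pool.Agent.Lib.MP_1c0d65_gt.E.Sites
import Pool.Agent.Lib.MP_1c0d65_gt.E.Dual
import Pool.Agent.Lib.MP_1c0d65_gt.PW.Cay

/-! The adjunction formula. -/

set_option autoImplicit false

open scoped Manifold ContDiff Topology

noncomputable section

namespace Pool.Agent.Lib.MP_1c0d65_gt.PW

variable {X : Type} [TopologicalSpace X] [ChartedSpace E X] [IsManifold 𝓘(ℝ, E) ∞ X]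
  [T2Space X] [CompactSpace X] [MeasurableSpace X] [BorelSpace X] {c : Ctx X} {O : Orb c}

theorem OC.adj (C : OC O) (h : C.Simple) {η} (hη : C.Dual η) {ι j} (hm : C.Mon ι j) :
    ∃ (k : ℕ) (l : C.F → ℝ), (∀ a, SelfIdx (O.N (ι a)) (O.a (ι a)) (j a) (l a)) ∧
      per C.u η - C.c1 + 2 = k + ∑ a, l a + (∑ a, ∑ a', if a ≠ a' ∧ ι a = ι a' then
        mn (O.N (ι a)) (O.a (ι a)) (j a) (j a') else 0) ∧
      (C.F = ∅ → k ≠ 1 ∧ (k = 0 ↔ C.Emb)) := by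
  obtain ⟨K⟩ := Adj.exists_chern (chern_of_tame O.isOpen_W O.tame)
  obtain ⟨S, -⟩ := exists_sites h hm (Adj.canF K) ∅ (by simp)
  obtain ⟨Λ⟩ := S.S.exists_cur
  rw [OC.dual_indep hη (S.dual Λ) hη]
  exact Adj.adj_core K S Λ

end Pool.Agent.Lib.MP_1c0d65_gt.PW
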