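import Pool.Agent.Lib.MP_1c0d65_gt.PW.AsmDef
import Pool.Agent.Lib.MP_1c0d65_gt.PW.Stokes
import Pool.Agent.Lib.MP_1c0d65_gt.PW.Conn
import Pool.Agent.Lib.MP_1c0d65_gt.PW.Mon
import Pool.Agent.Lib.MP_1c0d65_gt.B.Cover
import Pool.Agent.Lib.MP_1c0d65_gt.E.Dual
import Pool.Agent.Lib.MP_1c0d65_gt.E.C1
import Pool.Agent.Lib.MP_1c0d65_gt.E.Pos
import Pool.Agent.Lib.MP_1c0d65_gt.PW.Adj

/-! General points with respect to the simple curves of an orbifold. -/

set_option autoImplicit false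

open scoped Manifold ContDiff Topology
open Set MeasureTheory Filter Metric

noncomputable section

namespace Pool.Agent.Lib.MP_1c0d65_gt.PW

theorem lor_types {k : ℕ} {A : Type} (x : A → Fin (k + 1) → ℝ) {R : Set ℝ} (hR : R.Countable)
    (h : ∀ a b, lor (x a) (x b) ∈ R) : ∃ (s : Finset (Fin (k + 1) → ℝ)) (f : A → s → ℝ),
      (range f).Countable ∧ ∀ a b, f a = f b → lor (x b) (x a) = lor (x a) (x a) := by
  obtain ⟨s, hs, hsp⟩ := (Submodule.fg_span_iff_fg_span_finset_subset (R := ℝ) (range x)).1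
    (IsNoetherian.noetherian _)
  refine ⟨s, fun a v => lor (x a) v, ?_, fun a b hab => ?_⟩
  · refine (countable_univ_pi (s := fun _ : s => R) fun _ => hR).mono ?_
    rintro _ ⟨a, rfl⟩ v -
    obtain ⟨b, hb⟩ := hs v.2
    show lor (x a) v ∈ R
    rw [← hb]
    exact h a b
  · have : ∀ v ∈ Submodule.span ℝ (s : Set (Fin (k + 1) → ℝ)), lor (x b) v = lor (x a) v := by
      intro v hv
      induction hv using Submodule.span_induction with
      | mem v hv => exact (congrFun hab ⟨v, hv⟩).symm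
      | zero => simp [lor]
      | add v w _ _ hv hw =>
        simp only [lor, Pi.add_apply, mul_add, Finset.sum_add_distrib] at hv hw ⊢
        rw [hv, hw]
      | smul t v _ hv =>
        have e : ∀ z : Fin (k + 1) → ℝ, lor z (t • v) = t * lor z v := fun z => by
          simp only [lor, Pi.smul_apply, smul_eq_mul, Finset.mul_sum]
          exact Finset.sum_congr rfl fun i _ => by ring
        rw [e, e, hv]
    exact this _ (hsp ▸ Submodule.subset_span ⟨a, rfl⟩)

variable {X : Type} [TopologicalSpace X] [ChartedSpace E X] [IsManifold 𝓘(ℝ, E) ∞ X]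
  [T2Space X] [CompactSpace X] [MeasurableSpace X] [BorelSpace X] {c : Ctx X} {O : Orb c}

theorem OC.exists_sc (C : OC O) (h : C.Simple) : ∃ S : SC O, S.C = C := by
  obtain ⟨η, hη⟩ := C.exists_dual h
  obtain ⟨ι, j, hm⟩ := C.exists_mon
  exact ⟨⟨C, h, η, hη, ι, j, hm⟩, rfl⟩

theorem SC.not_subset {S S' : SC O} (h : S'.C.img ≠ S.C.img) : ¬ S'.C.img ⊆ S.C.img :=
  fun hs => h (OC.cover S'.C S.C S.simple hs).1

omit [IsManifold 𝓘(ℝ, E) ∞ X] [T2Space X] [CompactSpace X] [BorelSpace X] in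
theorem SC.per_eq (S S' : SC O) : per S'.C.u S.η = c.Q S'.η S.η :=
  (S'.dual.2.2.1 _ S.dual.1 S.dual.2.1).symm

theorem mn_rat (N a j j' : ℕ) : mn N a j j' ∈ (Rat.castHom ℝ).fieldRange :=
  div_mem (natCast_mem _ _) (natCast_mem _ _)

theorem SC.per_rat (S S' : SC O) : per S'.C.u S.η ∈ (Rat.castHom ℝ).fieldRange := by
  by_cases h : S'.C.img = S.C.img
  · obtain ⟨-, d, -, hd, hp⟩ := OC.cover S'.C S.C S.simple h.subset
    rw [hp _ S.dual.1.1 (Or.inl S.dual.2.1), hd S'.simple, Nat.cast_one, one_mul]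
    obtain ⟨k, l, hl, e, -⟩ := S.C.adj S.simple S.dual S.mon
    obtain ⟨z, hz⟩ := S.C.c1_int S.mon
    rw [sub_add, sub_eq_iff_eq_add] at e
    rw [e, hz]
    refine add_mem (add_mem (add_mem (natCast_mem _ _) (sum_mem fun s _ => ?_))
      (sum_mem fun s _ => sum_mem fun s' _ => ?_)) (sub_mem (add_mem (intCast_mem _ _)
        (sum_mem fun s _ => ?_)) (ofNat_mem _ 2))
    · obtain ⟨w, hw⟩ := (hl s).1
      rw [hw]
      exact add_mem (intCast_mem _ _) (div_mem (sub_mem (sub_mem (mul_mem (natCast_mem _ _)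
        (natCast_mem _ _)) (natCast_mem _ _)) (natCast_mem _ _)) (natCast_mem _ _))
    · split_ifs
      exacts [mn_rat _ _ _ _, zero_mem _]
    · exact div_mem (mul_mem (add_mem (one_mem _) (natCast_mem _ _)) (natCast_mem _ _))
        (natCast_mem _ _)
  · obtain ⟨k, -, e⟩ := S.C.pos S'.C S.simple S'.simple (SC.not_subset h) S.dual S.mon S'.mon ∅
      (by simp)
    rw [e]
    refine add_mem (natCast_mem _ _) (sum_mem fun s _ => sum_mem fun s' _ => ?_)
    split_ifs
    exacts [mn_rat _ _ _ _, zero_mem _]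

/-- The monodromy type. -/
def SC.ty (S : SC O) : Multiset (Fin O.n × ℕ) := Finset.univ.val.map fun s => (S.id s, S.j s)

omit [IsManifold 𝓘(ℝ, E) ∞ X] [T2Space X] [CompactSpace X] [BorelSpace X] in
theorem SC.sum_ty (S : SC O) (g : Fin O.n × ℕ → ℝ) : ∑ s, g (S.id s, S.j s) = (S.ty.map g).sum := by
  rw [SC.ty, Multiset.map_map]
  rfl

/-- Two curves of the same type with too many common points coincide. -/
theorem SC.img_eq {S S' : SC O} (h1 : per S'.C.u S.η = per S.C.u S.η) (h2 : S.ty = S'.ty)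
    (I : Finset X) (hI : ∀ y ∈ I, y ∈ S.C.img ∧ y ∈ S'.C.img) (h : S.sq < I.card) :
    S'.C.img = S.C.img := by
  by_contra hne
  obtain ⟨k, hk, e⟩ := S.C.pos S'.C S.simple S'.simple (SC.not_subset hne) S.dual S.mon S'.mon I hI
  have e2 : ∀ s, (∑ s', if S.id s = S'.id s' then
      mn (O.N (S.id s)) (O.a (S.id s)) (S.j s) (S'.j s') else 0) = ∑ s', if S.id s = S.id s' then
      mn (O.N (S.id s)) (O.a (S.id s)) (S.j s) (S.j s') else 0 := fun s => by
    have := S.sum_ty fun p => if S.id s = p.1 then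
      mn (O.N (S.id s)) (O.a (S.id s)) (S.j s) p.2 else 0
    rw [h2, ← S'.sum_ty] at this
    exact this.symm
  simp only [e2] at e
  have : S.sq = k := by rw [SC.sq, ← h1, e]; ring
  have hk' : (I.card : ℝ) ≤ k := by exact_mod_cast hk
  linarith

/-- Off countably many curves a new point keeps a set general. -/
theorem Gen.exists_bad (hL : c.Lor) [DecidableEq X] {T : Finset X} (h : Gen O T) : ∃ Z : Set (OC O),
    Z.Countable ∧ ∀ y, y ∉ (⋃ C ∈ Z, C.img) → Gen O (insert y T) := by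
  obtain ⟨co, hco⟩ := Q_coord hL
  have hq : ∀ S S' : SC O, lor (co S'.η) (co S.η) = per S'.C.u S.η := fun S S' => by
    rw [SC.per_eq, hco _ _ S'.dual.1 S.dual.1, lor]
  obtain ⟨s, f, hf, hff⟩ := lor_types (fun S : SC O => co S.η)
    (R := (Rat.castHom ℝ).fieldRange) (countable_range _) fun S S' => hq S' S ▸ S'.per_rat S
  let P : Set (SC O × Finset X) :=
    {p | p.2 ⊆ T ∧ (∀ y ∈ p.2, y ∈ p.1.C.img) ∧ p.1.sq < p.2.card}
  let G : SC O × Finset X → (s → ℝ) × Multiset (Fin O.n × ℕ) × Finset X :=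
    fun p => (f p.1, p.1.ty, p.2)
  have hG : (G '' P).Countable := by
    refine (hf.prod ((countable_univ (α := Multiset (Fin O.n × ℕ))).prod
      T.powerset.countable_toSet)).mono ?_
    rintro _ ⟨p, hp, rfl⟩
    exact ⟨⟨p.1, rfl⟩, trivial, Finset.mem_coe.2 (Finset.mem_powerset.2 hp.1)⟩
  obtain ⟨P', hP', hb⟩ := exists_subset_bijOn P G
  refine ⟨(fun p => p.1.C) '' P', (hb.mapsTo.countable_of_injOn hb.injOn hG).image _, ?_⟩
  intro y hy S I hI hIS
  by_cases hyI : y ∈ I
  · right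
    have h1 : I.erase y ⊆ T := fun z hz => by
      rcases Finset.mem_insert.1 (hI (Finset.mem_of_mem_erase hz)) with e | e
      exacts [absurd e (Finset.ne_of_mem_erase hz), e]
    have h2 : ((I.erase y).card : ℝ) ≤ S.sq := by
      by_contra hlt
      have hp : (S, I.erase y) ∈ P :=
        ⟨h1, fun z hz => hIS z (Finset.mem_of_mem_erase hz), not_le.1 hlt⟩
      obtain ⟨p, hp', e⟩ := hb.surjOn ⟨_, hp, rfl⟩
      simp only [G, Prod.mk.injEq] at e
      obtain ⟨e1, e2, e3⟩ := e
      have := SC.img_eq (S := S) (S' := p.1) (by rw [← hq, ← hq]; exact hff S p.1 e1.symm) e2.symm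
        (I.erase y) (fun z hz => ⟨hp.2.1 z hz, (hP' hp').2.1 z (e3 ▸ hz)⟩) hp.2.2
      exact hy (mem_iUnion₂.2 ⟨p.1.C, ⟨p, hp', rfl⟩, this ▸ hIS y hyI⟩)
    rw [← Finset.card_erase_add_one hyI]
    push_cast
    linarith
  · exact h S I ((Finset.subset_insert_iff_of_notMem hyI).1 hI) hIS

theorem Gen.exists_insert (hL : c.Lor) [DecidableEq X] {T : Finset X} (h : Gen O T) {B : Set X}
    (hB : IsOpen B) (hn : B.Nonempty) : ∃ y ∈ B, y ∉ T ∧ Gen O (insert y T) := by
  obtain ⟨Z, hZ, hb⟩ := h.exists_bad hL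
  obtain ⟨y, hy, hy'⟩ := (conn_compl hZ T.countable_toSet isOpen_empty isPreconnected_empty).2
    |>.inter_open_nonempty B hB hn
  exact ⟨y, hy, fun e => hy' (Or.inl e), hb y fun e => hy' (Or.inr e)⟩

theorem exists_gen (hL : c.Lor) {σ : Type} [Fintype σ] [DecidableEq X] (B : σ → Set X)
    (hB : ∀ i, IsOpen (B i) ∧ (B i).Nonempty) :
    ∃ y : σ → X, y.Injective ∧ (∀ i, y i ∈ B i) ∧ Gen O (Finset.univ.image y) := by
  classical
  have : ∀ s : Finset σ, ∃ y : σ → X, InjOn y s ∧ (∀ i, y i ∈ B i) ∧ Gen O (s.image y) := by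
    intro s
    induction s using Finset.induction_on with
    | empty => exact ⟨fun i => (hB i).2.some, by simp, fun i => (hB i).2.some_mem, Gen.empty⟩
    | insert i s hi ih =>
      obtain ⟨y, h1, h2, h3⟩ := ih
      obtain ⟨z, hz, hz', hg⟩ := h3.exists_insert hL (hB i).1 (hB i).2
      have e : ∀ t ∈ s, Function.update y i z t = y t := fun t ht =>
        Function.update_of_ne (ne_of_mem_of_not_mem ht hi) _ _
      refine ⟨Function.update y i z, ?_, fun t => ?_, ?_⟩
      · rw [Finset.coe_insert, injOn_insert (by simpa using hi)]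
        refine ⟨h1.congr fun t ht => (e t ht).symm, ?_⟩
        rintro ⟨t, ht, e'⟩
        rw [e t ht, Function.update_self] at e'
        exact hz' (Finset.mem_image.2 ⟨t, ht, e'⟩)
      · by_cases ht : t = i
        · subst ht
          rwa [Function.update_self]
        · rw [Function.update_of_ne ht]
          exact h2 t
      · rw [Finset.image_insert, Function.update_self, Finset.image_congr (g := y) e]
        exact hg
  obtain ⟨y, h1, h2, h3⟩ := this Finset.univ
  exact ⟨y, by simpa using h1, h2, h3⟩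

end Pool.Agent.Lib.MP_1c0d65_gt.PW
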