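import Pool.Agent.Lib.MP_1c0d65_gt.F.DatPre
import Pool.Agent.Lib.MP_1c0d65_gt.F.Orb
import Pool.Agent.Lib.MP_1c0d65_gt.F.Pat
import Pool.Agent.Lib.MP_1c0d65_gt.PW.PlotD

/-! The degeneration of a surface along disjoint pinwheels. -/

set_option autoImplicit false

open scoped Manifold ContDiff Topology
open Set MeasureTheory Filter Metric

noncomputable section

namespace Pool.Agent.Lib.MP_1c0d65_gt.PW

variable {X : Type} [TopologicalSpace X] [ChartedSpace E X] [IsManifold 𝓘(ℝ, E) ∞ X]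
  [T2Space X] [CompactSpace X] [MeasurableSpace X] [BorelSpace X] {c : Ctx X}

theorem degenerate {n : ℕ} (L : Fin n → Set X) (hL : ∀ i, Pinwheel c.om (L i))
    (disj : ∀ i j, i ≠ j → Disjoint (L i) (L j)) :
    ∃ (O : Orb c) (J : ℕ → X → E →L[ℝ] E) (K U : Set X) (a : X → E →L[ℝ] ℝ), O.n = n ∧
      Nonempty (Deg O J) ∧ IsClosed K ∧ IsOpen U ∧ (⋃ i, O.L i) ⊆ K ∧ K ⊆ U ∧ IsD U a c.om ∧
      ∀ m, ∀ x ∉ K, J m x = c.J0 x := by
  obtain ⟨D⟩ : Nonempty (Fd.Dat c L) := ⟨(Fd.exists_cut hL disj).some.dat⟩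
  have hU : IsOpen (⋃ i, (D.M i).U) := isOpen_iUnion fun i => (D.M i).opU
  refine ⟨D.orb, _, ⋃ i, D.K i, ⋃ i, (D.M i).U, ∑ i, (D.M i).l, rfl,
    Fd.Dat.deg (O := D.orb) D fun _ _ => rfl, isClosed_iUnion_of_finite D.clK, hU,
    iUnion_mono D.LK, iUnion_mono fun i => (D.KW i).trans (D.WU i), IsD.glue hU fun p hp => ?_,
    fun m x hx => D.off _ x fun i h => hx (mem_iUnion.2 ⟨i, h⟩)⟩
  obtain ⟨i, hi⟩ := mem_iUnion.1 hp
  refine ⟨_, (D.M i).opU, hi, IsD.congr (a := (D.M i).l) (fun x => ⟨fun y hy =>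
    ((D.M i).prim x y hy).1.contDiffWithinAt, fun y hy => ((D.M i).prim x y hy).2⟩) (D.M i).opU
    (fun x hx => ?_) fun _ _ => rfl⟩
  rw [Finset.sum_apply, Finset.sum_eq_single i (fun j _ hj => (D.M j).l0 x fun h =>
    hj (D.idx ((D.M j).UV h) ((D.M i).UV hx))) (by simp)]

end Pool.Agent.Lib.MP_1c0d65_gt.PW
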