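import Pool.Agent.Lib.MP_1c0d65_gt.F.Whit
import Pool.Agent.Lib.MP_1c0d65_gt.F.PreC
import Pool.Agent.Lib.MP_1c0d65_gt.C.LocS

/-! A convergent sequence in a smooth family of tame structures is a degeneration. -/

set_option autoImplicit false

open scoped Manifold ContDiff Topology
open Set MeasureTheory Filter Metric

noncomputable section

namespace Pool.Agent.Lib.MP_1c0d65_gt.PW

variable {X : Type} [TopologicalSpace X] [ChartedSpace E X] [IsManifold 𝓘(ℝ, E) ∞ X]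
  [T2Space X] [CompactSpace X] [MeasurableSpace X] [BorelSpace X] {c : Ctx X}


theorem deg_of_fam {F : ℝ → X → E →L[ℝ] E} (hF : c.Fam F) {τ : ℕ → ℝ} {τ0 : ℝ}
    (h : Tendsto τ atTop (𝓝 τ0)) :
    Nonempty (Deg (Orb.triv c (F τ0) (hF.1 τ0)) fun n => F (τ n)) := by
  obtain ⟨M, e, he, hi, hd⟩ := exists_whitney_VV (X := X) 0
  have ht : Tendsto (fun n => τ n - τ0) atTop (𝓝 0) := by simpa using h.sub_const τ0
  obtain ⟨R, hR⟩ := (isBounded_range_of_tendsto _ ht).exists_norm_le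
  have h0 : 0 ≤ R := (norm_nonneg _).trans (hR _ ⟨0, rfl⟩)
  obtain ⟨D⟩ := Pre.deg_of (fun T _ _ h => T.smooth h) (hF.pre τ0 R h0 he hi hd) (t := fun n => τ n - τ0)
    (fun n => abs_le.1 (hR _ ⟨n, rfl⟩)) ht (Or.inl rfl)
  have e : (fun n => (hF.pre τ0 R h0 he hi hd).J (τ n - τ0)) = fun n => F (τ n) :=
    funext fun n => congrArg F (add_sub_cancel _ _)
  exact ⟨⟨fun n => hF.1 _, M, e ▸ D⟩⟩

end Pool.Agent.Lib.MP_1c0d65_gt.PW
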