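import Pool.Agent.Lib.MP_1c0d65_gt.C.Top
import Pool.Agent.Lib.MP_1c0d65_gt.C.Loc

/-! Gromov compactness for degenerations. -/

set_option autoImplicit false

open scoped Manifold ContDiff Topology
open Set MeasureTheory Filter Metric

noncomputable section

namespace Pool.Agent.Lib.MP_1c0d65_gt.PW

variable {X : Type} [TopologicalSpace X] [ChartedSpace E X] [IsManifold 𝓘(ℝ, E) ∞ X]
  [T2Space X] [CompactSpace X] [MeasurableSpace X] [BorelSpace X] {c : Ctx X} {O : Orb c}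

theorem DegV.gromov {V : Type} [NormedAddCommGroup V] [NormedSpace ℝ V] [FiniteDimensional ℝ V]
    {J : ℕ → X → E →L[ℝ] E} (D : DegV V O J) (tame : ∀ n, Tame univ c.om (J n))
    (𝒰 : Ultrafilter ℕ) (h𝒰 : (𝒰 : Filter ℕ) ≤ atTop) (S : ∀ n, OC (Orb.triv c (J n) (tame n)))
    (A : ℝ) (hA : ∀ n, (S n).c1 ≤ A) : ∃ (m : ℕ) (C : Fin m → OC O),
      (∀ α, Form univ α → O.Test α →
        Tendsto (fun n => per (S n).u α) 𝒰 (𝓝 (∑ i, per (C i).u α))) ∧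
      ∀ (x : ℕ → X) (y : X), (∀ᶠ n in 𝒰, x n ∈ (S n).img) → y ∈ O.W → Tendsto x 𝒰 (𝓝 y) →
        ∃ i, y ∈ (C i).img := by
  obtain ⟨Φ, -, hΦ⟩ := D.T.exists_fam
  exact D.gromov_of Φ hΦ tame 𝒰 h𝒰 S A hA

theorem gromov {J : ℕ → X → E →L[ℝ] E} (D : Deg O J) (𝒰 : Ultrafilter ℕ)
    (h𝒰 : (𝒰 : Filter ℕ) ≤ atTop) (S : ∀ n, OC (Orb.triv c (J n) (D.tame n))) (A : ℝ)
    (hA : ∀ n, (S n).c1 ≤ A) : ∃ (m : ℕ) (C : Fin m → OC O),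
      (∀ α, Form univ α → O.Test α →
        Tendsto (fun n => per (S n).u α) 𝒰 (𝓝 (∑ i, per (C i).u α))) ∧
      ∀ (x : ℕ → X) (y : X), (∀ᶠ n in 𝒰, x n ∈ (S n).img) → y ∈ O.W → Tendsto x 𝒰 (𝓝 y) →
        ∃ i, y ∈ (C i).img :=
  D.D.gromov D.tame 𝒰 h𝒰 S A hA

end Pool.Agent.Lib.MP_1c0d65_gt.PW
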