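import Pool.Agent.Lib.MP_1c0d65_gt.Emb.Ift
import Pool.Agent.Lib.MP_1c0d65_gt.PW.Cay
import Pool.Agent.Lib.MP_1c0d65_gt.D.NFr
import Pool.Agent.Lib.MP_1c0d65_gt.D.Geo

/-! Deformation of embedded spheres. -/

set_option autoImplicit false
set_option linter.unusedVariables false

open scoped Manifold ContDiff Topology
open Set MeasureTheory Filter Metric

noncomputable section

namespace Pool.Agent.Lib.MP_1c0d65_gt.PW

variable {X : Type} [TopologicalSpace X] [ChartedSpace E X] [IsManifold 𝓘(ℝ, E) ∞ X]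
  [T2Space X] [CompactSpace X] [MeasurableSpace X] [BorelSpace X] {c : Ctx X} {O : Orb c}

theorem ift {F : ℝ → X → E →L[ℝ] E} (hF : c.Fam F) (τ0 : ℝ) (C : OC (Orb.triv c (F τ0) (hF.1 τ0)))
    (hE : C.Emb) (B : Set X) (hB : IsOpen B) (h0 : C.v 0 ∈ B) (hF0 : ∀ τ, ∀ x ∈ B, F τ x = c.J0 x)
    (m : ℕ) (hm : m ≤ 1) (hc : C.c1 = m + 2) (s : Fin (m + 1) → ℂ) (hs : s.Injective) :
    ∀ᶠ p : ℝ × (Fin (m + 1) → X) in 𝓝 (τ0, fun j => C.u (s j)),
      ∃ C' : OC (Orb.triv c (F p.1) (hF.1 p.1)), (∀ α, Closed α → per C'.u α = per C.u α) ∧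
        ∀ j, p.2 j ∈ C'.img :=
  Emb.ift_of hF τ0 (chern_of_tame isOpen_univ (hF.1 τ0))
    (fun _ A _ h1 h2 h3 h4 => A.exists_nframe h1 h2 h3 h4)
    (fun _ A _ h1 h2 h3 _ hk N z hz _ hε => D.deform A h1 h2 h3 hk N z hz hε)
    C hE m (hm.trans one_le_two) hc s hs

end Pool.Agent.Lib.MP_1c0d65_gt.PW
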