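import Pool.Agent.Lib.MP_1c0d65_gt.PW.Ex2
import Pool.Agent.Lib.MP_1c0d65_gt.PW.Conn
import Pool.Agent.Lib.MP_1c0d65_gt.PW.Stokes
import Pool.Agent.Lib.MP_1c0d65_gt.PW.Cay
import Pool.Agent.Lib.MP_1c0d65_gt.PW.DegFam
import Pool.Agent.Lib.MP_1c0d65_gt.PW.Mon
import Pool.Agent.Lib.MP_1c0d65_gt.PW.OCi
import Pool.Agent.Lib.MP_1c0d65_gt.PW.Reparam
import Pool.Agent.Lib.MP_1c0d65_gt.B.Simple
import Pool.Agent.Lib.MP_1c0d65_gt.B.Cover
import Pool.Agent.Lib.MP_1c0d65_gt.E.Dual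
import Pool.Agent.Lib.MP_1c0d65_gt.E.C1
import Pool.Agent.Lib.MP_1c0d65_gt.E.Pos
import Pool.Agent.Lib.MP_1c0d65_gt.PW.Adj
import Pool.Agent.Lib.MP_1c0d65_gt.PW.Gromov
import Pool.Agent.Lib.MP_1c0d65_gt.PW.Ift

/-! Existence of spheres, part 3: the tools come from the packages. -/

set_option autoImplicit false

open scoped Manifold ContDiff Topology
open Set MeasureTheory Filter Metric

noncomputable section

namespace Pool.Agent.Lib.MP_1c0d65_gt.PW

variable {X : Type} [TopologicalSpace X] [ChartedSpace E X] [IsManifold 𝓘(ℝ, E) ∞ X]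
  [T2Space X] [CompactSpace X] [MeasurableSpace X] [BorelSpace X] {c : Ctx X}

omit [IsManifold 𝓘(ℝ, E) ∞ X] [T2Space X] [CompactSpace X] [BorelSpace X] in
lemma ex_test_triv {J : X → E →L[ℝ] E} (hJ : Tame univ c.om J) (α : X → Bil E ℝ) :
    (Orb.triv c J hJ).Test α :=
  ⟨∅, isOpen_empty, iUnion_subset fun i => i.elim0, fun _ h => h.elim⟩

omit [T2Space X] [CompactSpace X] [MeasurableSpace X] [BorelSpace X] in
lemma Thn.thinOn {A : Set X} (h : Thn A) (B : Set X) : G.ThinOn E ℂ B A := by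
  obtain ⟨T, h1, h2, h3⟩ := h
  have := h1.to_subtype
  have : IsManifold 𝓘(ℝ, E) 1 X := IsManifold.of_le (n := ∞) (by exact_mod_cast le_top)
  refine G.thinOn_of_contMDiffAt (ι := T) (fun u => u.1) (fun _ => univ)
    (fun u v _ => (h2 u.1 u.2 v).of_le (by exact_mod_cast le_top)) fun x hx => ?_
  obtain ⟨u, hu, s, rfl⟩ := mem_iUnion₂.1 (h3 hx)
  exact mem_iUnion.2 ⟨⟨u, hu⟩, s, trivial, rfl⟩

theorem tools (c : Ctx X) (hL : c.Lor) : Tools c where
  co := Q_coord hL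
  path := fun _ hJ => exists_path hJ
  dns := fun A h => (h.thinOn univ).dense (Nat.lt_of_succ_lt finrank_succ_lt)
  conn := fun A B h hB hB' => by
    rcases (B \ A).eq_empty_or_nonempty with h0 | ⟨a, ha⟩
    · rw [h0]; exact isPreconnected_empty
    · exact (show IsPathConnected _ from ⟨a, ha, fun _ hb =>
        (h.thinOn B).joinedIn finrank_succ_lt hB hB' ha hb⟩).isConnected.isPreconnected
  nat := fun J hJ C => by
    obtain ⟨ι, j, h⟩ := C.exists_mon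
    obtain ⟨z, hz⟩ := C.c1_int h
    have : IsEmpty C.F := by rw [TC.F_eq C]; infer_instance
    rw [Finset.univ_eq_empty, Finset.sum_empty, add_zero] at hz
    have h0 : 0 < z := by exact_mod_cast hz ▸ C.c1_pos
    refine ⟨z.toNat, by omega, ?_⟩
    rw [hz]
    exact_mod_cast (Int.toNat_of_nonneg h0.le).symm
  reparam := fun J hJ C x hx hE => by
    obtain ⟨C', h1, h2, h3, -, h4⟩ := C.reparam hx
    exact ⟨C', h1, h2, h3 hE, fun α hα => h4 α hα.1 (Or.inl (ex_test_triv hJ α))⟩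
  simple := fun J hJ C => by
    obtain ⟨C', h1, h2⟩ := C.exists_simple
    obtain ⟨-, d, hd, -, h⟩ := C.cover C' h1 h2.ge
    exact ⟨C', h1, h2, d, hd, fun α hα => h α hα.1 (Or.inl (ex_test_triv hJ α))⟩
  same := fun J hJ C C' h hs => (C.cover C' h hs).1
  int := fun J hJ C hs => by
    obtain ⟨η, hη⟩ := C.exists_dual hs
    obtain ⟨ι, j, h⟩ := C.exists_mon
    have : IsEmpty C.F := by rw [TC.F_eq C]; infer_instance
    obtain ⟨k, l, -, h1, h2⟩ := C.adj hs hη h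
    refine ⟨η, ⟨hη.1, fun α hα => hη.2.2.1 α hα (ex_test_triv hJ α)⟩,
      ⟨k, by simpa using h1, h2 (TC.F_eq C)⟩, fun C' hs' hne T hT => ?_⟩
    obtain ⟨ι', j', h'⟩ := C'.exists_mon
    obtain ⟨k, h3, h4⟩ := C.pos C' hs hs' hne hη h h' T hT
    rw [h4, Finset.univ_eq_empty, Finset.sum_empty, add_zero]
    exact_mod_cast h3
  grom := fun F hF τ τ0 hτ S g hS r x y hx hl => by
    obtain ⟨D⟩ := deg_of_fam hF hτ
    have hW : ∀ y, y ∈ (Orb.triv c (F τ0) (hF.1 τ0)).W := fun y h => by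
      obtain ⟨i, -⟩ := mem_iUnion.1 h
      exact i.elim0
    have hU : ((Ultrafilter.of atTop : Ultrafilter ℕ) : Filter ℕ) ≤ atTop := Ultrafilter.of_le _
    have hl' : ∀ j, Tendsto (fun n => x n j) (Ultrafilter.of atTop : Ultrafilter ℕ) (𝓝 (y j)) :=
      fun j => (tendsto_pi_nhds.1 hl j).mono_left hU
    obtain ⟨m, C, h1, h2⟩ := gromov D _ hU S (c.κ * g c.om)
      (fun n => by rw [OC.c1, hS n _ c.hom])
    refine ⟨m, C, fun α hα => ?_, fun j =>
      h2 _ _ (Eventually.of_forall fun n => hx n j) (hW _) (hl' j)⟩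
    have h3 := h1 α hα.1 (ex_test_triv _ α)
    simp only [hS _ α hα] at h3
    exact tendsto_nhds_unique tendsto_const_nhds h3
  ift := fun F hF τ0 C hE B hB h0 hF0 m hm hc s hs => ift hF τ0 C hE B hB h0 hF0 m hm hc s hs

theorem exist (hL : c.Lor) (S : OC (Orb.triv c c.J0 c.tame0)) (hS : S.Emb) (m : ℕ)
    (hm : m ≤ 1) (hc : S.c1 = m + 2) (h5 : 5 ≤ c.κ * c.κ * c.Q c.om c.om)
    {J : X → E →L[ℝ] E} (hJ : Tame univ c.om J) (B : Set X) (hB : IsOpen B)
    (hB' : IsPreconnected B) (hSB : (S.img ∩ B).Nonempty) (hJB : ∀ x ∈ B, J x = c.J0 x)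
    (y : Fin (m + 1) → X) (hy : ∀ j, y j ∈ B) :
    ∃ᶠ p in 𝓝 y, ∃ C : OC (Orb.triv c J hJ), C.Emb ∧ (∀ α, Closed α → per C.u α = per S.u α) ∧
      ∀ j, p j ∈ C.img := by
  have := ChartedSpace.secondCountable_of_sigmaCompact E X
  obtain ⟨G, hG, h⟩ := (tools c hL).exist S hS m hm hc h5 hJ B hB hB' hSB hJB
  exact ((mem_closure_iff_frequently.1 (hG y)).and_eventually
    ((ex_open_tuples hB).mem_nhds hy)).mono fun p hp => h p hp.1 hp.2

end Pool.Agent.Lib.MP_1c0d65_gt.PW
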