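import Pool.Agent.Lib.MP_1c0d65_gt.Num.St
import Pool.Agent.Lib.MP_1c0d65_gt.G.Fib

/-! The numerical core: an anticanonical cycle through three general points bounds the number of
Wahl chains. -/

set_option autoImplicit false

namespace Pool.Agent.Lib.MP_1c0d65_gt.Num.St

open Finset

variable {V : Type} [AddCommGroup V] [Module ℝ V] {ι : Type} [Fintype ι] {n : ℕ} (S : St V ι n)

theorem sum_sy {R : Type} [CommRing R] (z : ι → R) (x : ι) :
    ∑ y, z y * (S.I x y : R) = ∑ y, z y * (S.I y x : R) :=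
  sum_congr rfl fun y _ => by rw [S.sy]

/-- The intersection table. -/
def tab : G.Tab V ι where
  B := S.B
  c := S.cl
  I := S.I
  μ := S.μ
  df x := S.I x x + 2 - ∑ y, S.μ y * S.I y x
  symm := S.symm
  hodge := S.hodge
  hI := S.hI
  nn := S.nn
  μ1 := S.hμ
  df0 x := by linarith [S.adj x]
  adj x := by
    have := S.sum_sy S.μ x
    simp only [Int.cast_id] at this
    linarith

theorem N_eq (x : ι) : ∑ y, ((S.μ y : ℝ) - S.d y) * S.I x y =
    ((∑ y, S.μ y * S.I y x : ℤ) : ℝ) - ∑ y, S.d y * S.I y x := by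
  rw [S.sum_sy]
  push_cast
  simp only [sub_mul, sum_sub_distrib]

variable {S}

theorem N_E {x : ι} (h : S.E x) : ∑ y, ((S.μ y : ℝ) - S.d y) * S.I x y = 0 := by
  rw [S.N_eq, h.dI, sub_self]

theorem N_off {x : ι} (h : ¬ S.E x) : 0 < ∑ y, ((S.μ y : ℝ) - S.d y) * S.I x y := by
  rw [S.N_eq]
  linarith [dI_lt h]

theorem conn_half (U : ι → Prop) (hU : ∀ x y, U x → ¬ U y → S.I x y = 0) {x0 : ι} (h0 : U x0)
    (hE : ¬ S.E x0) (w : ι) : U w := by
  classical
  let a : ι → ℝ := fun y => S.μ y - S.d y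
  have ha : ∀ y, 0 < a y := fun y => by
    have : (1 : ℝ) ≤ S.μ y := by exact_mod_cast S.hμ y
    have := (S.d_mem y).2
    simp only [a]
    linarith
  have hN : ∀ x, 0 ≤ ∑ y, a y * S.I x y := fun x => by
    by_cases h : S.E x
    · exact (N_E h).ge
    · exact (N_off h).le
  let a1 : ι → ℝ := fun y => if U y then a y else 0
  let a2 : ι → ℝ := fun y => if U y then 0 else a y
  have h11 : ∀ z, a1 z * ∑ y, a1 y * S.I z y = a1 z * ∑ y, a y * S.I z y := fun z => by
    by_cases h : U z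
    · congr 1
      refine sum_congr rfl fun y _ => ?_
      by_cases h' : U y
      · simp [a1, h']
      · simp [hU z y h h']
    · simp [a1, h]
  have h22 : ∀ z, a2 z * ∑ y, a2 y * S.I z y = a2 z * ∑ y, a y * S.I z y := fun z => by
    by_cases h : U z
    · simp [a2, h]
    · congr 1
      refine sum_congr rfl fun y _ => ?_
      by_cases h' : U y
      · simp [S.sy z y, hU y z h' h]
      · simp [a2, h']
  have h12 : S.B (S.tab.cb a1) (S.tab.cb a2) = 0 := by
    refine (S.tab.B_cb_cb a1 a2).trans (sum_eq_zero fun z _ => ?_)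
    by_cases h : U z
    · simp [a2, h]
    · refine mul_eq_zero_of_right _ (sum_eq_zero fun y _ => ?_)
      by_cases h' : U y
      · have : S.tab.I z y = 0 := (S.sy z y).trans (hU y z h' h)
        simp [this]
      · simp [a1, h']
  have n1 : ∀ z, 0 ≤ a1 z := fun z => by
    simp only [a1]
    split_ifs
    exacts [(ha z).le, le_rfl]
  have n2 : ∀ z, 0 ≤ a2 z := fun z => by
    simp only [a2]
    split_ifs
    exacts [le_rfl, (ha z).le]
  have p1 : 0 < S.B (S.tab.cb a1) (S.tab.cb a1) := by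
    refine lt_of_lt_of_eq ?_ ((S.tab.B_cb_cb a1 a1).trans (sum_congr rfl fun z _ => h11 z)).symm
    refine sum_pos' (fun z _ => mul_nonneg (n1 z) (hN z)) ⟨x0, mem_univ _, mul_pos ?_ (N_off hE)⟩
    simpa [a1, h0] using ha x0
  have e2 : S.B (S.tab.cb a2) (S.tab.cb a2) = ∑ z, a2 z * ∑ y, a y * S.I z y :=
    (S.tab.B_cb_cb a2 a2).trans (sum_congr rfl fun z _ => h22 z)
  have p2 : ∀ z ∈ univ, 0 ≤ a2 z * ∑ y, a y * S.I z y := fun z _ => mul_nonneg (n2 z) (hN z)
  have z2 : S.tab.cb a2 = 0 := by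
    by_contra hne
    have := S.hodge _ _ p1 h12 hne
    rw [e2] at this
    exact absurd (sum_nonneg p2) (not_le.2 this)
  have off0 : ∀ z, ¬ S.E z → a2 z = 0 := fun z hz => by
    rw [z2, map_zero] at e2
    exact (mul_eq_zero.1 ((sum_eq_zero_iff_of_nonneg p2).1 e2.symm z (mem_univ _))).resolve_right
      (N_off hz).ne'
  have all0 : a2 w = 0 := by
    by_cases hw : S.E w
    · refine indep a2 (fun i t => ?_) hw
      have h1 : ∑ y, a2 y * (S.I (S.e i t) y : ℝ) = 0 := by
        refine (S.tab.B_cb a2 (S.e i t)).symm.trans ?_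
        rw [z2, map_zero, LinearMap.zero_apply]
      rw [S.sum_sy, S.split, sum_eq_zero (s := S.off), add_zero] at h1
      · exact h1
      · intro y hy
        rw [off0 y (S.mem_off.1 hy), zero_mul]
    · exact off0 w hw
  by_contra hw
  simp only [a2, if_neg hw] at all0
  exact (ha w).ne' all0

theorem conn {x0 : ι} (hE : ¬ S.E x0) : S.tab.Conn := by
  intro U hU x hx
  have cl : ∀ x y, U x → ¬ U y → S.I x y = 0 := fun x y h h' => by
    have hne : x ≠ y := fun e => h' (e ▸ h)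
    exact le_antisymm (not_lt.1 fun e => h' (hU x y h hne e)) (S.nn x y hne)
  by_cases h0 : U x0
  · exact conn_half U cl h0 hE
  · exact absurd hx (conn_half (fun y => ¬ U y)
      (fun x y h h' => (S.sy x y).trans (cl y x (not_not.1 h') h)) h0 hE x)

variable [DecidableEq ι]

theorem mem_im {x : ι} : x ∈ univ.image S.ee ↔ S.E x := by
  simp only [mem_image, mem_univ, true_and]
  exact ⟨fun ⟨p, h⟩ => ⟨p.1, p.2, h.symm⟩, fun ⟨i, t, h⟩ => ⟨⟨i, t⟩, h.symm⟩⟩

theorem card_im : (univ.image S.ee).card = ∑ i, S.l i := by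
  rw [card_image_of_injective _ S.ee_inj]
  simp

theorem sum_erase (z : ι → ℤ) (i : Fin n) (t : Fin (S.l i)) :
    ∑ y ∈ (univ.image S.ee).erase (S.e i t), z y * S.I (S.e i t) y =
      S.seq z i t + S.seq z i (t + 2) := by
  have h1 := add_sum_erase (univ.image S.ee) (fun y => z y * S.I (S.e i t) y)
    (mem_im.2 ⟨i, t, rfl⟩)
  have h2 := S.pair z i t
  simp only [Int.cast_id] at h2
  rw [sum_image fun p _ q _ h => S.ee_inj h, S.self] at h1
  simp only [S.sy (S.e i t)] at h1 ⊢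
  rw [S.seq_in] at h2
  linarith

omit [DecidableEq ι] in
theorem seq_one (i : Fin n) (u : ℕ) : S.seq (fun _ => (1 : ℤ)) i u ≤ 1 := by
  rcases u with _ | u
  · simp [seq]
  · simp only [seq]
    split_ifs <;> simp

omit [DecidableEq ι] in
theorem cnt_one (i : Fin n) : ∑ t : Fin (S.l i),
    (S.seq (fun _ => (1 : ℤ)) i t + S.seq (fun _ => (1 : ℤ)) i (t + 2)) = 2 * (S.l i - 1) := by
  set s := S.seq (fun _ => (1 : ℤ)) i with hs
  have tele : ∀ m, ∑ j ∈ range m, (s j + s (j + 2)) =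
      ∑ j ∈ range m, 2 * s (j + 1) + (s (m + 1) - s m - s 1 + s 0) := fun m => by
    induction m with
    | zero => simp
    | succ m ih => rw [sum_range_succ, sum_range_succ, ih]; ring
  have h1 : ∀ j < S.l i, s (j + 1) = 1 := fun j hj => S.seq_in _ i ⟨j, hj⟩
  have hl := (S.ch i).hl
  have h2 : s (S.l i) = 1 := by
    have := h1 (S.l i - 1) (by omega)
    rwa [Nat.sub_add_cancel hl] at this
  have h3 : s (S.l i + 1) = 0 := S.seq_out _ i le_rfl
  have h4 : s 0 = 0 := rfl
  rw [Fin.sum_univ_eq_sum_range (fun j => s j + s (j + 2)), tele, h2, h3, h4, h1 0 hl,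
    sum_congr rfl fun j hj => by rw [h1 j (mem_range.1 hj)]]
  simp
  ring

open Classical in
/-- The abstract system of the cycle. -/
noncomputable def sys (i0 : Fin n) {x0 : ι} (hE : ¬ S.E x0) : G.Sys V ι n where
  toTab := S.tab
  E := univ.image S.ee
  idx x := if h : S.E x then h.choose else i0
  d := S.d
  conn := conn hE
  onto i := by
    have h : S.On i (S.e i ⟨0, (S.ch i).hl⟩) := ⟨_, rfl⟩
    have h' : S.E (S.e i ⟨0, (S.ch i).hl⟩) := ⟨i, h⟩
    exact ⟨_, mem_im.2 h', by rw [dif_pos h']; exact h'.choose_spec.uniq h⟩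
  same x hx y hy h := by
    rw [dif_pos (mem_im.1 hx), dif_pos (mem_im.1 hy)]
    exact (mem_im.1 hx).choose_spec.same (mem_im.1 hy).choose_spec h.ne'
  negE x hx := (mem_im.1 hx).neg
  dfE x hx := by
    obtain ⟨i, t, rfl⟩ := mem_im.1 hx
    simp only [tab]
    rw [S.sphere, S.self]
    ring
  cnt := by
    rw [sum_image fun p _ q _ h => S.ee_inj h, card_im, Fintype.sum_sigma]
    have : ∀ i, ∑ t : Fin (S.l i), ∑ y ∈ (univ.image S.ee).erase (S.ee ⟨i, t⟩),
        S.tab.I (S.ee ⟨i, t⟩) y = 2 * ((S.l i : ℤ) - 1) := fun i => by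
      rw [← cnt_one i]
      refine sum_congr rfl fun t _ => ?_
      have := sum_erase (S := S) (fun _ => 1) i t
      simp only [one_mul] at this
      exact this
    rw [sum_congr rfl fun i _ => this i, ← mul_sum, sum_sub_distrib]
    simp
  deg x hx := by
    have hn := (mem_im.1 hx).neg
    obtain ⟨i, t, rfl⟩ := mem_im.1 hx
    have h1 := sum_erase (S := S) (fun _ => 1) i t
    have h2 : ((filter (fun y => 0 < S.I (S.e i t) y) (univ.image S.ee)).card : ℤ) ≤
        ∑ y ∈ (univ.image S.ee).erase (S.e i t), 1 * S.I (S.e i t) y := by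
      rw [card_eq_sum_ones]
      push_cast
      refine (sum_le_sum (g := fun y => 1 * S.I (S.e i t) y) fun y hy => ?_).trans
        (sum_le_sum_of_subset_of_nonneg (fun y hy => ?_) fun y hy _ => ?_)
      · linarith [(mem_filter.1 hy).2]
      · refine mem_erase.2 ⟨fun e => ?_, (mem_filter.1 hy).1⟩
        have := (mem_filter.1 hy).2
        rw [e] at this
        linarith
      · linarith [S.nn _ _ (ne_of_mem_erase hy).symm]
    have h3 := seq_one (S := S) i t
    have h4 := seq_one (S := S) i (t + 2)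
    have h5 : ((filter (fun y => 0 < S.I (S.e i t) y) (univ.image S.ee)).card : ℤ) ≤ 2 := by
      linarith
    exact_mod_cast h5
  d0 x := (S.d_mem x).1
  d1 x := (S.d_mem x).2
  dE x hx := S.d_off fun h => hx (mem_im.2 h)
  half x hx h := by
    have h1 := (mem_im.1 hx).neg
    by_contra hne
    have h2 : S.I x x ≠ -2 := hne
    linarith [(mem_im.1 hx).half (by omega)]
  bud x hx := (mul_comm _ _).trans_le (mem_im.1 hx).jump
  key x hx _ h := by
    obtain ⟨i, t, rfl⟩ := mem_im.1 hx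
    exact key i t ((sum_erase S.μ i t).symm.trans_le h)
  ME x hx := N_E (mem_im.1 hx)
  MC x hx := N_off fun h => hx (mem_im.2 h)

end Pool.Agent.Lib.MP_1c0d65_gt.Num.St

namespace Pool.Agent.Lib.MP_1c0d65_gt.PW

open Finset

theorem core2 {V : Type} [AddCommGroup V] [Module ℝ V] [FiniteDimensional ℝ V]
    (B : LinearMap.BilinForm ℝ V) (symm : ∀ x y, B x y = B y x)
    (hodge : ∀ x y, 0 < B x x → B x y = 0 → y ≠ 0 → B y y < 0)
    {ι : Type} [Fintype ι] (cl : ι → V) (μ : ι → ℕ) (hμ : ∀ x, 0 < μ x) (D : V)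
    (hD : D = ∑ x, (μ x : ℝ) • cl x) (int : ∀ x y, ∃ z : ℤ, B (cl x) (cl y) = z)
    (nn : ∀ x y, x ≠ y → 0 ≤ B (cl x) (cl y)) (adj : ∀ x, B D (cl x) ≤ B (cl x) (cl x) + 2)
    {n : ℕ} (l : Fin n → ℕ) (hl : ∀ i, 0 < l i) (b : Fin n → ℕ → ℕ) (γ : Fin n → ℕ → ℝ)
    (e : ∀ i, Fin (l i) → ι)
    (chain : ∀ i i' t t', B (cl (e i t)) (cl (e i' t')) = if i = i' ∧ t.1 = t'.1 then
      -(b i (t + 1) : ℝ) else if i = i' ∧ (t.1 + 1 = t'.1 ∨ t'.1 + 1 = t.1) then 1 else 0)
    (sphere : ∀ i t, B D (cl (e i t)) = 2 - b i (t + 1))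
    (hb : ∀ i, ∀ t < l i, 2 ≤ b i (t + 1) ∧ γ i t + γ i (t + 2) = b i (t + 1) * γ i (t + 1))
    (hγ : ∀ i, γ i 0 = 1 ∧ γ i (l i + 1) = 1 ∧ γ i 1 + γ i (l i) = 1 ∧ ∀ t ≤ l i + 1, 0 < γ i t)
    (mpos : ∀ x, (∀ i t, x ≠ e i t) →
      ∑ i, ∑ t : Fin (l i), (1 - γ i (t + 1)) * B (cl (e i t)) (cl x) < B D (cl x))
    (k : ι → ℕ) (hk : ∀ x, k x = 0 ∨ (k x : ℝ) ≤ B (cl x) (cl x) + 1) (h3 : 3 ≤ ∑ x, k x)
    (h2 : ∀ x, (∀ y, y ≠ x → k y = 0) → 2 ≤ μ x) :
    n + ∑ i, l i ≤ Module.finrank ℝ V + 2 := by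
  classical
  rcases Nat.eq_zero_or_pos n with rfl | hn
  · simp
  choose I hI using int
  have hDx : ∀ x, B D (cl x) = ((∑ y, (μ y : ℤ) * I y x : ℤ) : ℝ) := fun x => by
    rw [hD]
    simp [map_sum, LinearMap.sum_apply, hI]
  let S : Num.St V ι n :=
    { B := B, symm := symm, hodge := hodge, cl := cl, μ := fun x => μ x
      hμ := fun x => by exact_mod_cast hμ x
      I := I, hI := hI
      nn := fun x y h => by
        have := nn x y h
        rw [hI] at this
        exact_mod_cast this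
      adj := fun x => by
        have := adj x
        rw [hDx, hI] at this
        exact_mod_cast this
      l := l, b := b, γ := γ
      ch := fun i => ⟨hl i, hb i, (hγ i).1, (hγ i).2.1, (hγ i).2.2.1, (hγ i).2.2.2⟩
      e := e
      chain := fun i i' t t' => by
        have := chain i i' t t'
        rw [hI] at this
        split_ifs at this ⊢ <;> exact_mod_cast this
      sphere := fun i t => by
        have := sphere i t
        rw [hDx] at this
        exact_mod_cast this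
      mpos := fun x hx => by simpa only [hDx, hI] using mpos x hx }
  let T : Finset ι := univ.filter fun x => k x ≠ 0
  have hT : ∀ x ∈ T, (k x : ℤ) ≤ I x x + 1 := fun x hx => by
    have := (hk x).resolve_left (mem_filter.1 hx).2
    rw [hI] at this
    exact_mod_cast this
  have hT0 : ∀ x ∈ T, 0 ≤ I x x := fun x hx => by
    have h1 := hT x hx
    have h2 := (mem_filter.1 hx).2
    omega
  have hs : ∑ x ∈ T, k x = ∑ x, k x := sum_filter_ne_zero _
  obtain ⟨x0, hx0⟩ : T.Nonempty := by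
    rw [nonempty_iff_ne_empty]
    intro h
    rw [h, sum_empty] at hs
    omega
  have hE : ¬ S.E x0 := fun h => by
    have h1 : I x0 x0 ≤ -2 := h.neg
    linarith [hT0 x0 hx0]
  have := (Num.St.sys (S := S) ⟨0, hn⟩ hE).main (T := T) hT0 ?_ ?_
  · exact (congrArg (n + ·) (Num.St.card_im (S := S))).symm.trans_le this
  · have h4 : ((∑ x ∈ T, k x : ℕ) : ℤ) ≤ ∑ x ∈ T, (I x x + 1) := by
      push_cast
      exact sum_le_sum hT
    have h5 : (3 : ℤ) ≤ ((∑ x ∈ T, k x : ℕ) : ℤ) := by exact_mod_cast hs ▸ h3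
    exact h5.trans h4
  · have h4 : 2 ≤ ∑ x ∈ T, μ x := by
      by_cases h : ∀ y, y ≠ x0 → k y = 0
      · exact (h2 x0 h).trans (single_le_sum (f := μ) (fun _ _ => Nat.zero_le _) hx0)
      · push Not at h
        obtain ⟨y, hy, hy'⟩ := h
        have h5 : ∑ x ∈ {y, x0}, μ x ≤ ∑ x ∈ T, μ x := sum_le_sum_of_subset fun z hz => by
          rcases mem_insert.1 hz with rfl | hz
          · exact mem_filter.2 ⟨mem_univ _, hy'⟩
          · rwa [mem_singleton.1 hz]
        rw [sum_pair hy] at h5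
        have := hμ y
        have := hμ x0
        omega
    show (2 : ℤ) ≤ ∑ x ∈ T, (μ x : ℤ)
    exact_mod_cast h4

end Pool.Agent.Lib.MP_1c0d65_gt.PW
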