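import Pool.Agent.Lib.MP_1c0d65_gt.PW.ResC
import Pool.Agent.Lib.MP_1c0d65_gt.PW.Core2

/-! RES: the numerical resolution, unconditional. -/

set_option autoImplicit false

namespace Pool.Agent.Lib.MP_1c0d65_gt.PW

/-- `H` is the second cohomology, `c` the first Chern class, `h m` the classes of the components,
`μ m` their multiplicities, `F m` the punctures, `k m` the number of general points on them. -/
theorem res {H : Type} [AddCommGroup H] [Module ℝ H] [FiniteDimensional ℝ H]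
    (B : LinearMap.BilinForm ℝ H) (symm : ∀ x y, B x y = B y x)
    (hodge : ∀ x y, 0 < B x x → B x y = 0 → y ≠ 0 → B y y < 0)
    {n : ℕ} (N a : Fin n → ℕ)
    (wahl : ∀ i, ∃ p q : ℕ, 0 < q ∧ q < p ∧ p.Coprime q ∧ N i = p ^ 2 ∧ a i + 1 = p * q)
    {κ : Type} [Fintype κ] (h : κ → H) (μ : κ → ℕ) (hμ : ∀ m, 0 < μ m) (c : H)
    (hc : c = ∑ m, (μ m : ℝ) • h m) (area : ∀ m, 0 < B c (h m))
    {F : κ → Type} [∀ m, Fintype (F m)] [∀ m, DecidableEq (F m)]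
    (ι : ∀ m, F m → Fin n) (j : ∀ m, F m → ℕ) (hj : ∀ m s, j m s < N (ι m s))
    (c1 : ∀ m, ∃ z : ℤ, B c (h m) = z + ∑ s, ((1 + a (ι m s)) * j m s : ℝ) / N (ι m s))
    (pos : ∀ m m', m ≠ m' → ∃ k : ℕ, B (h m) (h m') = k + ∑ s, ∑ s',
      if ι m s = ι m' s' then mn (N (ι m s)) (a (ι m s)) (j m s) (j m' s') else 0)
    (adj : ∀ m, ∃ (k : ℕ) (l : F m → ℝ), (∀ s, SelfIdx (N (ι m s)) (a (ι m s)) (j m s) (l s)) ∧
      B (h m) (h m) - B c (h m) + 2 = k + ∑ s, l s + ∑ s, ∑ s',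
        if s ≠ s' ∧ ι m s = ι m s' then mn (N (ι m s)) (a (ι m s)) (j m s) (j m s') else 0)
    (mon : ∀ i, ∑ m, μ m * ∑ s, (if ι m s = i then a i * j m s else 0) ≡ 1 + a i [MOD N i])
    (k : κ → ℕ) (hk : ∀ m, k m = 0 ∨ (k m : ℝ) ≤ B (h m) (h m) - (∑ s, ∑ s',
      if ι m s = ι m s' then mn (N (ι m s)) (a (ι m s)) (j m s) (j m s') else 0) + 1)
    (h3 : 3 ≤ ∑ m, k m) (h2 : ∀ m, (∀ m', m' ≠ m → k m' = 0) → 2 ≤ μ m) :
    n ≤ Module.finrank ℝ H + 2 :=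
  res_of_core @core2 B symm hodge N a wahl h μ hμ c hc area ι j hj c1 pos adj mon k hk h3 h2

end Pool.Agent.Lib.MP_1c0d65_gt.PW
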