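import Pool.Agent.Lib.MP_1c0d65_gt.PW.AsmLor
import Pool.Agent.Lib.MP_1c0d65_gt.PW.AsmGen
import Pool.Agent.Lib.MP_1c0d65_gt.B.Simple
import Pool.Agent.Lib.MP_1c0d65_gt.PW.Res
import Pool.Agent.Lib.MP_1c0d65_gt.PW.OCi
import Pool.Agent.Lib.MP_1c0d65_gt.E.MonSum
import Pool.Agent.Lib.MP_1c0d65_gt.PW.Gromov
import Pool.Agent.Lib.MP_1c0d65_gt.PW.Degen
import Pool.Agent.Lib.MP_1c0d65_gt.PW.NotSub
import Pool.Agent.Lib.MP_1c0d65_gt.PW.Ex

/-! The assembly: at most `b₂ + 2` disjoint pinwheels. -/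

set_option autoImplicit false

open scoped Manifold ContDiff Topology
open Set MeasureTheory Filter Metric

noncomputable section

namespace Pool.Agent.Lib.MP_1c0d65_gt.PW

variable {X : Type} [TopologicalSpace X] [ChartedSpace E X] [IsManifold 𝓘(ℝ, E) ∞ X]
  [T2Space X] [CompactSpace X] [MeasurableSpace X] [BorelSpace X] {c : Ctx X} {O : Orb c}

/-- A finite family of curves as a cycle of different simple curves with multiplicities. -/
theorem asm_cycle {τ : Type} [Fintype τ] (C : τ → OC O) : ∃ (ι : Type) (_ : Fintype ι)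
    (S : ι → SC O) (μ : ι → ℕ) (π : τ → ι), (∀ m m', m ≠ m' → (S m).C.img ≠ (S m').C.img) ∧
      (∀ m, 0 < μ m) ∧ (∀ t, (S (π t)).C.img = (C t).img) ∧
      (∀ t t', t ≠ t' → π t = π t' → 2 ≤ μ (π t)) ∧
      ∀ α, Form univ α → O.Test α → ∑ t, per (C t).u α = ∑ m, μ m * per (S m).C.u α := by
  classical
  have hS : ∀ m : range fun t => (C t).img, ∃ S : SC O, S.C.img = m.1 := by
    rintro ⟨_, t, rfl⟩
    obtain ⟨C', h1, h2⟩ := (C t).exists_simple
    obtain ⟨S, rfl⟩ := C'.exists_sc h1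
    exact ⟨S, h2⟩
  choose S hS using hS
  let π : τ → range fun t => (C t).img := fun t => ⟨_, t, rfl⟩
  have hd := fun t => (OC.cover (C t) (S (π t)).C (S (π t)).simple (hS (π t)).symm.subset).2
  choose d hd0 _ hd using hd
  refine ⟨_, inferInstance, S, fun m => ∑ t with π t = m, d t, π, fun m m' h e => ?_, ?_,
    fun t => hS (π t), fun t t' h e => ?_, fun α h h' => ?_⟩
  · exact h (Subtype.ext (by rw [← hS, ← hS, e]))
  · rintro ⟨_, t, rfl⟩
    exact Finset.sum_pos' (fun _ _ => Nat.zero_le _) ⟨t, by simp [π], hd0 t⟩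
  · have h1 : ∑ s ∈ {t, t'}, d s ≤ ∑ s with π s = π t, d s :=
      Finset.sum_le_sum_of_subset fun s hs => by
        rcases Finset.mem_insert.1 hs with rfl | hs
        · simp
        · rw [Finset.mem_singleton.1 hs]
          simp [e]
    rw [Finset.sum_pair h] at h1
    have := hd0 t
    have := hd0 t'
    show 2 ≤ ∑ s with π s = π t, d s
    omega
  · rw [← Finset.sum_fiberwise Finset.univ π]
    refine Finset.sum_congr rfl fun m _ => ?_
    push_cast
    rw [Finset.sum_mul]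
    refine Finset.sum_congr rfl fun t ht => ?_
    rw [hd t α h (Or.inl h'), (Finset.mem_filter.1 ht).2]

/-- The numerical bound for an anticanonical cycle through general points. -/
theorem asm_bound (hL : c.Lor) {ι : Type} [Fintype ι] (S : ι → SC O) (μ : ι → ℕ) (hμ : ∀ m, 0 < μ m)
    (hne : ∀ m m', m ≠ m' → (S m).C.img ≠ (S m').C.img)
    (hc : ∀ α, Closed α → O.Test α → ∑ m, μ m * per (S m).C.u α = c.κ * c.Q c.om α)
    (mon : ∀ i, ∑ m, μ m * ∑ a, (if (S m).id a = i then O.a i * (S m).j a else 0) ≡ 1 + O.a i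
      [MOD O.N i])
    (g : ι → ℕ) (hg : ∀ m, g m = 0 ∨ (g m : ℝ) ≤ (S m).sq + 1) (h3 : 3 ≤ ∑ m, g m)
    (h2 : ∀ m, (∀ m', m' ≠ m → g m' = 0) → 2 ≤ μ m) : O.n ≤ (c.k + 1) + 2 := by
  obtain ⟨co, hco⟩ := Q_coord hL
  have hq : ∀ α β, Closed α → Closed β → c.Q α β = lor (co α) (co β) := hco
  have hx : ∀ m m', lorB c.k (co (S m).η) (co (S m').η) = per (S m').C.u (S m).η := fun m m' => by
    rw [lorB_apply, lor_comm, ← hq _ _ (S m').dual.1 (S m).dual.1, SC.per_eq]
  have hD : ∀ m, lorB c.k (∑ m', (μ m' : ℝ) • co (S m').η) (co (S m).η) = (S m).C.c1 := fun m => by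
    rw [OC.c1, ← (S m).dual.2.2.2, hq _ _ (S m).dual.1 c.hom, lor_comm,
      ← hq _ _ c.hom (S m).dual.1, ← hc _ (S m).dual.1 (S m).dual.2.1, map_sum,
      LinearMap.sum_apply]
    refine Finset.sum_congr rfl fun m' _ => ?_
    rw [map_smul, LinearMap.smul_apply, smul_eq_mul, lorB_apply, lor_comm, ← lorB_apply, hx]
  have := res (lorB c.k) lor_comm lor_hodge O.N O.a O.wahl (fun m => co (S m).η) μ hμ _ rfl
    (fun m => hD m ▸ (S m).C.c1_pos) (F := fun m => (S m).C.F) (fun m => (S m).id)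
    (fun m => (S m).j) (fun m s => ((S m).mon s).1) (fun m => hD m ▸ (S m).C.c1_int (S m).mon)
    (fun m m' h => ?_) (fun m => ?_) mon g (fun m => ?_) h3 h2
  · simpa using this
  · obtain ⟨k, -, e⟩ := (S m).C.pos (S m').C (S m).simple (S m').simple
      (SC.not_subset (hne _ _ h.symm)) (S m).dual (S m).mon (S m').mon ∅ (by simp)
    exact ⟨k, by rw [hx, e]⟩
  · obtain ⟨k, l, hl, e, -⟩ := (S m).C.adj (S m).simple (S m).dual (S m).mon
    exact ⟨k, l, hl, by rw [hx, hD, e]⟩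
  · rw [hx]
    exact hg m

omit [MeasurableSpace X] [BorelSpace X] [T2Space X] [IsManifold 𝓘(ℝ, E) ∞ X] in
theorem asm_seq {σ : Type} [Finite σ] (y : σ → X) (P : ℕ → (σ → X) → Prop)
    (h : ∀ n, ∃ᶠ p in 𝓝 y, P n p) : ∃ p : ℕ → σ → X, Tendsto p atTop (𝓝 y) ∧ ∀ n, P n (p n) := by
  have : SecondCountableTopology X := ChartedSpace.secondCountable_of_sigmaCompact E X
  obtain ⟨V, hV⟩ := (𝓝 y).exists_antitone_basis
  choose p hp hp' using fun n => ((h n).and_eventually (hV.mem n)).exists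
  exact ⟨p, hV.tendsto hp', hp⟩

theorem asm_main [SimplyConnectedSpace X] (hLo : c.Lor) {r : ℕ}
    (S : Fin r → OC (Orb.triv c c.J0 c.tame0))
    (hS : ∀ i, (S i).Emb) (c1 : ∀ i, (S i).c1 = 2 ∨ (S i).c1 = 3)
    (deg : r + 3 ≤ ∑ i, (S i).c1)
    (dual : ∀ α, Closed α → ∑ i, per (S i).u α = c.κ * c.Q c.om α)
    {n : ℕ} (L : Fin n → Set X) (hL : ∀ i, Pinwheel c.om (L i))
    (disj : ∀ i j, i ≠ j → Disjoint (L i) (L j)) : n ≤ (c.k + 1) + 2 := by
  classical
  obtain ⟨O, J, K, U, a, rfl, ⟨D⟩, hK, hU, hLK, hKU, ha, hJ⟩ := degenerate L hL disj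
  have hm : ∀ i, ∃ m : ℕ, m ≤ 1 ∧ (S i).c1 = m + 2 := fun i => by
    rcases c1 i with h | h
    exacts [⟨0, by simp, by simp [h]⟩, ⟨1, le_rfl, by rw [h]; norm_num⟩]
  choose m hm1 hm2 using hm
  have h3 : 3 ≤ ∑ i, (m i + 1) := by
    have e : ∑ i, (S i).c1 = ((∑ i, (m i + 1) : ℕ) : ℝ) + r := by
      simp only [hm2]
      push_cast
      rw [show (r : ℝ) = ∑ _i : Fin r, (1 : ℝ) by simp, ← Finset.sum_add_distrib]
      exact Finset.sum_congr rfl fun i _ => by ring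
    have : (3 : ℝ) ≤ ((∑ i, (m i + 1) : ℕ) : ℝ) := by linarith
    exact_mod_cast this
  have hr : 2 ≤ r := by
    have : ∑ i, (m i + 1) ≤ ∑ _i : Fin r, 2 := Finset.sum_le_sum fun i _ => by
      have := hm1 i
      omega
    simp only [Finset.sum_const, Finset.card_univ, Fintype.card_fin, smul_eq_mul] at this
    omega
  have h5 : 5 ≤ c.κ * c.κ * c.Q c.om c.om := by
    have h2 : (2 : ℝ) ≤ r := by exact_mod_cast hr
    rw [mul_assoc, ← dual _ c.hom, Finset.mul_sum]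
    exact le_trans (by linarith) deg
  have : LocallyConnectedSpace X := ChartedSpace.locallyConnectedSpace E X
  choose x hx hxU using fun i => not_subset.1 ((S i).not_subset hU ha)
  have hxK : ∀ i, x i ∈ Kᶜ := fun i h => hxU i (hKU h)
  have hB : ∀ i, IsOpen (connectedComponentIn Kᶜ (x i)) := fun i =>
    hK.isOpen_compl.connectedComponentIn
  obtain ⟨y, yinj, hy, gen⟩ := exists_gen (O := O) hLo (σ := Σ i, Fin (m i + 1))
    (fun s => connectedComponentIn Kᶜ (x s.1))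
    fun s => ⟨hB _, _, mem_connectedComponentIn (hxK _)⟩
  have yW : ∀ s, y s ∈ O.W := fun s h => connectedComponentIn_subset _ _ (hy s) (hLK h)
  have hex := fun i => asm_seq (fun j => y ⟨i, j⟩) _ fun n =>
    exist hLo (S i) (hS i) (m i) (hm1 i) (hm2 i) h5 (D.tame n) _ (hB i)
      isPreconnected_connectedComponentIn ⟨x i, hx i, mem_connectedComponentIn (hxK i)⟩
      (fun z hz => hJ n z (connectedComponentIn_subset _ _ hz)) (fun j => y ⟨i, j⟩)
      fun j => hy ⟨i, j⟩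
  choose p hp T hT1 hT2 hT3 using hex
  have h𝒰 : (Ultrafilter.of (atTop : Filter ℕ) : Filter ℕ) ≤ atTop := Ultrafilter.of_le _
  set 𝒰 := Ultrafilter.of (atTop : Filter ℕ)
  choose mm C hC1 hC2 using fun i => gromov D 𝒰 h𝒰 (T i) (S i).c1 fun n => by
    rw [OC.c1, hT2 i n _ c.hom]
    exact le_rfl
  obtain ⟨ι, _, Z, μ, π, hne, hμ, hπ, hπ2, hsum⟩ :=
    asm_cycle (τ := Σ i, Fin (mm i)) fun t => C t.1 t.2
  have hd : ∀ n α, Closed α → ∑ i, per (T i n).u α = c.κ * c.Q c.om α := fun n α h => by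
    simp only [hT2 _ _ _ h, dual α h]
  have lim : ∀ α, Form univ α → O.Test α → Tendsto (fun n => ∑ i, per (T i n).u α) 𝒰
      (𝓝 (∑ m, μ m * per (Z m).C.u α)) := fun α h h' => by
    rw [← hsum α h h', Fintype.sum_sigma]
    exact tendsto_finsetSum _ fun i _ => hC1 i α h h'
  have hyc : ∀ s : Σ i, Fin (m i + 1), ∃ l, y s ∈ (Z (π ⟨s.1, l⟩)).C.img := fun s => by
    obtain ⟨l, hl⟩ := hC2 s.1 (fun n => p s.1 n s.2) (y s) (.of_forall fun n => hT3 _ n _) (yW s)
      ((tendsto_pi_nhds.1 (hp s.1) s.2).mono_left h𝒰)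
    exact ⟨l, by rwa [hπ]⟩
  choose l hl using hyc
  refine asm_bound hLo Z μ hμ hne (fun α h h' => ?_) (fun i => ?_)
    (fun k => (Finset.univ.filter fun s => y s ∈ (Z k).C.img).card) (fun k => ?_) ?_ fun k hk => ?_
  · have := lim α h.1 h'
    simp only [hd _ α h] at this
    exact tendsto_nhds_unique this tendsto_const_nhds
  · refine mon_sum D.tame (fun n i => T i n) (fun n i => hT1 i n) hd (fun k => (Z k).C)
      (fun k => (Z k).simple) μ 𝒰 lim (fun A hA hAW hAZ => ?_) (fun k => (Z k).id)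
      (fun k => (Z k).j) (fun k => (Z k).mon) i
    refine eventually_all.2 fun i => ?_
    by_contra hn
    rw [← Ultrafilter.eventually_not] at hn
    have : ∀ n, ∃ z, ¬ Disjoint A (T i n).img → z ∈ A ∧ z ∈ (T i n).img := fun n => by
      by_cases h : Disjoint A (T i n).img
      · exact ⟨x i, fun h' => absurd h h'⟩
      · obtain ⟨z, hz⟩ := not_disjoint_iff.1 h
        exact ⟨z, fun _ => hz⟩
    choose z hz using this
    obtain ⟨w, hw, hw'⟩ := hA.ultrafilter_le_nhds (𝒰.map z)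
      (le_principal_iff.2 (hn.mono fun n h => (hz n h).1))
    obtain ⟨l', hl'⟩ := hC2 i z w (hn.mono fun n h => (hz n h).2) (hAW hw) hw'
    exact disjoint_left.1 (hAZ (π ⟨i, l'⟩)) hw (by rwa [hπ])
  · have := gen (Z k) ((Finset.univ.filter fun s => y s ∈ (Z k).C.img).image y)
      (Finset.image_subset_image (Finset.filter_subset _ _)) fun w hw => by
        obtain ⟨s, hs, rfl⟩ := Finset.mem_image.1 hw
        exact (Finset.mem_filter.1 hs).2
    rwa [Finset.card_image_of_injective _ yinj, Finset.image_eq_empty, ← Finset.card_eq_zero] at this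
  · refine h3.trans ?_
    have e : ∑ i, (m i + 1) = (Finset.univ : Finset (Σ i, Fin (m i + 1))).card := by simp
    rw [e, Finset.card_eq_sum_card_fiberwise (f := fun s => π ⟨s.1, l s⟩) (t := Finset.univ)
      (by simp)]
    refine Finset.sum_le_sum fun k _ => Finset.card_le_card fun s hs => ?_
    rw [Finset.mem_filter] at hs ⊢
    exact ⟨hs.1, hs.2 ▸ hl s⟩
  · have e : ∀ s, π ⟨s.1, l s⟩ = k := fun s => by
      by_contra h
      exact Finset.card_ne_zero.2 ⟨s, Finset.mem_filter.2 ⟨Finset.mem_univ _, hl s⟩⟩ (hk _ h)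
    have := hπ2 ⟨_, l ⟨⟨0, by omega⟩, 0⟩⟩ ⟨_, l ⟨⟨1, by omega⟩, 0⟩⟩
      (fun h => by simpa using congrArg Sigma.fst h) (by rw [e, e])
    rwa [e] at this

omit [IsManifold 𝓘(ℝ, E) ∞ X] [T2Space X] [CompactSpace X] [BorelSpace X] in
theorem EmbSphere.exists_oc {J : X → E →L[ℝ] E} (hJ : Tame univ c.om J) {u : ℂ → X}
    (h : EmbSphere J u) : ∃ C : OC (Orb.triv c J hJ), C.u = u ∧ C.Emb := by
  obtain ⟨v, hu, hv, uv, inj, v0, du, dv⟩ := h
  have hW : ∀ x, x ∈ (Orb.triv c J hJ).W := fun x => by simp [Orb.W, Orb.triv]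
  refine ⟨⟨u, v, ∅, by simpa [Orb.triv] using hu, fun s _ => hW _,
    ⟨1, one_pos, hv.1.mono (subset_univ _), fun s _ => hv.2 s trivial⟩, hW _, uv, by simp,
    ⟨0, by simp, du 0⟩⟩, rfl, inj.injOn, ?_, fun s _ => du s, dv⟩
  rintro ⟨s, -, e⟩
  exact v0 ⟨s, e⟩

theorem pinwheels (X : Type) [TopologicalSpace X] [ChartedSpace E X] [IsManifold 𝓘(ℝ, E) ∞ X]
    [T2Space X] [CompactSpace X] [SimplyConnectedSpace X] [MeasurableSpace X] [BorelSpace X]
    (om : X → Bil E ℝ) (J : X → E →L[ℝ] E) (μ : Measure X) (κ : ℝ)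
    (hom : Closed om) (hJ : Tame univ om J) (hc : ∀ x v w, om x (J x v) (J x w) = om x v w)
    (hμ : IsVol om μ) (hκ : 0 < κ) (mono : IsChern univ J ((2 * Real.pi * κ) • om))
    (k : ℕ) (e : Fin (k + 1) → X → Bil E ℝ) (he : ∀ i, Closed (e i))
    (span : ∀ α, Closed α → ∃ (c : Fin (k + 1) → ℝ) (a : X → E →L[ℝ] ℝ),
      IsD univ a (α - ∑ i, c i • e i))
    (form : ∀ i j, pair om μ (e i) (e j) = if i = j then if i = 0 then 1 else -1 else 0)
    (r : ℕ) (S : Fin r → ℂ → X) (hS : ∀ i, EmbSphere J (S i))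
    (c1 : ∀ i, κ * per (S i) om = 2 ∨ κ * per (S i) om = 3) (deg : r + 3 ≤ ∑ i, κ * per (S i) om)
    (dual : ∀ α, Closed α → ∑ i, per (S i) α = κ * pair om μ om α)
    (n : ℕ) (L : Fin n → Set X) (hL : ∀ i, Pinwheel om (L i))
    (disj : ∀ i j, i ≠ j → Disjoint (L i) (L j)) : n ≤ (k + 1) + 2 := by
  have hdet : (Matrix.diagonal fun i : Fin (k + 1) => if i = 0 then (1 : ℝ) else -1).det ≠ 0 := by
    rw [Matrix.det_diagonal]
    exact Finset.prod_ne_zero_iff.2 fun i _ => by split_ifs <;> simp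
  let c : Ctx X := ⟨om, μ, κ, k, e, J, hom, hJ, hc, hμ, hκ, mono, he, span, _, hdet,
    fun i j => by rw [form, Matrix.diagonal_apply]⟩
  choose C hC hE using fun i => EmbSphere.exists_oc (c := c) hJ (hS i)
  refine asm_main (c := c) (fun i j => Matrix.diagonal_apply _ i j) C hE (fun i => ?_) ?_ (fun α h => ?_) L hL disj
  · rw [OC.c1, hC]
    exact c1 i
  · simp only [OC.c1, hC]
    exact deg
  · simp only [hC]
    exact dual α h

end Pool.Agent.Lib.MP_1c0d65_gt.PW
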