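import Pool.Agent.Lib.MP_1c0d65_gt.PW.Ex1

/-! Existence of spheres, part 2: the continuity method. -/

set_option autoImplicit false
set_option linter.unusedSectionVars false

open scoped Manifold ContDiff Topology
open Set MeasureTheory Filter Metric

noncomputable section

namespace Pool.Agent.Lib.MP_1c0d65_gt.PW

variable {X : Type} [TopologicalSpace X] [ChartedSpace E X] [MeasurableSpace X] {c : Ctx X}
  {g : (X → Bil E ℝ) → ℝ} {m : ℕ} {B : Set X}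

/-- `g` is a class of square `m` and Chern number `m + 2`. -/
def Ctx.Cl (c : Ctx X) (m : ℕ) (g : (X → Bil E ℝ) → ℝ) : Prop :=
  m ≤ 1 ∧ c.κ * g c.om = m + 2 ∧ ∃ η, c.Dl g η ∧ g η = m

/-- There is a `J`-sphere in the class `g` through the points `p`. -/
def Ctx.Pt (c : Ctx X) (g : (X → Bil E ℝ) → ℝ) (J : X → E →L[ℝ] E) (p : Fin (m + 1) → X) : Prop :=
  ∃ (hJ : Tame univ c.om J) (C : TC c J hJ), (∀ α, Closed α → per C.u α = g α) ∧ ∀ j, p j ∈ C.img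

/-- General tuples. -/
def Ctx.Gen (c : Ctx X) (J : X → E →L[ℝ] E) (p : Fin (m + 1) → X) : Prop :=
  p.Injective ∧ ∀ (hJ : Tame univ c.om J) (C : TC c J hJ), C.Simple →
    (∀ j, p j ∈ C.img → 1 < C.c1) ∧ ((∀ j, p j ∈ C.img) → (m : ℝ) + 1 < C.c1)

lemma Tools.irr (T : Tools c) (h5 : 5 ≤ c.κ * c.κ * c.Q c.om c.om) (hg : c.Cl m g)
    {J : X → E →L[ℝ] E} {hJ : Tame univ c.om J} (C : TC c J hJ)
    (hC : ∀ α, Closed α → per C.u α = g α) :
    ∃ C' : TC c J hJ, C'.Emb ∧ (∀ α, Closed α → per C'.u α = g α) ∧ C'.img = C.img := by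
  obtain ⟨hm, h1, η0, hη0, h2⟩ := hg
  obtain ⟨C', hs, hi, d, hd, hp⟩ := T.simple J hJ C
  have hm' : (m : ℝ) ≤ 1 := by exact_mod_cast hm
  have hd' : (1 : ℝ) ≤ d := by exact_mod_cast hd
  obtain ⟨z, hz, hc⟩ := T.nat J hJ C'
  have hz' : (0 : ℝ) < C'.c1 := by rw [hc]; exact_mod_cast hz
  have e1 : (d : ℝ) * C'.c1 = m + 2 := by
    rw [← h1, ← hC _ c.hom, hp _ c.hom, OC.c1]; ring
  obtain ⟨hE, η, hη, he, -⟩ := T.small h5 C' hs (by nlinarith)
  have e2 : (m : ℝ) = d * (d * (C'.c1 - 2)) := by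
    rw [← h2, ← hC _ hη0.1, hp _ hη0.1, ← hη.2 _ hη0.1, T.symm hη.1 hη0.1, hη0.2 _ hη.1,
      ← hC _ hη.1, hp _ hη.1, he]
  have e3 : ((d : ℝ) - 1) * (m - 2 * d) = 0 := by linear_combination (-1) * e2 - d * e1
  have d1 : (d : ℝ) = 1 := by
    rcases mul_eq_zero.1 e3 with h | h <;> linarith
  exact ⟨C', hE, fun α hα => by rw [← hC _ hα, hp _ hα, d1, one_mul], hi⟩

lemma Tools.opn (T : Tools c) (h5 : 5 ≤ c.κ * c.κ * c.Q c.om c.om) (hg : c.Cl m g) {F}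
    (hF : c.Fam F) (hB : IsOpen B) (hFB : ∀ τ, ∀ x ∈ B, F τ x = c.J0 x) {τ0 : ℝ}
    {p : Fin (m + 1) → X} (hp : p.Injective) (hpB : p 0 ∈ B) (h : c.Pt g (F τ0) p) :
    ∀ᶠ q : ℝ × (Fin (m + 1) → X) in 𝓝 (τ0, p), c.Pt g (F q.1) q.2 := by
  classical
  obtain ⟨hJ, C, hC, hx⟩ := h
  obtain ⟨C1, hE1, hC1, hi1⟩ := T.irr h5 hg C hC
  obtain ⟨w, hw, hw'⟩ := ((C1.infinite hB ⟨p 0, hi1 ▸ hx 0, hpB⟩).image
    (TC.inj hE1).injOn).exists_notMem_finite (finite_range p)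
  obtain ⟨C2, hi2, hv, hE2, hC2⟩ := T.reparam _ hJ C1 w (by
    rw [TC.img_eq]; exact Or.inl (image_subset_range _ _ hw)) hE1
  have hs : ∀ j, ∃ s, C2.u s = p j := fun j => by
    have h1 : p j ∈ C2.img := by rw [hi2, hi1]; exact hx j
    rw [TC.img_eq] at h1
    rcases h1 with h1 | h1
    · exact h1
    · exact (hw' ⟨j, (mem_singleton_iff.1 h1).trans hv⟩).elim
  choose s hs using hs
  have hc : C2.c1 = m + 2 := by rw [OC.c1, hC2 _ c.hom, hC1 _ c.hom, hg.2.1]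
  have H := T.ift F hF τ0 C2 hE2 B hB (by
    obtain ⟨a, ha, rfl⟩ := hw
    rwa [hv]) hFB m hg.1 hc s fun i j hij => hp (by rw [← hs, ← hs, hij])
  rw [show (fun j => C2.u (s j)) = p from funext hs] at H
  filter_upwards [H] with q ⟨C', h1, h2⟩
  exact ⟨_, C', fun α hα => by rw [h1 _ hα, hC2 _ hα, hC1 _ hα], h2⟩

lemma Tools.cls (T : Tools c) (hg : c.Cl m g) {F} (hF : c.Fam F) {τ : ℕ → ℝ} {τ0 : ℝ}
    (hτ : Tendsto τ atTop (𝓝 τ0)) {x : ℕ → Fin (m + 1) → X} {p : Fin (m + 1) → X}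
    (hx : Tendsto x atTop (𝓝 p)) (h : ∀ n, c.Pt g (F (τ n)) (x n)) (hp : c.Gen (F τ0) p) :
    c.Pt g (F τ0) p := by
  classical
  choose hJ S hS hxS using h
  obtain ⟨r, C, hC, hy⟩ := T.grom F hF τ τ0 hτ S g hS m x p hxS hx
  choose C' hs hi d hd hper using fun i => T.simple _ _ (C i)
  choose z hz hc using fun i => T.nat _ _ (C' i)
  choose i hi' using hy
  have hm := hg.1
  have e1 : ∑ l, d l * z l = m + 2 := by
    have : (∑ l, (d l : ℝ) * z l) = m + 2 := by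
      rw [← hg.2.1, hC _ c.hom, Finset.mul_sum]
      refine Finset.sum_congr rfl fun l _ => ?_
      rw [hper l _ c.hom, ← hc, OC.c1]; ring
    exact_mod_cast this
  have two : ∀ a b, a ≠ b → d a * z a + d b * z b ≤ m + 2 := fun a b hab => by
    rw [← e1, ← Finset.sum_pair (f := fun l => d l * z l) hab]
    exact Finset.sum_le_sum_of_subset (Finset.subset_univ _)
  have le : ∀ a, z a ≤ d a * z a := fun a => Nat.le_mul_of_pos_left _ (hd a)
  have g2 : ∀ j, 2 ≤ z (i j) := fun j => by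
    have := (hp.2 _ (C' (i j)) (hs _)).1 j (by rw [hi]; exact hi' j)
    rw [hc] at this
    exact_mod_cast this
  have same : ∀ j, i j = i 0 := fun j => by
    by_contra hne
    have := two _ _ hne
    have := le (i j); have := le (i 0); have := g2 j; have := g2 0
    omega
  have big : m + 2 ≤ z (i 0) := by
    have := (hp.2 _ (C' (i 0)) (hs _)).2 fun j => by rw [hi, ← same j]; exact hi' j
    rw [hc] at this
    have h2 : m + 1 < z (i 0) := by exact_mod_cast this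
    omega
  have only : ∀ l, l = i 0 := fun l => by
    by_contra hne
    have := two _ _ hne
    have := le l; have := le (i 0); have := hz l
    omega
  refine ⟨_, C (i 0), fun α hα => ?_, fun j => by rw [← same j]; exact hi' j⟩
  rw [hC _ hα, Finset.sum_eq_single (i 0) (fun l _ hl => (hl (only l)).elim) (by simp)]

lemma Tools.move [FirstCountableTopology X] (T : Tools c)
    (h5 : 5 ≤ c.κ * c.κ * c.Q c.om c.om) (hg : c.Cl m g) {F} (hF : c.Fam F) (hB : IsOpen B)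
    (hB' : IsPreconnected B) (hFB : ∀ τ, ∀ x ∈ B, F τ x = c.J0 x) {τ : ℝ}
    {γ : X → Fin (m + 1) → X} (hγ : Continuous γ) (hγB : ∀ x ∈ B, γ x 0 ∈ B)
    (hG : Thn {x | ¬ c.Gen (F τ) (γ x)}) {a b : X} (haB : a ∈ B) (hbB : b ∈ B)
    (ha : c.Gen (F τ) (γ a)) (hb : c.Gen (F τ) (γ b)) (h : c.Pt g (F τ) (γ a)) :
    c.Pt g (F τ) (γ b) := by
  have op : ∀ x ∈ B, c.Gen (F τ) (γ x) → c.Pt g (F τ) (γ x) →
      x ∈ interior {x | c.Pt g (F τ) (γ x)} := fun x h0 h1 h2 =>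
    mem_interior_iff_mem_nhds.2 (((continuous_const.prodMk hγ).tendsto x).eventually
      (T.opn h5 hg hF hB hFB h1.1 (hγB x h0) h2))
  have H := (T.conn _ B hG hB hB').subset_of_closure_inter_subset
    (u := interior {x | c.Pt g (F τ) (γ x)})
    isOpen_interior ⟨a, ⟨haB, fun h => h ha⟩, op a haB ha h⟩ (by
      rintro x ⟨h1, h0, h2⟩
      have h3 : c.Gen (F τ) (γ x) := by simpa using h2
      obtain ⟨y, hy, hl⟩ := mem_closure_iff_seq_limit.1 h1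
      exact op x h0 h3 (T.cls hg hF (τ := fun _ => τ) tendsto_const_nhds ((hγ.tendsto x).comp hl)
        (fun n => interior_subset (s := {x | c.Pt g (F τ) (γ x)}) (hy n)) h3))
  exact interior_subset (s := {x | c.Pt g (F τ) (γ x)}) (H ⟨hbB, fun h => h hb⟩)

/-- The union of the exceptional spheres. -/
def Ctx.B1 (c : Ctx X) (J : X → E →L[ℝ] E) : Set X :=
  {x | ∃ (hJ : Tame univ c.om J) (C : TC c J hJ), C.Simple ∧ C.c1 ≤ 1 ∧ x ∈ C.img}

lemma Tools.b1 (T : Tools c) (h5 : 5 ≤ c.κ * c.κ * c.Q c.om c.om) (J : X → E →L[ℝ] E) :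
    Thn (c.B1 J) :=
  (T.bad h5 J ∅ (by simp)).mono fun x ⟨hJ, C, h1, h2, h3⟩ => ⟨hJ, C, h1, by simpa, by simp, h3⟩

lemma Ctx.Gen.b1 {J : X → E →L[ℝ] E} {p : Fin (m + 1) → X} (h : c.Gen J p) (j) :
    p j ∉ c.B1 J := fun ⟨hJ, C, h1, h2, h3⟩ => ((h.2 hJ C h1).1 j h3).not_ge h2

lemma Tools.thn0 (T : Tools c) (h5 : 5 ≤ c.κ * c.κ * c.Q c.om c.om) (J : X → E →L[ℝ] E) :
    Thn {x | ¬ c.Gen (m := 0) J fun _ => x} := by
  refine (T.b1 h5 J).mono fun x hx => ?_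
  by_contra hn
  refine hx ⟨fun i j _ => Subsingleton.elim (α := Fin 1) i j, fun hJ C hs => ?_⟩
  have : x ∈ C.img → 1 < C.c1 := fun h => lt_of_not_ge fun h' => hn ⟨hJ, C, hs, h', h⟩
  exact ⟨fun _ => this, fun h => by simpa using this (h 0)⟩

lemma Ctx.Gen.swap {J : X → E →L[ℝ] E} {a b : X} (h : c.Gen (m := 1) J ![a, b]) :
    c.Gen (m := 1) J ![b, a] := by
  have hab : a ≠ b := fun e => by simpa using h.1 (a₁ := 0) (a₂ := 1) (by simpa using e)
  refine ⟨fun i j hij => ?_, fun hJ C hs => ⟨fun j hj => ?_, fun hj => (h.2 hJ C hs).2 fun j => ?_⟩⟩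
  · fin_cases i <;> fin_cases j <;> simp_all
  · fin_cases j
    · exact (h.2 hJ C hs).1 1 hj
    · exact (h.2 hJ C hs).1 0 hj
  · fin_cases j
    · exact hj 1
    · exact hj 0

lemma Tools.thn1 (T : Tools c) (h5 : 5 ≤ c.κ * c.κ * c.Q c.om c.om) {J : X → E →L[ℝ] E} {a : X}
    (ha : a ∉ c.B1 J) : Thn {x | ¬ c.Gen (m := 1) J ![a, x]} := by
  refine (((T.b1 h5 J).union (Thn.single a)).union (T.bad h5 J {a} (by simp))).mono fun x hx => ?_
  by_contra hn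
  simp only [mem_union, not_or, mem_singleton_iff] at hn
  refine hx ⟨fun i j hij => ?_, fun hJ C hs => ⟨fun j hj => ?_, fun hj => ?_⟩⟩
  · have := hn.1.2
    fin_cases i <;> fin_cases j <;> simp_all
  · fin_cases j
    · exact lt_of_not_ge fun h' => ha ⟨hJ, C, hs, h', hj⟩
    · exact lt_of_not_ge fun h' => hn.1.1 ⟨hJ, C, hs, h', hj⟩
  · refine lt_of_not_ge fun h' => hn.2 ⟨hJ, C, hs, by simpa using h', fun y hy => ?_, hj 1⟩
    rw [Finset.mem_singleton.1 hy]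
    exact hj 0

lemma Tools.dense (T : Tools c) (h5 : 5 ≤ c.κ * c.κ * c.Q c.om c.om) (hm : m ≤ 1)
    (J : ℕ → X → E →L[ℝ] E) : Dense {p : Fin (m + 1) → X | ∀ n, c.Gen (J n) p} := by
  refine dense_iff_inter_open.2 fun U hU ⟨y, hy⟩ => ?_
  obtain rfl | rfl : m = 0 ∨ m = 1 := by omega
  · obtain ⟨a, h1, h2⟩ := (T.dns _ (Thn.iUnion fun n => T.thn0 h5 (J n))).inter_open_nonempty
      ((fun x (_ : Fin 1) => x) ⁻¹' U) (hU.preimage (by fun_prop))
      ⟨y 0, by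
        have : (fun _ : Fin 1 => y 0) = y := funext fun i => by rw [Subsingleton.elim i 0]
        simpa [this] using hy⟩
    exact ⟨_, h1, by simpa using h2⟩
  · obtain ⟨a, h1, h2⟩ := (T.dns _ (Thn.iUnion fun n => T.b1 h5 (J n))).inter_open_nonempty
      ((fun x => ![x, y 1]) ⁻¹' U) (hU.preimage (by fun_prop))
      ⟨y 0, by
        have : ![y 0, y 1] = y := funext fun i => by fin_cases i <;> rfl
        simpa [this] using hy⟩
    have h3 : ∀ n, a ∉ c.B1 (J n) := by simpa using h2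
    obtain ⟨b, h4, h6⟩ := (T.dns _ (Thn.iUnion fun n => T.thn1 h5 (h3 n))).inter_open_nonempty
      ((fun x => ![a, x]) ⁻¹' U) (hU.preimage (by fun_prop)) ⟨y 1, h1⟩
    exact ⟨_, h4, by simpa using h6⟩

lemma ex_open_tuples (hB : IsOpen B) : IsOpen {p : Fin (m + 1) → X | ∀ j, p j ∈ B} := by
  rw [ofPred_forall]
  exact isOpen_iInter_of_finite fun j => hB.preimage (continuous_apply j)

/-- One sphere gives a sphere through every general tuple. -/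
lemma Tools.all [FirstCountableTopology X] (T : Tools c) (h5 : 5 ≤ c.κ * c.κ * c.Q c.om c.om)
    (hg : c.Cl m g) {F} (hF : c.Fam F) (hB : IsOpen B) (hB' : IsPreconnected B)
    (hFB : ∀ τ, ∀ x ∈ B, F τ x = c.J0 x) {τ : ℝ} {p q : Fin (m + 1) → X} (hp : p.Injective)
    (hpB : ∀ j, p j ∈ B) (h : c.Pt g (F τ) p) (hq : c.Gen (F τ) q) (hqB : ∀ j, q j ∈ B) :
    c.Pt g (F τ) q := by
  have h1 : ∀ᶠ x in 𝓝 p, c.Pt g (F τ) x := ((continuous_const.prodMk continuous_id).tendsto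
    p).eventually (T.opn h5 hg hF hB hFB hp (hpB 0) h)
  obtain ⟨y, ⟨hy, hyB⟩, hy'⟩ := mem_closure_iff_nhds.1 (T.dense h5 hg.1 (fun _ => F τ) p) _
    (h1.and ((ex_open_tuples hB).mem_nhds hpB))
  replace hy' : c.Gen (F τ) y := hy' 0
  have hm := hg.1
  obtain rfl | rfl : m = 0 ∨ m = 1 := by omega
  · have e : ∀ y : Fin 1 → X, (fun _ : Fin 1 => y 0) = y := fun y =>
      funext fun i => by rw [Subsingleton.elim i 0]
    rw [← e q] at hq ⊢
    rw [← e y] at hy hy'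
    exact T.move h5 hg hF hB hB' hFB (γ := fun x _ => x) (by fun_prop) (fun _ h => h)
      (T.thn0 h5 _) (hyB 0) (hqB 0) hy' hq hy
  · have e : ∀ y : Fin 2 → X, ![y 0, y 1] = y := fun y => funext fun i => by fin_cases i <;> rfl
    have ha := T.thn1 h5 (hy'.b1 0)
    have hb := T.thn1 h5 (hq.b1 0)
    obtain ⟨w, hwB, hw⟩ := (T.dns _ (ha.union hb)).inter_open_nonempty B hB ⟨_, hqB 0⟩
    have hw' : c.Gen (m := 1) (F τ) ![y 0, w] ∧ c.Gen (m := 1) (F τ) ![q 0, w] := by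
      simpa using hw
    have s1 : c.Pt (m := 1) g (F τ) ![y 0, w] :=
      T.move h5 hg hF hB hB' hFB (γ := fun x => ![y 0, x]) (by fun_prop) (fun _ _ => hyB 0) ha
        (hyB 1) hwB (by rwa [e]) hw'.1 (by rwa [e])
    have s2 : c.Pt (m := 1) g (F τ) ![q 0, w] :=
      T.move h5 hg hF hB hB' hFB (γ := fun x => ![x, w]) (by fun_prop) (fun _ h => h)
        ((T.thn1 h5 (hw'.1.b1 1)).mono fun x hx h => hx (Ctx.Gen.swap h)) (hyB 0) (hqB 0)
        hw'.1 hw'.2 s1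
    rw [← e q]
    exact T.move h5 hg hF hB hB' hFB (γ := fun x => ![q 0, x]) (by fun_prop) (fun _ _ => hqB 0) hb
      hwB (hqB 1) hw'.2 (by rwa [e]) s2

theorem Tools.exist [FirstCountableTopology X] (T : Tools c) (S : OC (Orb.triv c c.J0 c.tame0))
    (hS : S.Emb) (m : ℕ) (hm : m ≤ 1) (hc : S.c1 = m + 2)
    (h5 : 5 ≤ c.κ * c.κ * c.Q c.om c.om) {J : X → E →L[ℝ] E} (hJ : Tame univ c.om J)
    (B : Set X) (hB : IsOpen B) (hB' : IsPreconnected B) (hSB : (S.img ∩ B).Nonempty)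
    (hJB : ∀ x ∈ B, J x = c.J0 x) : ∃ G : Set (Fin (m + 1) → X), Dense G ∧ ∀ p ∈ G,
      (∀ j, p j ∈ B) → ∃ C : OC (Orb.triv c J hJ), C.Emb ∧
      (∀ α, Closed α → per C.u α = per S.u α) ∧ ∀ j, p j ∈ C.img := by
  have hm' : (m : ℝ) ≤ 1 := by exact_mod_cast hm
  have hg : c.Cl m (per S.u) := by
    obtain ⟨-, η, hη, he, -⟩ := T.small h5 S hS.simple (by linarith)
    exact ⟨hm, hc, η, hη, by rw [he, hc]; ring⟩
  obtain ⟨F, hF, h0, h1, h2⟩ := T.path J hJ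
  have hFB : ∀ τ, ∀ x ∈ B, F τ x = c.J0 x := fun τ x hx => h2 x (hJB x hx) τ
  let A : Set ℝ := {τ | ∃ p : Fin (m + 1) → X, p.Injective ∧ (∀ j, p j ∈ B) ∧
    c.Pt (per S.u) (F τ) p}
  have hA0 : (0 : ℝ) ∈ A := by
    let e := (TC.infinite S hB hSB).natEmbedding
    refine ⟨fun j => S.u (e j), fun i j hij => Fin.ext (e.injective (Subtype.ext
      (TC.inj hS hij))), fun j => (e j).2, ?_⟩
    rw [h0]
    exact ⟨_, S, fun _ _ => rfl, fun j => by rw [TC.img_eq]; exact Or.inl ⟨_, rfl⟩⟩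
  have hAo : IsOpen A := isOpen_iff_mem_nhds.2 fun τ ⟨p, hp, hpB, h⟩ => by
    filter_upwards [((continuous_id.prodMk continuous_const).tendsto τ).eventually
      (T.opn h5 hg hF hB hFB hp (hpB 0) h)] with τ' h' using ⟨p, hp, hpB, h'⟩
  have hAc : IsClosed A := isSeqClosed_iff_isClosed.1 fun τ τ0 hτ hl => by
    obtain ⟨x, -, hx⟩ := hSB
    obtain ⟨q, hqB, hq⟩ := (T.dense h5 hm fun n => F (Nat.casesOn n τ0 τ)).inter_open_nonempty _
      (ex_open_tuples hB) ⟨fun _ => x, fun _ => hx⟩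
    refine ⟨q, (hq 0).1, hqB,
      T.cls hg hF hl (x := fun _ => q) tendsto_const_nhds (fun n => ?_) (hq 0)⟩
    obtain ⟨p, hp, hpB, h⟩ := hτ n
    exact T.all h5 hg hF hB hB' hFB hp hpB h (hq (n + 1)) hqB
  obtain ⟨p, hp, hpB, h⟩ : (1 : ℝ) ∈ A := by
    rw [IsClopen.eq_univ ⟨hAc, hAo⟩ ⟨0, hA0⟩]; trivial
  refine ⟨_, T.dense h5 hm fun _ => F 1, fun q hq hqB => ?_⟩
  have H := T.all h5 hg hF hB hB' hFB hp hpB h (hq 0) hqB
  rw [h1] at H
  obtain ⟨_, C, hC, hx⟩ := H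
  obtain ⟨C', e1, e2, e3⟩ := T.irr h5 hg C hC
  exact ⟨C', e1, e2, fun j => by rw [e3]; exact hx j⟩

end Pool.Agent.Lib.MP_1c0d65_gt.PW
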