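import Pool.Agent.Lib.MP_1c0d65_gt.PW.Asm
import Pool.Agent.Lib.MP_1c0d65_gt.Pi.Geo

/-! The bound for connected manifolds: simple connectivity follows from the spheres. -/

set_option autoImplicit false

open scoped Manifold ContDiff Topology
open Set MeasureTheory

noncomputable section

namespace Pool.Agent.Lib.MP_1c0d65_gt.PW

theorem asm_conn {X : Type} [TopologicalSpace X] [ChartedSpace E X] [IsManifold 𝓘(ℝ, E) ∞ X]
    [T2Space X] [CompactSpace X] [MeasurableSpace X] [BorelSpace X] [ConnectedSpace X]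
    {c : Ctx X} (hLo : c.Lor) {r : ℕ} (S : Fin r → OC (Orb.triv c c.J0 c.tame0))
    (hS : ∀ i, (S i).Emb) (c1 : ∀ i, (S i).c1 = 2 ∨ (S i).c1 = 3)
    (deg : r + 3 ≤ ∑ i, (S i).c1)
    (dual : ∀ α, Closed α → ∑ i, per (S i).u α = c.κ * c.Q c.om α)
    {n : ℕ} (L : Fin n → Set X) (hL : ∀ i, Pinwheel c.om (L i))
    (disj : ∀ i j, i ≠ j → Disjoint (L i) (L j)) : n ≤ (c.k + 1) + 2 :=
  haveI := (tools c hLo).simplyConnected S hS c1 deg dual
  asm_main hLo S hS c1 deg dual L hL disj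

theorem pinwheelsC (X : Type) [TopologicalSpace X] [ChartedSpace E X] [IsManifold 𝓘(ℝ, E) ∞ X]
    [T2Space X] [CompactSpace X] [ConnectedSpace X] [MeasurableSpace X] [BorelSpace X]
    (om : X → Bil E ℝ) (J : X → E →L[ℝ] E) (μ : Measure X) (κ : ℝ)
    (hom : Closed om) (hJ : Tame univ om J) (hc : ∀ x v w, om x (J x v) (J x w) = om x v w)
    (hμ : IsVol om μ) (hκ : 0 < κ) (mono : IsChern univ J ((2 * Real.pi * κ) • om))
    (k : ℕ) (e : Fin (k + 1) → X → Bil E ℝ) (he : ∀ i, Closed (e i))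
    (span : ∀ α, Closed α → ∃ (c : Fin (k + 1) → ℝ) (a : X → E →L[ℝ] ℝ),
      IsD univ a (α - ∑ i, c i • e i))
    (form : ∀ i j, pair om μ (e i) (e j) = if i = j then if i = 0 then 1 else -1 else 0)
    (r : ℕ) (S : Fin r → ℂ → X) (hS : ∀ i, EmbSphere J (S i))
    (c1 : ∀ i, κ * per (S i) om = 2 ∨ κ * per (S i) om = 3) (deg : r + 3 ≤ ∑ i, κ * per (S i) om)
    (dual : ∀ α, Closed α → ∑ i, per (S i) α = κ * pair om μ om α)
    (n : ℕ) (L : Fin n → Set X) (hL : ∀ i, Pinwheel om (L i))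
    (disj : ∀ i j, i ≠ j → Disjoint (L i) (L j)) : n ≤ (k + 1) + 2 := by
  have hdet : (Matrix.diagonal fun i : Fin (k + 1) => if i = 0 then (1 : ℝ) else -1).det ≠ 0 := by
    rw [Matrix.det_diagonal]
    exact Finset.prod_ne_zero_iff.2 fun i _ => by split_ifs <;> simp
  let c : Ctx X := ⟨om, μ, κ, k, e, J, hom, hJ, hc, hμ, hκ, mono, he, span, _, hdet,
    fun i j => by rw [form, Matrix.diagonal_apply]⟩
  choose C hC hE using fun i => EmbSphere.exists_oc (c := c) hJ (hS i)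
  refine asm_conn (c := c) (fun i j => Matrix.diagonal_apply _ i j) C hE (fun i => ?_) ?_
    (fun α h => ?_) L hL disj
  · rw [OC.c1, hC]
    exact c1 i
  · simp only [OC.c1, hC]
    exact deg
  · simp only [hC]
    exact dual α h

end Pool.Agent.Lib.MP_1c0d65_gt.PW
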