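import Pool.Agent.Lib.MP_1c0d65_gt.PW.Int

/-! Definitions for the assembly: the Lorentz form, simple curves with data, general points. -/

set_option autoImplicit false

open scoped Manifold ContDiff Topology
open Set MeasureTheory Filter Metric

noncomputable section

namespace Pool.Agent.Lib.MP_1c0d65_gt.PW

/-- The form `diag (1, -1, ..., -1)`. -/
def lor {k : ℕ} (x y : Fin (k + 1) → ℝ) : ℝ := ∑ i, (if i = 0 then 1 else -1) * x i * y i

theorem lor_comm {k : ℕ} (x y : Fin (k + 1) → ℝ) : lor x y = lor y x :=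
  Finset.sum_congr rfl fun i _ => by ring

variable {X : Type} [TopologicalSpace X] [ChartedSpace E X] [MeasurableSpace X] {c : Ctx X}
  {O : Orb c}

/-- A simple curve with a dual form and its monodromies. -/
structure SC (O : Orb c) where
  C : OC O
  simple : C.Simple
  η : X → Bil E ℝ
  dual : C.Dual η
  id : C.F → Fin O.n
  j : C.F → ℕ
  mon : C.Mon id j

/-- The corrected square. -/
def SC.sq (S : SC O) : ℝ := per S.C.u S.η - ∑ s, ∑ s', if S.id s = S.id s' then
  mn (O.N (S.id s)) (O.a (S.id s)) (S.j s) (S.j s') else 0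

/-- A finite set of points is general if a simple curve holds at most `sq + 1` of them. -/
def Gen (O : Orb c) (T : Finset X) : Prop :=
  ∀ (S : SC O) (I : Finset X), I ⊆ T → (∀ y ∈ I, y ∈ S.C.img) → I = ∅ ∨ (I.card : ℝ) ≤ S.sq + 1

theorem Gen.empty : Gen O ∅ := fun _ _ h _ => Or.inl (Finset.subset_empty.1 h)

theorem Gen.mono {T T' : Finset X} (h : Gen O T) (h' : T' ⊆ T) : Gen O T' :=
  fun S I hI => h S I (hI.trans h')

theorem OC.img_subset (C : OC O) : C.img ⊆ O.W := by
  rintro _ (⟨s, hs, rfl⟩ | rfl)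
  · exact C.mu hs
  · exact C.v0

end Pool.Agent.Lib.MP_1c0d65_gt.PW
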