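import Pool.Agent.Lib.MP_1c0d65_gt.PW.AsmDef

/-! The Lorentz form as a bilinear form, and the Hodge index theorem for it. -/

set_option autoImplicit false

noncomputable section

namespace Pool.Agent.Lib.MP_1c0d65_gt.PW

/-- The Lorentz form as a bilinear form. -/
def lorB (k : ℕ) : LinearMap.BilinForm ℝ (Fin (k + 1) → ℝ) :=
  LinearMap.mk₂ ℝ lor
    (fun x y z => by simp only [lor, Pi.add_apply, mul_add, add_mul, Finset.sum_add_distrib])
    (fun t x y => by
      simp only [lor, Pi.smul_apply, smul_eq_mul, Finset.mul_sum]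
      exact Finset.sum_congr rfl fun i _ => by ring)
    (fun x y z => by simp only [lor, Pi.add_apply, mul_add, Finset.sum_add_distrib])
    (fun t x y => by
      simp only [lor, Pi.smul_apply, smul_eq_mul, Finset.mul_sum]
      exact Finset.sum_congr rfl fun i _ => by ring)

theorem lorB_apply {k : ℕ} (x y : Fin (k + 1) → ℝ) : lorB k x y = lor x y := rfl

theorem lor_eq {k : ℕ} (x y : Fin (k + 1) → ℝ) :
    lor x y = x 0 * y 0 - ∑ i : Fin k, x i.succ * y i.succ := by
  simp [lor, Fin.sum_univ_succ, Fin.succ_ne_zero, sub_eq_add_neg]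

theorem lor_hodge {k : ℕ} (x y : Fin (k + 1) → ℝ) (hx : 0 < lor x x) (hxy : lor x y = 0)
    (hy : y ≠ 0) : lor y y < 0 := by
  rw [lor_eq] at hx hxy ⊢
  have cs := Finset.sum_mul_sq_le_sq_mul_sq Finset.univ (fun i : Fin k => x i.succ)
    fun i : Fin k => y i.succ
  simp only [sq] at cs
  set a := ∑ i : Fin k, x i.succ * x i.succ
  set b := ∑ i : Fin k, y i.succ * y i.succ with hb
  set d := ∑ i : Fin k, x i.succ * y i.succ with hd
  have ha0 : 0 ≤ a := Finset.sum_nonneg fun i _ => mul_self_nonneg _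
  have hb0 : 0 ≤ b := Finset.sum_nonneg fun i _ => mul_self_nonneg _
  have hx0 : 0 < x 0 * x 0 := by linarith
  rcases hb0.eq_or_lt with e | hb1
  · exfalso
    have h0 : ∀ i : Fin k, y i.succ = 0 := fun i => mul_self_eq_zero.1
      ((Finset.sum_eq_zero_iff_of_nonneg fun i _ => mul_self_nonneg _).1 e.symm i
        (Finset.mem_univ i))
    have hd0 : d = 0 := Finset.sum_eq_zero fun i _ => by rw [h0 i, mul_zero]
    have : y 0 = 0 := by
      rcases mul_eq_zero.1 (show x 0 * y 0 = 0 by linarith) with h | h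
      · rw [h] at hx0
        simp at hx0
      · exact h
    exact hy (funext fun i => Fin.cases this h0 i)
  · have e : x 0 * y 0 = d := by linarith
    have h1 : x 0 * x 0 * (y 0 * y 0) < x 0 * x 0 * b := by
      calc x 0 * x 0 * (y 0 * y 0) = d * d := by rw [← e]; ring
        _ ≤ a * b := cs
        _ < x 0 * x 0 * b := mul_lt_mul_of_pos_right (by linarith) hb1
    have := lt_of_mul_lt_mul_left h1 hx0.le
    linarith

end Pool.Agent.Lib.MP_1c0d65_gt.PW
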