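import Mathlib

/-! Symplectic four-manifolds, pseudoholomorphic spheres and Lagrangian pinwheels. -/

set_option autoImplicit false

open scoped Manifold ContDiff Topology
open Set MeasureTheory

noncomputable section

namespace Pool.Agent.Lib.MP_1c0d65_gt.PW

/-- The model space, real dimension four. A tensor field on `X` is a function of `x : X`, the
tangent space at `x` being identified with `E` by the preferred chart at `x`. -/
abbrev E : Type := ℂ × ℂ

/-- Bilinear maps. -/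
abbrev Bil (V W : Type) [NormedAddCommGroup V] [NormedSpace ℝ V] [NormedAddCommGroup W]
    [NormedSpace ℝ W] : Type := V →L[ℝ] V →L[ℝ] W

variable {X : Type} [TopologicalSpace X] [ChartedSpace E X]
  {V W : Type} [NormedAddCommGroup V] [NormedSpace ℝ V] [NormedAddCommGroup W] [NormedSpace ℝ W]

/-- The differential of a map from a vector space to `X`. -/
def dif (f : V → X) (y : V) : V →L[ℝ] E := mfderiv 𝓘(ℝ, V) 𝓘(ℝ, E) f y

/-- The differential of a function on `X`. -/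
def dfn (g : X → W) (x : X) : E →L[ℝ] W := mfderiv 𝓘(ℝ, E) 𝓘(ℝ, W) g x

/-- Pull-back of a one-form. -/
def pull1 (f : V → X) (a : X → E →L[ℝ] W) (y : V) : V →L[ℝ] W := (a (f y)).comp (dif f y)

/-- Pull-back of a two-form. -/
def pull2 (f : V → X) (α : X → Bil E W) (y : V) : Bil V W :=
  (α (f y)).bilinearComp (dif f y) (dif f y)

/-- Pull-back of a field of endomorphisms along a local diffeomorphism. -/
def pullJ (f : E → X) (J : X → E →L[ℝ] E) (y : E) : E →L[ℝ] E :=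
  (dif f y).inverse.comp ((J (f y)).comp (dif f y))

/-- The parametrisation given by the preferred chart at `x`. -/
def par (x : X) : E → X := (chartAt E x).symm

/-- The part of its domain that is mapped to `U`. -/
def dom (x : X) (U : Set X) : Set E := (chartAt E x).target ∩ par x ⁻¹' U

/-- The exterior derivative of a one-form on a vector space. -/
def ext1 (a : V → V →L[ℝ] W) (y : V) : Bil V W := fderiv ℝ a y - (fderiv ℝ a y).flip

/-- `a` is a smooth one-form on `U` and `d a = α` there. -/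
def IsD (U : Set X) (a : X → E →L[ℝ] ℝ) (α : X → Bil E ℝ) : Prop :=
  ∀ x, ContDiffOn ℝ ∞ (pull1 (par x) a) (dom x U) ∧
    ∀ y ∈ dom x U, pull2 (par x) α y = ext1 (pull1 (par x) a) y

/-- `α` is a smooth two-form on `U`. -/
def Form (U : Set X) (α : X → Bil E W) : Prop :=
  (∀ x ∈ U, ∀ v, α x v v = 0) ∧ ∀ x, ContDiffOn ℝ ∞ (pull2 (par x) α) (dom x U)

/-- The exterior derivative of a two-form on a vector space. -/
def ext2 (α : V → Bil V W) (y a b c : V) : W :=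
  fderiv ℝ α y a b c + fderiv ℝ α y b c a + fderiv ℝ α y c a b

/-- `α` is a smooth closed two-form on `X`. -/
def Closed (α : X → Bil E ℝ) : Prop :=
  Form univ α ∧ ∀ x, ∀ y ∈ dom x univ, ∀ a b c, ext2 (pull2 (par x) α) y a b c = 0

/-- The value of `α ∧ β` on the standard basis. -/
def wedge (α β : Bil E ℝ) : ℝ :=
  α (1, 0) (.I, 0) * β (0, 1) (0, .I) - α (1, 0) (0, 1) * β (.I, 0) (0, .I)
    + α (1, 0) (0, .I) * β (.I, 0) (0, 1) + α (.I, 0) (0, 1) * β (1, 0) (0, .I)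
    - α (.I, 0) (0, .I) * β (1, 0) (0, 1) + α (0, 1) (0, .I) * β (1, 0) (.I, 0)

/-- `μ` is the measure of the volume form `om ∧ om`. -/
def IsVol [MeasurableSpace X] (om : X → Bil E ℝ) (μ : Measure X) : Prop :=
  ∀ x A, MeasurableSet A → A ⊆ dom x univ → μ (par x '' A) =
    ∫⁻ y in A, ENNReal.ofReal |wedge (pull2 (par x) om y) (pull2 (par x) om y)|

/-- The integral of `α ∧ β` over `X`, oriented by `om ∧ om`. -/
def pair [MeasurableSpace X] (om : X → Bil E ℝ) (μ : Measure X) (α β : X → Bil E ℝ) : ℝ :=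
  ∫ x, wedge (α x) (β x) / wedge (om x) (om x) ∂μ

/-- `J` is a smooth almost complex structure on `U` that is tamed by `om`. -/
def Tame (U : Set X) (om : X → Bil E ℝ) (J : X → E →L[ℝ] E) : Prop :=
  (∀ x ∈ U, ∀ v, J x (J x v) = -v ∧ (v ≠ 0 → 0 < om x v (J x v))) ∧
    ∀ x, ContDiffOn ℝ ∞ (pullJ (par x) J) (dom x U)

/-- The form `c` represents `2 π c₁ (TX, J)` on `U₀`: near each point `i` there are a nowhere zero
form `Ω i` of type `(2,0)` and a one-form `a i` with `d (a i) = c`, and `a i - a k = d arg g` where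
`Ω i = g Ω k`. So `c` is the curvature of a unitary connection on the anticanonical bundle. -/
def IsChern (U₀ : Set X) (J : X → E →L[ℝ] E) (c : X → Bil E ℝ) : Prop :=
  ∃ (U : X → Set X) (Ω : X → X → Bil E ℂ) (a : X → X → E →L[ℝ] ℝ) (g : X → X → X → ℂ),
    ∀ i ∈ U₀, IsOpen (U i) ∧ i ∈ U i ∧ U i ⊆ U₀ ∧ Form (U i) (Ω i) ∧ IsD (U i) (a i) c ∧
      (∀ y ∈ U i, Ω i y ≠ 0 ∧ ∀ v w, Ω i y (J y v) w = .I * Ω i y v w) ∧
      ∀ k ∈ U₀, ContMDiffOn 𝓘(ℝ, E) 𝓘(ℝ, ℂ) ∞ (g i k) (U i ∩ U k) ∧ ∀ y ∈ U i ∩ U k,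
        Ω i y = g i k y • Ω k y ∧ ∀ v, a i y v - a k y v = (dfn (g i k) y v / g i k y).im

/-- `u` is smooth and `J`-holomorphic on `S`. -/
def Hol (J : X → E →L[ℝ] E) (u : ℂ → X) (S : Set ℂ) : Prop :=
  ContMDiffOn 𝓘(ℝ, ℂ) 𝓘(ℝ, E) ∞ u S ∧ ∀ s ∈ S, dif u s .I = J (u s) (dif u s 1)

/-- An embedded `J`-holomorphic sphere, read in the two charts `s` and `1 / s` of the sphere. -/
def EmbSphere (J : X → E →L[ℝ] E) (u : ℂ → X) : Prop :=
  ∃ v : ℂ → X, Hol J u univ ∧ Hol J v univ ∧ (∀ s ≠ 0, v s = u s⁻¹) ∧ u.Injective ∧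
    v 0 ∉ range u ∧ (∀ s, dif u s 1 ≠ 0) ∧ dif v 0 1 ≠ 0

/-- The integral of a two-form over the sphere `u`. -/
def per (u : ℂ → X) (α : X → Bil E ℝ) : ℝ := ∫ s, pull2 u α s 1 .I

/-- The space of the smoothing `x y = z ^ p + t`, with `q = ((x, y), z)`. -/
abbrev C3 : Type := E × ℂ

/-- The Milnor fibre `x y = z ^ p + t`. -/
def fib (p : ℕ) (t : ℂ) : Set C3 := {a | a.1.1 * a.1.2 = a.2 ^ p + t}

/-- The union of the `p` Lagrangian thimbles over the segments from `0` to the roots of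
`z ^ p = -1`. -/
def core (p : ℕ) : Set C3 :=
  {a | a ∈ fib p 1 ∧ ‖a.1.1‖ = ‖a.1.2‖ ∧ (a.2 ^ p).im = 0 ∧ (a.2 ^ p).re ∈ Icc (-1 : ℝ) 0}

/-- The action of a root of unity. -/
def act (q : ℕ) (ζ : ℂ) (a : C3) : C3 := ((ζ * a.1.1, ζ⁻¹ * a.1.2), ζ ^ q * a.2)

/-- The standard symplectic form. -/
def std (v w : C3) : ℝ :=
  (star v.1.1 * w.1.1 + star v.1.2 * w.1.2 + star v.2 * w.2).im

/-- `L` is a Lagrangian pinwheel: the image of the core of the rational homology ball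
`B_{p,q} = {x y = z ^ p + 1} / μ_p` under a symplectic embedding (up to a scale `c`) of a
neighbourhood of the core. The embedding is given by a map `Φ` upstairs. -/
def Pinwheel (om : X → Bil E ℝ) (L : Set X) : Prop :=
  ∃ (p q : ℕ) (c : ℝ) (U : Set C3) (Φ : C3 → X), 2 ≤ p ∧ p.Coprime q ∧ 0 < c ∧ IsOpen U ∧
    core p ⊆ U ∧ ContMDiffOn 𝓘(ℝ, C3) 𝓘(ℝ, E) ∞ Φ U ∧ L = Φ '' core p ∧
    (∀ a ∈ U ∩ fib p 1, ∀ b ∈ U ∩ fib p 1, Φ a = Φ b ↔ ∃ ζ, ζ ^ p = 1 ∧ b = act q ζ a) ∧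
    ∀ a ∈ U ∩ fib p 1, ∀ v w : C3,
      a.1.2 * v.1.1 + a.1.1 * v.1.2 = p * a.2 ^ (p - 1) * v.2 →
      a.1.2 * w.1.1 + a.1.1 * w.1.2 = p * a.2 ^ (p - 1) * w.2 → pull2 Φ om a v w = c * std v w

end Pool.Agent.Lib.MP_1c0d65_gt.PW
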