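import Pool.Agent.Lib.MP_1c0d65_gt.PW.Int

/-! Existence of spheres, part 1: the tools, and the numerics of curves of small Chern number. -/

set_option autoImplicit false
set_option linter.unusedSectionVars false

open scoped Manifold ContDiff Topology
open Set MeasureTheory Filter Metric

noncomputable section

namespace Pool.Agent.Lib.MP_1c0d65_gt.PW

variable {X : Type} [TopologicalSpace X] [ChartedSpace E X] [MeasurableSpace X] {c : Ctx X}

/-- Spheres in `X` itself. -/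
abbrev TC (c : Ctx X) (J : X → E →L[ℝ] E) (hJ : Tame univ c.om J) := OC (Orb.triv c J hJ)

/-- `η` is dual to the functional `g`. -/
def Ctx.Dl (c : Ctx X) (g : (X → Bil E ℝ) → ℝ) (η : X → Bil E ℝ) : Prop :=
  Closed η ∧ ∀ α, Closed α → c.Q η α = g α

/-- Sets covered by countably many smooth surfaces. -/
def Thn (B : Set X) : Prop := ∃ T : Set (ℂ → X), T.Countable ∧
  (∀ u ∈ T, ContMDiff 𝓘(ℝ, ℂ) 𝓘(ℝ, E) ∞ u) ∧ B ⊆ ⋃ u ∈ T, range u

/-- What the continuity method uses from the other packages. -/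
structure Tools (c : Ctx X) : Prop where
  co : ∃ co : (X → Bil E ℝ) → Fin (c.k + 1) → ℝ, ∀ α β, Closed α → Closed β →
    c.Q α β = ∑ i, (if i = 0 then 1 else -1) * co α i * co β i
  path : ∀ J, Tame univ c.om J → ∃ F, c.Fam F ∧ F 0 = c.J0 ∧ F 1 = J ∧
    ∀ x, J x = c.J0 x → ∀ τ, F τ x = c.J0 x
  dns : ∀ A : Set X, Thn A → Dense Aᶜ
  conn : ∀ A B : Set X, Thn A → IsOpen B → IsPreconnected B → IsPreconnected (B \ A)
  nat : ∀ J hJ (C : TC c J hJ), ∃ z : ℕ, 0 < z ∧ C.c1 = z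
  reparam : ∀ J hJ (C : TC c J hJ), ∀ x ∈ C.img, C.Emb → ∃ C' : TC c J hJ, C'.img = C.img ∧
    C'.v 0 = x ∧ C'.Emb ∧ ∀ α, Closed α → per C'.u α = per C.u α
  simple : ∀ J hJ (C : TC c J hJ), ∃ C' : TC c J hJ, C'.Simple ∧ C'.img = C.img ∧
    ∃ d : ℕ, 0 < d ∧ ∀ α, Closed α → per C.u α = d * per C'.u α
  same : ∀ J hJ (C C' : TC c J hJ), C'.Simple → C.img ⊆ C'.img → C.img = C'.img
  int : ∀ J hJ (C : TC c J hJ), C.Simple → ∃ η, c.Dl (per C.u) η ∧
    (∃ k : ℕ, per C.u η - C.c1 + 2 = k ∧ k ≠ 1 ∧ (k = 0 ↔ C.Emb)) ∧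
    ∀ C' : TC c J hJ, C'.Simple → ¬ C'.img ⊆ C.img → ∀ T : Finset X,
      (∀ x ∈ T, x ∈ C.img ∧ x ∈ C'.img) → (T.card : ℝ) ≤ per C'.u η
  grom : ∀ F (hF : c.Fam F) (τ : ℕ → ℝ) (τ0 : ℝ), Tendsto τ atTop (𝓝 τ0) →
    ∀ (S : ∀ n, TC c (F (τ n)) (hF.1 _)) (g : (X → Bil E ℝ) → ℝ),
    (∀ n α, Closed α → per (S n).u α = g α) → ∀ (r : ℕ) (x : ℕ → Fin (r + 1) → X) (y),
    (∀ n j, x n j ∈ (S n).img) → Tendsto x atTop (𝓝 y) →
    ∃ (m : ℕ) (C : Fin m → TC c (F τ0) (hF.1 _)), (∀ α, Closed α → g α = ∑ i, per (C i).u α) ∧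
      ∀ j, ∃ i, y j ∈ (C i).img
  ift : ∀ F (hF : c.Fam F) (τ0 : ℝ) (C : TC c (F τ0) (hF.1 τ0)), C.Emb → ∀ B : Set X, IsOpen B →
    C.v 0 ∈ B → (∀ τ, ∀ x ∈ B, F τ x = c.J0 x) → ∀ m : ℕ, m ≤ 1 →
    C.c1 = m + 2 → ∀ s : Fin (m + 1) → ℂ, s.Injective →
    ∀ᶠ p : ℝ × (Fin (m + 1) → X) in 𝓝 (τ0, fun j => C.u (s j)),
      ∃ C' : TC c (F p.1) (hF.1 p.1), (∀ α, Closed α → per C'.u α = per C.u α) ∧
        ∀ j, p.2 j ∈ C'.img

lemma ex_lor_eq {k : ℕ} (a b : Fin (k + 1) → ℝ) :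
    ∑ i, (if i = 0 then 1 else -1) * a i * b i = a 0 * b 0 - ∑ i : Fin k, a i.succ * b i.succ := by
  rw [Fin.sum_univ_succ, sub_eq_add_neg, ← Finset.sum_neg_distrib]
  simp [Fin.succ_ne_zero]

lemma ex_lor_hodge {k : ℕ} (a b : Fin (k + 1) → ℝ)
    (hb : 0 < ∑ i, (if i = 0 then 1 else -1) * b i * b i) :
    (∑ i, (if i = 0 then 1 else -1) * a i * a i) * (∑ i, (if i = 0 then 1 else -1) * b i * b i) ≤
      (∑ i, (if i = 0 then 1 else -1) * a i * b i) ^ 2 := by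
  rw [ex_lor_eq] at hb
  rw [ex_lor_eq, ex_lor_eq, ex_lor_eq]
  have hB : 0 ≤ ∑ i : Fin k, b i.succ * b i.succ := Finset.sum_nonneg fun i _ => mul_self_nonneg _
  have h0 : b 0 ≠ 0 := by
    intro h; rw [h] at hb; linarith
  obtain ⟨t, ht⟩ : ∃ t, a 0 = t * b 0 := ⟨a 0 / b 0, by field_simp⟩
  have h1 : 0 ≤ ∑ i : Fin k, (a i.succ - t * b i.succ) ^ 2 :=
    Finset.sum_nonneg fun i _ => sq_nonneg _
  have h2 : ∑ i : Fin k, (a i.succ - t * b i.succ) ^ 2 = ∑ i : Fin k, a i.succ * a i.succ -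
      2 * t * ∑ i : Fin k, a i.succ * b i.succ + t ^ 2 * ∑ i : Fin k, b i.succ * b i.succ := by
    rw [Finset.mul_sum, Finset.mul_sum, ← Finset.sum_sub_distrib, ← Finset.sum_add_distrib]
    exact Finset.sum_congr rfl fun i _ => by ring
  rw [h2] at h1
  rw [ht]
  generalize ∑ i : Fin k, a i.succ * a i.succ = A at *
  generalize ∑ i : Fin k, b i.succ * b i.succ = B at *
  generalize ∑ i : Fin k, a i.succ * b i.succ = P at *
  nlinarith [mul_nonneg h1 hb.le, sq_nonneg (t * b 0 * b 0 - P - t * (b 0 * b 0 - B))]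

lemma ex_lor_sep {k : ℕ} (a b : Fin (k + 1) → ℝ)
    (h : 2 ≤ 2 * (∑ i, (if i = 0 then 1 else -1) * a i * b i) -
      (∑ i, (if i = 0 then 1 else -1) * a i * a i) - ∑ i, (if i = 0 then 1 else -1) * b i * b i) :
    1 / ((k : ℝ) + 1) ≤ dist a b := by
  by_contra hlt
  push Not at hlt
  have hk : (0 : ℝ) < k + 1 := by positivity
  have h1 : ∀ i, (a i - b i) ^ 2 ≤ 1 / ((k : ℝ) + 1) := fun i => by
    have h2 : |a i - b i| ≤ 1 / ((k : ℝ) + 1) := ((dist_le_pi_dist a b i).trans hlt.le)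
    have h3 : 1 / ((k : ℝ) + 1) ≤ 1 := by rw [div_le_one hk]; linarith [Nat.cast_nonneg (α := ℝ) k]
    rw [← sq_abs]
    nlinarith [abs_nonneg (a i - b i)]
  have h2 : 2 * (∑ i, (if i = 0 then 1 else -1) * a i * b i) -
      (∑ i, (if i = 0 then 1 else -1) * a i * a i) - ∑ i, (if i = 0 then 1 else -1) * b i * b i ≤
      ∑ _i : Fin (k + 1), 1 / ((k : ℝ) + 1) := by
    rw [Finset.mul_sum, ← Finset.sum_sub_distrib, ← Finset.sum_sub_distrib]
    refine Finset.sum_le_sum fun i _ => ?_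
    have := h1 i
    split_ifs
    · nlinarith [sq_nonneg (a i - b i)]
    · nlinarith
  rw [Finset.sum_const, Finset.card_univ, Fintype.card_fin, nsmul_eq_mul] at h2
  push_cast at h2
  rw [mul_one_div_cancel hk.ne'] at h2
  linarith

lemma Tools.symm (T : Tools c) {α β : X → Bil E ℝ} (ha : Closed α) (hb : Closed β) :
    c.Q α β = c.Q β α := by
  obtain ⟨co, h⟩ := T.co
  rw [h _ _ ha hb, h _ _ hb ha]
  exact Finset.sum_congr rfl fun i _ => by ring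

lemma OC.Emb.simple {O : Orb c} {C : OC O} (h : C.Emb) : C.Simple := ⟨C.F, le_rfl, h.1⟩

lemma TC.F_eq {J : X → E →L[ℝ] E} {hJ : Tame univ c.om J} (C : TC c J hJ) : C.F = ∅ :=
  Finset.eq_empty_of_forall_notMem fun a ha => by
    obtain ⟨i, -⟩ := C.pu a ha
    exact i.elim0

lemma TC.img_eq {J : X → E →L[ℝ] E} {hJ : Tame univ c.om J} (C : TC c J hJ) :
    C.img = range C.u ∪ {C.v 0} := by
  rw [OC.img, C.F_eq]; simp

/-- A simple sphere of small Chern number is embedded. -/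
lemma Tools.small (T : Tools c) (h5 : 5 ≤ c.κ * c.κ * c.Q c.om c.om) {J : X → E →L[ℝ] E}
    {hJ : Tame univ c.om J} (C : TC c J hJ) (hs : C.Simple) (h3 : C.c1 ≤ 3) :
    C.Emb ∧ ∃ η, c.Dl (per C.u) η ∧ per C.u η = C.c1 - 2 ∧
      ∀ C' : TC c J hJ, C'.Simple → ¬ C'.img ⊆ C.img → ∀ T : Finset X,
        (∀ x ∈ T, x ∈ C.img ∧ x ∈ C'.img) → (T.card : ℝ) ≤ per C'.u η := by
  obtain ⟨η, hη, ⟨k, hk, hk1, hk0⟩, hp⟩ := T.int J hJ C hs
  obtain ⟨z, hz, hc⟩ := T.nat J hJ C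
  have hz' : (0 : ℝ) < C.c1 := by rw [hc]; exact_mod_cast hz
  have k0 : k = 0 := by
    by_contra hne
    have k2 : (2 : ℝ) ≤ k := by exact_mod_cast (by omega : 2 ≤ k)
    obtain ⟨co, h⟩ := T.co
    have hκ : 0 < c.κ * c.κ := mul_pos c.hκ c.hκ
    have hQ : 0 < c.Q c.om c.om := by
      by_contra hn
      push Not at hn
      nlinarith [mul_nonneg hκ.le (neg_nonneg.2 hn)]
    have H := ex_lor_hodge (co η) (co c.om) (by rwa [← h _ _ c.hom c.hom])
    rw [← h _ _ c.hom c.hom, ← h _ _ hη.1 hη.1, ← h _ _ hη.1 c.hom, hη.2 _ hη.1,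
      hη.2 _ c.hom] at H
    have e : C.c1 ^ 2 = c.κ * c.κ * per C.u c.om ^ 2 := by rw [OC.c1]; ring
    have H2 := mul_le_mul_of_nonneg_left H hκ.le
    have hs : C.c1 ≤ per C.u η := by linarith
    have H3 : per C.u η * 5 ≤ per C.u η * (c.κ * c.κ * c.Q c.om c.om) :=
      mul_le_mul_of_nonneg_left h5 (by linarith)
    nlinarith
  refine ⟨hk0.1 k0, η, hη, ?_, hp⟩
  rw [k0] at hk
  push_cast at hk
  linarith

lemma Thn.mono {A B : Set X} (h : Thn B) (hs : A ⊆ B) : Thn A := by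
  obtain ⟨T, h1, h2, h3⟩ := h
  exact ⟨T, h1, h2, hs.trans h3⟩

lemma Thn.iUnion {ι : Type*} [Countable ι] {B : ι → Set X} (h : ∀ i, Thn (B i)) :
    Thn (⋃ i, B i) := by
  choose T h1 h2 h3 using h
  refine ⟨⋃ i, T i, countable_iUnion h1, fun u hu => ?_, iUnion_subset fun i x hx => ?_⟩
  · obtain ⟨i, hi⟩ := mem_iUnion.1 hu
    exact h2 i u hi
  · obtain ⟨u, hu, hx⟩ := mem_iUnion₂.1 (h3 i hx)
    exact mem_iUnion₂.2 ⟨u, mem_iUnion.2 ⟨i, hu⟩, hx⟩

lemma Thn.union {A B : Set X} (hA : Thn A) (hB : Thn B) : Thn (A ∪ B) := by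
  rw [union_eq_iUnion]
  exact Thn.iUnion fun b => by cases b <;> simpa

lemma Thn.single (a : X) : Thn ({a} : Set X) :=
  ⟨{fun _ => a}, countable_singleton _, fun u hu => by
    rw [mem_singleton_iff.1 hu]; exact contMDiff_const, by simp⟩

lemma TC.thn {J : X → E →L[ℝ] E} {hJ : Tame univ c.om J} (C : TC c J hJ) : Thn C.img := by
  rw [C.img_eq]
  refine Thn.union ⟨{C.u}, countable_singleton _, fun u hu => ?_, by simp⟩ (Thn.single _)
  have h := C.hu.1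
  rw [C.F_eq] at h
  rw [mem_singleton_iff.1 hu, ← contMDiffOn_univ]
  simpa using h

lemma TC.cont {J : X → E →L[ℝ] E} {hJ : Tame univ c.om J} (C : TC c J hJ) : Continuous C.u := by
  have h := C.hu.1.continuousOn
  rw [C.F_eq] at h
  rw [← continuousOn_univ]
  simpa using h

/-- A sphere that meets an open set meets it at infinitely many parameters. -/
lemma TC.infinite {J : X → E →L[ℝ] E} {hJ : Tame univ c.om J} (C : TC c J hJ) {B : Set X}
    (hB : IsOpen B) (h : (C.img ∩ B).Nonempty) : (C.u ⁻¹' B).Infinite := by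
  have : (C.u ⁻¹' B).Nonempty := by
    obtain ⟨x, hx, hxB⟩ := h
    rw [C.img_eq] at hx
    rcases hx with ⟨s, rfl⟩ | hx
    · exact ⟨s, hxB⟩
    · obtain ⟨r, hr, hv⟩ := C.hv
      rw [mem_singleton_iff.1 hx] at hxB
      have h1 : ∀ᶠ s in 𝓝[≠] (0 : ℂ), C.v s ∈ B := nhdsWithin_le_nhds
        ((hv.1.continuousOn.continuousAt (ball_mem_nhds _ hr)).eventually (hB.mem_nhds hxB))
      obtain ⟨s, h2, h3⟩ := (h1.and self_mem_nhdsWithin).exists
      exact ⟨s⁻¹, by rwa [C.uv s h3] at h2⟩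
  obtain ⟨s, hs⟩ := this
  exact infinite_of_mem_nhds s ((hB.preimage C.cont).mem_nhds hs)

lemma TC.inj {J : X → E →L[ℝ] E} {hJ : Tame univ c.om J} {C : TC c J hJ} (h : C.Emb) :
    C.u.Injective := fun a b hab => by
  have h1 := h.1
  rw [C.F_eq] at h1
  exact h1 (by simp) (by simp) hab

/-- The curves that are fixed by their class and the points of `P` cover a thin set. -/
lemma Tools.bad (T : Tools c) (h5 : 5 ≤ c.κ * c.κ * c.Q c.om c.om) (J : X → E →L[ℝ] E)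
    (P : Finset X) (hP : P.card ≤ 1) : Thn {x | ∃ (hJ : Tame univ c.om J) (C : TC c J hJ),
      C.Simple ∧ C.c1 ≤ P.card + 1 ∧ (∀ y ∈ P, y ∈ C.img) ∧ x ∈ C.img} := by
  by_cases hJ : Tame univ c.om J
  swap
  · exact (Thn.single (X := X) (Classical.choice (by
      by_contra hn
      rw [not_nonempty_iff] at hn
      exact hJ ⟨fun x => hn.elim x, fun x => hn.elim x⟩))).mono fun x ⟨h, _⟩ => (hJ h).elim
  have hP' : (P.card : ℝ) ≤ 1 := by exact_mod_cast hP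
  let I := {A : Set X // ∃ C : TC c J hJ, C.Simple ∧ C.c1 ≤ P.card + 1 ∧ (∀ y ∈ P, y ∈ C.img) ∧
    C.img = A}
  choose C hs hc hy hA using fun A : I => A.2
  choose η hη he hp using fun A : I => (T.small h5 (C A) (hs A) (by linarith [hc A])).2
  obtain ⟨co, h⟩ := T.co
  have hk : (0 : ℝ) < 1 / ((c.k : ℝ) + 1) / 2 := by positivity
  have : Countable I := by
    refine Pairwise.countable_of_isOpen_disjoint
      (s := fun A : I => ball (co (η A)) (1 / ((c.k : ℝ) + 1) / 2)) (fun A A' hne => ?_)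
      (fun _ => isOpen_ball) fun A => nonempty_ball.2 hk
    refine ball_disjoint_ball ((add_halves _).le.trans (ex_lor_sep _ _ ?_))
    rw [← h _ _ (hη A).1 (hη A').1, ← h _ _ (hη A).1 (hη A).1, ← h _ _ (hη A').1 (hη A').1,
      (hη A).2 _ (hη A).1, (hη A').2 _ (hη A').1, (hη A).2 _ (hη A').1, he, he]
    have := hp A' (C A) (hs A) (fun hsub => hne (Subtype.ext (by
      rw [← hA A, ← hA A']; exact T.same J hJ _ _ (hs A') hsub))) P fun x hx => ⟨hy _ x hx, hy _ x hx⟩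
    linarith [hc A, hc A']
  refine (Thn.iUnion fun A : I => (C A).thn).mono ?_
  rintro x ⟨_, C', h1, h2, h3, h4⟩
  exact mem_iUnion.2 ⟨⟨C'.img, C', h1, h2, h3, rfl⟩, by rw [hA]; exact h4⟩

end Pool.Agent.Lib.MP_1c0d65_gt.PW
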