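import Pool.Agent.Lib.MP_1c0d65_gt.PW.Int
import Pool.Agent.Lib.MP_1c0d65_gt.HJ.Cone

/-! The arithmetic of the resolution of a Wahl singularity. -/

set_option autoImplicit false

noncomputable section

namespace Pool.Agent.Lib.MP_1c0d65_gt.PW

open Finset Ray

variable {N a : ℕ}

theorem HJ.det (H : HJ N a) {t : ℕ} (ht : t ≤ H.l) :
    (H.A (t + 1) : ℤ) * H.B t - H.A t * H.B (t + 1) = N := by
  induction t with
  | zero => simp [H.A0, H.A1, H.B0]
  | succ t ih =>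
    obtain ⟨-, h1, h2⟩ := H.step t (by omega)
    zify at h1 h2
    linear_combination ih (by omega) + H.B (t + 1) * h1 - H.A (t + 1) * h2

theorem HJ.B_last (H : HJ N a) (hN : 0 < N) : H.B H.l = 1 := by
  have := H.det le_rfl
  rw [H.Al, H.Bl] at this
  have h : (N : ℤ) * H.B H.l = N * 1 := by simpa using this
  exact_mod_cast mul_left_cancel₀ (by exact_mod_cast hN.ne') h

theorem HJ.anti (H : HJ N a) (hN : 0 < N) {t : ℕ} (ht : t ≤ H.l) : H.B (t + 1) < H.B t := by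
  induction ht using Nat.decreasingInduction with
  | self => rw [H.Bl, H.B_last hN]; exact one_pos
  | of_succ t ht ih =>
    obtain ⟨h0, -, h2⟩ := H.step t ht
    have := Nat.mul_le_mul_right (H.B (t + 1)) h0
    change H.B (t + 2) < _ at ih
    omega

/-- the integral fan -/
def HJ.fan (H : HJ N a) (hN : 0 < N) : Fan N a where
  l := H.l
  b t := H.b (t + 1)
  a t := H.B t
  e t := H.A t
  a0 := by rw [H.B0]
  a1 := by rw [H.B1]
  al := by rw [H.B_last hN]; rfl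
  al1 := by rw [H.Bl]; rfl
  e0 := by rw [H.A0]; rfl
  e1 := by rw [H.A1]; rfl
  two_le t ht := by exact_mod_cast (H.step t ht).1
  ra t ht := by exact_mod_cast (H.step t ht).2.2
  re t ht := by exact_mod_cast (H.step t ht).2.1
  anti t ht := by exact_mod_cast H.anti hN ht

theorem dvd_mod (N a j : ℕ) : (N : ℤ) ∣ (a * j % N : ℕ) - (a : ℤ) * j := by
  exact_mod_cast (Nat.mod_modEq (a * j) N).symm.dvd

theorem HJ.co_eq (H : HJ N a) (hN : 0 < N) (j t : ℕ) :
    H.co j t = ((H.fan hN).ph j (a * j % N : ℕ) t : ℤ) / N := by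
  rw [HJ.co]
  congr 1
  simp only [Fan.ph, HJ.fan]
  norm_cast

theorem HJ.al_eq (H : HJ N a) (hN : 0 < N) (j t : ℕ) :
    H.al j t = ((H.fan hN).ep j (a * j % N : ℕ) t : ℤ) / N := by
  simp only [HJ.al, H.co_eq hN, Fan.ep]
  simp only [HJ.fan]
  push_cast
  ring

theorem HJ.exists_cone (H : HJ N a) {j : ℕ} (hj : j < N) :
    ∃ k α β, (H.fan (Nat.zero_lt_of_lt hj)).Cone j (a * j % N : ℕ) k α β :=
  Fan.exists_Cone _ (by positivity) (by positivity) (by exact_mod_cast hj)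
    (by exact_mod_cast Nat.mod_lt _ (Nat.zero_lt_of_lt hj)) (dvd_mod N a j)

theorem HJ.corr_eq (H : HJ N a) (hN : 0 < N) (j : ℕ) {j' k : ℕ} {α β : ℤ}
    (c : (H.fan hN).Cone j' (a * j' % N : ℕ) k α β) :
    H.corr j j' = (α * (H.fan hN).ph j (a * j % N : ℕ) k +
      β * (H.fan hN).ph j (a * j % N : ℕ) (k + 1) : ℤ) / N := by
  have h0 : (N : ℝ) ≠ 0 := by exact_mod_cast hN.ne'
  have := congrArg (Int.cast : ℤ → ℝ) (c.sum_ep ((H.fan hN).ph j (a * j % N : ℕ)))
  rw [Int.cast_sum, Int.cast_mul, Int.cast_natCast] at this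
  rw [eq_div_iff h0, ← mul_right_inj' h0, mul_comm _ (N : ℝ), ← this, HJ.corr, mul_sum, mul_sum]
  refine sum_congr rfl fun t _ => ?_
  rw [H.co_eq hN, H.al_eq hN, Int.cast_mul]
  field_simp

theorem HJ.kor_eq (H : HJ N a) (hN : 0 < N) {j k : ℕ} {α β : ℤ}
    (c : (H.fan hN).Cone j (a * j % N : ℕ) k α β) :
    H.kor j = α + β - (j + (a * j % N : ℕ)) / N := by
  have h0 : (N : ℝ) ≠ 0 := by exact_mod_cast hN.ne'
  have := congrArg (Int.cast : ℤ → ℝ) c.sum_kor
  rw [Int.cast_sum] at this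
  have e : H.kor j = (∑ t ∈ range H.l,
      (((H.fan hN).ph j (a * j % N : ℕ) (t + 1) * ((H.fan hN).b t - 2) : ℤ) : ℝ)) / N := by
    rw [HJ.kor, sum_div]
    refine sum_congr rfl fun t _ => ?_
    rw [H.co_eq hN, Int.cast_mul, show (H.fan hN).b t = H.b (t + 1) from rfl]
    push_cast
    ring
  rw [e]
  refine (congrArg (· / (N : ℝ)) this).trans ?_
  simp only [Int.cast_sub, Int.cast_mul, Int.cast_add, Int.cast_natCast]
  field_simp
  ring

theorem HJ.co_zero (H : HJ N a) (j : ℕ) : H.co j 0 = 0 := by simp [HJ.co, H.A0]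

theorem HJ.co_last (H : HJ N a) (j : ℕ) : H.co j (H.l + 1) = 0 := by simp [HJ.co, H.Bl]

theorem HJ.co_nonneg (H : HJ N a) (j t : ℕ) : 0 ≤ H.co j t := by rw [HJ.co]; positivity

theorem HJ.ld_zero (H : HJ N a) (hN : 0 < N) : H.ld 0 = 1 := by
  simp [HJ.ld, H.A0, H.B0, hN.ne']

theorem HJ.ld_last (H : HJ N a) (hN : 0 < N) : H.ld (H.l + 1) = 1 := by
  simp [HJ.ld, H.Al, H.Bl, hN.ne']

theorem HJ.ld_rec (H : HJ N a) {t : ℕ} (ht : t < H.l) :
    H.ld t + H.ld (t + 2) = H.b (t + 1) * H.ld (t + 1) := by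
  obtain ⟨-, h1, h2⟩ := H.step t ht
  have h1' : (H.A t : ℝ) + H.A (t + 2) = H.b (t + 1) * H.A (t + 1) := by exact_mod_cast h1
  have h2' : (H.B t : ℝ) + H.B (t + 2) = H.b (t + 1) * H.B (t + 1) := by exact_mod_cast h2
  simp only [HJ.ld]
  linear_combination (h1' + h2') / N

theorem exists_HJ {p q : ℕ} (hq : 0 < q) (hp : q < p) (h : p.Coprime q) (hN : N = p ^ 2)
    (ha : a + 1 = p * q) : ∃ H : HJ N a, 0 < H.l ∧ H.ld 1 + H.ld H.l = 1 ∧
      ∀ t ≤ H.l + 1, 0 < H.ld t := by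
  have _ := h
  obtain ⟨w0, w1, w2, w3⟩ := wahl_data (p := p) (q := q) (by exact_mod_cast hq)
    (by exact_mod_cast hp)
  have e1 : (p : ℤ) ^ 2 = N := by exact_mod_cast hN.symm
  have e2 : (p : ℤ) * q - 1 = a := by zify at ha; linarith
  rw [e1, e2] at w1 w2 w3
  obtain ⟨F⟩ := nonempty_fan (n := N) (r := a) (by positivity) (by linarith) w2
  obtain ⟨k1, k2⟩ := F.wahl w3 w1
  have N0 : (0 : ℝ) < N := by exact_mod_cast F.n_pos
  have te : ∀ t ≤ F.l + 1, ((F.e t).toNat : ℤ) = F.e t := fun t ht =>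
    Int.toNat_of_nonneg (F.e_nonneg ht)
  have ta : ∀ t ≤ F.l + 1, ((F.a t).toNat : ℤ) = F.a t := fun t ht =>
    Int.toNat_of_nonneg (F.a_nonneg ht)
  let H : HJ N a :=
    { l := F.l
      b := fun t => (F.b (t - 1)).toNat
      A := fun t => (F.e t).toNat
      B := fun t => (F.a t).toNat
      A0 := by simp [F.e0]
      B0 := by simp [F.a0]
      A1 := by simp [F.e1]
      B1 := by simp [F.a1]
      Al := by simp [F.el1]
      Bl := by simp [F.al1]
      step := fun t ht => by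
        have := F.two_le t ht
        rw [Nat.add_sub_cancel]
        refine ⟨by omega, ?_, ?_⟩ <;> zify
        · rw [te t (by omega), te (t + 1) (by omega), te (t + 2) (by omega),
            Int.toNat_of_nonneg (by omega)]
          exact F.re t ht
        · rw [ta t (by omega), ta (t + 1) (by omega), ta (t + 2) (by omega),
            Int.toNat_of_nonneg (by omega)]
          exact F.ra t ht }
  have hl : ∀ t ≤ F.l + 1, H.ld t = (F.cn t : ℤ) / N := fun t ht => by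
    rw [Fan.cn, ← te t ht, ← ta t ht]
    simp only [HJ.ld, H, Int.cast_add, Int.cast_natCast]
  refine ⟨H, k1, ?_, fun t ht => ?_⟩
  · rw [hl 1 (by omega), show H.l = F.l from rfl, hl F.l (by omega), ← add_div, ← Int.cast_add, k2,
      Int.cast_natCast, div_self N0.ne']
  · rw [hl t ht]
    exact div_pos (by exact_mod_cast F.cn_pos ht) N0

theorem HJ.al_nat (H : HJ N a) {j : ℕ} (hj : j < N) {t : ℕ} (ht : t < H.l) :
    ∃ k : ℕ, H.al j t = k := by
  have hN := Nat.zero_lt_of_lt hj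
  have h0 : (N : ℝ) ≠ 0 := by exact_mod_cast hN.ne'
  obtain ⟨k, α, β, c⟩ := H.exists_cone hj
  obtain ⟨m, hm⟩ := Int.eq_ofNat_of_zero_le
    (a := (if t + 1 = k then α else 0) + if t = k then β else 0)
    (by have := c.α0; have := c.β0; split_ifs <;> omega)
  refine ⟨m, ?_⟩
  rw [H.al_eq hN, c.ep_eq ht, hm]
  push_cast
  field_simp

theorem HJ.mn_corr (H : HJ N a) {j j' : ℕ} (hj : j < N) (hj' : j' < N) :
    ∃ k : ℕ, mn N a j j' = k + H.corr j j' := by
  have hN := Nat.zero_lt_of_lt hj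
  have h0 : (N : ℝ) ≠ 0 := by exact_mod_cast hN.ne'
  obtain ⟨k, α, β, c⟩ := H.exists_cone hj'
  obtain ⟨m, m0, hm⟩ := c.min_sub (dvd_mod N a j') (dvd_mod N a j)
  lift m to ℕ using m0
  refine ⟨m, ?_⟩
  have e : mn N a j j' = (min ((j : ℤ) * (a * j' % N : ℕ)) (j' * (a * j % N : ℕ)) : ℤ) / N := by
    rw [mn]; congr 1; norm_cast
  rw [H.corr_eq hN j c, e, hm, Int.cast_add, Int.cast_mul, Int.cast_natCast, Int.cast_natCast]
  field_simp

theorem HJ.self (H : HJ N a) {j : ℕ} (hj : j < N) {l : ℝ} (h : SelfIdx N a j l) :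
    ∃ k : ℕ, l = k + H.corr j j + H.kor j := by
  have hN := Nat.zero_lt_of_lt hj
  have h0 : (0 : ℝ) < N := by exact_mod_cast hN
  obtain ⟨k, α, β, c⟩ := H.exists_cone hj
  obtain ⟨⟨z, hz⟩, A, B, A0, B0, hA, hB, hg⟩ := h
  obtain ⟨y, hy⟩ : ∃ y, y = a * j % N := ⟨_, rfl⟩
  obtain ⟨u, hu⟩ : ∃ u, A = j + N * u :=
    ⟨A / N, by rw [← Nat.mod_eq_of_lt hj, ← hA, Nat.mod_add_div]⟩
  obtain ⟨v, hv⟩ : ∃ v, B = y + N * v := ⟨B / N, by rw [hy, ← hB, Nat.mod_add_div]⟩
  have key : ∀ g A' B' : ℕ, A = g * A' → B = g * B' → B' ≡ a * A' [MOD N] →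
      (g : ℤ) + u * y + v * j + N * u * v - u - v ≤ z := fun g A' B' e1 e2 e3 => by
    have := hg g A' B' e1 e2 e3
    rw [hz, ← hy, hu, hv, ← sub_nonneg] at this
    have e : (0 : ℝ) ≤ z - (g + u * y + v * j + N * u * v - u - v) := by
      refine this.trans_eq ?_
      push_cast
      field_simp
      ring
    exact_mod_cast sub_nonneg.1 e
  have hd : α + β ≤ z + α * β := by
    refine c.defect (u := u) (v := v) (by positivity) (by positivity) (by exact_mod_cast hu ▸ A0)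
      (by rw [← hy]; exact_mod_cast hv ▸ B0) ?_ fun u0 v0 g m _ m2 g0 e1 e2 => ?_
    · rw [← hy]
      exact_mod_cast key 1 A B (one_mul _).symm (one_mul _).symm (hB.trans (hA.mul_left a).symm)
    · lift g to ℕ using g0
      obtain rfl : u = 0 := by exact_mod_cast u0
      obtain rfl : v = 0 := by exact_mod_cast v0
      rw [← hy] at e2
      have e1' : (j : ℤ) = g * H.A m := e1
      have e2' : (y : ℤ) = g * H.B m := e2
      have e3 : (N : ℤ) ∣ H.B m - a * H.A m := (H.fan hN).cong (j := m) (by omega)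
      have := key g (H.A m) (H.B m) (hu.trans (by exact_mod_cast e1'))
        (hv.trans (by exact_mod_cast e2'))
        (Nat.modEq_iff_dvd.2 (by rwa [← dvd_neg, neg_sub, Nat.cast_mul]))
      simpa using this
  obtain ⟨m, hm⟩ := Int.eq_ofNat_of_zero_le (a := z + α * β - (α + β)) (by omega)
  refine ⟨m, ?_⟩
  have hm' : (m : ℝ) = z + α * β - (α + β) := by exact_mod_cast hm.symm
  rw [H.corr_eq hN j c, c.self, H.kor_eq hN c, hz, hm']
  simp only [Int.cast_sub, Int.cast_mul, Int.cast_natCast]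
  field_simp
  ring

theorem HJ.kor_int (H : HJ N a) {j : ℕ} (hj : j < N) :
    ∃ z : ℤ, ((1 + a) * j : ℝ) / N + H.kor j = z := by
  have hN := Nat.zero_lt_of_lt hj
  have h0 : (N : ℝ) ≠ 0 := by exact_mod_cast hN.ne'
  obtain ⟨k, α, β, c⟩ := H.exists_cone hj
  obtain ⟨m, hm⟩ := dvd_mod N a j
  have hm' : ((a * j % N : ℕ) : ℝ) - a * j = N * m := by exact_mod_cast hm
  refine ⟨α + β - m, ?_⟩
  rw [H.kor_eq hN c]
  simp only [Int.cast_sub, Int.cast_add]
  field_simp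
  linear_combination -hm'

theorem HJ.coef_int (H : HJ N a) {ι : Type} [Fintype ι] (j : ι → ℕ) (hj : ∀ i, j i < N)
    (h : ∑ i, a * j i ≡ 1 + a [MOD N]) {t : ℕ} (ht : t ≤ H.l + 1) :
    ∃ z : ℤ, 1 - H.ld t + ∑ i, H.co (j i) t = z := by
  have _ := hj
  rcases N.eq_zero_or_pos with rfl | hN
  · exact ⟨1, by simp [HJ.ld, HJ.co]⟩
  have h0 : (N : ℝ) ≠ 0 := by exact_mod_cast hN.ne'
  have d1 : (N : ℤ) ∣ ∑ i, ((H.fan hN).ph (j i) (a * j i % N : ℕ) t - H.A t * (a * j i)) :=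
    dvd_sum fun i _ => by
      have := ((H.fan hN).ph_cong (dvd_mod N a (j i)) ht).add ((dvd_mod N a (j i)).mul_left (H.A t))
      rwa [show (H.fan hN).e t = H.A t from rfl, mul_sub, sub_add_sub_cancel] at this
  have d2 : (N : ℤ) ∣ 1 + a - ∑ i, (a : ℤ) * j i := by exact_mod_cast h.dvd
  have d3 : (N : ℤ) ∣ H.B t - a * H.A t := (H.fan hN).cong ht
  obtain ⟨m, hm⟩ := (d1.sub (d2.mul_left (H.A t))).sub d3
  rw [sum_sub_distrib, ← mul_sum] at hm
  have hm' : ∑ i, (H.fan hN).ph (j i) (a * j i % N : ℕ) t = N * m + H.A t + H.B t := by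
    linear_combination hm
  refine ⟨1 + m, ?_⟩
  simp only [H.co_eq hN, ← sum_div, ← Int.cast_sum, hm', HJ.ld]
  push_cast
  field_simp
  ring

end Pool.Agent.Lib.MP_1c0d65_gt.PW
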