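import Pool.Agent.Lib.MP_1c0d65_gt.PW.Defs

/-! The small quantum cohomology ring of a monotone four-manifold, by counts of spheres. -/

set_option autoImplicit false

open Set Matrix

noncomputable section

namespace Pool.Agent.Lib.MP_1c0d65_gt.PW

variable {X : Type} [TopologicalSpace X] [ChartedSpace E X] {b : ℕ}

/-- A simple `J`-holomorphic sphere with image `C`, read in the charts `s` and `1 / s`. -/
def Sphere (J : X → E →L[ℝ] E) (u : ℂ → X) (C : Set X) : Prop :=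
  ∃ v : ℂ → X, Hol J u univ ∧ Hol J v univ ∧ (∀ s ≠ 0, v s = u s⁻¹) ∧
    (∃ B : Finset ℂ, InjOn u (B : Set ℂ)ᶜ) ∧ C = range u ∪ range v

/-- `N m A` is the number of simple `J`-spheres with `c₁ = m + 1` that are Poincare dual to
`∑ A i • e i` and pass through the first `m` of the points `P`; `g` is the intersection matrix of
the `e i`. -/
def Counts (J : X → E →L[ℝ] E) (c₁ : (ℂ → X) → ℝ) (e : Fin b → X → Bil E ℝ)
    (g : Matrix (Fin b) (Fin b) ℤ) (P : Fin 3 → X) (N : ℕ → (Fin b → ℤ) →₀ ℕ) : Prop :=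
  ∀ m : ℕ, m < 4 → ∀ A, {C | ∃ u, Sphere J u C ∧ c₁ u = m + 1 ∧
    (∀ i, per u (e i) = (g *ᵥ A) i) ∧ ∀ j : Fin 3, j.1 < m → P j ∈ C}.encard = N m A

variable {Λ : Type} [CommRing Λ] (g : Matrix (Fin b) (Fin b) ℤ) (N : ℕ → (Fin b → ℤ) →₀ ℕ)
  (w : (Fin b → ℤ) → Λ)

/-- The value of the class `a` of degree two on the sphere class `A`. -/
def ev (a : Fin b → Λ) (A : Fin b → ℤ) : Λ := ∑ i, (g *ᵥ A) i • a i

/-- The Gromov-Witten invariant of the class `A` with `c₁ = m + 1`, with `x`, `y` inserted and the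
third insertion a point (`t = 1`) or a surface that meets `A` once (`t = 0`), times the weight
`w A`. A triple holds the parts of degree `0`, `2`, `4` of a cohomology class. -/
def gw (x y : Λ × (Fin b → Λ) × Λ) (m t : ℕ) (A : Fin b → ℤ) : Λ := w A * N m A *
  if m = t then ev g x.2.1 A * ev g y.2.1 A
  else if m = t + 1 then x.2.2 * ev g y.2.1 A + y.2.2 * ev g x.2.1 A
  else if m = t + 2 then x.2.2 * y.2.2 else 0

/-- The small quantum product. -/
def qmul (x y : Λ × (Fin b → Λ) × Λ) : Λ × (Fin b → Λ) × Λ :=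
  (x.1 * y.1 + ∑ m ∈ Finset.range 4, ∑ A ∈ (N m).support, gw g N w x y m 1 A,
    x.1 • y.2.1 + y.1 • x.2.1 +
      ∑ m ∈ Finset.range 4, ∑ A ∈ (N m).support, fun i => A i • gw g N w x y m 0 A,
    x.1 * y.2.2 + y.1 * x.2.2 + ∑ i, ∑ j, g i j • (x.2.1 i * y.2.1 j))

/-- The ring `R` is the sum of the cohomology groups of degree `0`, `2`, `4` over `Λ`, with the
small quantum product. -/
def IsQH (R : Type) [CommRing R] [Algebra Λ R] : Prop :=
  ∃ φ : (Λ × (Fin b → Λ) × Λ) ≃ₗ[Λ] R, ∀ x y, φ (qmul g N w x y) = φ x * φ y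

end Pool.Agent.Lib.MP_1c0d65_gt.PW
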