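import Pool.Agent.Lib.MP_1c0d65_gt.PW.QDefs

/-! The quantum cohomology ring with its classes of odd degree. -/

set_option autoImplicit false

open scoped Manifold ContDiff
open Set

noncomputable section

namespace Pool.Agent.Lib.MP_1c0d65_gt.PW

variable {X : Type} [TopologicalSpace X] [ChartedSpace E X] {a b : ℕ}

/-- The closed one-forms `f i` span the first de Rham cohomology, and `f i ∧ f j` is cohomologous
to `∑ t i j k • e k`. -/
def IsH1 (e : Fin b → X → Bil E ℝ) (f : Fin a → X → E →L[ℝ] ℝ) (t : Fin a → Fin a → Fin b → ℤ) :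
    Prop :=
  (∀ i, IsD univ (f i) 0) ∧
    (∀ α, IsD univ α 0 → ∃ (c : Fin a → ℝ) (h : X → ℝ), ContMDiff 𝓘(ℝ, E) 𝓘(ℝ, ℝ) ∞ h ∧
      α - ∑ i, c i • f i = dfn h) ∧
    ∀ i j, ∃ η, IsD univ η fun x =>
      (f i x).smulRight (f j x) - (f j x).smulRight (f i x) - ∑ k, (t i j k : ℝ) • e k x

/-- The ring `R` is the sum of the cohomology groups of degree `0`, `2`, `4` and `1`, `3` over `Λ`;
on even classes the product is the small quantum product, on classes of degree one it is the cup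
product `t`. -/
def IsQF {Λ : Type} [CommRing Λ] (g : Matrix (Fin b) (Fin b) ℤ) (N : ℕ → (Fin b → ℤ) →₀ ℕ)
    (w : (Fin b → ℤ) → Λ) (t : Fin a → Fin a → Fin b → ℤ) (R : Type) [Ring R] [Algebra Λ R] :
    Prop :=
  ∃ φ : (Λ × (Fin b → Λ) × Λ) × (Fin a → Λ) × (Fin a → Λ) → R, IsLinearMap Λ φ ∧ φ.Bijective ∧
    (∀ x y, φ (x, 0) * φ (y, 0) = φ (qmul g N w x y, 0)) ∧ ∀ x y,
      φ (0, x, 0) * φ (0, y, 0) = φ ((0, fun k => ∑ i, ∑ j, t i j k • (x i * y j), 0), 0)

end Pool.Agent.Lib.MP_1c0d65_gt.PW
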