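import Mathlib

/-! The intersection matrix of a family of chains, and orthogonal sums of forms. -/

set_option autoImplicit false

noncomputable section

namespace Pool.Agent.Lib.MP_1c0d65_gt.PW.Res

open Finset

section sum

variable {H W : Type} [AddCommGroup H] [Module ℝ H] [AddCommGroup W] [Module ℝ W]
  (B : LinearMap.BilinForm ℝ H) (Q : LinearMap.BilinForm ℝ W)

/-- the orthogonal sum -/
def osum : LinearMap.BilinForm ℝ (H × W) :=
  B.compl₁₂ (LinearMap.fst ℝ H W) (LinearMap.fst ℝ H W) +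
    Q.compl₁₂ (LinearMap.snd ℝ H W) (LinearMap.snd ℝ H W)

theorem osum_apply (x y : H × W) : osum B Q x y = B x.1 y.1 + Q x.2 y.2 := rfl

theorem osum_hodge (sB : ∀ x y, B x y = B y x) (sQ : ∀ x y, Q x y = Q y x)
    (hodge : ∀ x y, 0 < B x x → B x y = 0 → y ≠ 0 → B y y < 0)
    (neg : ∀ v, v ≠ 0 → Q v v < 0) (x y : H × W) (hx : 0 < osum B Q x x) (hxy : osum B Q x y = 0)
    (hy : y ≠ 0) : osum B Q y y < 0 := by
  have le : ∀ v, Q v v ≤ 0 := fun v => by
    by_cases h : v = 0
    · simp [h]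
    · exact (neg v h).le
  have x1 : 0 < B x.1 x.1 := by
    rw [osum_apply] at hx
    linarith [le x.2]
  obtain ⟨t, ht⟩ : ∃ t : ℝ, B x.1 (y - t • x).1 = 0 :=
    ⟨B x.1 y.1 / B x.1 x.1, by simp [x1.ne']⟩
  have e : osum B Q y y = osum B Q (y - t • x) (y - t • x) - t ^ 2 * osum B Q x x := by
    have : osum B Q y x = 0 := by rw [osum_apply, sB, sQ]; exact hxy
    simp only [map_sub, map_smul, LinearMap.sub_apply, LinearMap.smul_apply, smul_eq_mul, this, hxy]
    ring
  by_cases h0 : y - t • x = 0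
  · have t0 : t ≠ 0 := fun c => hy (by simpa [c] using h0)
    rw [e, h0, map_zero, zero_sub, neg_lt_zero]
    positivity
  · have : osum B Q (y - t • x) (y - t • x) < 0 := by
      rw [osum_apply]
      by_cases h1 : (y - t • x).1 = 0
      · rw [h1, map_zero, zero_add]
        exact neg _ fun h2 => h0 (Prod.ext h1 h2)
      · linarith [hodge _ _ x1 ht h1, le (y - t • x).2]
    rw [e]
    nlinarith [mul_nonneg (sq_nonneg t) hx.le]

end sum

theorem seq_sq (y : ℕ → ℝ) (h0 : y 0 = 0) (l : ℕ) :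
    ∑ t ∈ range l, y (t + 1) * (-2 * y (t + 1) + y t + y (t + 2)) =
      -∑ t ∈ range l, (y (t + 1) - y t) ^ 2 - y l ^ 2 + y l * y (l + 1) := by
  induction l with
  | zero => simp [h0]
  | succ l ih => rw [sum_range_succ, sum_range_succ, ih]; ring

variable {n : ℕ} (l : Fin n → ℕ) (b : Fin n → ℕ → ℕ)

/-- the curves of the chains -/
abbrev Ix : Type := Σ i : Fin n, Fin (l i)

/-- the intersection matrix -/
def chM : Matrix (Ix l) (Ix l) ℝ := fun s t =>
  if s.1 = t.1 ∧ s.2.1 = t.2.1 then -(b s.1 (s.2 + 1) : ℝ)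
  else if s.1 = t.1 ∧ (s.2.1 + 1 = t.2.1 ∨ t.2.1 + 1 = s.2.1) then 1 else 0

/-- the intersection form -/
def chQ : LinearMap.BilinForm ℝ (Ix l → ℝ) := Matrix.toBilin' (chM l b)

theorem chM_symm (s t : Ix l) : chM l b s t = chM l b t s := by
  obtain ⟨i, s⟩ := s
  obtain ⟨k, t⟩ := t
  by_cases h : i = k
  · subst h
    by_cases e : s.1 = t.1
    · simp [chM, e]
    · simp [chM, e, Ne.symm e, or_comm]
  · simp [chM, h, Ne.symm h]

theorem chQ_apply (v w : Ix l → ℝ) : chQ l b v w = ∑ s, v s * ∑ t, chM l b s t * w t := by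
  simp only [chQ, Matrix.toBilin'_apply, mul_sum, mul_assoc]

theorem chQ_symm (v w : Ix l → ℝ) : chQ l b v w = chQ l b w v := by
  simp only [chQ, Matrix.toBilin'_apply]
  rw [sum_comm]
  exact sum_congr rfl fun s _ => sum_congr rfl fun t _ => by rw [chM_symm]; ring

theorem chQ_single (s : Ix l) (w : Ix l → ℝ) :
    chQ l b (Pi.single s 1) w = ∑ t, chM l b s t * w t := by
  simp [chQ_apply, Pi.single_apply]

theorem chQ_single_single (s t : Ix l) :
    chQ l b (Pi.single s 1) (Pi.single t 1) = chM l b s t := by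
  simp [chQ_single, Pi.single_apply]

/-- a family of sequences as a vector -/
def vec (y : Fin n → ℕ → ℝ) : Ix l → ℝ := fun s => y s.1 (s.2 + 1)

theorem chM_vec (y : Fin n → ℕ → ℝ) (h0 : ∀ i, y i 0 = 0) (h1 : ∀ i, y i (l i + 1) = 0)
    (s : Ix l) : ∑ t, chM l b s t * vec l y t =
      -(b s.1 (s.2 + 1) * y s.1 (s.2 + 1) - y s.1 s.2 - y s.1 (s.2 + 2)) := by
  obtain ⟨i, s, hs⟩ := s
  rw [Fintype.sum_sigma, sum_eq_single i (fun k _ hk => by simp [chM, hk.symm]) (by simp)]
  have e : ∀ t : Fin (l i), chM l b ⟨i, s, hs⟩ ⟨i, t⟩ * vec l y ⟨i, t⟩ =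
      (fun u : ℕ => (if s = u then -(b i (s + 1) * y i (s + 1)) else 0) +
        (if s + 1 = u then y i (s + 2) else 0) + if u + 1 = s then y i s else 0) t := fun t => by
    simp only [chM, vec, true_and]
    by_cases c1 : s = t.1
    · simp [← c1]
    by_cases c2 : s + 1 = t.1
    · rw [if_neg c1, if_pos (Or.inl c2), if_neg c1, if_pos c2, if_neg (by omega), ← c2]; ring
    by_cases c3 : t.1 + 1 = s
    · rw [if_neg c1, if_pos (Or.inr c3), if_neg c1, if_neg c2, if_pos c3, c3]; ring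
    · simp [c1, c2, c3]
  rw [sum_congr rfl fun t _ => e t, Fin.sum_univ_eq_sum_range (fun u : ℕ =>
    (if s = u then -(b i (s + 1) * y i (s + 1)) else 0) +
      (if s + 1 = u then y i (s + 2) else 0) + if u + 1 = s then y i s else 0) (l i),
    sum_add_distrib, sum_add_distrib, sum_ite_eq, sum_ite_eq, if_pos (mem_range.2 hs)]
  have e1 : (if s + 1 ∈ range (l i) then y i (s + 2) else 0) = y i (s + 2) := by
    split_ifs with c
    · rfl
    · rw [show s + 2 = l i + 1 by simp only [mem_range] at c; omega, h1]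
  have e2 : ∑ u ∈ range (l i), (if u + 1 = s then y i s else 0) = y i s := by
    rcases s with _ | s
    · simp [h0]
    · simp only [Nat.add_right_cancel_iff, sum_ite_eq', mem_range]
      rw [if_pos (by omega)]
  rw [e1, e2]
  ring

theorem sum_Ix (f : Fin n → ℕ → ℝ) :
    ∑ s : Ix l, f s.1 s.2 = ∑ i, ∑ t ∈ range (l i), f i t := by
  rw [Fintype.sum_sigma]
  exact sum_congr rfl fun i _ => Fin.sum_univ_eq_sum_range (f i) (l i)

theorem chQ_vec (x y : Fin n → ℕ → ℝ) (h0 : ∀ i, y i 0 = 0) (h1 : ∀ i, y i (l i + 1) = 0) :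
    chQ l b (vec l x) (vec l y) = -∑ i, ∑ t ∈ range (l i),
      x i (t + 1) * (b i (t + 1) * y i (t + 1) - y i t - y i (t + 2)) := by
  rw [chQ_apply, ← sum_Ix l fun i t =>
    x i (t + 1) * (b i (t + 1) * y i (t + 1) - y i t - y i (t + 2)), ← sum_neg_distrib]
  exact sum_congr rfl fun s _ => by rw [chM_vec l b y h0 h1, mul_neg]; rfl

theorem chQ_neg (hb : ∀ i, ∀ t < l i, 2 ≤ b i (t + 1)) (v : Ix l → ℝ) (hv : v ≠ 0) :
    chQ l b v v < 0 := by
  let y : Fin n → ℕ → ℝ := fun i u => Nat.casesOn u 0 fun t =>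
    if h : t < l i then v ⟨i, t, h⟩ else 0
  have e : vec l y = v := funext fun s => by simp [vec, y]
  have h1 : ∀ i, y i (l i + 1) = 0 := fun i => by simp [y]
  have key : ∀ i, ∑ t ∈ range (l i), (y i (t + 1) - y i t) ^ 2 ≤ ∑ t ∈ range (l i),
      y i (t + 1) * (b i (t + 1) * y i (t + 1) - y i t - y i (t + 2)) := fun i => by
    have h := seq_sq (y i) rfl (l i)
    have : ∑ t ∈ range (l i), -(y i (t + 1) * (-2 * y i (t + 1) + y i t + y i (t + 2))) ≤
        ∑ t ∈ range (l i), y i (t + 1) * (b i (t + 1) * y i (t + 1) - y i t - y i (t + 2)) :=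
      sum_le_sum fun t ht => by
        have : (2 : ℝ) ≤ b i (t + 1) := by exact_mod_cast hb i t (mem_range.1 ht)
        nlinarith [mul_nonneg (sub_nonneg.2 this) (sq_nonneg (y i (t + 1)))]
    rw [sum_neg_distrib, h, h1] at this
    nlinarith [sq_nonneg (y i (l i))]
  rw [← e, chQ_vec l b y y (fun _ => rfl) h1, neg_lt_zero]
  refine lt_of_lt_of_le ?_ (sum_le_sum fun i _ => key i)
  refine lt_of_le_of_ne (sum_nonneg fun i _ => sum_nonneg fun t _ => sq_nonneg _) fun h => hv ?_
  have z : ∀ i, ∀ t ≤ l i, y i t = 0 := fun i t ht => by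
    have h2 := (sum_eq_zero_iff_of_nonneg fun t _ => sq_nonneg _).1
      ((sum_eq_zero_iff_of_nonneg fun i _ => sum_nonneg fun t _ => sq_nonneg _).1 h.symm i
        (mem_univ i))
    induction t with
    | zero => rfl
    | succ t ih =>
      have := h2 t (mem_range.2 ht)
      rw [ih (by omega), sub_zero] at this
      exact pow_eq_zero_iff two_ne_zero |>.1 this
  rw [← e]
  exact funext fun s => z s.1 _ s.2.2

end Pool.Agent.Lib.MP_1c0d65_gt.PW.Res
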