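import Pool.Agent.Lib.MP_1c0d65_gt.PW.H
import Pool.Agent.Lib.MP_1c0d65_gt.PW.ResA

/-! The numerical resolution: sums over the punctures of a curve. -/

set_option autoImplicit false

noncomputable section

namespace Pool.Agent.Lib.MP_1c0d65_gt.PW

open Finset

theorem HJ.coef_int' {N a : ℕ} (H : HJ N a) {ι : Type} [Fintype ι] (w j : ι → ℕ)
    (hj : ∀ i, w i ≠ 0 → j i < N) (h : ∑ i, w i * (a * j i) ≡ 1 + a [MOD N]) {t : ℕ}
    (ht : t ≤ H.l + 1) : ∃ z : ℤ, 1 - H.ld t + ∑ i, w i * H.co (j i) t = z := by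
  have := H.coef_int (ι := Σ i, Fin (w i)) (fun p => j p.1)
    (fun p => hj _ (Nat.ne_zero_of_lt p.2.2)) (by simpa [Fintype.sum_sigma] using h) ht
  simpa [Fintype.sum_sigma] using this

theorem HJ.kor_eq_sum {N a : ℕ} (H : HJ N a) (hN : 0 < N) (j : ℕ) :
    H.kor j = ∑ t ∈ range H.l, (1 - H.ld (t + 1)) * H.al j t := by
  have key : ∀ l ≤ H.l, ∑ t ∈ range l, H.co j (t + 1) * (H.b (t + 1) - 2) =
      ∑ t ∈ range l, (1 - H.ld (t + 1)) * H.al j t -
        (H.co j l * (1 - H.ld (l + 1)) - (1 - H.ld l) * H.co j (l + 1)) := fun l hl => by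
    induction l with
    | zero => simp [H.co_zero, H.ld_zero hN]
    | succ l ih =>
      rw [sum_range_succ, sum_range_succ, ih (by omega), HJ.al]
      linear_combination (-H.co j (l + 1)) * H.ld_rec (t := l) hl
  rw [HJ.kor, key _ le_rfl, H.ld_last hN, H.co_last]
  simp

theorem HJ.ld_lt {N a : ℕ} (H : HJ N a) (hN : 0 < N) (h1 : H.ld 1 + H.ld H.l = 1)
    (hp : ∀ t ≤ H.l + 1, 0 < H.ld t) {t : ℕ} (ht : t < H.l) : H.ld (t + 1) < 1 := by
  have conv : ∀ s < H.l, H.ld (s + 1) - H.ld s ≤ H.ld (s + 2) - H.ld (s + 1) := fun s hs => by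
    have h2 : (2 : ℝ) ≤ H.b (s + 1) := by exact_mod_cast (H.step s hs).1
    have := H.ld_rec hs
    nlinarith [hp (s + 1) (by omega)]
  by_contra hc
  have a1 : H.ld 1 < 1 := by linarith [hp H.l (by omega)]
  have al : H.ld H.l < 1 := by linarith [hp 1 (by omega)]
  obtain ⟨s, hs, h⟩ : ∃ s ≤ t, H.ld s ≤ H.ld (s + 1) ∧ 1 ≤ H.ld (s + 1) := by
    clear a1
    induction t with
    | zero => exact ⟨0, le_rfl, by rw [H.ld_zero hN]; exact not_lt.1 hc, not_lt.1 hc⟩
    | succ t ih =>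
      by_cases e : H.ld (t + 1) < 1
      · exact ⟨t + 1, le_rfl, by linarith, not_lt.1 hc⟩
      · obtain ⟨s, hs, h⟩ := ih (by omega) e
        exact ⟨s, by omega, h⟩
  have : ∀ u, s ≤ u → u < H.l → H.ld u ≤ H.ld (u + 1) ∧ 1 ≤ H.ld (u + 1) := fun u hu hu' => by
    induction hu with
    | refl => exact h
    | step _ ih =>
      obtain ⟨k1, k2⟩ := ih (by omega)
      rename_i u _
      have := conv u (by omega)
      exact ⟨by linarith, by linarith⟩
  have := (this (H.l - 1) (by omega) (by omega)).2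
  rw [Nat.sub_add_cancel (by omega)] at this
  linarith

namespace Res

variable {n : ℕ} {N a : Fin n → ℕ} (H : ∀ i, HJ (N i) (a i)) {F F' : Type} [Fintype F]
  [Fintype F'] (ι : F → Fin n) (j : F → ℕ) (ι' : F' → Fin n) (j' : F' → ℕ)

/-- the coefficients of the exceptional curves in the pull-back of a curve -/
def xs (i : Fin n) (t : ℕ) : ℝ := ∑ s, if ι s = i then (H i).co (j s) t else 0

/-- the intersection numbers of the strict transform with the exceptional curves -/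
def als (i : Fin n) (t : ℕ) : ℝ := ∑ s, if ι s = i then (H i).al (j s) t else 0

theorem xs_zero (i : Fin n) : xs H ι j i 0 = 0 := by simp [xs, HJ.co_zero]

theorem xs_last (i : Fin n) : xs H ι j i ((H i).l + 1) = 0 := by simp [xs, HJ.co_last]

theorem xs_nonneg (i : Fin n) (t : ℕ) : 0 ≤ xs H ι j i t :=
  sum_nonneg fun s _ => by split_ifs; exacts [HJ.co_nonneg _ _ _, le_rfl]

theorem xs_rec (i : Fin n) (t : ℕ) :
    (H i).b (t + 1) * xs H ι j i (t + 1) - xs H ι j i t - xs H ι j i (t + 2) = als H ι j i t := by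
  simp only [xs, als, mul_sum, ← sum_sub_distrib]
  exact sum_congr rfl fun s _ => by split_ifs <;> simp [HJ.al]

theorem nat_sum {κ : Type} (S : Finset κ) {f : κ → ℝ} (h : ∀ s ∈ S, ∃ k : ℕ, f s = k) :
    ∃ k : ℕ, ∑ s ∈ S, f s = k :=
  sum_induction f (fun x => ∃ k : ℕ, x = k)
    (by rintro _ _ ⟨u, rfl⟩ ⟨v, rfl⟩; exact ⟨u + v, by simp⟩) ⟨0, by simp⟩ h

theorem int_sum {κ : Type} (S : Finset κ) {f : κ → ℝ} (h : ∀ s ∈ S, ∃ k : ℤ, f s = k) :
    ∃ k : ℤ, ∑ s ∈ S, f s = k :=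
  sum_induction f (fun x => ∃ k : ℤ, x = k)
    (by rintro _ _ ⟨u, rfl⟩ ⟨v, rfl⟩; exact ⟨u + v, by simp⟩) ⟨0, by simp⟩ h

theorem als_nat (hj : ∀ s, j s < N (ι s)) (i : Fin n) {t : ℕ} (ht : t < (H i).l) :
    ∃ k : ℕ, als H ι j i t = k := nat_sum _ fun s _ => by
  split_ifs with h
  · subst h; exact (H _).al_nat (hj s) ht
  · exact ⟨0, by simp⟩

/-- the total correction of the intersection number -/
def cor : ℝ := ∑ s, ∑ s', if ι s = ι' s' then (H (ι s)).corr (j s) (j' s') else 0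

theorem sum_xs_als : ∑ i, ∑ t ∈ range (H i).l, xs H ι j i (t + 1) * als H ι' j' i t =
    cor H ι j ι' j' := by
  simp only [xs, als, sum_mul_sum, cor]
  rw [sum_congr rfl fun i _ => sum_comm, sum_comm]
  refine sum_congr rfl fun s _ => ?_
  rw [sum_congr rfl fun i _ => sum_comm, sum_comm]
  refine sum_congr rfl fun s' _ => ?_
  rw [sum_eq_single (ι s) (fun i _ hi => by simp [hi.symm]) (by simp)]
  by_cases h : ι s = ι' s'
  · simp [h.symm, HJ.corr]
  · simp [h, Ne.symm h]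

theorem sum_d_als (hN : ∀ i, 0 < N i) :
    ∑ i, ∑ t ∈ range (H i).l, (1 - (H i).ld (t + 1)) * als H ι j i t =
      ∑ s, (H (ι s)).kor (j s) := by
  simp only [als, mul_sum]
  rw [sum_congr rfl fun i _ => sum_comm, sum_comm]
  refine sum_congr rfl fun s _ => ?_
  rw [sum_eq_single (ι s) (fun i _ hi => by simp [hi.symm]) (by simp), HJ.kor_eq_sum _ (hN _)]
  simp

theorem mn_cor (hj : ∀ s, j s < N (ι s)) (hj' : ∀ s, j' s < N (ι' s)) :
    ∃ k : ℕ, (∑ s, ∑ s', if ι s = ι' s' then mn (N (ι s)) (a (ι s)) (j s) (j' s') else 0) -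
      cor H ι j ι' j' = k := by
  simp only [cor, ← sum_sub_distrib]
  refine nat_sum _ fun s _ => nat_sum _ fun s' _ => ?_
  split_ifs with h
  · obtain ⟨k, hk⟩ := (H (ι s)).mn_corr (hj s) (h ▸ hj' s')
    exact ⟨k, by rw [hk]; ring⟩
  · exact ⟨0, by simp⟩

theorem self_cor [DecidableEq F] (hj : ∀ s, j s < N (ι s)) {l : F → ℝ}
    (hl : ∀ s, SelfIdx (N (ι s)) (a (ι s)) (j s) (l s)) :
    ∃ k : ℕ, ∑ s, l s + (∑ s, ∑ s', if s ≠ s' ∧ ι s = ι s' then
      mn (N (ι s)) (a (ι s)) (j s) (j s') else 0) - cor H ι j ι j -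
        ∑ s, (H (ι s)).kor (j s) = k := by
  have e : ∀ s, l s - (H (ι s)).kor (j s) =
      ∑ s', if s = s' then l s - (H (ι s)).kor (j s) else 0 := fun s => by simp
  have : ∃ k : ℕ, ∑ s, ∑ s', ((if s = s' then l s - (H (ι s)).kor (j s) else 0) +
      (if s ≠ s' ∧ ι s = ι s' then mn (N (ι s)) (a (ι s)) (j s) (j s') else 0) -
      if ι s = ι s' then (H (ι s)).corr (j s) (j s') else 0) = k :=
    nat_sum _ fun s _ => nat_sum _ fun s' _ => by
      by_cases h : s = s'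
      · subst h
        obtain ⟨k, hk⟩ := (H (ι s)).self (hj s) (hl s)
        exact ⟨k, by simp [hk]⟩
      by_cases h' : ι s = ι s'
      · obtain ⟨k, hk⟩ := (H (ι s)).mn_corr (hj s) (h' ▸ hj s')
        exact ⟨k, by rw [if_neg h, if_pos ⟨h, h'⟩, if_pos h', hk]; ring⟩
      · exact ⟨0, by simp [h, h']⟩
  obtain ⟨k, hk⟩ := this
  simp only [sum_sub_distrib, sum_add_distrib, ← e] at hk
  exact ⟨k, by rw [← hk, cor]; ring⟩

theorem kor_int (hj : ∀ s, j s < N (ι s)) : ∃ z : ℤ,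
    ∑ s, ((1 + a (ι s)) * j s : ℝ) / N (ι s) + ∑ s, (H (ι s)).kor (j s) = z := by
  rw [← sum_add_distrib]
  exact int_sum _ fun s _ => (H (ι s)).kor_int (hj s)

theorem coef {κ : Type} [Fintype κ] {F : κ → Type} [∀ m, Fintype (F m)] (μ : κ → ℕ)
    (ι : ∀ m, F m → Fin n) (j : ∀ m, F m → ℕ) (hj : ∀ m s, j m s < N (ι m s)) (i : Fin n)
    (mon : ∑ m, μ m * ∑ s, (if ι m s = i then a i * j m s else 0) ≡ 1 + a i [MOD N i]) {t : ℕ}
    (ht : t ≤ (H i).l + 1) :
    ∃ z : ℤ, 1 - (H i).ld t + ∑ m, μ m * xs H (ι m) (j m) i t = z := by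
  have := (H i).coef_int' (ι := Σ m, F m) (fun p => if ι p.1 p.2 = i then μ p.1 else 0)
    (fun p => j p.1 p.2) (fun p hp => by
      have : ι p.1 p.2 = i := by by_contra c; simp [c] at hp
      exact this ▸ hj p.1 p.2) (by simpa [Fintype.sum_sigma, mul_sum] using mon) ht
  simpa [Fintype.sum_sigma, xs, mul_sum] using this

end Res

end Pool.Agent.Lib.MP_1c0d65_gt.PW
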