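import Pool.Agent.Lib.MP_1c0d65_gt.PW.ResB

/-! The numerical resolution: reduction to the numerical core. -/

set_option autoImplicit false

noncomputable section

namespace Pool.Agent.Lib.MP_1c0d65_gt.PW

open Finset Res

/-- the statement of the numerical core -/
def Core2 : Prop := ∀ {V : Type} [AddCommGroup V] [Module ℝ V] [FiniteDimensional ℝ V]
    (B : LinearMap.BilinForm ℝ V) (_ : ∀ x y, B x y = B y x)
    (_ : ∀ x y, 0 < B x x → B x y = 0 → y ≠ 0 → B y y < 0)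
    {ι : Type} [Fintype ι] (cl : ι → V) (μ : ι → ℕ) (_ : ∀ x, 0 < μ x) (D : V)
    (_ : D = ∑ x, (μ x : ℝ) • cl x) (_ : ∀ x y, ∃ z : ℤ, B (cl x) (cl y) = z)
    (_ : ∀ x y, x ≠ y → 0 ≤ B (cl x) (cl y)) (_ : ∀ x, B D (cl x) ≤ B (cl x) (cl x) + 2)
    {n : ℕ} (l : Fin n → ℕ) (_ : ∀ i, 0 < l i) (b : Fin n → ℕ → ℕ) (γ : Fin n → ℕ → ℝ)
    (e : ∀ i, Fin (l i) → ι)
    (_ : ∀ i i' t t', B (cl (e i t)) (cl (e i' t')) = if i = i' ∧ t.1 = t'.1 then
      -(b i (t + 1) : ℝ) else if i = i' ∧ (t.1 + 1 = t'.1 ∨ t'.1 + 1 = t.1) then 1 else 0)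
    (_ : ∀ i t, B D (cl (e i t)) = 2 - b i (t + 1))
    (_ : ∀ i, ∀ t < l i, 2 ≤ b i (t + 1) ∧ γ i t + γ i (t + 2) = b i (t + 1) * γ i (t + 1))
    (_ : ∀ i, γ i 0 = 1 ∧ γ i (l i + 1) = 1 ∧ γ i 1 + γ i (l i) = 1 ∧ ∀ t ≤ l i + 1, 0 < γ i t)
    (_ : ∀ x, (∀ i t, x ≠ e i t) →
      ∑ i, ∑ t : Fin (l i), (1 - γ i (t + 1)) * B (cl (e i t)) (cl x) < B D (cl x))
    (k : ι → ℕ) (_ : ∀ x, k x = 0 ∨ (k x : ℝ) ≤ B (cl x) (cl x) + 1) (_ : 3 ≤ ∑ x, k x)
    (_ : ∀ x, (∀ y, y ≠ x → k y = 0) → 2 ≤ μ x),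
    n + ∑ i, l i ≤ Module.finrank ℝ V + 2

theorem res_of_core (core : Core2) {H : Type} [AddCommGroup H] [Module ℝ H]
    [FiniteDimensional ℝ H] (B : LinearMap.BilinForm ℝ H) (symm : ∀ x y, B x y = B y x)
    (hodge : ∀ x y, 0 < B x x → B x y = 0 → y ≠ 0 → B y y < 0)
    {n : ℕ} (N a : Fin n → ℕ)
    (wahl : ∀ i, ∃ p q : ℕ, 0 < q ∧ q < p ∧ p.Coprime q ∧ N i = p ^ 2 ∧ a i + 1 = p * q)
    {κ : Type} [Fintype κ] (h : κ → H) (μ : κ → ℕ) (hμ : ∀ m, 0 < μ m) (c : H)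
    (hc : c = ∑ m, (μ m : ℝ) • h m) (area : ∀ m, 0 < B c (h m))
    {F : κ → Type} [∀ m, Fintype (F m)] [∀ m, DecidableEq (F m)]
    (ι : ∀ m, F m → Fin n) (j : ∀ m, F m → ℕ) (hj : ∀ m s, j m s < N (ι m s))
    (c1 : ∀ m, ∃ z : ℤ, B c (h m) = z + ∑ s, ((1 + a (ι m s)) * j m s : ℝ) / N (ι m s))
    (pos : ∀ m m', m ≠ m' → ∃ k : ℕ, B (h m) (h m') = k + ∑ s, ∑ s',
      if ι m s = ι m' s' then mn (N (ι m s)) (a (ι m s)) (j m s) (j m' s') else 0)
    (adj : ∀ m, ∃ (k : ℕ) (l : F m → ℝ), (∀ s, SelfIdx (N (ι m s)) (a (ι m s)) (j m s) (l s)) ∧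
      B (h m) (h m) - B c (h m) + 2 = k + ∑ s, l s + ∑ s, ∑ s',
        if s ≠ s' ∧ ι m s = ι m s' then mn (N (ι m s)) (a (ι m s)) (j m s) (j m s') else 0)
    (mon : ∀ i, ∑ m, μ m * ∑ s, (if ι m s = i then a i * j m s else 0) ≡ 1 + a i [MOD N i])
    (k : κ → ℕ) (hk : ∀ m, k m = 0 ∨ (k m : ℝ) ≤ B (h m) (h m) - (∑ s, ∑ s',
      if ι m s = ι m s' then mn (N (ι m s)) (a (ι m s)) (j m s) (j m s') else 0) + 1)
    (h3 : 3 ≤ ∑ m, k m) (h2 : ∀ m, (∀ m', m' ≠ m → k m' = 0) → 2 ≤ μ m) :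
    n ≤ Module.finrank ℝ H + 2 := by
  classical
  have hN : ∀ i, 0 < N i := fun i => by
    obtain ⟨p, q, h1, h2, -, h3, -⟩ := wahl i
    rw [h3]; exact pow_pos (h1.trans h2) 2
  choose R R1 R2 R3 using fun i => (wahl i).elim fun p ⟨q, h1, h2, h3, h4, h5⟩ =>
    exists_HJ (p := p) (q := q) h1 h2 h3 h4 h5
  let l : Fin n → ℕ := fun i => (R i).l
  let b : Fin n → ℕ → ℕ := fun i => (R i).b
  let d : Fin n → ℕ → ℝ := fun i t => 1 - (R i).ld t
  let x : κ → Fin n → ℕ → ℝ := fun m => xs R (ι m) (j m)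
  let Q := osum B (chQ l b)
  have sQ : ∀ u v, Q u v = Q v u := fun u v => by
    simp only [Q, osum_apply, symm u.1, chQ_symm l b u.2]
  have hb : ∀ i, ∀ t < l i, 2 ≤ b i (t + 1) := fun i t ht => ((R i).step t ht).1
  have ex : ∀ s : Ix l, ∃ z : ℕ, 0 < z ∧ d s.1 (s.2 + 1) + ∑ m, μ m * x m s.1 (s.2 + 1) = z :=
    fun s => by
      obtain ⟨z, hz⟩ := coef R μ ι j hj s.1 (mon s.1) (t := s.2 + 1)
        (Nat.succ_le_succ s.2.2.le)
      have : (0 : ℝ) < z := by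
        rw [← hz]
        exact add_pos_of_pos_of_nonneg (sub_pos.2 ((R _).ld_lt (hN _) (R2 _) (R3 _) s.2.2))
          (sum_nonneg fun m _ => mul_nonneg (Nat.cast_nonneg _) (xs_nonneg _ _ _ _ _))
      have z0 : 0 < z := by exact_mod_cast this
      lift z to ℕ using z0.le
      exact ⟨z, by exact_mod_cast z0, hz⟩
  choose ν ν0 hν using ex
  let cl : κ ⊕ Ix l → H × (Ix l → ℝ) :=
    Sum.elim (fun m => (h m, -vec l (x m))) fun s => (0, Pi.single s 1)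
  let D : H × (Ix l → ℝ) := (c, vec l d)
  have x0 : ∀ m i, x m i 0 = 0 := fun m => xs_zero R _ _
  have x1 : ∀ m i, x m i (l i + 1) = 0 := fun m => xs_last R _ _
  have p1 : ∀ s m, Q (cl (.inr s)) (cl (.inl m)) = als R (ι m) (j m) s.1 s.2 := fun s m => by
    change B 0 (h m) + chQ l b (Pi.single s 1) (-vec l (x m)) = _
    rw [map_zero, LinearMap.zero_apply, zero_add, map_neg, chQ_single, chM_vec l b _ (x0 m) (x1 m),
      neg_neg, xs_rec]
  have p2 : ∀ m m', Q (cl (.inl m)) (cl (.inl m')) =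
      B (h m) (h m') - cor R (ι m) (j m) (ι m') (j m') := fun m m' => by
    change B (h m) (h m') + chQ l b (-vec l (x m)) (-vec l (x m')) = _
    rw [map_neg, map_neg, LinearMap.neg_apply, neg_neg, chQ_vec l b _ _ (x0 m') (x1 m'),
      ← sum_xs_als, sub_eq_add_neg]
    simp only [x, b, l, xs_rec]
  have p3 : ∀ s t, Q (cl (.inr s)) (cl (.inr t)) = chM l b s t := fun s t => by
    change B 0 0 + chQ l b (Pi.single s 1) (Pi.single t 1) = _
    rw [map_zero, zero_add, chQ_single_single]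
  have p4 : ∀ s, Q D (cl (.inr s)) = 2 - b s.1 (s.2 + 1) := fun s => by
    rw [sQ]
    change B 0 c + chQ l b (Pi.single s 1) (vec l d) = _
    rw [map_zero, LinearMap.zero_apply, zero_add, chQ_single,
      chM_vec l b d (fun i => sub_eq_zero.2 ((R i).ld_zero (hN i)).symm)
        fun i => sub_eq_zero.2 ((R i).ld_last (hN i)).symm]
    simp only [d, b]
    linear_combination -(R s.1).ld_rec s.2.2
  have p5 : ∀ m, Q D (cl (.inl m)) = B c (h m) + ∑ s, (R (ι m s)).kor (j m s) := fun m => by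
    change B c (h m) + chQ l b (vec l d) (-vec l (x m)) = _
    rw [map_neg, chQ_vec l b _ _ (x0 m) (x1 m), neg_neg, ← sum_d_als R (ι m) (j m) hN]
    simp only [x, b, l, d, xs_rec]
  have a1 : ∀ m, ∃ k : ℕ, Q (cl (.inl m)) (cl (.inl m)) + 2 = Q D (cl (.inl m)) + k := fun m => by
    obtain ⟨k, lam, h1, h2⟩ := adj m
    obtain ⟨k', hk'⟩ := self_cor R (ι m) (j m) (hj m) h1
    exact ⟨k + k', by rw [p2, p5]; push_cast; linarith⟩
  have a2 : ∀ m m', m ≠ m' → ∃ k : ℕ, Q (cl (.inl m)) (cl (.inl m')) = k := fun m m' ne => by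
    obtain ⟨k, h1⟩ := pos m m' ne
    obtain ⟨k', hk'⟩ := mn_cor R (ι m) (j m) (ι m') (j m') (hj m) (hj m')
    exact ⟨k + k', by rw [p2]; push_cast; linarith⟩
  have a3 : ∀ s m, ∃ k : ℕ, Q (cl (.inr s)) (cl (.inl m)) = k := fun s m => by
    rw [p1]; exact als_nat R _ _ (hj m) _ s.2.2
  have key := core Q sQ (osum_hodge B _ symm (chQ_symm l b) hodge (chQ_neg l b hb)) cl
    (Sum.elim μ ν) (by rintro (m | s); exacts [hμ m, ν0 s]) D ?_ ?_ ?_ ?_ l R1 b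
    (fun i => (R i).ld) (fun i t => .inr ⟨i, t⟩) (fun i i' t t' => p3 _ _) (fun i t => p4 _)
    (fun i t ht => ⟨hb i t ht, (R i).ld_rec ht⟩)
    (fun i => ⟨(R i).ld_zero (hN i), (R i).ld_last (hN i), R2 i, R3 i⟩) ?_
    (Sum.elim k fun _ => 0) ?_ (by simpa using h3) ?_
  · rw [Module.finrank_prod, Module.finrank_fintype_fun_eq_card, Fintype.card_sigma] at key
    simp only [Fintype.card_fin] at key
    omega
  · rw [Fintype.sum_sum_type]
    refine Prod.ext (by simp [D, cl, hc, Prod.fst_sum]) (funext fun s => ?_)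
    have := hν s
    simp only [D, cl, Prod.snd_add, Prod.snd_sum, Sum.elim_inl, Sum.elim_inr, Prod.smul_snd,
      Pi.add_apply, Finset.sum_apply, Pi.smul_apply, Pi.neg_apply, vec, smul_eq_mul, mul_neg,
      sum_neg_distrib, Pi.single_apply, mul_ite, mul_one, mul_zero, sum_ite_eq, mem_univ, if_true]
    linarith
  · rintro (m | s) (m' | s')
    · by_cases e : m = m'
      · subst e
        obtain ⟨k, hk⟩ := a1 m
        obtain ⟨z, hz⟩ := c1 m
        obtain ⟨z', hz'⟩ := kor_int R (ι m) (j m) (hj m)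
        exact ⟨z + z' + k - 2, by rw [p5] at hk; push_cast; linarith⟩
      · obtain ⟨k, hk⟩ := a2 m m' e
        exact ⟨k, by simpa using hk⟩
    · obtain ⟨k, hk⟩ := a3 s' m
      exact ⟨k, by rw [sQ]; simpa using hk⟩
    · obtain ⟨k, hk⟩ := a3 s m'
      exact ⟨k, by simpa using hk⟩
    · rw [p3, chM]
      split_ifs
      exacts [⟨-b s.1 (s.2 + 1), by simp⟩, ⟨1, by simp⟩, ⟨0, by simp⟩]
  · rintro (m | s) (m' | s') ne
    · obtain ⟨k, hk⟩ := a2 m m' fun e => ne (e ▸ rfl)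
      rw [hk]; positivity
    · obtain ⟨k, hk⟩ := a3 s' m
      rw [sQ, hk]; positivity
    · obtain ⟨k, hk⟩ := a3 s m'
      rw [hk]; positivity
    · rw [p3, chM]
      split_ifs with e
      · obtain ⟨i, t⟩ := s
        obtain ⟨i', t'⟩ := s'
        obtain ⟨rfl, e⟩ := e
        obtain rfl : t = t' := Fin.ext e
        exact absurd rfl ne
      exacts [zero_le_one, le_rfl]
  · rintro (m | s)
    · obtain ⟨k, hk⟩ := a1 m
      rw [hk]
      exact le_add_of_nonneg_right (Nat.cast_nonneg k)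
    · rw [p4, p3, chM, if_pos ⟨rfl, rfl⟩]
      linarith
  · rintro (m | s) ne
    · rw [p5, ← sum_d_als R (ι m) (j m) hN]
      simp only [p1]
      rw [sum_congr rfl fun i _ => Fin.sum_univ_eq_sum_range
        (fun t => (1 - (R i).ld (t + 1)) * als R (ι m) (j m) i t) (l i)]
      exact lt_add_of_pos_left _ (area m)
    · exact absurd rfl (ne s.1 s.2)
  · rintro (m | s)
    · refine (hk m).imp_right fun hm => hm.trans ?_
      obtain ⟨k', hk'⟩ := mn_cor R (ι m) (j m) (ι m) (j m) (hj m) (hj m)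
      rw [p2]
      linarith [Nat.cast_nonneg (α := ℝ) k']
    · exact Or.inl rfl
  · rintro (m | s) hm
    · exact h2 m fun m' ne => hm (.inl m') fun e => ne (Sum.inl.inj e)
    · rw [sum_eq_zero (f := k) fun m _ => hm (.inl m) (by simp)] at h3
      omega

end Pool.Agent.Lib.MP_1c0d65_gt.PW
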